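import Pool.Agent.SG4.Cert

set_option autoImplicit false

/-!
# The gap below one without boundary in dimensions two, three, four: arithmetic form

`x` is a vector of nonnegative real numbers with sum `s < 1`, such that the sum of the fractional
parts of every nonzero multiple of `x` modulo one is at least `s`. Then `s ≤ 1 - 1/K` with
`K = 3, 13, 463` for two, three, four coordinates.
-/

namespace Pool.Agent.SG4

theorem cond_of {K : ℕ} (x1 x2 x3 x4 : ℝ) (h12 : x2 ≤ x1) (h23 : x3 ≤ x2) (h34 : x4 ≤ x3)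
    (h4 : 0 ≤ x4) (hlt : x1 + x2 + x3 + x4 < 1)
    (hl : (K : ℝ) - 1 < K * (x1 + x2 + x3 + x4))
    (H : ∀ k : ℤ, (Int.fract (k * x1) ≠ 0 ∨ Int.fract (k * x2) ≠ 0 ∨ Int.fract (k * x3) ≠ 0 ∨
      Int.fract (k * x4) ≠ 0) → x1 + x2 + x3 + x4 ≤
        Int.fract (k * x1) + Int.fract (k * x2) + Int.fract (k * x3) + Int.fract (k * x4)) :
    Cond K x1 x2 x3 x4 := by
  refine ⟨h12, h23, h34, h4, hl, ?_, ?_⟩
  · intro k hk hkK
    have hk' : (2 : ℝ) ≤ k := by exact_mod_cast hk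
    have hkK' : (k : ℝ) ≤ K := by exact_mod_cast hkK
    have e1 := Int.floor_add_fract ((k : ℝ) * x1)
    have e2 := Int.floor_add_fract ((k : ℝ) * x2)
    have e3 := Int.floor_add_fract ((k : ℝ) * x3)
    have e4 := Int.floor_add_fract ((k : ℝ) * x4)
    have Hk := H k
    simp only [Int.cast_natCast] at Hk
    set F : ℤ := ⌊(k : ℝ) * x1⌋ + ⌊(k : ℝ) * x2⌋ + ⌊(k : ℝ) * x3⌋ + ⌊(k : ℝ) * x4⌋ with hF
    have hFr : (F : ℝ) = (⌊(k : ℝ) * x1⌋ : ℝ) + ⌊(k : ℝ) * x2⌋ + ⌊(k : ℝ) * x3⌋ +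
      ⌊(k : ℝ) * x4⌋ := by rw [hF]; push_cast; ring
    by_cases hz : Int.fract ((k : ℝ) * x1) ≠ 0 ∨ Int.fract ((k : ℝ) * x2) ≠ 0 ∨
        Int.fract ((k : ℝ) * x3) ≠ 0 ∨ Int.fract ((k : ℝ) * x4) ≠ 0
    · have h5 := Hk hz
      have h6 : (F : ℝ) ≤ (k - 1) * (x1 + x2 + x3 + x4) := by rw [hFr]; linarith
      have h7 : (k - 1) * (x1 + x2 + x3 + x4) < (k - 1 : ℝ) * 1 :=
        mul_lt_mul_of_pos_left hlt (by linarith)
      have h8 : (F : ℝ) < ((k : ℤ) - 1 : ℤ) := by push_cast; linarith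
      have h9 : F < (k : ℤ) - 1 := by exact_mod_cast h8
      omega
    · exfalso
      push Not at hz
      obtain ⟨z1, z2, z3, z4⟩ := hz
      rw [z1] at e1
      rw [z2] at e2
      rw [z3] at e3
      rw [z4] at e4
      have h6 : (F : ℝ) = k * (x1 + x2 + x3 + x4) := by rw [hFr]; linarith
      have h7 : (F : ℝ) < (k : ℤ) := by
        rw [h6]
        push_cast
        nlinarith
      have h8 : F < (k : ℤ) := by exact_mod_cast h7
      have h9 : ((k : ℤ) - 1 : ℤ) < (F : ℝ) := by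
        rw [h6]
        push_cast
        nlinarith
      have h10 : (k : ℤ) - 1 < F := by exact_mod_cast h9
      omega
  · intro k hk hkK
    have hk' : (1 : ℝ) ≤ k := by exact_mod_cast hk
    have hkK' : (k : ℝ) + 1 ≤ K := by exact_mod_cast hkK
    have e : ∀ y : ℝ, ((⌈(k : ℝ) * y⌉ : ℤ) : ℝ) = k * y + Int.fract (((-(k : ℤ) : ℤ) : ℝ) * y) := by
      intro y
      have e1 := Int.floor_add_fract (((-(k : ℤ) : ℤ) : ℝ) * y)
      have e2 : ((-(k : ℤ) : ℤ) : ℝ) * y = -(k * y) := by push_cast; ring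
      rw [e2, Int.floor_neg] at e1
      rw [e2]
      push_cast at e1
      linarith
    have e1 := e x1
    have e2 := e x2
    have e3 := e x3
    have e4 := e x4
    have Hk := H (-(k : ℤ))
    set C : ℤ := ⌈(k : ℝ) * x1⌉ + ⌈(k : ℝ) * x2⌉ + ⌈(k : ℝ) * x3⌉ + ⌈(k : ℝ) * x4⌉ with hC
    have hCr : (C : ℝ) = (⌈(k : ℝ) * x1⌉ : ℝ) + ⌈(k : ℝ) * x2⌉ + ⌈(k : ℝ) * x3⌉ +
      ⌈(k : ℝ) * x4⌉ := by rw [hC]; push_cast; ring
    by_cases hz : Int.fract (((-(k : ℤ) : ℤ) : ℝ) * x1) ≠ 0 ∨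
        Int.fract (((-(k : ℤ) : ℤ) : ℝ) * x2) ≠ 0 ∨
        Int.fract (((-(k : ℤ) : ℤ) : ℝ) * x3) ≠ 0 ∨ Int.fract (((-(k : ℤ) : ℤ) : ℝ) * x4) ≠ 0
    · have h5 := Hk hz
      have h6 : ((k : ℤ) : ℝ) < C := by
        rw [hCr]
        push_cast
        nlinarith
      have h7 : (k : ℤ) < C := by exact_mod_cast h6
      omega
    · exfalso
      push Not at hz
      obtain ⟨z1, z2, z3, z4⟩ := hz
      rw [z1] at e1
      rw [z2] at e2
      rw [z3] at e3
      rw [z4] at e4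
      have h6 : (C : ℝ) = k * (x1 + x2 + x3 + x4) := by rw [hCr]; linarith
      have h7 : (C : ℝ) < (k : ℤ) := by
        rw [h6]
        push_cast
        nlinarith
      have h8 : C < (k : ℤ) := by exact_mod_cast h7
      have h9 : ((k : ℤ) - 1 : ℤ) < (C : ℝ) := by
        rw [h6]
        push_cast
        nlinarith
      have h10 : (k : ℤ) - 1 < C := by exact_mod_cast h9
      omega

theorem in_unit {x : ℝ} (h0 : 0 ≤ x) (h1 : x ≤ 1) : In 0 1 1 1 x :=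
  ⟨one_pos, one_pos, by simpa using h0, by simpa using h1⟩

theorem in_zero : In 0 1 0 1 (0 : ℝ) := ⟨one_pos, one_pos, by simp, by simp⟩

/-- sorted form of the three bounds -/
theorem four (x1 x2 x3 x4 : ℝ) (h12 : x2 ≤ x1) (h23 : x3 ≤ x2) (h34 : x4 ≤ x3)
    (h4 : 0 ≤ x4) (hlt : x1 + x2 + x3 + x4 < 1)
    (H : ∀ k : ℤ, (Int.fract (k * x1) ≠ 0 ∨ Int.fract (k * x2) ≠ 0 ∨ Int.fract (k * x3) ≠ 0 ∨
      Int.fract (k * x4) ≠ 0) → x1 + x2 + x3 + x4 ≤
        Int.fract (k * x1) + Int.fract (k * x2) + Int.fract (k * x3) + Int.fract (k * x4)) :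
    x1 + x2 + x3 + x4 ≤ 462 / 463 := by
  by_contra hcon
  push Not at hcon
  have hc := cond_of (K := 463) x1 x2 x3 x4 h12 h23 h34 h4 hlt
    (by push_cast; linarith) H
  exact sound (by norm_num) hc _ _ _ _ _ _ _ _ _ _ _ _ _ _ _ _ _
    (in_unit (by linarith) (by linarith)) (in_unit (by linarith) (by linarith))
    (in_unit (by linarith) (by linarith)) (in_unit (by linarith) (by linarith)) Cert.ok4

theorem three (x1 x2 x3 : ℝ) (h12 : x2 ≤ x1) (h23 : x3 ≤ x2)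
    (h3 : 0 ≤ x3) (hlt : x1 + x2 + x3 < 1)
    (H : ∀ k : ℤ, (Int.fract (k * x1) ≠ 0 ∨ Int.fract (k * x2) ≠ 0 ∨ Int.fract (k * x3) ≠ 0) →
      x1 + x2 + x3 ≤ Int.fract (k * x1) + Int.fract (k * x2) + Int.fract (k * x3)) :
    x1 + x2 + x3 ≤ 12 / 13 := by
  by_contra hcon
  push Not at hcon
  have hc := cond_of (K := 13) x1 x2 x3 0 h12 h23 h3 le_rfl (by linarith)
    (by push_cast; linarith) (by
      intro k hk
      have h5 := H k (by
        rcases hk with h | h | h | h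
        · exact Or.inl h
        · exact Or.inr (Or.inl h)
        · exact Or.inr (Or.inr h)
        · simp at h)
      simp only [mul_zero, Int.fract_zero, add_zero]
      exact h5)
  exact sound (by norm_num) hc _ _ _ _ _ _ _ _ _ _ _ _ _ _ _ _ _
    (in_unit (by linarith) (by linarith)) (in_unit (by linarith) (by linarith))
    (in_unit (by linarith) (by linarith)) in_zero Cert.ok3

theorem two (x1 x2 : ℝ) (h12 : x2 ≤ x1)
    (h2 : 0 ≤ x2) (hlt : x1 + x2 < 1)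
    (H : ∀ k : ℤ, (Int.fract (k * x1) ≠ 0 ∨ Int.fract (k * x2) ≠ 0) →
      x1 + x2 ≤ Int.fract (k * x1) + Int.fract (k * x2)) :
    x1 + x2 ≤ 2 / 3 := by
  by_contra hcon
  push Not at hcon
  have hc := cond_of (K := 3) x1 x2 0 0 h12 h2 le_rfl le_rfl (by linarith)
    (by push_cast; linarith) (by
      intro k hk
      have h5 := H k (by
        rcases hk with h | h | h | h
        · exact Or.inl h
        · exact Or.inr h
        · simp at h
        · simp at h)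
      simp only [mul_zero, Int.fract_zero, add_zero]
      exact h5)
  exact sound (by norm_num) hc _ _ _ _ _ _ _ _ _ _ _ _ _ _ _ _ _
    (in_unit (by linarith) (by linarith)) (in_unit (by linarith) (by linarith))
    in_zero in_zero Cert.ok2

/-- sorting -/
theorem exists_sorted {n : ℕ} (x : Fin n → ℝ) : ∃ σ : Equiv.Perm (Fin n), Antitone (x ∘ σ) := by
  refine ⟨Tuple.sort (fun i => - x i), ?_⟩
  intro i j hij
  have h := Tuple.monotone_sort (fun i => - x i) hij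
  simp only [Function.comp] at h ⊢
  linarith

/-- dimension four -/
theorem core4 (x : Fin 4 → ℝ) (h0 : ∀ i, 0 ≤ x i) (h1 : ∑ i, x i < 1)
    (h : ∀ k : ℤ, (∃ i, Int.fract (k * x i) ≠ 0) → ∑ i, x i ≤ ∑ i, Int.fract (k * x i)) :
    ∑ i, x i ≤ 462 / 463 := by
  obtain ⟨σ, hσ⟩ := exists_sorted x
  have hs : ∑ i, x i = x (σ 0) + x (σ 1) + x (σ 2) + x (σ 3) := by
    rw [← Equiv.sum_comp σ, Fin.sum_univ_four]
  rw [hs]
  refine four _ _ _ _ (hσ (by decide)) (hσ (by decide)) (hσ (by decide)) (h0 _)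
    (by rw [← hs]; exact h1) ?_
  intro k hk
  have h5 := h k (by
    rcases hk with h | h | h | h
    exacts [⟨_, h⟩, ⟨_, h⟩, ⟨_, h⟩, ⟨_, h⟩])
  rw [← hs]
  refine h5.trans (le_of_eq ?_)
  rw [← Equiv.sum_comp σ, Fin.sum_univ_four]

/-- dimension three -/
theorem core3 (x : Fin 3 → ℝ) (h0 : ∀ i, 0 ≤ x i) (h1 : ∑ i, x i < 1)
    (h : ∀ k : ℤ, (∃ i, Int.fract (k * x i) ≠ 0) → ∑ i, x i ≤ ∑ i, Int.fract (k * x i)) :
    ∑ i, x i ≤ 12 / 13 := by
  obtain ⟨σ, hσ⟩ := exists_sorted x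
  have hs : ∑ i, x i = x (σ 0) + x (σ 1) + x (σ 2) := by
    rw [← Equiv.sum_comp σ, Fin.sum_univ_three]
  rw [hs]
  refine three _ _ _ (hσ (by decide)) (hσ (by decide)) (h0 _)
    (by rw [← hs]; exact h1) ?_
  intro k hk
  have h5 := h k (by
    rcases hk with h | h | h
    exacts [⟨_, h⟩, ⟨_, h⟩, ⟨_, h⟩])
  rw [← hs]
  refine h5.trans (le_of_eq ?_)
  rw [← Equiv.sum_comp σ, Fin.sum_univ_three]

/-- dimension two -/
theorem core2 (x : Fin 2 → ℝ) (h0 : ∀ i, 0 ≤ x i) (h1 : ∑ i, x i < 1)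
    (h : ∀ k : ℤ, (∃ i, Int.fract (k * x i) ≠ 0) → ∑ i, x i ≤ ∑ i, Int.fract (k * x i)) :
    ∑ i, x i ≤ 2 / 3 := by
  obtain ⟨σ, hσ⟩ := exists_sorted x
  have hs : ∑ i, x i = x (σ 0) + x (σ 1) := by
    rw [← Equiv.sum_comp σ, Fin.sum_univ_two]
  rw [hs]
  refine two _ _ (hσ (by decide)) (h0 _) (by rw [← hs]; exact h1) ?_
  intro k hk
  have h5 := h k (by
    rcases hk with h | h
    exacts [⟨_, h⟩, ⟨_, h⟩])
  rw [← hs]
  refine h5.trans (le_of_eq ?_)
  rw [← Equiv.sum_comp σ, Fin.sum_univ_two]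

end Pool.Agent.SG4
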