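import Pool.Agent.SG4.Check

set_option autoImplicit false

/-!
# The certificates for `K = 3, 13, 463` (dimensions two, three, four)
-/

namespace Pool.Agent.SG4.Cert

open T

def root2 : T := (S1 1 2 (S2 1 2 (N 2) (P 2)) (P 2))
def root3 : T := (S1 1 2 (S2 1 2 (S3 1 2 (S1 1 3 (S2 1 3 (S3 1 3 (N 3) (S1 1 4 (S2 1 4 O2 (S1 1 5 O1 (S3 2 5 (N 12) O2))) (S2 1 4 O2 (P 4)))) (S3 1 3 (S1 1 4 O1 (S3 1 4 (S2 2 5 (N 12) O1) (P 4))) (P 3))) (S2 1 3 (S3 1 3 (S2 1 4 (S3 1 4 (N 4) (S1 2 5 (N 12) (S2 1 5 O2 (P 5)))) (S3 1 4 (S1 2 5 (N 12) (S3 1 5 (S3 1 6 (N 6) (S1 3 7 (N 9) (S2 2 7 (N 10) (P 7)))) (P 5))) (P 4))) (P 3)) (P 3))) (P 2)) (P 2)) (P 2))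
def t0 : T := S2 1 4 (S3 1 4 (S4 1 4 (N 4) (S1 1 5 (S2 1 5 U (S3 1 5 O3 (S1 1 6 O1 (S4 2 7 U O3)))) (S2 1 5 (S3 1 5 O3 (S2 1 6 O2 (S4 2 7 U O3))) (S3 1 5 O3 (P 5))))) (S4 1 4 (S1 1 5 (S2 1 5 O2 (S4 1 5 U (S1 1 6 O1 (S3 2 7 U O2)))) (S2 1 5 O2 (S4 1 5 (S4 1 6 (N 12) (S3 2 7 U O2)) (P 5)))) (S1 1 5 (S2 1 5 O2 (S1 1 6 O1 (S3 2 7 (S4 2 7 (S2 2 9 O2 O1) (S2 2 9 O2 O1)) O2))) (S2 1 5 O2 (P 5))))) (S3 1 4 (S4 1 4 (S1 1 5 O1 (S3 1 5 (S4 1 5 U (S3 1 6 O3 (S2 2 7 U O1))) (S4 1 5 (S4 1 6 (N 12) (S2 2 7 U O1)) (P 5)))) (S1 1 5 O1 (S3 1 5 O3 (P 5)))) (S4 1 4 (S1 1 5 O1 (S4 1 5 (S4 1 6 (S2 2 7 (S3 2 7 U (S4 1 7 (S4 1 8 U (S1 2 9 O1 (S3 3 10 U O2))) (S1 2 9 O1 (S3 3 10 (S2 3 11 O2 O1) O2)))) O1) (S2 2 7 (S3 2 7 (S1 2 9 O1 (S2 3 11 (S3 3 11 U (S4 2 11 U (S1 3 13 O1 (S2 4 15 O2 O1)))) O1))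 (S1 2 9 O1 (S3 3 10 (S2 3 11 O2 O1) O2))) O1)) (P 5))) (P 4)))
def t1 : T := S2 7 29 (S1 10 31 U (S3 7 31 (S4 6 31 U (S1 11 34 U (S4 7 36 U (S1 12 37 U (S1 13 40 U (S3 9 40 (N 120) (S4 8 41 U (S1 14 43 U (S1 15 46 U (S4 9 46 U (P 46))))))))))) (S4 6 31 U (P 31)))) (S1 10 31 (N 220) (S3 7 31 (S4 6 31 (S2 8 33 U (S1 11 34 U (S1 12 37 U (S2 9 37 U (P 37))))) (S2 8 33 (S1 11 34 U (S4 7 36 U (S1 12 37 U (S1 13 40 U (S3 9 40 (S4 8 41 U (S1 14 43 U (S1 15 46 U (S4 9 46 U (P 46))))) (S4 8 41 U (S1 14 43 U (S1 15 46 U (S4 9 46 U (P 46)))))))))) (S1 11 34 (N 340) (S4 7 36 (S1 12 37 U (S2 9 37 U (P 37))) (S1 12 37 (S2 9 37 U (S3 9 40 (N 40) (S2 10 41 U (S4 8 41 U (P 41))))) (S2 9 37 (S1 13 40 U (S3 9 40 (S4 8 41 U (S1 14 43 U (S1 15 46 U (S4 9 46 U (P 46))))) (S4 8 41 U (S1 14 43 U (S1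 15 46 U (S4 9 46 (N 168) (P 46))))))) (P 37))))))) (S4 6 31 (S2 8 33 U (S1 11 34 U (S1 12 37 U (S2 9 37 U (P 37))))) (P 31))))
def t2 : T := S1 4 13 (S2 3 13 U (S3 3 13 U (S4 3 16 U (S2 4 17 U (S3 4 17 U (P 17)))))) (S2 3 13 (S3 3 13 U (S1 5 16 U (S4 3 16 (S3 4 17 U O2) (S3 4 17 (N 195) O2)))) (S3 3 13 (S1 5 16 U (S4 3 16 (S2 4 17 U (S1 6 19 U (S2 5 21 U (S1 7 22 U (S3 5 22 (N 48) (P 22)))))) (S2 4 17 (N 195) (S1 6 19 U (S2 5 21 (S4 4 21 U (S1 7 22 U (S3 5 22 (N 105) (P 22)))) (S4 4 21 (S1 7 22 U (S3 5 22 (S1 8 25 U (S2 6 25 U (S1 9 28 U (S2 7 29 U (S1 10 31 U (S3 7 31 (N 84) (S2 8 33 U (S1 11 34 U (S1 12 37 U (S2 9 37 U (S4 7 37 (N 132) (P 37)))))))))))) (P 22))) (S1 7 22 (N 160) (S3 5 22 (S1 8 25 U (S2 6 25 (S4 5 26 U (S1 9 28 U (S1 10 31 U (S3 7 31 (N 75) (S4 6 31 U (P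 31)))))) (S4 5 26 (S1 9 28 U (S2 7 29 U (S1 10 31 U (S3 7 31 (S2 8 33 U (S1 11 34 U (S1 12 37 U (S2 9 37 U (P 37))))) (S2 8 33 U (S1 11 34 U (S1 12 37 U (S2 9 37 U (P 37))))))))) (S1 9 28 (N 140) t1)))) (P 22))))))))) (P 13)))
def t3 : T := S3 1 5 (S4 1 5 U (S3 1 6 O3 (S1 2 7 U (S2 2 9 (S4 2 9 U O3) (S4 2 9 (S1 3 10 U (S3 2 11 O3 (S1 4 13 U (S2 3 13 U (S4 3 14 U O3))))) O3))))) (S4 1 5 (S4 1 6 (N 12) (S1 2 7 U (S2 2 9 (S3 2 9 U (S1 3 10 U (S4 2 11 U (S1 4 13 U (S3 3 13 U O2))))) (S3 2 9 (S1 3 10 U (S4 2 11 U (S1 4 13 U (S2 3 13 U (S3 3 14 U (S1 5 16 U (S4 3 16 U (S2 4 17 U (S1 6 19 U (S2 5 21 U (S4 4 21 U (S1 7 22 U (S3 5 23 (S1 8 25 U (S2 6 25 U (S4 5 26 U (S1 9 28 U (S2 7 29 U (S1 10 31 U (S4 6 31 U (S2 8 33 U (S1 11 34 U (S4 7 36 U (S1 12 37 U (S2 9 37 U (S3 8 37 (N 60)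 (P 37)))))))))))))) (S1 8 25 U (S2 6 25 U (S4 5 26 (N 36) (S1 9 28 U (S2 7 29 U (S1 10 31 U (S4 6 31 (N 36) (S3 7 32 (S2 8 33 U (S1 11 34 U (S4 7 36 U (S1 12 37 U (S2 9 37 U (P 37)))))) (S2 8 33 (N 45) (S1 11 34 U (S4 7 36 (N 36) (S1 12 37 U (S2 9 37 (N 45) (P 37))))))))))))))))))))))))))) (S1 3 10 (N 20) (S4 2 11 (S1 4 13 U (S2 3 13 U (S3 3 13 U (P 13)))) t2)))))) (P 5))
def t4 : T := S4 1 6 (S1 2 7 (S3 2 7 U O2) (S3 2 7 (S4 1 7 (S4 1 8 U (S2 2 9 O2 (S1 3 10 U (S3 3 11 (N 84) O2)))) (S2 2 9 O2 (S1 3 10 (S3 3 11 U O2) (S3 3 11 (S1 4 13 U (S2 3 13 O2 (S4 2 13 (S3 4 15 (S1 5 16 U (S2 4 17 O2 (S1 6 19 U (S3 5 19 (S4 3 20 U (S2 5 21 O2 (S1 7 22 U (S3 6 23 (N 84) O2)))) O2)))) O2) (P 13)))) O2)))) O2)) (S1 2 7 (S3 2 7 (S2 2 9 O2 (S1 3 11 (S3 3 11 U O2) (S3 3 11 (S4 2 11 U (S2 3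 13 O2 (S3 4 15 (S4 3 16 U (S2 4 17 O2 (S1 5 18 U (S3 5 19 (N 140) O2)))) O2))) O2))) O2) (S3 2 7 (S2 2 9 O2 (S1 3 10 (S3 3 11 (S4 2 11 (S2 3 13 O2 (S3 4 15 (N 60) O2)) (S2 3 13 O2 (S3 4 15 (S4 3 16 (S1 5 17 (N 112) (S2 4 17 O2 (P 17))) (S1 5 17 (S2 4 17 O2 (S3 5 19 (S2 5 21 O2 (S4 4 21 U (P 21))) O2)) (S2 4 17 O2 (P 17)))) O2))) O2) (S3 3 11 (S4 2 11 (S1 4 13 (S2 3 13 O2 (S3 4 15 (S2 4 17 O2 (S4 3 17 (S3 5 19 U O2) (P 17))) O2)) (S2 3 13 O2 (P 13))) (S1 4 13 (S2 3 13 O2 (S3 4 15 (S4 3 16 (S2 4 17 O2 (P 17)) (S2 4 17 O2 (P 17))) O2)) (S2 3 13 O2 (P 13)))) O2))) O2))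
def t5 : T := S4 1 6 (S1 2 7 U (S2 2 7 U (S4 1 7 (S4 1 8 U (S1 3 10 U (S2 3 10 U (S3 2 11 U (S1 4 13 U (S2 4 13 U (S4 2 15 (N 15) (S1 5 16 U (S2 5 16 U (S3 3 16 U (P 16))))))))))) (P 7)))) (S1 2 7 (S2 2 7 U (S2 3 10 U O1)) (S2 2 7 (S1 3 10 U (S2 3 11 (S3 2 11 U (S4 2 11 U (S1 4 13 U (S2 4 15 (N 15) (S1 5 16 U (S3 3 16 U (S4 3 16 U (P 16)))))))) (S3 2 11 (S4 2 11 U (S1 4 13 U (S1 5 16 U (S4 3 16 U O3)))) (S4 2 11 (S1 4 13 U (S1 5 16 U (S3 3 16 U (S4 3 17 U (S2 5 18 U (S1 6 19 U (S3 4 21 U (S1 7 22 U (S1 8 25 U (S2 7 25 U (S3 5 26 U (S1 9 28 U (S4 5 28 U (S1 10 31 U (S3 6 31 U (S2 9 32 U (S1 11 34 U (S3 7 36 U (S1 12 37 U (S2 11 39 U (S4 7 39 (N 105) (S1 13 40 U (S3 8 41 U (S1 14 43 U (S1 15 46 U (S2 13 46 U (S3 9 46 U (P 46)))))))))))))))))))))))))))) (P 11))))) (P 7)))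
def t6 : T := S4 3 20 (S3 5 21 U (S1 7 22 U (S1 8 25 U (S3 6 25 U (S2 7 26 (S4 4 27 (S1 9 28 U (S3 7 29 U (S1 10 31 U (S3 8 33 U (S1 11 34 U (S4 5 34 (N 156) (P 34))))))) (S1 9 28 U (S3 7 29 U (S1 10 31 U (S3 8 33 U (S1 11 34 U (P 34))))))) (S4 4 27 (S1 9 28 U (S3 7 29 U (S1 10 31 U (S3 8 33 U (S1 11 34 U (S4 5 34 (S1 12 37 U (S2 10 37 (S3 9 37 U (S1 13 40 U (S3 10 41 U (S4 6 41 (N 444) (P 41))))) (S3 9 37 U (P 37)))) (P 34))))))) (S1 9 28 U (S3 7 29 U (S1 10 31 U (S3 8 33 (N 33) (S1 11 34 U (P 34)))))))))))) (S3 5 21 (N 84) (S1 7 22 U (S1 8 25 U (S3 6 25 (N 429) (S2 7 26 (S1 9 28 U (S3 7 29 U (S1 10 31 U (S3 8 33 (N 78) (S4 5 33 (S1 11 34 U (P 34)) (S1 11 34 U (P 34))))))) (S1 9 28 (N 84) (S3 7 29 (S1 10 31 U (S4 5 33 (N 33) (S1 11 34 U (P 34)))) (S1 10 31 (N 220) (S3 8 33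 (S4 5 33 (N 33) (S1 11 34 U (P 34))) (S4 5 33 (S1 11 34 U (P 34)) (S1 11 34 (S2 10 37 U (S3 9 37 U (S3 10 41 U (P 41)))) (P 34))))))))))))
def t7 : T := S3 3 13 (S4 2 13 U (S2 4 15 U (S1 5 16 U (S1 6 19 U (S4 3 19 U (P 19)))))) (S4 2 13 (S2 4 15 (S1 5 16 U (S3 4 17 U (S1 6 19 U (S2 5 19 (S4 3 20 U (S3 5 21 U (S1 7 22 U (S2 6 23 (N 84) (S1 8 25 U (S3 6 25 U (S1 9 28 U (S3 7 29 U (S1 10 31 U (S3 8 33 U (S4 5 33 (N 72) (S1 11 34 U (S1 12 37 U (S3 9 37 U (S1 13 40 U (S3 10 41 U (S2 11 42 (N 84) (S1 14 43 U (S3 11 45 U (S1 15 46 U (S4 7 46 (N 72) (P 46)))))))))))))))))))))) (S4 3 20 (N 60) (S3 5 21 U (S1 7 22 U (S1 8 25 U (S3 6 25 U (S1 9 28 U (S3 7 29 U (S1 10 31 U (S3 8 33 U (S4 5 33 (S1 11 34 U (S2 9 34 (N 132) (P 34))) (S1 11 34 U (S2 9 34 (S1 12 37 U (S3 9 37 U (S1 13 40 U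 (S3 10 41 U (S1 14 43 U (S3 11 45 U (S1 15 46 U (S4 7 46 (S1 16 49 U (S3 12 49 U (S1 17 52 U (S2 14 53 (N 276) (S3 13 53 U (P 53)))))) (P 46))))))))) (P 34))))))))))))))))) (S1 5 16 U (S3 4 17 U (S1 6 19 U t6)))) (P 13))
def t8 : T := S3 3 13 (S4 2 13 (S1 5 16 U (S2 5 18 U (S1 6 19 U (S4 3 20 (N 273) (S1 7 22 U (S3 5 22 (S1 8 25 U (S2 7 25 U (S1 9 28 U (S1 10 31 U (S3 7 31 (N 84) (S2 9 32 U (S4 5 33 U (S1 11 34 U (S1 12 37 U (S2 11 39 U (S1 13 40 U (P 40)))))))))))) (P 22))))))) (S1 5 16 U (S2 5 18 (S1 6 19 U (S4 3 19 (N 234) (P 19))) (S1 6 19 (N 234) (S4 3 19 (S1 7 22 U (S3 5 22 (S1 8 25 U (S2 7 25 (N 57) (S1 9 28 U (S1 10 31 U (S3 7 31 (S2 9 32 (N 177) (S4 5 32 (S1 11 34 U (S1 12 37 U (S2 11 39 U (S1 13 40 U (S3 9 40 (S1 14 43 U (S4 7 45 (N 231) (S1 15 46 U (S2 13 46 U (P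 46))))) (P 40)))))) (P 32))) (S2 9 32 (N 462) (S4 5 32 (S1 11 34 U (S1 12 37 U (S2 11 39 (N 198) (S1 13 40 U (P 40))))) (P 32)))))))) (P 22))) (P 19)))))) (S4 2 13 (S1 5 16 (S3 4 17 U (S2 5 18 U (S4 3 20 (N 80) (S3 5 21 U (S2 7 25 U (S3 6 25 U (S1 9 29 (N 364) (S3 7 29 U (P 29))))))))) (S3 4 17 (S2 5 18 (S1 6 19 U (S4 3 20 U (S1 7 22 U (P 22)))) (S1 6 19 U (S4 3 20 (S1 7 22 U (P 22)) (S1 7 22 U (P 22))))) (S2 5 18 (S1 6 19 U (S4 3 20 (S3 5 21 (N 126) (S1 7 22 U (P 22))) (S3 5 21 (S1 7 22 U (P 22)) (S1 7 22 (N 396) (P 22))))) (S1 6 19 (S4 3 20 (S3 5 21 U (S2 7 25 U (S3 6 25 U (S4 4 27 (N 364) (S3 7 29 U (P 29)))))) (S3 5 21 U (S2 7 25 (N 364) (S3 6 25 U (S3 7 29 U (P 29)))))) (S4 3 20 (S3 5 21 (S1 7 22 U (P 22)) (S1 7 22 (S2 7 25 (N 100) (S3 6 25 U (S4 4 27 (S3 7 29 U (P 29))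 (S3 7 29 U (P 29))))) (P 22))) (S3 5 21 (S1 7 22 U (P 22)) (S1 7 22 (S2 7 25 (S3 6 25 U (S3 7 29 U (P 29))) (S3 6 25 U (S3 7 29 (N 91) (P 29)))) (P 22)))))))) (P 13))
def t9 : T := S2 3 11 (S1 4 13 U t7) (S1 4 13 (S3 3 13 U (S4 2 13 U (S3 4 17 U (S2 5 18 (S4 3 19 U (S3 5 21 U (S1 7 23 (N 36) (S3 6 25 U (S4 4 25 U (S2 8 29 (S3 7 29 U (S4 5 31 U (S3 8 33 U (P 33)))) (S3 7 29 U (S4 5 31 U (S3 8 33 U (P 33)))))))))) (S4 3 19 (S3 5 21 U (S1 7 23 (N 164) (S2 7 25 U (S3 6 25 U (S3 7 29 U (S2 9 32 U (S4 5 32 (N 224) (S3 8 33 U (P 33))))))))) (S3 5 21 (N 42) (S1 7 23 (S2 7 25 (S3 6 25 U (S4 4 25 U (S3 7 29 U (S4 5 31 U (S1 10 33 (N 132) (S3 8 33 U (P 33))))))) (S3 6 25 U (S4 4 25 (S3 7 29 U (S2 9 32 U (S1 10 33 (N 56) (S3 8 33 U (P 33))))) (P 25)))) (S2 7 25 (S3 6 25 U (S4 4 25 U (S3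 7 29 U (S4 5 31 (N 260) (S3 8 33 U (P 33)))))) (S3 6 25 (S4 4 25 U (S4 5 31 U (S2 9 32 U (S1 11 36 (N 108) (S4 6 37 U (S2 11 39 U (S4 7 43 U (P 43)))))))) (S4 4 25 (S3 7 29 U (S2 9 32 (N 156) (S3 8 33 U (P 33)))) (P 25))))))))))) t8)
def t10 : T := S4 2 15 (S1 5 16 U (S2 5 17 (S3 4 17 U (S1 6 19 U (S3 5 21 (N 105) (S1 7 22 U (S4 3 23 (S2 7 24 (S1 8 25 U (S3 6 25 U (P 25))) (S1 8 25 U (S3 6 25 (N 129) (P 25)))) (S2 7 24 (S1 8 25 U (S3 6 25 (N 75) (P 25))) (S1 8 25 U (S3 6 25 (S1 9 28 U (S1 10 31 U (P 31))) (P 25))))))))) (S3 4 17 (S1 6 19 U (S1 7 22 U (S4 3 23 (N 153) (S1 8 25 U (S2 8 27 (N 135) (S1 9 28 U (S3 7 30 (N 30) (S1 10 31 U (P 31))))))))) (P 17)))) (S1 5 16 (S2 5 17 (N 112) (S3 4 17 U (P 17))) (S2 5 17 (S3 4 17 (S1 6 19 U (S1 7 22 U (S4 3 22 (N 51) (P 22)))) (S1 6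 19 (S3 5 21 U (S4 3 22 U (S2 7 24 (S3 6 25 U (S3 7 29 U (S4 4 29 U (P 29)))) (S3 6 25 U (S3 7 29 U (S4 4 29 U (P 29))))))) (S3 5 21 (S1 7 22 U (S4 3 22 (S2 7 24 (N 168) (S1 8 25 U (S1 9 28 U (S1 10 31 U (P 31))))) (P 22))) (S1 7 22 (S4 3 22 (N 44) (S2 7 24 (S3 6 25 U (S3 7 29 U (S4 4 29 U (P 29)))) (P 38))) (S4 3 22 (S2 7 24 (S1 8 25 (N 168) (S3 6 25 (S1 9 28 U (S1 10 31 U (S2 9 31 (S1 11 34 U (S1 12 37 U (S4 5 37 (N 258) (S2 11 38 (N 183) (P 38))))) (P 31)))) (P 25))) (P 38)) (P 22)))))) (S3 4 17 (S1 6 19 U (S1 7 22 U (S4 3 22 (S1 8 25 U (S2 8 27 (S1 9 28 U (S3 7 30 (N 270) (S1 10 31 U (P 31)))) (S1 9 28 U (S3 7 30 (S1 10 31 U (P 31)) (S1 10 31 U (P 31)))))) (P 22)))) (P 17))))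
def t11 : T := S4 1 8 (S3 2 9 (S4 1 9 (N 9) (S1 3 10 U (S2 3 10 U (P 10)))) (S4 1 9 (S1 3 10 U (S2 3 10 U (S4 1 10 (S4 1 11 (S4 1 12 (N 12) (S1 4 13 U (S2 4 13 U (S3 3 13 U (P 13))))) (S1 4 13 U (S2 4 13 U (S3 3 13 U (P 13))))) (P 10)))) (S1 3 10 (S2 3 10 U (S2 4 13 U O1)) (S2 3 10 (S1 4 13 U (S3 3 13 U (S1 5 16 U (S2 5 17 (S3 4 17 U (S4 2 17 U (S1 6 19 U (S3 5 21 U (S1 7 22 U (S2 7 24 (N 24) (S1 8 25 U (S3 6 25 U (S4 3 25 U (P 25)))))))))) (S3 4 17 U (S4 2 17 (S1 6 19 U (S3 5 21 U (S1 7 22 U (S1 8 25 U (S3 6 25 U (S4 3 26 (N 60) (S2 8 27 U (S1 9 28 U (S3 7 29 U (S1 10 31 U (S3 8 33 U (S1 11 34 U (S1 12 37 U (S2 11 37 (N 84) (S3 9 37 U (P 37)))))))))))))))) (P 17))))))) (P 10))))) (S3 2 9 (S1 3 10 (N 63) (S2 3 10 (N 63) (P 10))) (S1 3 10 (S2 3 10 U (S2 4 13 (S3 3 13 U (S4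 2 15 U (S1 5 17 O1 (S3 4 17 U (P 17))))) O1)) (S2 3 10 (S1 4 13 (S3 3 13 U (S4 2 15 U (S2 5 17 U (S3 4 17 U (P 17))))) (S3 3 13 (S4 2 15 U (S1 5 16 U (S2 5 17 (S1 6 19 U (S1 7 22 U (S3 5 22 U (S4 3 22 U (P 22))))) (S1 6 19 U (S1 7 22 U (S3 5 22 (S4 3 22 U (S1 8 25 U (S2 8 27 (N 189) (S1 9 28 U (S4 4 29 (N 123) (S1 10 31 U (S3 7 31 (S1 11 34 U (S4 5 36 (N 93) (S1 12 37 U (S2 11 37 (N 84) (P 37))))) (P 31)))))))) (S4 3 22 (S1 8 25 U (S2 8 27 U (S1 9 28 U (S1 10 31 U (P 31))))) (P 22)))))))) t10)) (P 10))))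
def t12 : T := S1 2 7 (S2 2 7 U (S4 1 7 (S4 1 8 U (S3 2 9 U (S2 3 10 U O1))) (S3 2 9 (S2 3 10 U O1) (S2 3 10 (S1 3 11 O1 (S3 3 13 U (S4 2 13 U (S2 5 17 U O1)))) O1)))) (S2 2 7 (S4 1 7 (S4 1 8 U (S3 2 9 U (S1 3 10 U (S2 3 11 (N 84) (S1 4 13 U (S3 3 13 U (S4 2 15 (S1 5 16 U (S3 4 17 U (S2 5 18 U (S1 6 19 U (S3 5 21 U (S1 7 22 U (S4 3 23 (N 84) (S1 8 25 U (S2 7 25 U (S3 6 25 U (P 25))))))))))) (S1 5 16 U (S3 4 17 U (S2 5 18 (S1 6 19 U (S3 5 21 U (S1 7 22 U (S4 3 22 U (P 22))))) (S1 6 19 U (S3 5 21 (N 21) (S1 7 22 U (S4 3 22 (S1 8 25 U (S2 7 25 (N 132) (S3 6 25 U (P 25)))) (P 22))))))))))))))) (S3 2 9 (S1 3 10 U (S2 3 11 U (S1 4 13 U (S4 2 13 U (S3 3 14 (N 42) (S1 5 16 U (S2 5 18 (N 18) (S1 6 19 U (S4 3 19 (N 63) (P 19)))))))))) (S1 3 10 (S2 3 11 U (S3 3 13 U (S4 2 13 U (S1 5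 17 U (S3 4 17 U (S2 5 18 U (S4 3 19 U (S3 5 21 U (S2 7 25 U (S3 6 25 U (S4 4 25 U (P 25)))))))))))) t9))) (S4 1 7 t11 (P 7)))
def t13 : T := S3 6 25 (N 150) (S2 7 26 (S4 5 26 U (S3 7 29 U (S4 6 31 (N 196) (S1 9 32 (S3 8 33 U (S4 7 36 U (S3 9 37 U (S2 11 41 (N 160) (S3 10 41 U (S4 8 41 U (P 41))))))) (S3 8 33 U (S4 7 36 (N 252) (S3 9 37 (N 115) (S1 11 39 (S2 11 41 (S3 10 41 U (S4 8 41 U (S3 11 45 U (S4 9 46 U (S3 12 49 U (S4 10 51 U (S3 13 53 U (S2 15 56 (N 280) (S4 11 56 U (S3 14 57 U (P 57))))))))))) (S3 10 41 U (S4 8 41 U (P 41)))) (S2 11 41 (S3 10 41 (N 164) (S4 8 41 (N 164) (S3 11 45 (N 175) (S1 13 46 (S4 9 46 U (S3 12 49 U (S4 10 51 U (S3 13 53 U (S2 15 56 (S4 11 56 U (S3 14 57 U (P 57))) (S4 11 56 U (S3 14 57 U (P 57)))))))) (S4 9 46 (S3 12 49 U (S1 15 53 U (S3 13 53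 U (P 53)))) (P 46)))))) (S3 10 41 (N 245) (S4 8 41 (S3 11 45 U (S1 13 46 U (S3 12 49 U (S1 15 53 U (S3 13 53 U (P 53)))))) (P 41)))))))))))) (S4 5 26 (S3 7 29 U (S1 9 32 U (S3 8 33 U (S2 10 37 (N 140) (S3 9 37 U (P 37)))))) (P 26)))
def t14 : T := S1 3 11 (S2 3 11 U (S4 2 11 U (S3 3 13 U (S1 4 15 O1 (S4 3 16 U (S3 4 17 U (S2 5 18 (S3 5 21 U (S4 4 21 U (S3 6 25 U (S1 7 26 O1 (S4 5 26 U (P 26)))))) O1))))))) (S2 3 11 (S4 2 11 U (S3 3 13 U (S2 4 15 (S4 3 16 U (S3 4 17 U (S1 5 18 U (S2 5 19 (N 140) (S3 5 21 U (S4 4 21 U (S1 7 25 U (S3 6 25 U (S4 5 26 U (S3 7 29 U (S4 6 31 U (S1 9 32 (N 60) (S3 8 33 U (S2 9 34 (S4 7 36 U (S3 9 37 U (S1 11 39 U (S3 10 41 U (S4 8 41 U (S3 11 45 U (S1 13 46 U (S4 9 46 U (P 46))))))))) (S4 7 36 U (S3 9 37 U (S1 11 39 (N 60) (S3 10 41 U (S4 8 41 U (S3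 11 45 U (S1 13 46 (N 60) (S4 9 46 (N 56) (P 46))))))))))))))))))))))) (S4 3 16 U (S3 4 17 U (S1 5 18 (S3 5 21 U (S4 4 21 U (S3 6 25 U (S2 7 26 U (S4 5 26 U (P 26)))))) (S3 5 21 U (S4 4 21 (N 84) (S1 7 25 (S3 6 25 U (S2 7 26 (N 100) (S4 5 26 U (P 26)))) t13))))))))) (S4 2 11 (S3 3 13 U (S3 4 17 U (S4 3 17 (N 28) (S1 5 18 U (S2 5 18 U (P 18)))))) (P 11)))
def t15 : T := S3 3 14 (S2 4 15 (S1 5 16 U (S4 3 16 (S1 6 19 U (S2 5 19 (N 144) (S3 4 19 (N 90) (P 19)))) (P 16))) (S1 5 16 (N 275) (S4 3 16 (S1 6 19 U (S3 4 19 (S1 7 22 U (S3 5 24 (S1 8 25 U (S2 7 26 (N 48) (S4 5 27 (N 216) (S1 9 28 U (S3 6 29 (S1 10 31 U (S1 11 34 U (S3 7 34 (N 165) (P 34)))) (S1 10 31 U (S1 11 34 U (P 34)))))))) (S1 8 25 U (S2 7 26 (S4 5 27 (N 156) (S1 9 28 U (S1 10 31 U (S1 11 34 U (P 34))))) (S4 5 27 (S1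 9 28 U (S1 10 31 U (S1 11 34 U (P 34)))) (S1 9 28 U (S1 10 31 U (S1 11 34 U (P 34))))))))) (P 19))) (P 16)))) (S2 4 15 (S1 5 16 (S4 3 16 U (S2 5 19 (N 144) (S4 4 21 U (S3 5 23 U (P 23))))) (S4 3 16 (S1 6 19 U (S2 5 19 (S1 7 22 U (S2 6 23 (S3 5 23 (N 69) (S1 8 25 U (S2 7 27 (S4 5 27 (N 27) (S1 9 28 U (P 28))) (S4 5 27 (S1 9 28 U (P 28)) (S1 9 28 U (P 28)))))) (S3 5 23 (S1 8 25 U (S4 5 27 (N 216) (S1 9 28 U (P 28)))) (P 23)))) (P 19))) (P 16))) (S1 5 16 (S4 3 16 U (S4 4 21 (N 99) (S3 5 23 (S2 7 26 (N 115) (S4 5 26 U (P 26))) (P 23)))) (S4 3 16 (S1 6 19 (N 117) (P 19)) (P 16))))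
def t16 : T := S3 3 14 (S1 5 16 U (S4 3 17 (S2 5 18 (S1 6 19 U (S3 4 19 (N 90) (P 19))) (S1 6 19 U (S3 4 19 (S1 7 22 U (S4 4 23 (S3 5 24 (S1 8 25 U (S2 7 25 U (P 25))) (S1 8 25 U (S2 7 25 U (P 25)))) (S3 5 24 (S1 8 25 U (S2 7 25 (N 96) (P 25))) (P 29)))) (P 19)))) (S2 5 18 (S1 6 19 U (S3 4 19 (S1 7 22 U (S3 5 24 (S1 8 25 U (S1 9 28 U (S4 5 28 (N 72) (S2 8 29 (N 192) (S3 6 29 (N 198) (P 29)))))) (S1 8 25 U (S1 9 28 U (S4 5 28 (S2 8 29 (N 123) (P 29)) (S2 8 29 (S1 10 31 U (S1 11 34 U (P 34))) (P 29))))))) (P 19))) (S1 6 19 U (S3 4 19 (S1 7 22 U (S3 5 24 (S1 8 25 U (S2 7 25 (S1 9 28 U (S4 5 28 (S3 6 29 (N 207) (P 29)) (S3 6 29 (S1 10 31 U (S1 11 34 U (S3 7 34 (S1 12 37 U (S3 8 39 (S4 7 39 (N 39) (S1 13 40 U (P 40))) (S4 7 39 (N 150) (S1 13 40 U (P 40))))) (P 34)))) (P 29))))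 (P 25))) (P 29))) (P 19)))))) (S1 5 16 (S4 3 17 U (S2 5 18 U (S3 5 23 U (P 23)))) (S4 3 17 (S2 5 18 (S1 6 19 U (P 19)) (S1 6 19 (S3 5 23 U (S4 4 23 U (P 23))) (P 19))) (S2 5 18 (S1 6 19 U (P 19)) (P 29))))
def t17 : T := S4 3 16 (S1 5 17 (S3 4 17 U (S3 5 21 U (S1 7 24 (S3 6 25 U (S2 7 26 (N 48) (S4 5 27 (N 216) (S3 7 29 U (S1 9 31 (S3 8 33 U (S2 10 37 (N 48) (S3 9 37 U (S1 11 38 (N 176) (P 38))))) (P 38)))))) (S3 6 25 U (S2 7 26 (S4 5 27 (N 156) (P 38)) (S4 5 27 (S3 7 29 U (S3 8 33 U (S2 10 37 (N 340) (S3 9 37 U (S4 7 38 (S1 12 41 (N 304) (S3 10 41 U (P 41))) (P 38)))))) (P 38))))))) (S3 4 17 U (P 17))) (S1 5 17 (S3 4 17 (S4 4 21 U (S1 7 24 (N 425) (S2 7 26 (N 85) (S4 5 26 U (P 26))))) (S3 5 21 (S4 4 21 U (S1 7 24 (S2 7 26 (N 130) (S4 5 26 U (P 26))) (S2 7 26 (S4 5 26 U (S4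 6 31 U (P 31))) (S4 5 26 U (P 26))))) (S4 4 21 (S1 7 24 (S3 6 25 U (S2 7 26 (S3 7 29 U (S1 9 31 (S3 8 33 U (S3 9 37 U (S4 7 37 (N 148) (S1 11 38 (N 152) (P 38))))) (P 38))) (S3 7 29 U (S1 9 31 (S3 8 33 U (S2 10 37 (S3 9 37 U (S4 7 37 (N 148) (S1 11 38 (S3 10 41 U (S1 13 45 (S3 11 45 U (S3 12 49 U (P 49))) (S3 11 45 U (P 45)))) (P 38)))) (S3 9 37 U (S4 7 37 (S1 11 38 (S3 10 41 U (S1 13 45 (S3 11 45 U (S2 13 48 (N 280) (S3 12 49 U (P 49)))) (S3 11 45 U (P 45)))) (P 38)) (P 37))))) (P 38))))) (P 38)) (P 21)))) (S3 4 17 (S4 4 21 (N 110) (S2 7 26 (S4 5 26 U (S1 8 27 (S3 7 30 (N 270) (S4 6 31 U (P 31))) (P 27))) (S4 5 26 (S1 8 27 U (P 27)) (P 26)))) (P 17)))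
def t18 : T := S2 3 11 (S4 2 11 (S3 3 13 U (S2 4 15 (N 60) (S1 5 17 (N 44) (S3 4 17 U (S4 3 17 (N 220) (P 17)))))) (S3 3 13 (S2 4 15 U (S4 3 16 U (S1 5 17 U (S4 4 21 U (S3 5 22 (N 110) (S2 7 26 (N 130) (S4 5 26 U (S1 8 27 (S4 6 31 U (P 31)) (P 27))))))))) (S2 4 15 (S4 3 16 (S1 5 17 (N 112) (S3 4 17 U (P 17))) (S1 5 17 (S3 4 17 U (S2 5 19 (S3 5 21 U (S4 4 21 U (P 21))) (S3 5 21 (N 105) (S4 4 21 (S1 7 24 (N 120) (P 38)) (P 21))))) (S3 4 17 (S2 5 19 (N 110) (S4 4 21 U (S4 5 26 U (S1 8 27 (N 135) (P 27))))) (P 17)))) t17))) (S4 2 11 (S3 3 13 (N 143) (S1 5 17 (S3 4 17 U (S4 3 17 (S2 5 18 (N 68) (P 18)) (S2 5 18 (S3 5 21 U (S1 7 24 (S3 6 25 U (S4 5 28 (N 72) (S2 8 29 (N 192) (S3 7 29 U (P 29))))) (S3 6 25 U (S4 5 28 (S2 8 29 (N 112) (S3 7 29 U (P 29))) (S2 8 29 (S3 7 29 U (S3 8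 33 U (S3 9 37 U (S4 7 39 (N 384) (S2 11 40 (S1 12 41 (N 280) (S3 10 41 U (P 41))) (P 62)))))) (S3 7 29 U (P 29))))))) (P 18)))) (S3 4 17 (S4 3 17 U (S2 5 18 U (P 18))) (S4 3 17 (S2 5 18 (S3 5 21 U (S4 4 23 (S3 6 25 U (S1 8 27 (N 108) (S2 8 29 (N 460) (S3 7 29 U (S4 5 29 (S3 8 33 U (S4 6 35 (N 140) (S1 11 37 U (S3 9 37 U (P 37))))) (P 29)))))) (S3 6 25 U (S1 8 27 (S2 8 29 (N 192) (S3 7 29 U (P 29))) (S2 8 29 (S3 7 29 U (S3 8 33 U (S1 11 37 (N 232) (S3 9 37 U (P 37))))) (S3 7 29 U (P 29))))))) (P 18)) (P 17))))) (P 11))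
def t19 : T := S1 4 13 (S3 3 13 U (S2 4 15 (S3 4 17 U (S4 3 17 (S2 5 19 U (S3 5 21 U (S1 7 23 U (S4 4 23 (N 120) (P 23))))) (P 17))) (S3 4 17 U (P 30)))) (S3 3 13 (S2 4 15 (S1 5 16 U (S4 3 17 (S1 6 19 U (S2 5 19 (S1 7 22 U (S3 5 22 (S2 6 23 (N 153) (S4 4 23 U (P 23))) (S2 6 23 (S4 4 23 (N 69) (S1 8 25 U (S2 7 27 (N 351) (S1 9 28 U (S1 10 31 U (P 31)))))) (S4 4 23 (S1 8 25 U (S1 9 28 U (S4 5 29 (N 342) (S1 10 31 U (P 31))))) (P 23))))) (P 19))) (S1 6 19 U (S2 5 19 (S1 7 22 U (S3 5 22 (S2 6 23 (S1 8 25 U (S2 7 27 (S1 9 28 U (S4 5 28 (N 123) (P 28))) (S1 9 28 U (S4 5 28 (S1 10 31 U (S3 7 31 (N 84) (P 31))) (P 28))))) (P 23)) (S2 6 23 (S1 8 25 U (S2 7 27 (S1 9 28 U (S4 5 28 (S1 10 31 U (S2 8 31 (S1 11 34 U (S2 9 35 (N 420) (S3 8 35 (N 201) (P 35)))) (P 31))) (P 28))) (S1 9 28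 U (S4 5 28 (S1 10 31 U (P 31)) (P 28))))) (P 23)))) (P 19))))) (S1 5 16 U (S4 3 17 (S1 6 19 U (P 19)) (P 23)))) (P 13))
def t20 : T := S1 4 13 (S3 3 13 (S2 4 15 (S4 3 16 U (S2 5 19 (S4 4 21 U (S3 5 22 (N 110) (S1 7 23 (N 95) (S2 6 23 (N 65) (P 23))))) (P 27))) (S4 3 16 (N 117) (P 27))) (S2 4 15 (S4 3 16 (S3 4 17 U (P 17)) (S3 4 17 (S2 5 19 (S4 4 21 U (S1 7 23 (S2 6 23 (S4 5 26 U (S2 7 27 (N 289) (P 27))) (P 27)) (S2 6 23 (S4 5 26 U (S2 7 27 (S3 7 30 (S2 8 31 (N 120) (S4 6 31 U (P 31))) (S2 8 31 (S4 6 31 U (S2 9 35 (S1 11 36 (N 85) (S4 7 36 U (P 36))) (P 43))) (P 43))) (P 27))) (P 23)))) (P 27)) (P 17))) (S4 3 16 (S3 4 17 (S1 7 23 (S2 7 26 U (S4 5 27 U (P 27))) (P 23)) (P 17)) (P 27)))) (S3 3 13 (S2 4 15 (S1 5 16 (S4 3 16 U (S2 5 19 (S4 4 21 U (S3 5 22 (S2 6 23 (S4 5 26 U (S2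 7 27 (N 320) (P 27))) (P 23)) (S2 6 23 (S4 5 26 U (S2 7 27 (S1 9 29 (S2 8 31 (N 290) (S4 6 31 U (P 31))) (S2 8 31 (S4 6 31 U (S2 9 35 (S3 8 35 (N 35) (S4 7 36 U (P 36))) (S3 8 35 (N 240) (S4 7 36 U (P 36))))) (S4 6 31 U (P 31)))) (P 27))) (P 23)))) (P 23))) (S4 3 16 (S1 6 19 (S2 5 19 U (P 23)) (S2 5 19 (S1 7 22 (S3 5 22 U (S2 6 23 U (P 23))) (S3 5 22 (S2 6 23 (S1 8 25 U (S2 7 27 (S4 5 27 (S1 9 28 U (P 28)) (S1 9 28 U (P 28))) (S4 5 27 (S1 9 28 U (P 28)) (P 27)))) (P 23)) (P 22))) (P 19))) (P 16))) (P 23)) (P 13))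
def t21 : T := S1 2 7 (S2 2 7 (S3 2 9 U t14) (S3 2 9 (S2 3 10 (S1 3 11 O1 (S4 2 11 U (P 11))) O1) (S2 3 10 (S1 3 11 O1 (S4 2 11 (S3 3 13 (N 143) (S2 5 17 (S3 4 17 U (S4 3 17 (S1 5 18 O1 (P 18)) (S1 5 18 O1 (P 18)))) O1)) (P 11))) O1))) (S2 2 7 (S3 2 9 (S1 3 10 (S2 3 11 U (S4 2 11 U (P 11))) (S2 3 11 (S4 2 11 (S1 4 13 U (S3 3 14 (S2 4 15 U (S1 5 16 U (S4 3 17 U (S1 6 19 U (S3 4 19 (N 33) (P 19)))))) (S2 4 15 (S1 5 16 U (S4 3 17 (N 45) (S1 6 19 U (S2 5 19 (S1 7 22 U (S2 6 23 (N 99) (S3 5 23 U (P 23)))) (P 19))))) (S1 5 16 U (S4 3 17 (S1 6 19 U (P 19)) (S1 6 19 U (P 19))))))) (S1 4 13 (S3 3 14 U (S2 4 15 U (S4 3 16 U (S4 4 21 U (S1 7 23 (N 220) (S3 5 23 U (P 23))))))) t15)) (S4 2 11 (S1 4 13 U t16) (P 11)))) (S1 3 10 t18 (S2 3 11 (S4 2 11 t19 t20) (S4 2 11 (S1 4 13 (S3 3 13 (S4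 3 17 (S2 5 18 U (P 18)) (S2 5 18 (N 104) (P 18))) (S3 4 17 (S4 3 17 (S2 5 18 U (P 18)) (S2 5 18 (S1 7 23 (N 187) (P 23)) (P 18))) (P 30))) (S3 3 13 (S1 5 16 (S4 3 17 (S2 5 18 U (P 18)) (P 23)) (S4 3 17 (S2 5 18 (S1 6 19 (S3 5 22 U (S4 4 23 (N 212) (P 23))) (P 19)) (P 18)) (P 23))) (P 13))) (P 11))))) (P 7))
def t22 : T := S2 1 4 (S3 1 4 (S4 1 4 (S2 1 5 (S3 1 5 U (S4 1 5 U (S2 1 6 O2 (S1 2 7 U (S3 2 9 (S4 2 9 U (S1 3 10 U (S2 2 11 O2 (S1 4 13 U (S4 3 13 U O3))))) O2))))) t3) (S2 1 5 (S3 1 5 O3 (S2 1 6 O2 (S1 2 7 (S4 2 7 (S3 2 9 O3 O2) O3) (S4 2 7 (S3 2 9 O3 O2) O3)))) (S3 1 5 O3 (P 5)))) (S4 1 4 (S2 1 5 O2 (S4 1 5 t4 (P 5))) (P 4))) (S3 1 4 (S4 1 4 (S3 1 5 (S4 1 5 (S3 1 6 (S4 1 6 (N 6) (S1 2 7 U (S2 2 7 U (S3 1 7 O3 (P 7))))) t5) (S3 1 6 O3 (S1 2 7 (S2 2 7 (S4 2 9 U O3) (S4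 2 9 (S2 3 10 (S1 3 11 O1 (S3 2 11 O3 (P 11))) O1) O3)) (S2 2 7 (S4 2 9 (S1 3 10 (S2 3 11 U (S3 2 11 O3 (P 11))) (S2 3 11 (S3 2 11 O3 (S1 4 13 (S4 3 14 U O3) (S4 3 14 (S2 4 15 (S1 5 16 U (S3 3 16 O3 (P 16))) (S1 5 16 (N 275) (S3 3 16 O3 (P 16)))) O3))) (S3 2 11 O3 (P 11)))) O3) (P 7))))) (S4 1 5 (S4 1 6 t12 t21) (P 5))) (P 4)) (P 4))
def t23 : T := S3 2 11 (S1 4 13 O1 (S2 5 14 (S4 2 15 (S1 5 16 O1 (S2 6 17 (S3 3 17 U (S1 6 19 O1 (S2 7 20 (N 60) O1))) O1)) (S1 5 16 O1 (S2 6 17 (S3 3 17 (S1 6 19 O1 (S2 7 20 (S1 7 22 O1 (S4 3 22 U (S2 8 23 (S3 4 23 (N 63) (S1 8 25 O1 (S2 9 26 (N 147) O1))) O1))) O1)) (S1 6 19 O1 (S2 7 20 (S1 7 22 O1 (S4 3 22 (S2 8 23 (N 66) O1) (S2 8 23 (S1 8 25 O1 (S2 9 26 (S1 9 28 O1 (S3 5 28 (S2 10 29 (N 84) O1) (S2 10 29 (S4 4 29 (N 87) (S1 10 31 O1 (S2 11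 32 (S1 11 34 O1 (S2 12 35 (S4 5 36 U (S1 12 37 O1 (S2 13 38 (S3 7 39 U (S1 13 40 O1 (S2 14 41 (N 231) O1))) O1))) O1)) O1))) O1))) O1)) O1))) O1))) O1))) O1)) (S1 4 13 O1 (S2 5 14 (S4 2 15 (S1 5 16 O1 (S3 3 16 (S2 6 17 (S1 6 19 O1 (S2 7 20 (S1 7 22 O1 (S2 8 23 (S4 3 23 (N 69) (S1 8 25 O1 (S2 9 26 (S3 5 27 (N 75) (S1 9 28 O1 (S2 10 29 (N 165) O1))) O1))) O1)) O1)) O1) (P 16))) (S1 5 16 O1 (S3 3 16 (S2 6 17 (S1 6 19 O1 (S2 7 20 (S1 7 22 O1 (S4 3 22 (S2 8 23 (S1 8 25 O1 (S2 9 26 (S3 5 27 (S1 9 28 O1 (S2 10 29 (N 432) O1)) (S1 9 28 O1 (S2 10 29 (S1 10 31 O1 (S2 11 32 (S1 11 34 O1 (S2 12 35 (S1 12 37 O1 (S4 5 37 (N 96) (S2 13 38 (N 330) O1))) O1)) O1)) O1))) O1)) O1) (P 22))) O1)) O1) (P 16)))) O1))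
def t24 : T := S3 1 6 (S4 1 6 (S1 2 7 O1 (S3 1 7 (S4 1 7 (S2 3 8 U O1) (S2 3 8 (S3 1 8 O3 (S1 3 10 O1 (S2 4 11 (S1 4 13 O1 (S4 2 13 U O3)) O1))) O1)) (S4 1 7 (S2 3 8 (S4 1 8 (N 24) (S1 3 10 O1 (S2 4 11 (S1 4 13 O1 (S3 2 13 U (S2 5 14 (N 42) O1))) O1))) O1) (P 7)))) (S1 2 7 O1 (S3 1 7 O3 (P 7)))) (S4 1 6 (S1 2 7 O1 (S4 1 7 (S2 3 8 (S4 1 8 (S4 1 9 (S1 3 10 O1 (S4 1 10 (S2 4 11 U O1) (S2 4 11 (S3 2 11 U (S1 4 13 O1 (S2 5 14 (S1 5 16 O1 (S3 3 16 U (S2 6 17 U O1))) O1))) O1))) (S1 3 10 O1 (S2 4 11 (S3 2 11 (S1 4 13 O1 (S2 5 14 U O1)) (S1 4 13 O1 (S2 5 14 (S1 5 16 O1 (S3 3 16 (S2 6 17 (N 48) O1) (S2 6 17 (S4 2 17 (S1 6 19 O1 (S2 7 20 (S3 4 21 U (S1 7 22 O1 (S2 8 23 (N 135) O1))) O1)) (S1 6 19 O1 (S2 7 20 (S3 4 21 (N 120) (S1 7 22 O1 (S2 8 23 (S1 8 25 O1 (S4 3 25 (S2 9 26 (N 75)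 O1) (S2 9 26 (S3 5 26 U (S1 9 28 O1 (S2 10 29 (S1 10 31 O1 (S3 6 31 U (S2 11 32 (S4 4 33 (N 90) (S1 11 34 O1 (S2 12 35 (S3 7 36 U (S1 12 37 O1 (S2 13 38 (S1 13 40 O1 (S2 14 41 (N 120) O1)) O1))) O1))) O1))) O1))) O1))) O1))) O1))) O1))) O1))) O1))) (S1 3 10 O1 (S2 4 11 t23 O1))) O1) (P 7))) (P 6))
def t25 : T := S4 1 14 (S4 1 15 (S1 5 16 O1 (S4 1 16 (S2 6 17 (N 48) O1) (S2 6 17 (S3 4 17 U (S1 6 19 O1 (S2 7 20 (N 60) O1))) O1))) (S1 5 16 O1 (S2 6 17 (S3 4 17 U (S1 6 19 O1 (S2 7 20 (S3 5 21 U (S1 7 22 O1 (S2 8 23 (S1 8 25 O1 (S3 6 25 U (S2 9 26 (S1 9 28 O1 (S2 10 29 (N 84) O1)) O1))) O1))) O1))) O1))) (S1 5 16 O1 (S2 6 17 (S3 4 17 (N 51) (S1 6 19 O1 (S2 7 20 (S3 5 21 (N 117) (S1 7 22 O1 (S2 8 23 (S1 8 25 O1 (S3 6 25 (N 129) (S2 9 26 (S4 2 27 (S1 9 28 O1 (S2 10 29 (S3 7 29 U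 (S1 10 31 O1 (S2 11 32 (S3 8 33 U (S1 11 34 O1 (S2 12 35 (S1 12 37 O1 (S3 9 37 U (S2 13 38 (N 108) O1))) O1))) O1))) O1)) (S1 9 28 O1 (S2 10 29 (S3 7 29 U (S1 10 31 O1 (S2 11 32 (S3 8 33 U (S1 11 34 O1 (S2 12 35 (S1 12 37 O1 (S3 9 37 U (S2 13 38 (S1 13 40 O1 (S4 3 40 (S2 14 41 (N 120) O1) (S2 14 41 (S3 10 41 U (S1 14 43 O1 (S2 15 44 (S3 11 45 U (S1 15 46 O1 (S2 16 47 (S1 16 49 O1 (S3 12 49 U (S2 17 50 (S1 17 52 O1 (S2 18 53 (N 156) O1)) O1))) O1))) O1))) O1))) O1))) O1))) O1))) O1))) O1))) O1))) O1))) O1))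
def t26 : T := S4 1 11 (S4 1 12 (S1 4 13 O1 (S3 3 13 (S4 1 13 (S2 5 14 (N 39) O1) (S2 5 14 (S1 5 16 O1 (S2 6 17 (S1 6 19 O1 (S2 7 20 U O1)) O1)) O1)) (S4 1 13 (S2 5 14 t25 O1) (P 13)))) (S1 4 13 O1 (S3 3 13 (S2 5 14 (S1 5 16 O1 (S2 6 17 (S1 6 19 O1 (S2 7 20 (S1 7 22 O1 (S3 5 22 (S2 8 23 (N 66) O1) (S2 8 23 (S4 2 23 (N 69) (S1 8 25 O1 (S2 9 26 (S1 9 28 O1 (S2 10 29 (N 429) O1)) O1))) O1))) O1)) O1)) O1) (P 13)))) (S1 4 13 O1 (S3 3 13 (S2 5 14 (S1 5 16 O1 (S2 6 17 (S1 6 19 O1 (S2 7 20 (S4 2 21 (S1 7 22 O1 (S3 5 22 (S2 8 23 (S1 8 25 O1 (S2 9 26 (S1 9 28 O1 (S2 10 29 (S1 10 31 O1 (S3 7 31 (N 84) (S2 11 32 (N 189) O1))) O1)) O1)) O1) (P 22))) (S1 7 22 O1 (S3 5 22 (S2 8 23 (S1 8 25 O1 (S2 9 26 (S1 9 28 O1 (S2 10 29 (S1 10 31 O1 (S3 7 31 (S4 3 31 (S2 11 32 (N 93) O1) (S2 11 32 (S1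 11 34 O1 (S2 12 35 (S1 12 37 O1 (S2 13 38 (S1 13 40 O1 (S3 9 40 (S2 14 41 (N 120) O1) (S2 14 41 (S4 4 41 (N 123) (S1 14 43 O1 (S2 15 44 (S1 15 46 O1 (S2 16 47 (N 270) O1)) O1))) O1))) O1)) O1)) O1)) (S4 3 31 (S2 11 32 (S1 11 34 O1 (S2 12 35 (S1 12 37 O1 (S2 13 38 (N 330) O1)) O1)) O1) (P 31)))) O1)) O1)) O1) (P 22)))) O1)) O1)) O1) (P 13)))
def t27 : T := S1 1 4 O1 (S3 1 4 (S4 1 4 (S2 2 5 (S3 1 5 (S4 1 5 t24 (S3 1 6 O3 (P 6))) (S4 1 5 (S4 1 6 (S1 2 7 O1 (S4 1 7 (S2 3 8 (S4 1 8 (S3 2 9 (S4 1 9 (S1 3 10 O1 (S4 1 10 (S2 4 11 (S4 1 11 (S4 1 12 (S1 4 13 O1 (S4 1 13 U (S2 5 14 U O1))) (S1 4 13 O1 (S2 5 14 (S3 3 14 U (S1 5 16 O1 (S2 6 17 (N 99) O1))) O1))) (S1 4 13 O1 (S2 5 14 (S3 3 14 (S1 5 16 O1 (S2 6 17 (S1 6 19 O1 (S3 4 19 U (S2 7 20 U O1))) O1)) (S1 5 16 O1 (S2 6 17 (S1 6 19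 O1 (S2 7 20 (S4 2 21 (S1 7 22 O1 (S2 8 23 (N 63) O1)) (S1 7 22 O1 (S2 8 23 (S3 5 23 (N 69) (S1 8 25 O1 (S2 9 26 (S1 9 28 O1 (S2 10 29 (S1 10 31 O1 (S4 3 31 U (S2 11 32 (N 90) O1))) O1)) O1))) O1))) O1)) O1))) O1))) O1) (P 10))) (S1 3 10 O1 (P 10))) (S4 1 9 (S1 3 10 O1 (S4 1 10 (S2 4 11 t26 O1) (P 10))) (P 9))) (S3 2 9 (S1 3 10 O1 (P 10)) (P 9))) O1) (P 7))) (P 6)) (P 5))) O1) (P 4)) (P 4))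
def t28 : T := S4 2 15 (S2 4 17 U (S1 7 18 U (S2 5 21 U (S1 9 23 U (S3 5 23 (S4 3 23 U (S2 6 25 U (S1 11 28 U (S2 7 29 U (S1 13 33 U (S2 8 33 U (P 33))))))) (S4 3 23 (S2 6 25 U (S1 11 28 U (S2 7 29 U (S4 4 31 (S3 7 32 U (S1 13 33 U (S2 8 33 U (P 33)))) (S3 7 32 (N 160) (S1 13 33 U (S2 8 33 U (P 33)))))))) (P 23))))))) (S2 4 17 (S1 7 18 U (S4 3 22 U (S1 9 23 U (S3 5 23 U (P 23))))) (S1 7 18 (S2 5 21 U (S4 3 22 U (S3 5 23 (N 216) (S2 6 25 U (S2 7 29 U (S4 4 29 (N 36) (P 29))))))) (S2 5 21 (S4 3 22 U (S1 9 23 U (S3 5 23 (N 105) (P 23)))) (S4 3 22 (S1 9 23 (N 396) (S3 5 23 (S2 6 25 U (S1 11 28 U (S2 7 29 U (S1 13 33 U (S2 8 33 U (P 33)))))) (P 23))) (S1 9 23 (S3 5 23 (S2 6 25 U (S2 7 29 U (S4 4 29 U (P 29)))) (S2 6 25 U (S2 7 29 U (S4 4 29 (S3 7 32 (N 224) (S2 8 33 U (S2 9 37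 U (P 37)))) (P 29))))) (S3 5 23 (S2 6 25 (S1 11 28 U (S4 4 29 U (S1 13 33 U (S4 5 36 U (S3 8 37 (N 175) (P 51)))))) (S1 11 28 (S2 7 29 U (S4 4 29 (N 188) (P 29))) (S2 7 29 (S4 4 29 U (S1 13 33 U (S4 5 36 U (S3 8 37 (S1 15 38 U (P 38)) (P 51))))) (S4 4 29 (S1 13 33 (N 340) (S2 8 33 U (P 33))) (P 29))))) (P 23)))))))
def t29 : T := S2 5 22 (S1 9 23 U (S3 5 24 (S4 4 25 U (S1 11 28 U (S3 6 29 (S2 7 31 (N 270) (S4 5 31 U (P 31))) (S2 7 31 (S4 5 31 U (S1 13 33 U (S4 6 37 U (S1 15 38 U (S2 9 40 (N 120) (S1 17 43 U (S4 7 43 U (S1 19 48 U (S4 8 49 U (P 49)))))))))) (S4 5 31 U (P 31)))))) (S4 4 25 U (S1 11 28 U (S2 7 31 (S4 5 31 U (S1 13 33 U (S4 6 37 (N 185) (S1 15 38 U (S2 9 40 (S1 17 43 U (S3 9 43 (S4 7 43 U (S1 19 48 U (S2 11 49 (S4 8 49 U (S1 21 53 U (S4 9 55 U (S1 23 58 U (S2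 13 58 (S4 10 61 U (S1 25 63 U (P 63))) (P 58)))))) (S4 8 49 U (P 49))))) (S4 7 43 (N 190) (P 43)))) (S1 17 43 (N 270) (S3 9 43 (S4 7 43 (N 172) (S1 19 48 U (S4 8 49 (N 300) (P 49)))) (S4 7 43 (N 190) (P 43))))))))) (S4 5 31 (N 285) (P 31))))))) (S1 9 23 (N 299) (S3 5 24 (S4 4 25 (N 225) (S1 11 28 (N 168) (S3 6 29 (S4 5 31 (N 130) (P 31)) (P 44)))) (S4 4 25 (S1 11 28 U (S1 13 33 U (S2 8 35 (N 175) (S1 15 38 U (S1 17 43 U (S3 9 43 (S4 7 44 (N 320) (P 44)) (S4 7 44 (S1 19 48 U (S2 11 48 (N 270) (P 48))) (P 44)))))))) (P 44))))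
def t30 : T := S2 3 13 (S4 2 13 (S3 3 14 (N 65) (P 14)) (S3 3 14 (S1 7 18 (S3 4 19 U (S4 3 19 U (P 19))) (S3 4 19 (S4 3 19 (N 95) t29) (S4 3 19 (S2 5 22 (N 462) (S1 9 23 U (S1 11 28 U (S4 5 32 (S1 13 33 U (S3 7 33 (N 160) (P 33))) (S1 13 33 U (S3 7 33 (S2 8 35 (N 240) (S1 15 38 U (S1 17 43 U (S1 19 48 U (S2 11 48 (N 240) (P 48)))))) (P 33))))))) (P 19)))) (P 14))) (S4 2 13 (S3 3 14 (S2 4 17 (S1 7 18 U (S3 4 19 (S4 3 20 U (S1 9 23 U (S3 5 24 U (S1 11 28 U (S2 7 30 U (S1 13 33 U (S4 5 33 U (S1 15 38 U (S1 17 43 U (S3 9 43 (N 195) (P 43))))))))))) (S4 3 20 (N 140) (S1 9 23 U (S1 11 28 U (S2 7 30 (S1 13 33 U (S3 7 33 (N 240) (S4 5 33 (N 210) (P 33)))) (S1 13 33 U (S3 7 33 (S4 5 33 (N 165) (S1 15 38 U (S1 17 43 U (P 43)))) (S4 5 33 (S1 15 38 U (S1 17 43 U (P 43))) (P 33))))))))))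 (S1 7 18 (S3 4 19 (S4 3 20 (N 180) (S2 5 21 U (P 21))) (S4 3 20 (S2 5 21 U (P 21)) (P 34))) (S3 4 19 (S4 3 20 (S2 5 21 (N 180) (P 21)) (S2 5 21 (S1 9 23 U (S3 5 24 (S1 11 28 U (S3 6 29 (N 130) (P 34))) (P 34))) (P 21))) (S4 3 20 (S2 5 21 (S1 9 23 U (S4 4 27 (S1 11 28 U (S1 13 33 U (S3 7 33 (N 155) (S4 5 34 (N 210) (P 34))))) (P 34))) (P 21)) (P 34))))) (P 14)) (P 13))
def t31 : T := S2 2 9 (S3 2 9 (S1 5 13 U (S4 2 13 (N 45) (S2 3 14 (S3 3 14 U (S1 7 18 U (S2 4 19 O2 (S4 3 19 U (P 19))))) (S3 3 14 (S1 7 18 U (S3 4 19 (N 90) (S4 3 19 U (P 19)))) (P 14))))) (S1 5 13 (S3 3 13 (S4 2 13 U (S2 3 14 O2 (P 14))) O2) (S3 3 13 (S4 2 13 (S2 3 14 O2 (P 14)) (S2 3 14 O2 (P 14))) O2))) (S3 2 9 (S1 5 13 (S2 3 13 (S4 2 13 U (S3 3 14 U (P 14))) (S4 2 13 (S3 3 14 (S2 4 17 U (S3 4 19 (N 52) (S4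 3 20 (N 140) (S1 8 21 (N 84) (S2 5 21 U (P 21)))))) (P 14)) (S3 3 14 (S2 4 17 (S3 4 19 U (S4 3 19 U (P 19))) (S3 4 19 (S4 3 19 (S1 8 21 (N 76) (S2 5 21 U (P 21))) (S1 8 21 (S2 5 21 U (S3 5 24 (S2 6 25 U (S4 4 25 (N 168) (P 25))) (S2 6 25 (N 204) (S4 4 25 (S1 11 29 (N 456) (S2 7 29 U (P 29))) (P 25))))) (S2 5 21 (S3 5 24 U (S4 4 25 U (S4 5 31 U (S1 13 34 U (P 34))))) (P 21)))) (S4 3 19 (S1 8 21 (S2 5 21 U (S2 6 25 U (S1 11 29 (S2 7 29 U (S4 5 32 (N 224) (S2 8 33 U (S3 7 33 (N 348) (P 33))))) (S2 7 29 U (P 29))))) (S2 5 21 U (P 21))) (P 19)))) (P 14)))) t30) (P 9))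
def t32 : T := S4 1 7 (S1 3 8 (S4 1 8 (N 8) (S2 2 9 U (S3 2 9 U (P 9)))) (S4 1 8 (S2 2 9 U (S3 2 9 U (S4 1 9 (S4 1 10 (N 20) (S1 5 13 U (S2 3 13 U (S3 3 13 U (P 13))))) (P 9)))) (S2 2 9 (S3 2 9 U (S1 5 13 (N 252) (S3 3 13 U O2))) (S3 2 9 (S1 5 13 (N 252) (S2 3 13 U (S3 3 14 (S4 2 15 U (S2 4 17 U (S1 7 18 U (S3 4 19 (S2 5 21 U (S4 3 22 U (S1 9 23 U (S3 5 24 (S2 6 25 U (S1 11 28 U (S2 7 29 U (S3 6 29 (N 140) (S4 4 29 U (P 29)))))) (S2 6 25 U (S1 11 28 U (S2 7 29 U (S4 4 29 (N 152) (P 29))))))))) (S2 5 21 U (S4 3 22 (S1 9 23 U (S2 6 25 U (S1 11 28 U (S2 7 29 U (S1 13 33 U (S2 8 33 U (S3 7 33 (N 80) (P 33)))))))) (S1 9 23 (N 28) (S2 6 25 U (S1 11 28 (N 28) (S2 7 29 (N 70) (S4 4 29 (S1 13 33 U (S2 8 33 U (S3 7 33 (S2 9 37 U (S1 15 38 U (P 38))) (P 33)))) (P 29)))))))))))) t28)))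 (P 9))))) (S1 3 8 (S2 2 9 (S3 2 9 U (S1 4 11 (S3 3 13 U O2) (S3 3 13 U O2))) (S3 2 9 (S1 4 11 (S2 3 13 U (S4 2 13 U (S1 5 14 U (S3 3 14 U (P 14))))) (S2 3 13 U (S4 2 13 (S3 3 14 U (P 14)) (S3 3 14 (S2 4 17 U (S1 7 19 (N 84) (S3 4 19 (S4 3 19 U (S2 5 21 U (S3 5 24 (N 24) (S2 6 25 U (S4 4 25 U (P 25)))))) (S4 3 19 U (P 19))))) (P 14))))) (P 9))) t31)
def t33 : T := S2 5 26 (S1 13 27 U (S1 14 29 U (S4 4 29 U (S1 15 31 U (S3 5 31 U (S1 16 33 U (S1 17 35 U (S4 5 36 (N 36) (S1 18 37 U (S3 6 37 U (P 37))))))))))) (S1 13 27 U (S1 14 29 U (S4 4 29 (S1 15 31 U (S2 6 31 (N 36) (S3 5 31 (N 130) (P 31)))) (S1 15 31 U (S2 6 31 (S3 5 31 U (S1 16 33 U (S1 17 35 U (S4 5 36 (N 36) (S1 18 37 U (S3 6 37 (N 98) (P 37))))))) (S3 5 31 (S1 16 33 U (S1 17 35 U (S2 7 36 (N 154) (S4 5 36 (S1 18 37 U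 (S1 19 39 U (S1 20 41 U (S2 8 41 U (S1 21 43 U (S1 22 45 U (S2 9 46 U (S1 23 47 U (S1 24 49 U (S1 25 51 U (S2 10 51 U (P 51)))))))))))) (S1 18 37 U (S1 19 39 U (S1 20 41 U (S2 8 41 (N 210) (S1 21 43 U (S4 6 43 (S1 22 45 U (S2 9 46 U (S1 23 47 U (S1 24 49 U (S1 25 51 U (S2 10 51 U (P 51))))))) (S1 22 45 U (S2 9 46 (N 322) (S1 23 47 U (S1 24 49 U (S4 7 50 (S1 25 51 U (S2 10 51 U (P 51))) (S1 25 51 U (S2 10 51 (S1 26 53 U (S1 27 55 U (S3 9 56 (N 56) (S1 28 57 U (S4 8 57 U (P 57)))))) (P 51)))))))))))))))))) (P 31)))))))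
def t34 : T := S3 3 19 (S1 10 21 U (S2 4 21 U (S4 3 22 U (S1 11 23 U (S1 12 25 U (S2 5 26 U (S1 13 27 U (S1 14 29 U (S4 4 29 U (S1 15 31 U (S2 6 31 U (S3 5 32 (N 70) (S1 16 33 U (S1 17 35 U (S2 7 36 U (S4 5 36 U (S1 18 37 U (S1 19 39 U (S1 20 41 U (S2 8 41 U (S1 21 43 U (S4 6 43 U (S1 22 45 U (S2 9 46 U (S1 23 47 U (S1 24 49 U (S4 7 50 (N 50) (S1 25 51 U (S2 10 51 U (S3 8 51 (N 70) (P 51))))))))))))))))))))))))))))))) (S1 10 21 U (S2 4 21 (N 42) (S4 3 22 (S1 11 23 U (S1 12 25 U (S3 4 25 U (S2 5 26 U (S1 13 27 U (S1 14 29 U (S1 15 31 U (S2 6 31 U (S3 5 31 U (P 31)))))))))) (S1 11 23 U (S1 12 25 U (S3 4 25 (S2 5 26 U (S1 13 27 U (S1 14 29 U (S4 4 29 (N 50) (S1 15 31 U (S2 6 31 U (S1 16 33 U (S1 17 35 U (S2 7 36 U (S4 5 36 (N 50) (S1 18 37 U (S1 19 39 U (S1 20 41 U (S2 8 41 (N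 56) (S1 21 43 U (S4 6 43 (N 50) (S3 7 44 (S1 22 45 U (S2 9 46 U (S1 23 47 U (S1 24 49 U (S4 7 50 (N 50) (S1 25 51 U (S2 10 51 (N 56) (P 51)))))))) (S1 22 45 U (S2 9 46 (N 56) (S1 23 47 U (S1 24 49 U (S4 7 50 (N 50) (S1 25 51 U (S2 10 51 (N 56) (P 51))))))))))))))))))))))))) t33))))))
def t35 : T := S3 4 23 (S4 3 23 (S1 12 25 U (S2 5 26 U (S1 13 27 U (S1 14 29 U (S3 5 29 (S1 15 31 U (S2 6 31 U (S4 4 31 (S1 16 33 U (S1 17 35 U (S3 6 35 (S2 7 36 U (S1 18 37 U (S1 19 39 U (S4 5 39 (N 70) (S1 20 41 U (S2 8 41 U (S3 7 41 (N 240) (P 41)))))))) (S2 7 36 U (S1 18 37 U (S1 19 39 U (S4 5 39 (S1 20 41 U (S2 8 41 U (P 41))) (S1 20 41 U (S2 8 41 U (P 41)))))))))) (P 31)))) (S1 15 31 U (S2 6 31 (N 46) (S4 4 31 (S1 16 33 U (S1 17 35 U (S2 7 36 U (S1 18 37 U (S1 19 39 U (S4 5 39 (S1 20 41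 U (S2 8 41 U (P 41))) (S1 20 41 U (S2 8 41 (N 46) (P 41))))))))) (P 31))))))))) (S1 12 25 U (S2 5 26 (N 270) (S1 13 27 U (S1 14 29 U (S3 5 29 (S1 15 31 U (S2 6 31 (N 232) (P 31))) (S1 15 31 U (S2 6 31 (S1 16 33 U (S1 17 35 U (S1 18 37 U (S4 5 38 (N 258) (S1 19 39 U (S1 20 41 U (S1 21 43 U (S1 22 45 U (S1 23 47 U (P 47)))))))))) (P 31))))))))) (S4 3 23 (S1 12 25 U (S2 5 26 (N 130) (S1 13 27 U (S1 14 29 U (S1 15 31 U (S2 6 31 (S4 4 31 (N 62) (S1 16 33 U (S1 17 35 U (S1 18 37 U (S1 19 39 U (S3 7 40 (N 160) (S1 20 41 U (S1 21 43 U (S1 22 45 U (S1 23 47 U (P 47))))))))))) (S4 4 31 (S1 16 33 U (S1 17 35 U (S2 7 36 (S1 18 37 U (S1 19 39 U (S4 5 39 (N 226) (S3 7 40 (N 108) (S1 20 41 U (S1 21 43 U (S1 22 45 U (S1 23 47 U (P 47))))))))) (S1 18 37 U (S1 19 39 U (S4 5 39 (S3 7 40 (S1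 20 41 U (S2 8 41 (N 148) (P 41))) (S1 20 41 U (S2 8 41 (N 374) (P 41)))) (S3 7 40 (S1 20 41 U (S2 8 41 (N 240) (P 41))) (S1 20 41 U (S2 8 41 (S1 21 43 U (S1 22 45 U (S1 23 47 U (P 47)))) (P 41)))))))))) (P 31)))))))) (P 23))
def t36 : T := S2 5 27 (S1 14 29 U (S3 5 29 (S4 4 29 U (S1 15 31 U (S1 16 33 U (S1 17 35 U (S3 6 35 (N 70) (S4 5 36 U (S1 18 37 U (S2 7 38 (N 168) (S1 19 39 U (S1 20 41 U (S1 21 43 U (S4 6 43 U (S1 22 45 U (S1 23 47 U (S1 24 49 U (S4 7 50 U (S1 25 51 U (S1 26 53 U (S1 27 55 U (S1 28 57 U (S4 8 57 (N 156) (S1 29 59 U (S1 30 61 U (S1 31 63 U (S3 11 64 (N 378) (S4 9 64 (N 156) (S1 32 65 U (S2 12 65 (N 406) (P 65))))))))))))))))))))))))))))) (S4 4 29 U (P 29)))) (S1 14 29 U (S3 5 29 (S4 4 29 (N 58) (S1 15 31 U (S1 16 33 U (S1 17 35 U (S3 6 35 (S4 5 36 U (S1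 18 37 U (S1 19 39 U (S1 20 41 U (S3 7 41 (S1 21 43 U (S2 8 43 (N 322) (S4 6 43 U (P 43)))) (S1 21 43 U (S2 8 43 (S4 6 43 U (S1 22 45 U (S1 23 47 U (S1 24 49 U (S4 7 50 U (S1 25 51 U (S1 26 53 U (S1 27 55 U (S1 28 57 U (S4 8 57 U (S1 29 59 U (S1 30 61 U (S1 31 63 U (S4 9 64 (N 64) (S1 32 65 U (P 65)))))))))))))))) (S4 6 43 (N 64) (P 43))))))))) (S4 5 36 (N 144) (S1 18 37 U (S1 19 39 U (S1 20 41 U (S1 21 43 U (S2 8 43 (S4 6 43 (N 86) (S1 22 45 U (S1 23 47 U (S1 24 49 U (S4 7 50 (N 150) (S1 25 51 U (S1 26 53 U (S1 27 55 U (S1 28 57 U (S4 8 57 (N 220) (S1 29 59 U (S1 30 61 U (S1 31 63 U (S3 11 64 (S4 9 64 (N 64) (S1 32 65 U (P 65))) (S4 9 64 (N 220) (S1 32 65 U (P 65))))))))))))))))) (S4 6 43 (N 272) (P 43))))))))))))) (S4 4 29 (N 224) (P 29))))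
def t37 : T := S3 5 29 (S4 4 29 (S1 15 31 U (S1 16 33 U (S1 17 35 U (S3 6 35 (N 210) (S1 18 37 U (S2 7 37 (N 58) (P 37))))))) (S1 15 31 U (S1 16 33 U (S1 17 35 U (S3 6 35 (S4 5 36 (S1 18 37 U (S2 7 37 (N 280) (P 37))) (S1 18 37 U (S2 7 37 (S1 19 39 U (S1 20 41 U (S3 7 41 (S1 21 43 U (S4 6 43 (N 222) (P 43))) (S1 21 43 U (S4 6 43 (S1 22 45 U (S1 23 47 U (S1 24 49 U (S1 25 51 U (S1 26 53 U (S2 10 53 (N 344) (P 53))))))) (P 43)))))) (P 37)))) (S4 5 36 (S1 18 37 U (S2 7 37 (S1 19 39 U (S1 20 41 U (S1 21 43 U (S1 22 45 U (S1 23 47 U (S1 24 49 U (S1 25 51 U (S1 26 53 U (S2 10 53 (S1 27 55 U (S1 28 57 U (S1 29 59 U (P 59)))) (P 53)))))))))) (P 37))) (S1 18 37 U (S2 7 37 (S1 19 39 U (S1 20 41 U (S1 21 43 U (S4 6 43 (S1 22 45 U (S1 23 47 U (S1 24 49 U (S1 25 51 U (S1 26 53 U (S2 10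 53 (S1 27 55 U (S1 28 57 U (S1 29 59 U (P 59)))) (P 53))))))) (P 43))))) (P 37))))))))) (S4 4 29 (S1 15 31 U (S1 16 33 U (S1 17 35 U (S1 18 37 U (S2 7 37 (S1 19 39 U (S1 20 41 U (S1 21 43 U (S1 22 45 U (S1 23 47 U (S1 24 49 U (S1 25 51 U (S4 7 51 (S3 9 52 (N 306) (S1 26 53 U (S2 10 53 (N 408) (P 53)))) (S3 9 52 (S1 26 53 U (S2 10 53 (S1 27 55 U (S1 28 57 U (S1 29 59 U (P 59)))) (P 53))) (S1 26 53 U (S2 10 53 (S1 27 55 U (S1 28 57 U (S1 29 59 U (P 59)))) (P 53)))))))))))) (P 37)))))) (P 29))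
def t38 : T := S2 5 26 (S1 13 27 U (S1 14 29 U (S3 5 29 (S1 15 31 U (S1 16 33 U (S1 17 35 U (S3 6 35 (S1 18 37 U (S4 5 37 (N 140) (P 37))) (S1 18 37 U (S4 5 37 (S1 19 39 U (S1 20 41 U (S1 21 43 U (S1 22 45 U (S1 23 47 U (S2 9 47 (N 214) (P 47))))))) (P 37))))))) (S1 15 31 U (S1 16 33 U (S1 17 35 U (S1 18 37 U (S4 5 37 (S1 19 39 U (S1 20 41 U (S1 21 43 U (S1 22 45 U (S1 23 47 U (S2 9 47 (S1 24 49 U (S1 25 51 U (S3 9 52 (S4 7 52 (N 52) (S1 26 53 U (P 53))) (S4 7 52 (S1 26 53 U (P 53)) (S1 26 53 U (P 53)))))) (P 47))))))) (P 37))))))))) (S1 13 27 U (S1 14 29 U (S3 5 29 (S1 15 31 U (S2 6 31 (S1 16 33 U (S1 17 35 U (S3 6 35 (S1 18 37 U (S4 5 37 (S1 19 39 U (S1 20 41 U (S3 7 41 (N 222) (S1 21 43 U (S1 22 45 U (S1 23 47 U (P 47))))))) (P 37))) (S1 18 37 U (S4 5 37 (S1 19 39 U (S1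 20 41 U (S1 21 43 U (S1 22 45 U (S1 23 47 U (P 47)))))) (P 37)))))) (P 31))) (S1 15 31 U (S2 6 31 (S1 16 33 U (S1 17 35 U (S1 18 37 U (S4 5 37 (S1 19 39 U (S1 20 41 U (S1 21 43 U (S1 22 45 U (S1 23 47 U (P 47)))))) (P 37))))) (P 31))))))
def t39 : T := S4 3 22 (S1 11 23 U (S3 4 23 (S1 12 25 U t38) (P 23))) (S1 11 23 U (S3 4 23 (S1 12 25 U (S2 5 26 (S1 13 27 U (S1 14 29 U (S3 5 29 (S4 4 29 (S1 15 31 U (S1 16 33 U (S1 17 35 U (S3 6 35 (S1 18 37 U (P 37)) (S1 18 37 U (P 37)))))) (S1 15 31 U (S1 16 33 U (S1 17 35 U (S3 6 35 (S4 5 36 (S1 18 37 U (P 37)) (S1 18 37 U (P 37))) (S4 5 36 (S1 18 37 U (P 37)) (S1 18 37 U (P 37)))))))) (S4 4 29 (S1 15 31 U (S1 16 33 U (S1 17 35 U (S1 18 37 U (P 37))))) (P 29))))) (S1 13 27 (N 189) (S1 14 29 (N 350) (S3 5 29 (S4 4 29 (S1 15 31 U (S2 6 31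 (S1 16 33 U (S1 17 35 U (S3 6 35 (S1 18 37 U (P 37)) (S1 18 37 U (P 37))))) (P 31))) (S1 15 31 (N 405) (S2 6 31 (S1 16 33 U (S1 17 35 U (S3 6 35 (S4 5 36 (S1 18 37 U (P 37)) (S1 18 37 U (P 37))) (S4 5 36 (S1 18 37 U (P 37)) (S1 18 37 U (P 37)))))) (P 31)))) (S4 4 29 (S1 15 31 U (S2 6 31 (S1 16 33 U (S1 17 35 U (S1 18 37 U (P 37)))) (P 31))) (P 29))))))) (P 23)))
def t40 : T := S2 2 11 (S3 2 11 (S1 6 13 U (S1 7 15 U (S4 2 15 U (S1 8 17 U (S2 3 17 (S3 3 17 U (S1 9 19 U (S1 10 21 U (S4 3 22 U (S1 11 23 U (S2 4 23 O2 (P 23))))))) (S3 3 17 (S1 9 19 U (S1 10 21 U (S4 3 22 U (S1 11 23 U (S3 4 23 (N 126) (P 23)))))) (P 17))))))) (S1 6 13 U (S1 7 15 U (S4 2 15 (S3 3 16 (S1 8 17 U (S2 3 17 O2 (P 17))) O2) (S3 3 16 (S1 8 17 U (S2 3 17 O2 (P 17))) O2))))) (S3 2 11 (S1 6 13 U (S1 7 15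 U (S4 2 15 (S2 3 16 (S1 8 17 U (S3 3 17 U (P 17))) (S1 8 17 U (S3 3 17 (S1 9 19 U (S1 10 21 U (S2 4 21 (S1 11 23 U (S3 4 23 U (S4 3 23 U (P 23)))) (S1 11 23 U t35)))) (P 17)))) (S2 3 16 (S1 8 17 U (S3 3 17 (S1 9 19 U (S1 10 21 U (S4 3 22 (S1 11 23 U (S3 4 23 U (P 23))) (S1 11 23 U (S3 4 23 (S1 12 25 U (S1 13 27 U t36)) (P 23)))))) (P 17))) (S1 8 17 U (S3 3 17 (S1 9 19 U (S1 10 21 U (S2 4 21 (S4 3 22 (S1 11 23 U (S3 4 23 (S1 12 25 U (S1 13 27 U (S1 14 29 U (S3 5 29 (N 110) (S1 15 31 U (S1 16 33 U (S1 17 35 U (S1 18 37 U (S2 7 37 (N 132) (S4 5 37 (N 362) (P 37))))))))))) (P 23))) (S1 11 23 U (S3 4 23 (S1 12 25 U (S1 13 27 U (S1 14 29 U t37))) (P 23)))) t39))) (P 17))))))) (P 11))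
def t41 : T := S3 1 6 (S4 1 6 (S1 3 7 U (S3 1 7 (S4 1 7 U (S3 1 8 O3 (S1 4 9 U (S1 5 11 U (S2 2 11 U (S1 6 13 U (S4 2 13 U O3))))))) (S4 1 7 (S4 1 8 U (S1 4 9 U (S1 5 11 U (S2 2 11 U (S1 6 13 U (S3 2 13 U (S1 7 15 U (S4 2 15 (N 30) (S2 3 16 U (S1 8 17 U (S1 9 19 U t34))))))))))) (P 7)))) (S1 3 7 U (S3 1 7 O3 (P 7)))) (S4 1 6 (S1 3 7 U (S4 1 7 (S4 1 8 (S1 4 9 U (S4 1 9 (S4 1 10 (N 10) (S1 5 11 U (S2 2 11 U (S3 2 11 U (P 11))))) (S1 5 11 U (S2 2 11 (S3 2 11 U (S1 6 13 U (S1 7 15 U (S3 3 16 U O2)))) (S3 2 11 (S1 6 13 U (S1 7 15 U (S2 3 16 U (S1 8 17 U (S3 3 17 (S4 2 17 U (S1 9 19 U (S1 10 21 U (S2 4 21 U (S1 11 23 U (S3 4 23 (N 40) (S1 12 25 U (S4 3 25 U (S2 5 26 U (S1 13 27 U (S1 14 29 U (S1 15 31 U (S2 6 31 U (S1 16 33 U (S4 4 33 U (S1 17 35 U (S2 7 36 U (S1 18 37 U (S1 19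 39 U (S3 7 40 (N 40) (S1 20 41 U (S2 8 41 U (S4 5 41 (N 90) (P 41)))))))))))))))))))))))) (S4 2 17 (N 110) (P 17))))))) (P 11)))))) (S1 4 9 U (S1 5 11 U t40))) (P 7))) (P 6))
def t42 : T := S1 3 7 (S4 1 7 (S4 1 8 (S3 2 9 U O2) (S3 2 9 U O2)) (S3 2 9 (S2 2 11 O2 (S1 5 12 (S4 2 13 U (S3 3 14 U O2)) (S4 2 13 (S3 3 14 U O2) (S3 3 14 (S2 3 16 O2 (S1 8 19 (S3 4 19 (N 90) O2) (S3 4 19 (S4 3 19 U (S2 4 21 O2 (S3 5 24 (S4 4 25 U (S1 11 26 (N 120) (S2 5 26 O2 (P 26)))) O2))) O2))) O2)))) O2)) (S4 1 7 (S4 1 8 (S1 4 9 (S3 2 9 U O2) (S3 2 9 (S4 1 9 (S4 1 10 (S1 5 11 U (S2 2 11 O2 (S4 1 11 (S4 1 12 (S1 6 13 U (S4 1 13 (N 90) (S3 3 14 U O2))) (S1 6 13 U (S3 3 14 (S1 7 15 U (S2 3 16 O2 (S1 8 17 U (S1 9 19 U (S3 4 19 (S1 10 21 U (S2 4 21 O2 (S1 11 23 U (S4 2 23 U (S3 5 24 (N 110) O2))))) O2)))))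 O2))) (P 11)))) (S1 5 11 U (S2 2 11 O2 (P 11)))) (S1 5 11 (S2 2 11 O2 (S3 3 14 U O2)) (S2 2 11 O2 (P 11)))) O2)) (S1 4 9 (S3 2 9 (S2 2 11 O2 (S3 3 14 (S4 2 15 U (S1 7 16 U (S2 3 16 O2 (P 16)))) O2)) O2) (S3 2 9 (S1 5 11 (S2 2 11 O2 (S3 3 14 (S4 2 15 (S2 3 16 O2 (P 16)) (S2 3 16 O2 (P 16))) O2)) (S2 2 11 O2 (P 11))) O2))) (P 7))
def t43 : T := S2 5 23 (S1 12 25 U (S4 3 25 U (S1 13 27 U (S1 14 29 U (S1 15 31 U (S3 5 32 (N 32) (S1 16 33 U (S4 4 33 U (P 33))))))))) (S1 12 25 U (S4 3 25 (S1 13 27 U (S1 14 29 U (S1 15 31 U (S2 7 32 U (S3 5 32 (N 108) (S1 16 33 U (S1 17 35 U (S1 18 37 U (S1 19 39 U (S1 20 41 U (S2 9 41 U (S4 5 42 (N 126) (S1 21 43 U (S1 22 45 U (S1 23 47 U (S1 24 49 U (S2 11 50 (N 50) (S1 25 51 U (S3 8 51 (N 108) (P 51)))))))))))))))))))) (S1 13 27 U (S1 14 29 U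 (S1 15 31 U (S2 7 32 (S3 5 32 (N 32) (S1 16 33 U (S4 4 33 (N 82) (P 33)))) (S3 5 32 (S1 16 33 U (S4 4 33 (N 198) (P 33))) (S1 16 33 U (S4 4 33 (S1 17 35 U (S1 18 37 U (S1 19 39 U (S1 20 41 U (S2 9 41 (N 82) (S1 21 43 U (S1 22 45 U (S1 23 47 U (S1 24 49 U (S2 11 50 (N 272) (S1 25 51 U (S3 8 51 (S1 26 53 U (S1 27 55 U (S1 28 57 U (S4 7 58 (N 306) (S1 29 59 U (S2 13 59 (N 140) (P 59))))))) (P 51))))))))))))) (P 33))))))))))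
def t44 : T := S1 9 19 U (S4 2 19 (S3 3 20 (S1 10 21 U (S2 5 21 U (P 21))) (S1 10 21 U (S2 5 21 U (P 21)))) (S3 3 20 (S1 10 21 U (S2 5 21 (N 126) (P 21))) (S1 10 21 U (S2 5 21 (S1 11 23 U (S1 12 25 U (S1 13 27 U (S4 3 28 (N 84) (S1 14 29 U (S1 15 31 U (S1 16 33 U (S3 5 33 (S1 17 35 U (S1 18 37 U (S4 4 37 U (S2 9 38 (N 198) (S1 19 39 U (S1 20 41 U (S1 21 43 U (S1 22 45 U (S4 5 46 (N 46) (S1 23 47 U (P 47))))))))))) (S1 17 35 U (S1 18 37 U (S4 4 37 (S2 9 38 (N 156) (S1 19 39 U (S1 20 41 U (S1 21 43 U (S1 22 45 U (S3 7 46 (N 46) (S1 23 47 U (P 47)))))))) (S2 9 38 (S1 19 39 U (S1 20 41 U (S1 21 43 U (S1 22 45 U (S3 7 46 (S4 5 46 U (S1 23 47 U (P 47))) (S4 5 46 (N 156) (S1 23 47 U (P 47)))))))) (S1 19 39 U (S1 20 41 U (S1 21 43 U (S1 22 45 U (S3 7 46 (S4 5 46 (N 46) (S1 23 47 U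 (P 47))) (S4 5 46 (S1 23 47 U (P 47)) (S1 23 47 U (P 47)))))))))))))))))))) (P 21)))))
def t45 : T := S4 1 10 (S1 5 11 U (S4 1 11 (S4 1 12 (N 12) (S1 6 13 U (S2 3 13 U (S3 2 13 U (P 13))))) (S1 6 13 U (S2 3 13 U (S3 2 13 (S1 7 15 U (S1 8 17 U (S2 4 17 U (S1 9 19 U (S3 3 20 (N 20) (S1 10 21 U (S2 5 21 U (S4 2 21 (N 52) (P 21))))))))) (P 13)))))) (S1 5 11 U (S1 6 13 U (S2 3 13 (S3 2 13 U (S1 7 15 U (S1 8 17 U (S1 9 19 U (S3 3 19 (N 234) (S4 2 19 (S1 10 21 U (S2 5 22 (N 66) (S1 11 23 U (S1 12 25 U (S3 4 25 U (S1 13 27 U (S1 14 29 U (S4 3 29 (S1 15 31 U (S3 5 31 U (P 31))) (S1 15 31 U (S3 5 31 U (P 31))))))))))) (P 19))))))) (S3 2 13 (S1 7 15 U (S1 8 17 U (S2 4 17 (S1 9 19 U (S4 2 19 U (S3 3 20 U (S1 10 21 U (S1 11 23 U (S1 12 25 U (S1 13 27 U (S4 3 28 U (S1 14 29 U (S2 7 30 (N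 90) (S1 15 31 U (S1 16 33 U (S3 5 33 (N 72) (S1 17 35 U (S1 18 37 U (S4 4 37 U (S1 19 39 U (S1 20 41 U (S1 21 43 U (S1 22 45 U (S3 7 46 (N 72) (S4 5 46 U (S1 23 47 U (S2 11 47 (N 162) (P 47))))))))))))))))))))))))) t44))) (P 13)))))
def t46 : T := S2 5 23 (S4 3 23 (S1 12 25 U (S1 13 27 U (S1 14 29 U (S1 15 31 U (S4 4 31 (S1 16 33 U (S3 5 33 (N 46) (P 33))) (S1 16 33 U (S3 5 33 (N 46) (P 33)))))))) (S1 12 25 U (S1 13 27 U (S1 14 29 U (S1 15 31 U (S1 16 33 U (S3 5 33 (S1 17 35 U (S1 18 37 U (S2 8 37 (S4 5 38 (N 296) (S1 19 39 U (S1 20 41 U (S1 21 43 U (S1 22 45 U (S1 23 47 U (P 47))))))) (S4 5 38 (S1 19 39 U (S1 20 41 U (S1 21 43 U (S1 22 45 U (S1 23 47 U (P 47)))))) (S1 19 39 U (S1 20 41 U (S1 21 43 U (S1 22 45 U (S1 23 47 U (P 47)))))))))) (P 33)))))))) (S4 3 23 (S1 12 25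 U (S1 13 27 U (S1 14 29 U (S1 15 31 U (S4 4 31 (S2 7 32 (S1 16 33 U (S3 5 33 (N 178) (P 33))) (S1 16 33 U (S3 5 33 (S1 17 35 U (S1 18 37 U (S1 19 39 U (S4 5 39 (S1 20 41 U (S2 9 41 (N 132) (P 41))) (S1 20 41 U (S2 9 41 (S1 21 43 U (S1 22 45 U (S1 23 47 U (P 47)))) (P 41))))))) (P 33)))) (S2 7 32 (S1 16 33 U (S3 5 33 (S1 17 35 U (S1 18 37 U (S1 19 39 U (S1 20 41 U (S1 21 43 U (S1 22 45 U (S1 23 47 U (P 47)))))))) (P 33))) (S1 16 33 U (S3 5 33 (S1 17 35 U (S1 18 37 U (S1 19 39 U (S1 20 41 U (S2 9 41 (S1 21 43 U (S1 22 45 U (S1 23 47 U (P 47)))) (P 41)))))) (P 33))))))))) (P 23))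
def t47 : T := S1 8 17 U (S1 9 19 U (S3 3 20 (S1 10 21 U (S1 11 23 U (S2 5 23 (S4 3 23 U (S1 12 25 U (S1 13 27 U (S3 4 27 (N 202) (S1 14 29 U (S1 15 31 U (S1 16 33 U (S1 17 35 U (S1 18 37 U (S2 8 37 (N 60) (S4 5 38 (N 220) (S1 19 39 U (S1 20 41 U (S1 21 43 U (S1 22 45 U (S1 23 47 U (S3 7 47 (N 322) (P 47)))))))))))))))))) (S4 3 23 (S1 12 25 U (S1 13 27 U (S3 4 27 (S1 14 29 U (S1 15 31 U (S4 4 31 (N 54) (S2 7 32 U (S1 16 33 U (S3 5 34 (N 306) (S1 17 35 U (S1 18 37 U (S1 19 39 U (S1 20 41 U (S2 9 41 (N 168) (P 41)))))))))))) (S1 14 29 U (S1 15 31 U (S4 4 31 (S2 7 32 U (S1 16 33 U (S1 17 35 U (S1 18 37 U (S1 19 39 U (S4 5 39 (S1 20 41 U (S2 9 41 U (P 41))) (S1 20 41 U (S2 9 41 (N 100) (P 41))))))))) (S2 7 32 (N 160) (S1 16 33 U (S1 17 35 U (S1 18 37 U (S1 19 39 U (S1 20 41 U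 (S2 9 41 (N 460) (P 41)))))))))))))) (P 23))))) (S1 10 21 U (S1 11 23 U t46))))
def t48 : T := S3 3 19 (S1 10 21 U (S1 11 23 U (S4 3 23 (N 38) (S2 5 24 (N 120) (S1 12 25 U (S1 13 27 U (S1 14 29 U (S1 15 31 U (S3 5 32 (S1 16 33 U (S1 17 35 U (S1 18 37 U (S4 5 38 (N 38) (S1 19 39 U (P 39)))))) (S1 16 33 U (S1 17 35 U (S1 18 37 U (S4 5 38 (N 38) (S1 19 39 U (P 39))))))))))))))) (S1 10 21 U (S1 11 23 U (S4 3 23 (S2 5 24 (S1 12 25 U (S3 4 25 (N 168) (P 25))) (S1 12 25 U (S3 4 25 (S1 13 27 U (S1 14 29 U (S1 15 31 U (S4 4 31 (N 356) (S1 16 33 U (S1 17 35 U (S1 18 37 U (S1 19 39 U (P 39))))))))) (P 25)))) (S2 5 24 (S1 12 25 U (S3 4 25 (S1 13 27 U (S1 14 29 U (S2 6 29 (S1 15 31 U (S1 16 33 U (S2 7 34 (N 150) (S1 17 35 U (S1 18 37 U (S4 5 38 (N 106) (S1 19 39 U (P 39)))))))) (S1 15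 31 U (S1 16 33 U (S1 17 35 U (S1 18 37 U (S4 5 38 (N 456) (S1 19 39 U (P 39)))))))))) (P 25))) (S1 12 25 U (S3 4 25 (S1 13 27 U (S1 14 29 U (S1 15 31 U (S1 16 33 U (S1 17 35 U (S1 18 37 U (S4 5 38 (S1 19 39 U (P 39)) (S1 19 39 U (P 39))))))))) (P 25)))))))
def t49 : T := S2 3 14 (S1 7 15 U (S4 2 15 (S1 8 17 U (S1 9 19 U (S2 4 19 t48 (S3 3 19 (S1 10 21 U (S1 11 23 U (S4 3 23 (S1 12 25 U (S1 13 27 U (S1 14 29 U (S1 15 31 U (S4 4 31 (S3 5 32 (N 224) (S1 16 33 U (S2 7 33 (N 240) (P 33)))) (S3 5 32 (S1 16 33 U (S2 7 33 (N 160) (P 33))) (S1 16 33 U (S2 7 33 (S1 17 35 U (S1 18 37 U (S1 19 39 U (P 39)))) (P 33))))))))) (S1 12 25 U (S1 13 27 U (S1 14 29 U (S1 15 31 U (S3 5 32 (S1 16 33 U (S2 7 33 (S1 17 35 U (S1 18 37 U (S4 5 38 (S1 19 39 U (P 39)) (S1 19 39 U (P 39))))) (P 33))) (S1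 16 33 U (S2 7 33 (S1 17 35 U (S1 18 37 U (S4 5 38 (S1 19 39 U (P 39)) (S1 19 39 U (P 39))))) (P 33))))))))))) (P 19))))) (P 15))) (S1 7 15 (N 90) (S4 2 15 (S1 8 17 U (S1 9 19 U (S3 3 19 (S1 10 21 U (S1 11 23 U (S2 5 23 (S4 3 23 (S1 12 25 U (S1 13 27 U (S1 14 29 U (S1 15 31 U (S4 4 31 (S3 5 32 (S1 16 33 U (P 33)) (S1 16 33 U (P 33))) (S3 5 32 (S1 16 33 U (P 33)) (S1 16 33 U (P 33)))))))) (S1 12 25 U (S1 13 27 U (S1 14 29 U (S1 15 31 U (S3 5 32 (S1 16 33 U (P 33)) (S1 16 33 U (P 33)))))))) (S4 3 23 (S1 12 25 U (S1 13 27 U (S1 14 29 U (S1 15 31 U (S4 4 31 (S2 7 32 (S3 5 32 (S1 16 33 U (P 33)) (S1 16 33 U (P 33))) (S3 5 32 (S1 16 33 U (P 33)) (P 32))) (S2 7 32 (S3 5 32 (S1 16 33 U (P 33)) (S1 16 33 U (P 33))) (S3 5 32 (S1 16 33 U (P 33)) (P 32)))))))) (P 23))))) (P 19)))) (P 15)))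
def t50 : T := S4 1 8 (S1 4 9 U (S2 2 9 (S4 1 9 (N 18) (S1 5 11 U (S1 6 13 U (S3 2 13 (S2 3 14 U (S1 7 15 U (S1 8 17 U (S4 2 17 U (S1 9 19 U (S3 3 20 U (S1 10 21 U (S1 11 23 U (S2 5 23 U (S1 12 25 U (S4 3 25 U (S1 13 27 U (S1 14 29 U (S1 15 31 U (S2 7 32 U (S1 16 33 U (S3 5 33 (N 72) (S4 4 33 U (P 33))))))))))))))))))) (S2 3 14 (S1 7 15 U (S1 8 17 U (S4 2 17 (N 42) (S1 9 19 U (S2 4 19 (S3 3 19 U (S1 10 21 U (S1 11 23 U (S2 5 24 (N 24) (S1 12 25 U (S3 4 25 U (S4 3 25 U (P 25)))))))) (S3 3 19 U (P 19))))))) (S1 7 15 U (S1 8 17 U (S4 2 17 (S1 9 19 U (S3 3 19 U (P 19))) (S1 9 19 U (S3 3 19 (S1 10 21 U (S1 11 23 U t43)) (P 19))))))))))) (S4 1 9 t45 (P 9)))) (S1 4 9 (S2 2 9 U (S2 3 13 U (S3 2 13 U (S4 2 15 U (S1 7 16 U (S2 4 17 U (S3 3 19 U (S2 5 21 U (S4 3 22 U (S1 11 25 (N 84)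 (S2 6 25 U (S3 4 25 U (P 25))))))))))))) (S2 2 9 (S1 5 11 U (S1 6 13 U (S3 2 13 (S2 3 14 (S1 7 15 U (S4 2 15 (S1 8 17 U (S1 9 19 U (S2 4 19 U (S3 3 20 U (S1 10 21 U (S1 11 23 U (S4 3 23 (N 84) (S1 12 25 U (S1 13 27 U (S1 14 29 U (S1 15 31 U (S1 16 33 U (S2 7 33 (N 240) (S3 5 33 (N 112) (P 33))))))))))))))) (P 15))) (S1 7 15 U (S4 2 15 t47 (P 15)))) t49))) (P 9)))
def t51 : T := S1 3 7 (S3 1 7 U (S4 1 7 U (S2 2 9 U (S1 5 12 (N 12) (S2 3 13 U (S3 2 13 (N 84) (S4 2 13 (N 84) (P 13)))))))) (S3 1 7 (S4 1 7 (S3 1 8 (S4 1 8 (N 8) (S1 4 9 U (S2 2 9 U (S3 1 9 O3 (P 9))))) (S4 1 8 (S1 4 9 U (S2 2 9 U (S4 1 9 (S4 1 10 U (S1 5 11 U (S1 6 13 U (S2 3 13 U (S1 7 15 U (S3 2 15 U (S1 8 17 U (S2 4 17 U (S1 9 19 U (S4 2 19 (N 28) (S1 10 21 U (S2 5 21 U (S3 3 22 U (S1 11 23 U (S1 12 25 U (S2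 6 25 U (S1 13 27 U (S4 3 28 (N 28) (S1 14 29 U (S2 7 29 U (S3 4 29 (N 36) (P 29)))))))))))))))))))))) (P 9)))) (S1 4 9 U (S2 2 9 (S1 5 11 U (S1 6 13 U (S2 3 14 (N 14) (S1 7 15 U (S3 2 15 (N 90) (S4 2 15 (N 90) (P 15))))))) (P 9))))) (S3 1 8 O3 (S1 4 9 (S2 2 9 U (S2 3 13 U (S4 2 13 U O3))) (S2 2 9 (S1 5 11 U (S1 6 13 U (S4 2 13 (S2 3 14 (S1 7 15 U (S3 2 15 O3 (P 15))) (S1 7 15 U (S3 2 15 O3 (P 15)))) O3))) (P 9))))) (S4 1 7 t50 (P 7)))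
def t52 : T := S4 1 8 (S2 2 9 U (S4 1 9 U (S3 2 11 U (S1 5 12 U (S2 3 13 U (S3 3 16 U (S2 4 17 U (S4 2 17 U (P 17))))))))) (S2 2 9 U (S3 2 11 (S1 5 12 U (S2 3 13 U (S4 2 15 U (S2 4 17 U (S3 3 17 (N 28) (P 17)))))) (S1 5 12 (S2 3 13 U (S4 2 15 (N 60) (S3 3 16 U (S1 7 17 (S2 4 17 U (S2 5 21 U (S3 4 21 U (S1 9 22 (S4 3 22 U (S2 6 25 U (S3 5 26 U (S1 11 27 (S2 7 29 U (S4 4 29 U (S3 6 31 U (S1 13 32 (N 140) (S2 8 33 U (S3 7 36 U (S4 5 36 U (S2 9 37 U (P 37))))))))) (S2 7 29 U (S4 4 29 U (S3 6 31 U (S2 8 33 U (S3 7 36 U (S4 5 36 (N 100) (S2 9 37 U (P 37)))))))))))) (S4 3 22 (N 80) (P 22)))))) (S2 4 17 U (P 17)))))) (S2 3 13 (S4 2 15 U (S3 3 16 U (S1 8 19 U (S3 4 21 U (S2 5 22 (N 35) (S4 3 22 U (P 22))))))) (S4 2 15 (S3 3 16 (N 112) (S2 4 17 U (P 17))) (S3 3 16 (S2 4 17 U (P 17))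 (S2 4 17 (S1 8 19 (N 140) (S3 4 21 U (S4 3 22 (S1 11 26 U (S3 5 26 U (P 26))) (P 22)))) (P 17))))))))
def t53 : T := S2 5 23 (S4 4 25 (N 225) (S3 5 26 U (S1 13 31 (S3 6 31 U (S4 5 31 (N 124) (S3 7 36 (N 138) (S2 8 37 (S4 6 37 U (S3 8 41 U (S1 18 43 (S4 7 43 U (S3 9 46 U (S4 8 49 (N 245) (S2 11 51 (S3 10 51 U (S1 23 55 (S4 9 55 U (S3 11 56 U (P 56))) (S4 9 55 (N 250) (S3 11 56 U (P 56))))) (S3 10 51 U (P 51)))))) (S4 7 43 (N 245) (P 43))))) (S4 6 37 (N 345) (P 37)))))) (S3 6 31 (N 216) (S4 5 31 (N 285) (P 31)))))) (S4 4 25 (S3 5 26 U (S1 13 31 (S3 6 31 U (S2 7 32 (N 50) (P 32))) (S3 6 31 U (S2 7 32 (N 425) (P 32))))) (S3 5 26 (S1 13 31 (S4 5 31 U (S2 7 32 U (P 32))) (S4 5 31 U (S2 7 32 (N 114) (P 32)))) (S1 13 31 (S3 6 31 (S4 5 31 U (S2 7 32 (N 155) (P 32))) (S4 5 31 (S2 7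 32 (N 155) (P 32)) (S2 7 32 (S3 7 36 (N 288) (S4 6 37 (S3 8 41 U (S1 18 43 (N 160) (S3 9 46 U (P 46)))) (P 37))) (P 32)))) (S3 6 31 (S4 5 31 (N 216) (S2 7 32 (S4 6 37 U (P 37)) (P 32))) (S4 5 31 (S2 7 32 (S3 7 36 U (S3 8 41 U (S3 9 46 U (P 46)))) (P 32)) (P 31))))))
def t54 : T := S2 3 14 (S3 3 16 U (S1 8 19 (S2 4 19 (N 90) (S4 3 19 U (S3 4 21 U (S4 4 25 U (S3 5 26 U (S1 13 31 (S3 6 31 U (S4 5 31 U (S2 7 33 (N 150) (S3 7 36 U (S4 6 37 U (S3 8 41 U (S1 18 43 (N 210) (S4 7 43 U (P 43))))))))) (S3 6 31 U (S4 5 31 U (P 31))))))))) (S2 4 19 (S4 3 19 U (S3 4 21 U (S2 5 24 (S4 4 25 U (S1 11 26 (N 120) (S3 5 26 U (P 26)))) (S4 4 25 (N 175) (S1 11 26 (S3 5 26 U (S3 6 31 U (S4 5 31 U (P 31)))) (S3 5 26 (N 114) (P 26))))))) (S4 3 19 (S3 4 21 U (S1 11 26 U (S3 5 26 U (P 26)))) (P 19)))))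 (S3 3 16 (S1 8 19 U (S4 3 19 U (P 19))) (S1 8 19 (S4 3 19 (S3 4 21 U (S2 5 23 U (S3 5 26 U (S1 13 31 (N 310) (S3 6 31 U (S2 7 32 U (S4 5 32 (S3 7 36 U (S2 9 41 U (S3 8 41 U (P 41)))) (P 32)))))))) (S3 4 21 (S2 5 23 U (S4 4 25 U (S1 13 31 (N 126) (S4 5 31 U (S2 7 32 U (P 32)))))) t53)) (S4 3 19 (S3 4 21 (N 63) (S2 5 23 (S1 11 26 (N 170) (S3 5 26 U (P 26))) (S1 11 26 (S3 5 26 U (S3 6 31 U (S2 7 32 (S4 5 32 (N 160) (S3 7 36 U (S3 8 41 U (S1 19 45 (N 265) (S3 9 46 U (P 46)))))) (S4 5 32 (S3 7 36 U (S2 9 41 (N 255) (S3 8 41 U (P 41)))) (P 32))))) (S3 5 26 (S2 7 32 U (S4 5 32 (N 364) (P 32))) (P 26))))) (P 19))))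
def t55 : T := S1 5 12 (S4 2 13 U (S2 3 14 U (S3 3 16 U (S1 7 17 (S4 3 19 U (S3 4 21 U (S1 9 22 (N 90) (S2 5 23 U (S4 4 25 U (S3 5 26 U (S3 6 31 U (S4 5 31 U (S2 7 32 U (P 32)))))))))) (S4 3 19 U (S3 4 21 U (S2 5 23 (S4 4 25 U (S3 5 26 U (S1 12 29 (N 174) (S3 6 31 U (S4 5 31 U (S3 7 36 U (S2 8 37 (N 60) (S4 6 37 U (P 37))))))))) (S4 4 25 (N 175) (S3 5 26 (N 36) (S1 12 29 (S3 6 31 U (S4 5 31 U (S2 7 32 (N 210) (P 32)))) (S3 6 31 (N 36) (S4 5 31 (S2 7 32 U (P 32)) (S2 7 32 (S3 7 36 U (S4 6 37 U (P 37))) (P 32)))))))))))))) (S4 2 13 (S2 3 14 U (S3 3 16 U (S1 8 19 U (S4 3 20 (S3 4 21 U (S2 5 23 U (S1 11 26 U (S3 5 26 U (S4 4 27 (N 135) (S3 6 31 U (S2 7 32 U (S1 14 33 U (S3 7 36 U (S1 17 40 U (S2 9 41 (N 100) (S3 8 41 U (P 41))))))))))))) (S3 4 21 U (S2 5 23 (N 455) (S1 11 26 (N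 130) (S3 5 26 U (S3 6 31 (N 175) (S2 7 32 (S1 14 33 U (S4 5 33 (N 105) (P 33))) (S1 14 33 (S4 5 33 (N 99) (S3 7 36 U (S2 9 41 U (S3 8 41 U (P 41))))) (S4 5 33 (S3 7 36 U (S1 17 40 (N 270) (S2 9 41 (N 455) (S3 8 41 U (P 41))))) (P 33))))))))))))) t54)
def t56 : T := S4 3 20 (S2 5 21 U (S3 4 23 (S2 6 25 U (S1 11 26 U (S4 4 27 (S2 7 29 U (S3 5 29 (N 168) (P 29))) (S2 7 29 U (S3 5 29 (S1 14 33 U (S2 8 33 U (S3 6 35 (N 140) (S2 9 37 U (S1 17 40 U (S2 10 41 U (P 41))))))) (P 29)))))) (S2 6 25 U (S1 11 26 (N 260) (S4 4 27 (S2 7 29 U (P 29)) (S2 7 29 U (P 29))))))) (S2 5 21 U (S3 4 23 (S2 6 25 U (S1 11 26 (S2 7 29 U (S3 5 29 (N 52) (P 29))) (S2 7 29 U (S3 5 29 (S1 14 33 (S2 8 33 U (S4 5 33 (N 132) (S3 6 35 (N 344) (S2 9 37 U (S2 10 41 U (P 41)))))) (S2 8 33 U (S4 5 33 (S3 6 35 (S2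 9 37 U (S1 17 40 (N 204) (S2 10 41 U (S3 7 41 (S2 11 45 U (S1 20 47 U (S3 8 47 (S2 12 49 U (S2 13 53 U (S3 9 53 (S4 8 53 (N 212) (S1 23 54 U (P 54))) (S4 8 53 (N 364) (P 53))))) (P 47)))) (P 41))))) (S2 9 37 U (S1 17 40 (N 336) (S2 10 41 U (P 41))))) (P 33)))) (P 29))))) (S2 6 25 (N 175) (S1 11 26 (S2 7 29 U (P 29)) (S2 7 29 (S1 14 33 U (S4 5 33 (N 198) (S1 17 40 U (S3 7 40 (N 91) (P 40))))) (P 29))))))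
def t57 : T := S2 3 13 (S4 2 13 (S3 3 16 U (S1 7 17 U (S4 3 20 U (P 27)))) (S3 3 16 (S1 7 17 U (S4 3 19 U (S2 5 22 (N 48) (P 22)))) (S1 7 17 (S4 3 19 (S3 4 21 U (S1 9 22 U (P 27))) (S3 4 21 (N 420) (S1 9 22 (S2 5 22 (S4 4 25 U (S3 5 26 U (S1 11 27 (S2 7 31 (N 270) (S3 6 31 U (S4 5 31 U (P 31)))) (P 27)))) (S4 4 25 (N 325) (S3 5 26 (N 78) (S1 11 27 (S3 6 31 (N 108) (S4 5 31 (N 130) (P 31))) (P 27))))) (P 27)))) (P 27)))) (S4 2 13 (S3 3 16 (S1 7 17 (S2 4 17 U (S4 3 20 (N 80) (S2 5 21 U (S1 9 22 (S2 6 25 U (S1 11 27 (N 208) (S3 5 27 (N 156) (P 27)))) (P 22))))) (P 22)) (S1 7 17 (S2 4 17 (S4 3 20 U (S3 4 21 U (S1 9 22 (N 110) (P 22)))) (S4 3 20 (S2 5 21 (N 340) (S3 4 21 (S1 9 22 (N 220) (P 22)) (P 21))) (S2 5 21 (S3 4 21 U (S1 9 22 (S3 5 26 U (S1 11 27 (N 130) (P 27))) (P 22)))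 (S3 4 21 (S1 9 22 (S2 6 25 U (S1 11 27 (S2 7 29 U (S1 13 32 (S2 8 33 U (S4 5 33 (N 204) (P 33))) (S2 8 33 U (S4 5 33 (N 336) (P 33))))) (P 27))) (P 22)) (P 21))))) (P 22))) (P 13))
def t58 : T := S3 2 11 (S1 5 12 (S2 3 13 U (S4 2 13 (S1 7 17 U (S2 4 17 U (S3 3 17 U (P 17)))) (P 13))) (S2 3 13 (S4 2 13 U (S3 3 17 (S1 8 19 U (S4 3 19 U (P 19))) (S1 8 19 (S4 3 19 U (S2 5 22 U (S4 4 25 U (S3 5 28 U (S1 13 31 (N 143) (S4 5 31 U (P 31))))))) (S4 3 19 (N 247) (P 19))))) (S4 2 13 (S2 4 17 (N 357) (S3 3 17 (S1 8 19 (S4 3 20 U (S2 5 21 U (S3 4 23 (N 247) (S2 6 25 U (S2 7 29 U (P 29)))))) t56) (P 17))) (P 13)))) (S1 5 12 t57 (S2 3 13 (S4 2 13 (S3 3 16 (S1 8 19 U (S4 3 20 U (S2 5 22 U (P 22)))) (S1 8 19 (S4 3 20 (S3 4 21 U (S2 5 22 (N 140) (P 22))) (P 27)) (S4 3 20 (S3 4 21 (N 273) (S2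 5 22 (S1 11 26 (S3 5 26 U (S4 4 27 (N 189) (P 27))) (S3 5 26 (N 140) (S4 4 27 (S2 7 31 (S3 6 31 U (S1 14 33 (N 155) (S4 5 34 (S3 7 36 U (P 36)) (S3 7 36 U (P 36))))) (S3 6 31 U (P 31))) (P 27)))) (P 22))) (P 27)))) (S3 3 16 (S1 8 19 (S4 3 19 U (S2 5 22 (S4 4 25 U (S3 5 27 (S1 13 31 (N 162) (S2 7 31 (N 216) (S4 5 31 U (P 31)))) (P 27))) (P 22))) (S4 3 19 (S2 5 22 (S1 11 26 U (S3 5 27 (N 189) (P 27))) (P 22)) (P 19))) (P 27))) (P 22)))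
def t59 : T := S2 3 13 (S1 7 16 U (S3 3 16 U (S4 2 17 U (S3 4 21 U (S2 5 22 U (S1 11 25 U (S4 3 25 U (S3 5 26 U (S3 6 31 U (S4 4 33 U (S1 15 34 U (S2 8 35 (N 135) (S3 7 36 U (S3 8 41 U (S4 5 41 U (P 41)))))))))))))))) (S1 7 16 (S3 3 16 (N 16) (S2 4 17 U (S4 2 17 (S2 5 21 U (S3 4 21 U (P 21))) (P 17)))) (S3 3 16 (S2 4 17 U (S4 2 17 (N 144) (P 17))) (S2 4 17 (S4 2 17 U (S3 4 21 U (S1 11 25 (S4 3 25 U (S3 5 26 U (P 26))) (S4 3 25 (N 225) (S3 5 26 U (P 26)))))) (S4 2 17 (S2 5 21 (S3 4 21 U (S1 11 25 U (S3 5 26 U (S4 3 26 (N 130) (P 26))))) (S3 4 21 (S1 11 25 (N 68) (S2 6 25 U (S4 3 26 (S2 7 29 U (S2 8 33 U (S1 15 34 U (S4 4 35 (N 236) (S2 9 37 U (S3 7 37 (N 216) (P 37))))))) (S2 7 29 U (S2 8 33 U (S1 15 34 (N 68) (S2 9 37 U (S3 7 37 (S2 10 41 U (S1 19 43 (N 280) (S4 5 43 (S2 11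 45 U (S2 12 49 U (S1 23 52 U (S2 13 53 U (S3 10 53 (N 180) (P 53)))))) (P 43)))) (P 37))))))))) (P 21))) (P 17)))))
def t60 : T := S2 5 23 (S1 12 25 U (S4 2 25 U (S3 5 26 U (S1 13 27 U (S1 14 29 U (S1 15 31 U (S3 6 31 U (S1 16 33 U (S1 17 35 U (S3 7 36 U (S1 18 37 U (S2 8 37 (N 60) (S4 3 37 (N 110) (P 37)))))))))))))) (S1 12 25 U (S4 2 25 (S3 5 26 U (S1 13 27 U (S1 14 29 U (S1 15 31 U (S3 6 31 U (S2 7 32 (N 50) (S1 16 33 U (S1 17 35 U (S3 7 36 U (S1 18 37 U (S4 3 38 (S1 19 39 U (S1 20 41 U (S2 9 41 (N 50) (S3 8 41 U (P 41))))) (S1 19 39 U (S1 20 41 U (S2 9 41 (N 50) (S3 8 41 U (P 41)))))))))))))))) (S3 5 26 (N 36) (S1 13 27 U (S1 14 29 U (S1 15 31 U (S3 6 31 (N 36) (S2 7 32 (S1 16 33 U (S1 17 35 U (S3 7 36 U (S1 18 37 U (S4 3 37 (N 160) (P 37)))))) (S1 16 33 U (S1 17 35 U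 (S3 7 36 (N 36) (S1 18 37 U (S4 3 37 (S1 19 39 U (S1 20 41 U (S2 9 41 (S3 8 41 U (S1 21 43 U (S1 22 45 U (S3 9 46 U (S1 23 47 U (S1 24 49 U (S1 25 51 U (S3 10 51 U (P 51))))))))) (S3 8 41 (N 148) (P 41))))) (P 37))))))))))))))
def t61 : T := S1 21 43 U (S2 9 43 (S1 22 45 U (S4 4 45 (N 90) (S3 9 46 U (S1 23 47 U (S1 24 49 U (S1 25 51 U (S3 10 51 U (S1 26 53 U (S1 27 55 U (S3 11 56 U (S4 5 56 (N 100) (S1 28 57 U (S1 29 59 U (S1 30 61 U (S3 12 61 U (S1 31 63 U (S1 32 65 U (S3 13 66 U (S1 33 67 U (S2 14 67 (N 110) (S4 6 67 (N 100) (P 67)))))))))))))))))))))) (S1 22 45 U (S4 4 45 (N 90) (S3 9 46 U (S1 23 47 U (S1 24 49 U (S1 25 51 U (S3 10 51 U (S1 26 53 U (S1 27 55 U (S3 11 56 (N 66) (S4 5 56 (N 190) (S1 28 57 U (S1 29 59 U (S1 30 61 U (S3 12 61 (N 66) (S2 13 62 (S1 31 63 U (S1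 32 65 U (S3 13 66 U (S1 33 67 U (S4 6 67 (N 100) (P 67)))))) (S1 31 63 U (S1 32 65 U (S3 13 66 (N 66) (S1 33 67 U (S4 6 67 (S1 34 69 U (S1 35 71 U (S3 14 71 U (S1 36 73 U (S1 37 75 U (S3 15 76 U (S1 38 77 U (S1 39 79 U (S1 40 81 U (S2 17 81 (N 100) (S3 16 81 U (P 81)))))))))))) (P 67)))))))))))))))))))))))
def t62 : T := S4 3 34 (S1 17 35 U (S3 7 36 U (S1 18 37 U (S1 19 39 U (S1 20 41 U (S3 8 41 U (S1 21 43 U (S1 22 45 U (S3 9 46 U (S1 23 47 U (S1 24 49 U (S1 25 51 U (S3 10 51 U (S2 11 52 (N 170) (S1 26 53 U (S1 27 55 U (S3 11 56 U (S1 28 57 U (S4 5 57 (N 330) (P 57)))))))))))))))))))) (S1 17 35 U (S3 7 36 U (S1 18 37 U (S1 19 39 U (S1 20 41 U (S3 8 41 (N 66) (S1 21 43 U (S1 22 45 U (S4 4 45 (S3 9 46 U (S1 23 47 U (S1 24 49 U (S1 25 51 U (S3 10 51 U (S2 11 52 (S1 26 53 U (S1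 27 55 U (S3 11 56 U (S1 28 57 U (P 57))))) (S1 26 53 U (S1 27 55 U (S3 11 56 U (S1 28 57 U (P 57))))))))))) (S3 9 46 (N 66) (S1 23 47 U (S1 24 49 U (S1 25 51 U (S3 10 51 (N 66) (S2 11 52 (S1 26 53 U (S1 27 55 U (S3 11 56 (N 66) (S4 5 56 (S1 28 57 U (P 57)) (S1 28 57 U (P 57)))))) (S1 26 53 U (S1 27 55 U (S3 11 56 (N 66) (S4 5 56 (S1 28 57 U (P 57)) (S1 28 57 U (P 57)))))))))))))))))))))
def t63 : T := S4 3 34 (S1 17 35 U (S3 7 36 U (S1 18 37 U (S1 19 39 U (S1 20 41 U (S3 8 41 U (S1 21 43 U (S1 22 45 U (S3 9 46 (N 56) (S1 23 47 U (S2 10 47 (S1 24 49 U (S1 25 51 U (S3 10 51 U (S1 26 53 U (S1 27 55 U (S3 11 56 U (S1 28 57 U (S4 5 57 (S1 29 59 U (S1 30 61 U (S3 12 61 U (S1 31 63 U (S1 32 65 U (S3 13 66 U (S1 33 67 U (S1 34 69 U (S1 35 71 U (S3 14 71 U (P 71))))))))))) (P 57)))))))))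 (P 47)))))))))))) (S1 17 35 U (S3 7 36 (N 154) (S1 18 37 U (S1 19 39 U (S1 20 41 U (S3 8 41 (S1 21 43 U (S1 22 45 U (S4 4 45 (N 56) (S1 23 47 U (S2 10 47 (N 164) (P 47)))))) (S1 21 43 U (S1 22 45 U (S4 4 45 (S3 9 46 (N 56) (S1 23 47 U (S2 10 47 (S1 24 49 U (S1 25 51 U (S3 10 51 U (S1 26 53 U (S1 27 55 U (S3 11 56 (N 56) (S1 28 57 U (P 57)))))))) (P 47)))) (S3 9 46 (S1 23 47 U (S2 10 47 (N 230) (P 47))) (S1 23 47 U (S2 10 47 (S1 24 49 U (S1 25 51 U (S3 10 51 (N 418) (S1 26 53 U (S1 27 55 U (S3 11 56 (S4 5 56 (N 56) (S1 28 57 U (P 57))) (S4 5 56 (S1 28 57 U (P 57)) (S1 28 57 U (P 57))))))))) (P 47)))))))))))))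
def t64 : T := S1 13 27 U (S1 14 29 U (S1 15 31 U (S3 6 31 (S1 16 33 U (S4 3 34 (N 124) (S1 17 35 U (S1 18 37 U (S2 8 37 (S1 19 39 U (S1 20 41 U (S1 21 43 U (S1 22 45 U (S4 4 45 (N 134) (S1 23 47 U (P 47))))))) (P 37)))))) (S1 16 33 U (S4 3 34 (S1 17 35 U (S3 7 36 (S1 18 37 U (S2 8 37 (N 180) (P 37))) (S1 18 37 U (S2 8 37 (S1 19 39 U (S1 20 41 U (S3 8 41 (N 328) (S1 21 43 U (S1 22 45 U (S3 9 46 (S1 23 47 U (P 47)) (S1 23 47 U (P 47)))))))) (P 37))))) (S1 17 35 U (S3 7 36 (S1 18 37 U (S2 8 37 (S1 19 39 U (S1 20 41 U (S1 21 43 U (S1 22 45 U (S4 4 45 (N 180) (S1 23 47 U (P 47))))))) (P 37))) (S1 18 37 U (S2 8 37 (S1 19 39 U (S1 20 41 U (S3 8 41 (S1 21 43 U (S1 22 45 U (S4 4 45 (S1 23 47 U (P 47)) (S1 23 47 U (P 47))))) (S1 21 43 U (S1 22 45 U (S4 4 45 (S3 9 46 (S1 23 47 U (P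 47)) (S1 23 47 U (P 47))) (S3 9 46 (S1 23 47 U (P 47)) (S1 23 47 U (P 47))))))))) (P 37))))))))))
def t65 : T := S2 5 23 (S4 2 23 (S1 12 25 U (S3 5 26 U (S1 13 27 U (S1 14 29 U (S1 15 31 U (S3 6 31 (N 46) (S1 16 33 U (S1 17 35 U (S4 3 35 (S3 7 36 U (S1 18 37 U (S2 8 37 (S1 19 39 U (S1 20 41 U (S3 8 41 U (S1 21 43 U (S1 22 45 U (S3 9 46 U (S1 23 47 U (S4 4 47 (S1 24 49 U (S1 25 51 U (S2 11 51 (S3 10 51 U (S1 26 53 U (S1 27 55 U (S3 11 56 U (S1 28 57 U (S1 29 59 U (S4 5 59 (S1 30 61 U (S3 12 61 U (P 61))) (S1 30 61 U (S3 12 61 U (P 61)))))))))) (S3 10 51 U (P 51))))) (P 47))))))))) (P 37)))) (S3 7 36 (N 46) (S1 18 37 U (S2 8 37 (S1 19 39 U (S1 20 41 U (S3 8 41 (N 46) (S1 21 43 U (S1 22 45 U (S3 9 46 (N 46) (S1 23 47 U (P 47)))))))) (P 37))))))))))))) (S1 12 25 U (S3 5 26 (S1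 13 27 U (S1 14 29 U (S1 15 31 U (S1 16 33 U (S4 3 34 (N 78) (S1 17 35 U (S1 18 37 U (S2 8 37 (N 208) (P 37))))))))) t64))) (S4 2 23 (S1 12 25 U (S3 5 26 (S1 13 27 U (S1 14 29 U (S1 15 31 U (S2 7 32 (N 114) (S1 16 33 U (S1 17 35 U (S4 3 35 (S1 18 37 U (P 37)) (S1 18 37 U (P 37))))))))) (S1 13 27 U (S1 14 29 U (S1 15 31 U (S3 6 31 (S2 7 32 (N 160) (S1 16 33 U (S1 17 35 U (S4 3 35 (S1 18 37 U (P 37)) (S1 18 37 U (P 37)))))) (S2 7 32 (S1 16 33 U (S1 17 35 U (S4 3 35 (S3 7 36 (N 128) (S1 18 37 U (P 37))) (S3 7 36 (S1 18 37 U (P 37)) (S1 18 37 U (P 37)))))) (S1 16 33 U (S1 17 35 U (S4 3 35 (S3 7 36 (S1 18 37 U (P 37)) (S1 18 37 U (P 37))) (S3 7 36 (S1 18 37 U (P 37)) (S1 18 37 U (P 37))))))))))))) (P 23))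
def t66 : T := S2 3 14 (S1 7 15 U (S3 3 16 U (S1 8 17 U (S1 9 19 U (S2 4 19 (S1 10 21 U (S3 4 21 U (S1 11 23 U (S4 2 23 U (S2 5 24 (N 110) (S1 12 25 U (S3 5 26 U (S1 13 27 U (S1 14 29 U (S1 15 31 U (S3 6 31 U (S1 16 33 U (S4 3 34 (N 90) (S1 17 35 U (S3 7 36 U (S1 18 37 U (S1 19 39 U (S1 20 41 U (S3 8 41 U t61))))))))))))))))))) (S1 10 21 U (S3 4 21 U (S1 11 23 U (S4 2 23 (S1 12 25 U (S3 5 26 U (S1 13 27 U (S1 14 29 U (S1 15 31 U (S3 6 31 U (S1 16 33 U (S2 7 33 (N 80) (S1 17 35 U (S4 3 35 (N 70) (S3 7 36 U (S1 18 37 U (S1 19 39 U (S1 20 41 U (S3 8 41 U (S1 21 43 U (S1 22 45 U (S3 9 46 U (S1 23 47 U (S2 10 47 (N 230) (P 47))))))))))))))))))))) (S1 12 25 U (S3 5 26 U (S1 13 27 U (S1 14 29 U (S1 15 31 U (S3 6 31 (N 98) (S1 16 33 U (S2 7 33 t62 t63))))))))))))))))) (S1 7 15 U (S3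 3 16 (S1 8 17 U (S1 9 19 U (S1 10 21 U (S1 11 23 U (S2 5 23 U (S4 2 23 U (P 23))))))) (S1 8 17 U (S1 9 19 U (S1 10 21 U (S3 4 21 (S1 11 23 U (S2 5 23 (N 110) (S4 2 23 (N 126) (P 23)))) (S1 11 23 U t65)))))))
def t67 : T := S3 3 17 (S1 9 19 U (S4 2 19 (S1 10 21 U (S1 11 23 U (S2 5 23 (N 170) (S3 4 23 (S1 12 25 U (S1 13 27 U (S1 14 29 U (S3 5 29 (N 342) (S4 3 29 (N 270) (P 29)))))) (P 23))))) (P 19))) (S1 9 19 U (S4 2 19 (S1 10 21 U (S1 11 23 U (S2 5 23 (S1 12 25 U (S1 13 27 U (S3 5 28 (S1 14 29 U (S4 3 29 (N 280) (P 29))) (S1 14 29 U (S4 3 29 (S1 15 31 U (S1 16 33 U (S1 17 35 U (S1 18 37 U (S2 8 37 (S1 19 39 U (S3 7 39 (N 222) (S4 4 39 (S1 20 41 U (S1 21 43 U (S1 22 45 U (S1 23 47 U (S1 24 49 U (S4 5 49 (S3 9 50 (N 166) (S1 25 51 U (S2 11 51 (N 88) (P 51)))) (S3 9 50 (N 194)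 (S1 25 51 U (S2 11 51 (S1 26 53 U (S1 27 55 U (S1 28 57 U (S1 29 59 U (S1 30 61 U (S3 11 61 (N 194) (P 61))))))) (P 51)))))))))) (P 39)))) (S1 19 39 U (S3 7 39 (S4 4 39 (N 78) (S1 20 41 U (S1 21 43 U (S1 22 45 U (S1 23 47 U (S1 24 49 U (S1 25 51 U (P 51)))))))) (S4 4 39 (S1 20 41 U (S1 21 43 U (S1 22 45 U (S1 23 47 U (S1 24 49 U (S4 5 49 (S3 9 50 (N 294) (S1 25 51 U (P 51))) (S3 9 50 (S1 25 51 U (P 51)) (S1 25 51 U (P 51))))))))) (P 39))))))))) (P 29)))))) (P 23)))) (P 19)))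
def t68 : T := S4 1 10 (S1 5 11 U (S3 2 11 (S4 1 11 U (S1 6 13 U (S2 3 14 U (S1 7 15 U (S1 8 17 U (S3 3 17 (N 90) (S1 9 19 U (S1 10 21 U (S4 2 21 (N 126) (S1 11 23 U (S2 5 23 (N 110) (P 23)))))))))))) (S4 1 11 (S4 1 12 (S1 6 13 U (S4 1 13 (N 90) (S2 3 14 U (S1 7 15 U (S3 3 16 U (S1 8 17 U (S1 9 19 U (S1 10 21 U (S3 4 21 U (S1 11 23 U t60)))))))))) (S1 6 13 U t66)) (P 11)))) (S1 5 11 U (S3 2 11 (S1 6 13 U (S2 3 14 (S1 7 15 U (S1 8 17 U (S3 3 17 (S1 9 19 U (S2 4 19 (N 90) (S4 2 19 U (P 19)))) (S1 9 19 U (S2 4 19 (S4 2 19 U (S1 10 21 U (S1 11 23 U (S2 5 24 (S1 12 25 U (S1 13 27 U (S3 5 28 (N 72) (S4 3 28 U (S1 14 29 U (S2 6 29 (N 198) (P 29))))))) (S1 12 25 U (S1 13 27 U (S3 5 28 (S4 3 28 U (S1 14 29 U (P 29))) (S4 3 28 (N 242) (S1 14 29 U (P 29)))))))))) (S4 2 19 (S1 10 21 U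 (S1 11 23 U (S1 12 25 U (S1 13 27 U (S3 5 28 (N 28) (S1 14 29 U (S4 3 29 (N 154) (P 29)))))))) (P 19))))))) (S1 7 15 U (S1 8 17 U t67)))) (P 11)))
def t69 : T := S3 4 23 (S2 5 24 (S1 12 25 U (S4 3 25 (S1 13 27 U (S1 14 29 U (S2 6 29 (S3 5 29 (N 58) (S1 15 31 U (S1 16 33 U (S2 7 34 (N 408) (S1 17 35 U (P 35)))))) (S3 5 29 (S1 15 31 U (S1 16 33 U (S1 17 35 U (S3 6 35 (N 350) (P 35))))) (P 29))))) (P 25))) (S1 12 25 U (S4 3 25 (S1 13 27 U (S1 14 29 U (S3 5 29 (S1 15 31 U (S1 16 33 U (S1 17 35 U (S3 6 35 (S1 18 37 U (S1 19 39 U (S1 20 41 U (S3 7 41 (S4 5 42 (S1 21 43 U (S2 9 43 (N 210) (P 43))) (S1 21 43 U (S2 9 43 (S1 22 45 U (S1 23 47 U (S3 8 47 (N 258) (S1 24 49 U (S1 25 51 U (S1 26 53 U (P 53))))))) (P 43)))) (S4 5 42 (S1 21 43 U (S2 9 43 (N 210) (P 43))) (S1 21 43 U (S2 9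 43 (S1 22 45 U (S1 23 47 U (S1 24 49 U (S1 25 51 U (S1 26 53 U (P 53)))))) (P 43)))))))) (P 35))))) (P 29)))) (P 25)))) (S2 5 24 (S1 12 25 U (S4 3 25 (S1 13 27 U (S1 14 29 U (S2 6 29 (S1 15 31 U (S1 16 33 U (S2 7 34 (S1 17 35 U (P 35)) (S1 17 35 U (P 35))))) (P 29)))) (P 25))) (S1 12 25 U (S4 3 25 (S1 13 27 U (S1 14 29 U (P 29))) (P 25))))
def t70 : T := S2 5 24 (S1 12 25 U (S4 3 26 (S1 13 27 U (S3 5 28 (S1 14 29 U (S2 6 29 (S1 15 31 U (S1 16 33 U (S2 7 34 (N 364) (S1 17 35 U (S4 4 35 (N 140) (P 35)))))) (P 29))) (S1 14 29 U (S2 6 29 (S1 15 31 U (S1 16 33 U (S2 7 34 (S1 17 35 U (S4 4 35 (S1 18 37 U (S1 19 39 U (S2 8 39 (S3 7 39 (N 78) (S1 20 41 U (S1 21 43 U (S2 9 44 (S4 5 44 (N 44) (S1 22 45 U (P 45))) (S4 5 44 (S1 22 45 U (P 45)) (S1 22 45 U (P 45))))))) (S3 7 39 (N 306)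 (P 39))))) (P 35))) (S1 17 35 U (S4 4 35 (S1 18 37 U (S1 19 39 U (S3 7 39 (S1 20 41 U (S1 21 43 U (S4 5 44 (S1 22 45 U (P 45)) (S1 22 45 U (P 45))))) (P 39)))) (P 35)))))) (P 29))))) (S1 13 27 U (S3 5 28 (S1 14 29 U (S2 6 29 (S1 15 31 U (S1 16 33 U (S2 7 34 (S1 17 35 U (P 35)) (S1 17 35 U (P 35))))) (P 29))) (S1 14 29 U (S2 6 29 (S1 15 31 U (S1 16 33 U (S2 7 34 (S1 17 35 U (P 35)) (S1 17 35 U (P 35))))) (P 29))))))) (S1 12 25 U (S4 3 26 (S1 13 27 U (S3 5 28 (S1 14 29 U (P 29)) (S1 14 29 U (P 29)))) (S1 13 27 U (S3 5 28 (S1 14 29 U (P 29)) (S1 14 29 U (P 29))))))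
def t71 : T := S2 3 14 (S1 7 15 U (S1 8 17 U (S3 3 17 (S4 2 17 (S1 9 19 U (S2 4 19 (S1 10 21 U (S1 11 23 U (S3 4 23 (S2 5 24 (N 408) (S1 12 25 U (S4 3 26 (S1 13 27 U (S1 14 29 U (S3 5 29 (N 52) (P 29)))) (S1 13 27 U (S1 14 29 U (S3 5 29 (S1 15 31 U (S1 16 33 U (S1 17 35 U (S3 6 35 (N 204) (P 35))))) (P 29))))))) (S2 5 24 (S1 12 25 U (S4 3 26 (S1 13 27 U (S1 14 29 U (S2 6 29 (N 130) (P 29)))) (S1 13 27 U (S1 14 29 U (S2 6 29 (S1 15 31 U (S1 16 33 U (S2 7 34 (N 34) (S1 17 35 U (P 35))))) (P 29)))))) (S1 12 25 U (S4 3 26 (S1 13 27 U (S1 14 29 U (P 29))) (S1 13 27 U (S1 14 29 U (P 29))))))))) (P 19))) (S1 9 19 U (S2 4 19 (S1 10 21 U (S1 11 23 U t69)) (P 19)))) (S4 2 17 (S1 9 19 U (S2 4 19 (S1 10 21 U (S1 11 23 U t70)) (P 19))) (P 17))))) (S1 7 15 U (S1 8 17 (S3 3 17 U (S4 2 17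 U (S2 5 23 U (S4 3 25 U (S3 5 28 U (P 28)))))) (S3 3 17 (S4 2 17 (S1 9 19 U (P 19)) (S1 9 19 U (P 19))) (S4 2 17 (S1 9 19 U (P 19)) (P 17)))))
def t72 : T := S4 1 11 (S4 1 12 (S1 6 13 U (S2 3 13 U (S4 1 13 (S4 1 14 (S1 7 15 U (S4 1 15 (N 44) (S1 8 17 U (S2 4 17 U (S3 3 17 (N 28) (P 17)))))) (S1 7 15 U (S1 8 17 U (S2 4 17 U (S3 3 17 (S1 9 19 U (S1 10 21 U (S2 5 21 U (S1 11 23 U (S3 4 23 (S1 12 25 U (S2 6 25 U (S1 13 27 U (S4 2 27 (N 40) (S1 14 29 U (S2 7 29 U (S3 5 29 (N 52) (P 29)))))))) (S1 12 25 U (S2 6 25 U (S1 13 27 U (S4 2 27 (S1 14 29 U (S2 7 29 U (P 29))) (S1 14 29 U (S2 7 29 U (P 29)))))))))))) (P 17)))))) (P 13)))) (S1 6 13 U (S2 3 13 (S1 7 15 U (S1 8 17 U (S3 3 17 (N 130) (S1 9 19 U (S1 10 21 U (S2 5 22 (N 22) (S1 11 23 U (S4 2 23 (N 264) (P 23))))))))) (P 13))))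 (S1 6 13 U (S2 3 13 (S1 7 15 U (S1 8 17 U (S3 3 17 (S1 9 19 U (S1 10 21 U (S4 2 21 (S2 5 22 (N 136) (S1 11 23 U (S3 4 23 (S1 12 25 U (S1 13 27 U (S1 14 29 U (S3 5 29 (N 52) (S1 15 31 U (S4 3 32 (N 138) (S1 16 33 U (S1 17 35 U (S2 8 35 U (P 35)))))))))) (P 23)))) (S2 5 22 (S1 11 23 U (S3 4 23 (S1 12 25 U (S1 13 27 U (S1 14 29 U (S3 5 29 (N 110) (S1 15 31 U (S2 7 31 (N 230) (S4 3 31 (N 92) (P 31)))))))) (P 23))) (S1 11 23 U (S3 4 23 (S1 12 25 U (S1 13 27 U (S1 14 29 U (S3 5 29 (S1 15 31 U (S4 3 31 (S1 16 33 U (S1 17 35 U (S2 8 35 U (S3 6 35 (N 134) (P 35))))) (P 31))) (S1 15 31 U (S4 3 31 (S1 16 33 U (S1 17 35 U (S2 8 35 (N 258) (P 35)))) (P 31))))))) (P 23))))))) (S1 9 19 U (S1 10 21 U (S4 2 21 (S2 5 22 (S1 11 23 U (P 23)) (S1 11 23 U (P 23))) (S2 5 22 (S1 11 23 U (P 23)) (S1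 11 23 U (P 23))))))))) (P 13)))
def t73 : T := S4 1 13 (S4 1 14 (S1 7 15 U (S4 1 15 U (S3 3 16 U (S1 8 17 U (S1 9 19 U (S1 10 21 U (S3 4 21 U (S2 5 22 (N 70) (S1 11 23 U (S1 12 25 U (S3 5 26 U (S1 13 27 U (S1 14 29 U (S4 2 29 (N 130) (S1 15 31 U (S3 6 31 U (P 31))))))))))))))))) (S1 7 15 U (S3 3 16 U (S1 8 17 U (S1 9 19 U (S1 10 21 U (S3 4 21 (N 26) (S2 5 22 (S1 11 23 U (S1 12 25 U (S3 5 26 U (S1 13 27 U (S4 2 27 (S1 14 29 U (S1 15 31 U (S2 7 31 (N 270) (S3 6 31 U (P 31))))) (P 27)))))) (S1 11 23 U (S1 12 25 U (S3 5 26 (N 26) (S1 13 27 U (S4 2 27 (S1 14 29 U (S1 15 31 U (S3 6 31 (N 108) (P 31)))) (P 27)))))))))))))) (S1 7 15 U (S3 3 16 (S1 8 17 U (S1 9 19 U (S1 10 21 U (S2 5 22 (N 48) (S1 11 23 U (S1 12 25 U (S4 2 25 (N 112) (S1 13 27 U (S3 5 27 (N 108) (P 27)))))))))) (S1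 8 17 U (S1 9 19 U (S1 10 21 U (S3 4 21 (S2 5 22 (S1 11 23 U (S1 12 25 U (S4 2 25 U (S1 13 27 U (P 27))))) (S1 11 23 U (S1 12 25 U (S4 2 25 (S1 13 27 U (P 27)) (S1 13 27 U (P 27)))))) (S2 5 22 (S1 11 23 U (S1 12 25 U (S4 2 25 (S3 5 26 (N 286) (S1 13 27 U (P 27))) (S3 5 26 (S1 13 27 U (P 27)) (S1 13 27 U (P 27)))))) (S1 11 23 U (S1 12 25 U (S4 2 25 (S3 5 26 (S1 13 27 U (P 27)) (S1 13 27 U (P 27))) (S3 5 26 (S1 13 27 U (P 27)) (S1 13 27 U (P 27)))))))))))))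
def t74 : T := S4 1 15 (S3 3 16 (S4 1 16 (N 16) (S1 8 17 U (S2 4 17 U (P 17)))) (S4 1 16 (S1 8 17 U (S2 4 17 U (S4 1 17 (S4 1 18 (S1 9 19 U (S4 1 19 (S4 1 20 (N 20) (S1 10 21 U (S2 5 21 U (S3 4 21 U (P 21))))) (S1 10 21 U (S2 5 21 U (S3 4 21 U (P 21)))))) (S1 9 19 U (S1 10 21 U (S2 5 21 U (S3 4 21 (N 68) (P 21)))))) (P 17)))) (S1 8 17 U (S2 4 17 (S1 9 19 U (S1 10 21 U (S3 4 21 U (S1 11 23 U (S1 12 25 U (S3 5 26 U (S1 13 27 U (S1 14 29 U (S2 7 30 (N 30) (S1 15 31 U (S3 6 31 U (S4 2 31 (N 170) (P 31))))))))))))) (P 17))))) (S3 3 16 (S1 8 17 U (S2 4 17 U (P 17))) (S1 8 17 U (S2 4 17 (S1 9 19 U (S1 10 21 U (S3 4 21 U (S1 11 23 U (S1 12 25 U (S3 5 26 (N 140) (S1 13 27 U (S1 14 29 U (S4 2 29 (S2 7 30 (S1 15 31 U (S3 6 31 U (P 31))) (S1 15 31 U (S3 6 31 U (P 31)))) (S2 7 30 (S1 15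 31 U (S3 6 31 (N 98) (P 31))) (S1 15 31 U (S3 6 31 (S1 16 33 U (S1 17 35 U (S1 18 37 U (S1 19 39 U (S1 20 41 U (S1 21 43 U (S4 3 43 (N 170) (P 43)))))))) (P 31))))))))))))) (P 17))))
def t75 : T := S1 8 17 U (S2 4 17 (S1 9 19 U (S1 10 21 U (S3 4 21 (S1 11 23 U (S1 12 25 U (S1 13 27 U (S4 2 27 (N 378) (P 27))))) (S1 11 23 U (S1 12 25 U (S3 5 26 (S1 13 27 U (S4 2 27 (S1 14 29 U (S2 7 30 (N 270) (S1 15 31 U (S1 16 33 U (S1 17 35 U (S1 18 37 U (S1 19 39 U (S1 20 41 U (S4 3 41 (S1 21 43 U (P 43)) (S1 21 43 U (P 43))))))))))) (P 27))) (S1 13 27 U (S4 2 27 (S1 14 29 U (S2 7 30 (S1 15 31 U (S3 6 31 (S1 16 33 U (S1 17 35 U (S1 18 37 U (S1 19 39 U (S1 20 41 U (S4 3 41 (S1 21 43 U (S2 10 43 (N 232) (P 43))) (S1 21 43 U (S2 10 43 (S1 22 45 U (S1 23 47 U (S1 24 49 U (S1 25 51 U (S1 26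 53 U (S1 27 55 U (S2 13 56 (N 310) (S1 28 57 U (S3 11 57 (N 202) (P 57)))))))))) (P 43))))))))) (P 31))) (S1 15 31 U (S3 6 31 (S1 16 33 U (S1 17 35 U (S1 18 37 U (S1 19 39 U (S1 20 41 U (S4 3 41 (S1 21 43 U (P 43)) (S1 21 43 U (P 43)))))))) (P 31))))) (P 27))))))))) (P 17))
def t76 : T := S1 11 23 U (S4 2 23 (S1 12 25 U (S1 13 27 U (S3 5 27 (S1 14 29 U (S1 15 31 U (S1 16 33 U (S1 17 35 U (S2 8 35 (S4 3 35 (N 70) (S1 18 37 U (S3 7 38 (S1 19 39 U (S1 20 41 U (S1 21 43 U (S1 22 45 U (S1 23 47 U (S1 24 49 U (S3 9 49 (N 310) (P 49)))))))) (S1 19 39 U (S1 20 41 U (S1 21 43 U (S1 22 45 U (S1 23 47 U (S1 24 49 U (P 49)))))))))) (S4 3 35 (S1 18 37 U (S3 7 38 (S1 19 39 U (S1 20 41 U (S1 21 43 U (S1 22 45 U (S1 23 47 U (S4 4 47 (S2 11 48 (N 152) (S1 24 49 U (S3 9 49 (N 234) (P 49))))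 (S2 11 48 (N 244) (S1 24 49 U (S3 9 49 (S1 25 51 U (S1 26 53 U (S1 27 55 U (S1 28 57 U (S1 29 59 U (S3 11 60 (N 338) (S1 30 61 U (S2 14 61 (N 174) (P 61))))))))) (P 49)))))))))) (S1 19 39 U (S1 20 41 U (S1 21 43 U (S1 22 45 U (S1 23 47 U (S4 4 47 (S2 11 48 (N 270) (S1 24 49 U (P 49))) (S2 11 48 (S1 24 49 U (P 49)) (S1 24 49 U (P 49))))))))))) (P 35))))))) (P 27)))) (P 23))
def t77 : T := S1 6 13 (S2 3 13 U (S3 3 16 U (S2 4 17 U (S2 5 21 U (S3 4 21 U (S4 2 23 (N 80) (S1 11 24 (N 120) (S2 6 25 U (S3 5 26 U (S2 7 29 U (S3 6 31 U (S2 8 33 U (S4 3 34 (N 260) (S3 7 36 U (S1 17 37 (S2 9 37 U (S2 10 41 U (S3 8 41 U (S2 11 45 U (S4 4 45 (N 100) (S3 9 46 U (P 46))))))) (S2 9 37 U (P 37))))))))))))))))) (S2 3 13 (S1 7 15 U (S3 3 16 (S1 8 17 U (S1 9 19 U (S1 10 21 U (S2 5 22 (S1 11 23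 U (S4 2 23 (S1 12 25 U (S1 13 27 U (S3 5 27 (N 264) (P 27)))) (P 23))) t76)))) (S1 8 17 U (S1 9 19 U (S1 10 21 (N 65) (S3 4 21 (S2 5 22 (S1 11 23 U (S4 2 23 (S1 12 25 U (S1 13 27 U (P 27))) (P 23))) (S1 11 23 U (S4 2 23 (S1 12 25 U (S1 13 27 U (P 27))) (P 23)))) (S2 5 22 (S1 11 23 U (S4 2 23 (S1 12 25 U (S3 5 26 (S1 13 27 U (P 27)) (S1 13 27 U (P 27)))) (P 23))) (S1 11 23 (S4 2 23 U (S3 5 26 U (S3 6 31 U (S4 3 34 U (S2 8 35 U (P 57)))))) (S4 2 23 (S1 12 25 U (S3 5 26 (S1 13 27 U (P 27)) (S1 13 27 (N 195) (P 27)))) (P 23)))))))))) (P 13))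
def t78 : T := S4 3 29 (S1 15 31 U (S2 7 31 (S1 16 33 U (S1 17 35 U (S3 6 35 (S1 18 37 U (S1 19 39 U (S4 4 39 (S2 9 40 (N 204) (S1 20 41 U (S3 7 41 (N 146) (P 41)))) (S2 9 40 (N 280) (S1 20 41 U (S3 7 41 (S1 21 43 U (S1 22 45 U (S1 23 47 U (S3 8 47 (N 270) (S1 24 49 U (P 49)))))) (P 41))))))) (S1 18 37 U (S1 19 39 U (S4 4 39 (S2 9 40 (S1 20 41 U (P 41)) (S1 20 41 U (P 41))) (S2 9 40 (S1 20 41 U (P 41)) (S1 20 41 U (P 41))))))))) (P 31))) (S1 15 31 U (S2 7 31 (S1 16 33 U (S1 17 35 U (S3 6 35 (S1 18 37 U (S1 19 39 U (S2 9 40 (S1 20 41 U (S3 7 41 (S1 21 43 U (S1 22 45 U (S1 23 47 U (S3 8 47 (S4 5 48 (N 182) (S1 24 49 U (S2 11 49 (S1 25 51 U (S1 26 53 U (S3 9 53 (N 294) (S1 27 55 U (S1 28 57 U (S2 13 58 (N 370) (S1 29 59 U (P 59)))))))) (P 49)))) (S4 5 48 (N 240) (S1 24 49 U (S2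 11 49 (S1 25 51 U (S1 26 53 U (S1 27 55 U (S1 28 57 U (S2 13 58 (S1 29 59 U (P 59)) (S1 29 59 U (P 59))))))) (P 49)))))))) (P 41))) (S1 20 41 U (S3 7 41 (S1 21 43 U (S1 22 45 U (S1 23 47 U (S3 8 47 (S4 5 48 (S1 24 49 U (P 49)) (S1 24 49 U (P 49))) (S4 5 48 (S1 24 49 U (P 49)) (S1 24 49 U (P 49))))))) (P 41)))))) (S1 18 37 U (S1 19 39 U (S2 9 40 (S1 20 41 U (P 41)) (S1 20 41 U (P 41)))))))) (P 31)))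
def t79 : T := S1 6 13 (S2 3 13 U (S2 4 17 U (S3 3 17 (N 260) (S4 2 19 (N 104) (S2 5 21 U (S1 11 24 (S2 6 25 U (S3 5 28 (N 72) (S4 3 28 U (S2 7 29 U (P 29))))) (S2 6 25 U (S3 5 28 (S4 3 28 U (S2 7 29 U (P 29))) (S4 3 28 (S2 7 29 U (P 29)) (S2 7 29 U (P 29))))))))))) (S2 3 13 (S1 7 15 U (S1 8 17 U (S3 3 17 (S1 9 19 U (S4 2 19 (S1 10 21 U (S2 5 22 (S1 11 23 U (S3 4 23 (S1 12 25 U (S1 13 27 U (S1 14 29 U (S3 5 29 t78 (S4 3 29 (S1 15 31 U (S2 7 31 (S1 16 33 U (S1 17 35 U (S1 18 37 U (S1 19 39 U (S4 4 39 (S2 9 40 (S1 20 41 U (P 41)) (S1 20 41 U (P 41))) (S2 9 40 (S1 20 41 U (P 41)) (S1 20 41 U (P 41)))))))) (P 31))) (P 29)))))) (P 23))) (S1 11 23 U (S3 4 23 (S1 12 25 U (S1 13 27 U (S1 14 29 U (S3 5 29 (S4 3 29 (S1 15 31 U (P 31)) (S1 15 31 U (P 31))) (S4 3 29 (S1 15 31 U (P 31))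 (P 29)))))) (P 23))))) (P 19))) (S1 9 19 U (S4 2 19 (S1 10 21 U (S2 5 22 (S1 11 23 U (P 23)) (P 40))) (P 19)))))) (P 13))
def t80 : T := S4 1 10 (S1 5 11 (S3 2 11 U (S4 1 11 U (S2 3 13 U (S3 3 16 U (S2 4 17 U (S1 9 20 (N 20) (S2 5 21 U (S3 4 21 U (S4 2 21 (N 220) (P 21)))))))))) (S3 2 11 t72 (S4 1 11 (S4 1 12 (S1 6 13 U (S2 3 13 t73 (S4 1 13 (S4 1 14 (S1 7 15 U t74) (S1 7 15 U (S3 3 16 (S1 8 17 U (S2 4 17 (N 208) (P 17))) t75))) (P 13)))) t77) (P 11)))) (S1 5 11 (S3 2 11 U (S2 3 13 U (S3 3 16 (S2 4 17 U (S4 2 19 U (S1 9 20 (N 80) (S2 5 21 U (S2 6 25 U (S3 5 27 (S4 3 28 U (S2 7 29 U (P 29))) (P 38))))))) (S2 4 17 (S4 2 19 U (S1 9 20 U (S3 4 21 U (S3 5 26 U (S4 3 28 U (S2 7 30 (N 90) (S1 14 31 (N 135) (S3 6 31 U (P 31))))))))) (S4 2 19 (S1 9 20 (S2 5 21 U (S3 4 21 U (P 21)))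 (S2 5 21 (N 180) (S3 4 21 (S2 6 25 U (S2 7 29 U (S4 3 29 (N 220) (P 29)))) (P 21)))) (S1 9 20 (S2 5 21 (N 180) (S3 4 21 (S2 6 25 U (S4 3 28 U (S1 13 29 (N 252) (P 38)))) (P 21))) (S2 5 21 (S3 4 21 U (S3 5 26 U (S4 3 28 (N 420) (P 47)))) (P 38)))))))) (S3 2 11 t79 (P 11)))
def t81 : T := S3 2 11 (S2 3 13 (S4 2 15 U (S1 7 16 U (S3 3 17 U (P 23)))) (S4 2 15 (S1 7 16 (S2 4 17 U (S3 3 17 U (P 17))) (S2 4 17 U (S3 3 17 (S2 5 21 U (S3 4 23 (S4 3 23 (N 92) (S1 11 25 U (S2 6 25 U (P 25)))) (S4 3 23 (S1 11 25 U (S2 6 25 U (P 25))) (P 23)))) (P 17)))) (S1 7 16 (S2 4 17 U (S3 3 17 (S2 5 21 U (S4 3 22 (S1 10 23 U (P 30)) (S1 10 23 (S3 4 23 (S2 6 25 U (S2 7 29 U (S3 5 29 (S4 4 29 U (S1 13 30 (N 168) (P 30))) (S4 4 29 U (P 29))))) (S2 6 25 U (S2 7 29 U (S4 4 29 (N 232) (P 29))))) (P 30))))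 (P 17))) (S2 4 17 (S3 3 17 (N 119) (P 23)) (P 30))))) (S2 3 13 (S4 2 15 (S1 7 16 (S3 3 16 U (S3 4 21 U (S2 5 22 (N 105) (S1 10 23 (N 195) (S4 3 23 (N 130) (P 23)))))) (S3 3 16 U (P 16))) (S1 7 16 (S3 3 16 (N 112) (S3 4 21 (S2 5 22 (N 105) (S4 3 22 U (P 22))) (S2 5 22 (S4 3 22 (S1 10 23 (N 110) (P 23)) (S1 10 23 (S3 5 26 U (S4 4 29 (S1 13 30 (N 145) (P 37)) (S1 13 30 (S2 7 31 (S3 6 31 U (S3 7 36 U (S4 5 36 (N 115) (P 36)))) (S3 6 31 U (P 31))) (P 37)))) (P 23))) (S4 3 22 (S1 10 23 (S3 5 26 U (S1 13 30 (S3 6 31 U (P 31)) (S3 6 31 U (P 31)))) (P 23)) (P 22))))) (P 23))) (S4 2 15 (S1 7 16 (S3 3 16 (S2 4 17 U (P 17)) (S2 4 17 (S3 4 21 U (S1 10 23 (S4 3 23 (S3 5 26 U (P 26)) (S3 5 26 U (P 26))) (S4 3 23 (S3 5 26 U (P 26)) (P 23)))) (P 17))) (S3 3 16 (S2 4 17 (S4 3 23 U (P 23)) (P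 17)) (P 16))) (S1 7 16 (S3 3 16 (S2 4 17 (S4 3 22 U (P 22)) (P 17)) (S2 4 17 (S3 4 21 (S4 3 22 (N 425) (P 22)) (S4 3 22 (S1 10 23 (S3 5 26 (N 161) (P 26)) (P 23)) (P 22))) (P 17))) (P 23))))
def t82 : T := S1 5 11 (S3 2 11 (S2 3 14 U (S4 2 15 U (S3 3 17 U (S1 9 20 U (S4 3 22 U (S2 5 23 U (P 23))))))) (S2 3 14 (S4 2 15 (S3 3 16 U (P 16)) (S3 3 16 (N 112) (P 16))) (S4 2 15 (S3 3 16 U (P 16)) (S3 3 16 (S1 9 20 (S4 3 22 U (S2 5 23 U (P 23))) (S4 3 22 (S2 5 23 U (P 23)) (S2 5 23 (S3 5 27 (S4 4 29 U (P 29)) (P 38)) (P 23)))) (P 16))))) (S3 2 11 (S1 6 13 (S2 3 14 (S4 2 15 U (S3 3 17 U (S2 4 19 U (S4 3 22 U (S1 11 24 U (P 24)))))) (S4 2 15 (N 225) (S3 3 17 (S4 3 22 U (S2 5 23 (N 119) (S3 4 23 (S1 11 24 U (P 24)) (P 23)))) (S4 3 22 (S2 5 23 U (P 23)) (S2 5 23 (S1 11 24 (S3 5 28 U (S4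 4 29 U (P 29))) (P 24)) (P 23)))))) (S2 3 14 (S1 7 15 (S4 2 15 U (S3 3 17 (S2 4 19 U (P 24)) (S2 4 19 (S4 3 22 U (S2 5 24 (S1 13 28 U (S3 5 28 U (S2 6 29 (N 77) (S4 4 29 U (P 29))))) (P 24))) (P 24)))) (S4 2 15 (S1 8 17 (S3 3 17 U (S2 4 19 U (P 24))) (S3 3 17 (S1 9 19 U (S2 4 19 (S1 10 21 U (S1 11 23 (N 209) (S3 4 23 (S4 3 23 (S2 5 24 (S1 12 25 U (P 25)) (P 24)) (S2 5 24 (S1 12 25 U (P 25)) (P 24))) (S4 3 23 (S2 5 24 (S1 12 25 U (P 25)) (P 24)) (P 23))))) (P 19))) (P 17))) (P 15))) (P 24))) (P 11))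
def t83 : T := S1 3 7 (S4 1 7 t52 (S2 2 9 (S3 2 11 (N 126) t55) t58)) (S4 1 7 (S4 1 8 (S1 4 9 (S2 2 9 U (S4 1 9 (S4 1 10 U (S3 2 11 U (S2 3 13 U (S1 7 16 (N 80) (S3 3 16 U (S2 4 17 U (S4 2 19 (N 180) (S2 5 21 U (S3 4 21 U (P 21)))))))))) (S3 2 11 (S2 3 13 U (S1 7 16 U (S2 4 17 U (S3 3 17 U (S4 2 17 U (P 17)))))) t59))) (S2 2 9 (S4 1 9 t68 (S1 5 11 (S3 2 11 U (S2 3 14 U (S3 3 16 U (S4 2 17 U (S1 9 20 U (S3 4 21 U (S2 5 23 U (S4 3 25 U (S3 5 26 U (S1 14 31 (N 135) (S3 6 31 U (S2 7 32 (N 160) (S4 4 33 (N 90) (S3 7 36 U (S2 9 41 (N 200) (S3 8 41 U (S4 5 41 (N 90) (P 41)))))))))))))))))) (S3 2 11 (S1 6 13 U t71) (P 11)))) (S4 1 9 t80 (P 9)))) (S1 4 9 (S2 2 9 (S3 2 11 U (S2 3 14 (S4 2 15 U (S1 7 16 U (S3 3 16 U (P 16)))) (S4 2 15 (N 45) (S1 7 16 (S3 3 16 U (S3 4 21 U (S4 3 22 U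 (S1 10 23 (N 315) (S2 5 23 U (P 23)))))) (S3 3 16 U (P 16)))))) t81) (S2 2 9 t82 (P 9)))) (P 7))
def t84 : T := S1 2 5 (S2 1 5 (S3 1 5 (S4 1 5 (N 5) (S2 1 6 (S3 1 6 O3 (S2 1 7 O2 (S1 3 8 U (S4 2 9 U O3)))) (S3 1 6 O3 (P 6)))) (S4 1 5 (S2 1 6 O2 (S4 1 6 (S4 1 7 U (S1 3 8 U (S3 2 9 U O2))) (P 6))) (S2 1 6 O2 (P 6)))) (S3 1 5 (S4 1 5 (S3 1 6 (S4 1 6 U (S3 1 7 O3 (S1 3 8 U (S2 2 9 U (S4 2 11 (N 60) O3))))) (S4 1 6 (S4 1 7 U (S1 3 8 U (S2 2 9 U (S3 2 11 (N 60) (S1 5 13 (S2 3 13 U (S4 2 13 U (S3 3 16 U (S2 4 17 U (S4 3 19 U (S1 8 21 U (S2 5 21 U (S3 4 21 U (P 21))))))))) (S2 3 13 U (S4 2 13 (S3 3 16 U (S2 4 17 U (S1 7 18 U (S4 3 20 (N 20) (S2 5 21 U (S3 4 21 U (P 21))))))) (P 13)))))))) (P 6))) (S3 1 6 O3 (P 6))) (S4 1 5 (S4 1 6 t32 (P 6)) (P 5)))) (S2 1 5 (S3 1 5 (S4 1 5 (S2 1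 6 (S3 1 6 (S4 1 6 (N 6) (S1 3 7 U (S2 1 7 (S3 1 7 O3 (S2 1 8 O2 (S1 4 9 U (S1 5 11 U (S4 2 11 U O3))))) (S3 1 7 O3 (P 7))))) (S4 1 6 (S1 3 7 U (S2 1 7 O2 (S4 1 7 (S4 1 8 U (S1 4 9 U (S1 5 11 U (S3 2 11 U O2)))) (P 7)))) (S1 3 7 U (S2 1 7 O2 (P 7))))) t41) (S2 1 6 (S3 1 6 O3 (S1 3 7 (S2 1 7 O2 (S4 2 9 (S3 2 11 O3 O2) O3)) (S2 1 7 O2 (P 7)))) (S3 1 6 O3 (P 6)))) (S4 1 5 (S2 1 6 O2 (S4 1 6 t42 (P 6))) (P 5))) (S3 1 5 (S4 1 5 (S3 1 6 (S4 1 6 t51 (S1 3 7 (S3 1 7 O3 (S2 2 9 (S4 2 11 (N 126) O3) (S4 2 11 (S1 5 12 (S2 3 13 U (S3 2 13 O3 (P 13))) (S2 3 13 (S3 2 13 O3 (S4 3 17 (S1 8 19 U (S3 3 19 O3 (P 19))) O3)) (S3 2 13 O3 (P 13)))) O3))) (S3 1 7 O3 (P 7)))) (S4 1 6 t83 (P 6))) (P 5)) (P 5)))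
def t85 : T := S2 1 5 O2 (S4 1 5 (S4 1 6 (S3 2 7 (S4 1 7 (S1 3 8 (S4 1 8 (S2 2 9 O2 (S4 1 9 (S4 1 10 (S1 4 11 (N 140) (S3 3 11 U O2)) (S1 4 11 (S3 3 11 U O2) (S3 3 11 (S2 3 13 O2 (S3 4 15 (S2 4 17 O2 (S1 7 19 U (S3 5 19 (N 72) O2))) O2)) O2))) (P 9))) (S2 2 9 O2 (P 9))) (S4 1 8 (S2 2 9 O2 (S4 1 9 (S4 1 10 (S3 3 11 (S4 1 11 (S4 1 12 (S1 5 13 U (S2 3 13 O2 (S4 1 13 (N 220) (P 13)))) (S1 5 13 (N 44) (S2 3 13 O2 (P 13)))) (S1 5 13 (S2 3 13 O2 (S3 4 15 (S2 4 17 O2 (S3 5 19 U O2)) O2)) (S2 3 13 O2 (P 13)))) O2) (S3 3 11 (S1 5 13 (S2 3 13 O2 (S3 4 15 (S2 4 17 O2 (S3 5 19 (S4 2 19 (S1 8 21 (N 76) (S2 5 21 O2 (P 21))) (S1 8 21 (S2 5 21 O2 (S3 6 23 (S2 6 25 O2 (S3 7 27 (S4 3 28 U (S1 11 29 (N 108) (S2 7 29 O2 (P 29)))) O2)) O2)) (S2 5 21 O2 (P 21)))) O2)) O2)) (S2 3 13 O2 (P 13))) O2))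 (P 9))) (P 8))) (S1 3 8 (S2 2 9 O2 (P 9)) (P 8))) O2) (P 6)) (P 5))
def t86 : T := S4 2 15 (S2 5 16 U (S1 7 19 (S2 6 19 U (S3 3 19 U (S2 7 22 U (S4 3 23 (N 84) (S2 8 25 U (S3 4 25 U (P 25))))))) (S2 6 19 U (S3 3 19 (N 120) (P 19))))) (S2 5 16 U (S1 7 19 (S2 6 19 U (S3 3 19 (S2 7 22 U (S4 3 22 U (P 22))) (S2 7 22 U (S4 3 22 (S2 8 25 U (S3 4 25 (N 168) (P 25))) (P 22))))) (S2 6 19 (S3 3 19 U (S4 3 22 U (S3 4 25 U (S1 10 27 U (S4 4 29 U (S3 5 31 U (S1 13 35 U (S2 11 35 (N 168) (S4 5 36 U (S3 6 37 U (S1 16 43 U (S3 7 43 U (S4 6 43 U (P 43)))))))))))))) (S3 3 19 (S2 7 22 U (S4 3 22 (S2 8 25 U (S1 10 27 (N 132) (S2 9 28 U (S2 10 31 U (S3 5 32 (S2 11 34 U (S1 13 35 U (S2 12 37 U (S4 5 37 (N 96) (S2 13 40 U (S1 16 43 (N 51) (S2 14 43 U (S3 7 45 (S2 15 46 U (P 46)) (S2 15 46 U (P 46))))))))))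 (S2 11 34 U (S1 13 35 (N 183) (S2 12 37 U (S4 5 37 (S2 13 40 U (S1 16 43 (N 177) (S2 14 43 U (S2 15 46 U (P 46))))) (S2 13 40 U (S1 16 43 (N 462) (S2 14 43 U (S2 15 46 U (P 46)))))))))))))) (P 22))) (P 19)))))
def t87 : T := S1 7 18 (S2 6 19 U (S3 3 20 U (S2 7 22 U (S2 8 25 U (S4 3 25 U (S2 9 28 U (S1 12 31 (N 240) (S2 10 31 U (S3 5 33 (N 72) (S4 4 33 U (S2 11 34 U (P 34)))))))))))) (S2 6 19 U (S3 3 20 (S2 7 22 U (S1 9 23 (N 120) (S2 8 25 U (S4 3 25 (S3 4 27 (S1 11 28 U (S2 9 28 U (P 28))) (S1 11 28 U (S2 9 28 U (P 28)))) (S3 4 27 (S1 11 28 (N 168) (S2 9 28 U (P 28))) (S1 11 28 (S2 9 28 U (S2 10 31 U (S4 4 33 U (S2 11 34 U (P 34))))) (S2 9 28 U (P 28)))))))) (S2 7 22 U (S1 9 23 (S2 8 25 U (S4 3 25 (N 207) (S2 9 28 U (S2 10 31 U (S3 5 33 (S4 4 33 U (S2 11 34 U (P 34))) (S4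 4 33 (N 396) (S2 11 34 U (P 34)))))))) (S2 8 25 (N 175) (S4 3 25 (S1 11 28 (S2 9 28 U (S2 10 31 U (S3 5 33 U (S2 11 34 U (P 34))))) (S2 9 28 U (P 28))) (S1 11 28 (S2 9 28 U (S2 10 31 U (S3 5 33 (S4 4 33 (N 33) (S2 11 34 U (P 34))) (S4 4 33 (S2 11 34 U (P 34)) (S2 11 34 U (P 34)))))) (S2 9 28 (S1 13 33 U (S3 5 33 (N 112) (S4 4 33 U (P 33)))) (P 28)))))))))
def t88 : T := S1 3 8 (S4 1 8 (N 24) (S2 3 10 U (S1 4 11 (S2 4 13 U (S3 2 13 U (S1 5 14 (N 42) (S4 2 15 U (S2 5 16 U (S2 6 19 U (S3 3 19 U (S2 7 22 U (S4 3 22 (N 66) (S1 9 25 (S2 8 25 U (S3 4 25 U (S2 9 28 U (S4 4 29 (N 36) (S2 10 31 U (S3 5 31 U (P 31))))))) (S2 8 25 U (S3 4 25 (N 231) (P 25))))))))))))) (S2 4 13 U (S3 2 13 (S4 2 15 U (S2 5 16 U (S1 7 19 (N 84) (S2 6 19 U (S3 3 20 (S2 7 22 U (S4 3 22 U (P 22))) (S2 7 22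 U (S4 3 22 (N 117) (P 22)))))))) t86))))) (S4 1 8 (S4 1 9 (S2 3 10 U (S4 1 10 (N 30) (S1 5 13 U (S2 4 13 U (S3 2 13 (N 45) (P 13)))))) (S2 3 10 U (S1 5 13 (S2 4 13 U (S3 2 13 U (S2 5 16 U (S4 2 17 (S2 6 19 U (S3 3 19 U (P 19))) (S2 6 19 U (S3 3 19 (S1 8 21 U (S2 7 22 U (S2 8 25 U (S4 3 25 U (S2 9 28 U (S2 10 31 U (S3 5 32 (N 96) (S4 4 33 U (S1 13 34 (N 120) (S2 11 34 U (P 34))))))))))) (P 19))))))) (S2 4 13 (N 120) (S3 2 13 (S2 5 16 U (S4 2 17 (S1 7 18 U (S2 6 19 U (S3 3 20 (S2 7 22 U (S1 9 23 U (S2 8 25 U (S4 3 26 (N 60) (S3 4 27 (N 135) (S1 11 28 U (S2 9 28 U (P 28)))))))) (S2 7 22 U (S1 9 23 U (S2 8 25 U (S4 3 26 (S1 11 28 U (S2 9 28 U (P 28))) (S1 11 28 U (S2 9 28 U (P 28)))))))))) t87)) (P 13)))))) (P 8))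
def t89 : T := S2 2 7 (S3 1 7 U (S4 1 7 U (S1 3 8 U (P 8)))) (S3 1 7 (S4 1 7 (S1 3 8 U (S3 1 8 (S4 1 8 U (S3 1 9 O3 (S2 3 10 U (S1 5 13 U (S2 4 13 U (S4 2 15 U O3)))))) (S4 1 8 (S4 1 9 U (S2 3 10 U (S1 5 13 U (S2 4 13 U (S3 2 15 U (S2 5 16 U (S4 2 17 U (S1 7 18 U (S2 6 19 U (S2 7 22 U (S3 3 22 U (S1 9 23 U (S2 8 25 U (S4 3 25 U (S1 11 28 U (S2 9 28 U (S3 4 29 U (S2 10 31 U (S1 13 33 U (S4 4 33 U (S2 11 34 U (S3 5 36 U (S2 12 37 U (S1 15 38 U (S2 13 40 U (S4 5 41 (N 90) (S1 17 43 U (S2 14 43 U (S3 6 43 (N 120) (P 43)))))))))))))))))))))))))))))) (P 8)))) (S1 3 8 (S3 1 8 O3 (S2 3 10 U (S1 4 11 (S2 4 13 U (S4 2 13 U O3)) (S2 4 13 U (S4 2 13 (S3 2 15 O3 (S2 5 16 U (S1 7 19 (N 84) (S2 6 19 U (S4 3 20 (S2 7 22 U (S3 3 22 O3 (P 22))) O3))))) O3))))) (S3 1 8 O3 (P 8)))) (S4 1 7 t88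 (P 7)))
def t90 : T := S3 3 16 (S2 5 18 U (S4 3 19 U (S1 9 25 (N 336) (S2 7 25 U (S4 4 25 U (P 25)))))) (S2 5 18 (S4 3 19 (N 360) (S3 4 21 (N 126) (S1 9 25 (S4 4 25 U (S3 5 26 U (P 26))) (S4 4 25 (S3 5 26 U (P 26)) (S3 5 26 (S2 8 29 (N 192) (S4 5 31 U (S1 13 36 (N 36) (S4 6 37 U (P 37))))) (P 26)))))) (S4 3 19 (S3 4 21 U (S1 9 25 (S2 7 25 (N 25) (S3 5 26 U (P 26))) (S2 7 25 (S3 5 26 U (P 26)) (S3 5 26 (N 462) (P 26))))) (S3 4 21 (S1 9 25 (S2 7 25 U (S4 4 25 U (S4 5 31 U (S2 9 32 (N 252) (P 32))))) (S2 7 25 (S4 4 25 U (S4 5 31 U (S1 13 36 (N 210) (S3 7 37 (N 132) (S4 6 37 U (P 37)))))) (S4 4 25 (N 231) (P 25)))) (S1 9 25 (S2 7 25 (S4 4 25 (N 25) (S3 5 26 (N 150) (P 26))) (S4 4 25 (S3 5 26 (N 150) (P 26)) (S3 5 26 (S4 5 31 (N 161) (S2 9 32 (S4 6 37 U (P 37)) (P 32))) (P 26))))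 (S2 7 25 (S4 4 25 (S3 5 26 U (P 26)) (S3 5 26 (S4 5 31 U (S1 13 36 (S4 6 37 U (P 37)) (S4 6 37 (N 228) (P 37)))) (P 26))) (S4 4 25 (S3 5 26 (S2 9 32 U (P 32)) (P 26)) (P 25)))))))
def t91 : T := S4 2 13 (S1 5 14 U (S3 3 16 U (S2 5 18 U (S4 3 20 (N 140) (S3 4 21 U (S1 9 25 (N 175) (S2 7 25 U (S3 5 26 U (S3 6 31 U (S2 9 32 (N 110) (S4 5 33 (S1 13 36 (N 105) (S3 7 36 U (P 36))) (S1 13 36 (S3 7 36 U (S2 11 39 U (S3 8 41 U (S2 13 46 U (S3 9 46 U (S4 7 46 (N 105) (P 46))))))) (S3 7 36 U (P 36)))))))))))))) (S1 5 14 (S3 3 16 U (S1 6 17 (S2 5 18 U (S4 3 19 U (S1 7 20 (S3 4 21 U (S1 8 23 (S2 7 25 U (S4 4 25 U (S1 9 26 (N 150) (S3 5 26 U (P 26))))) (S2 7 25 U (S4 4 25 U (S3 5 26 U (P 26)))))) (S3 4 21 U (S2 7 25 (N 150) (S4 4 25 (N 150) (S3 5 26 U (P 26)))))))) (S2 5 18 (S4 3 19 U (S3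 4 21 U (S4 4 25 U (S3 5 26 U (P 26))))) (S4 3 19 (S3 4 21 U (S2 7 25 U (S3 5 26 U (P 26)))) (S3 4 21 (N 42) (S2 7 25 (S4 4 25 U (S3 5 26 U (P 26))) (S4 4 25 (S3 5 26 U (P 26)) (S3 5 26 (S1 11 31 (N 462) (S4 5 31 U (S2 9 32 U (P 32)))) (P 26))))))))) t90)
def t92 : T := S4 2 13 (S2 4 15 U (S3 3 16 U (S1 7 19 U (S4 3 20 U (S3 4 21 U (S2 7 26 (N 104) (S3 5 26 U (S1 10 27 U (P 27))))))))) (S2 4 15 (S3 3 16 U (S1 7 19 (S2 5 19 (N 95) (S4 3 19 U (S3 4 21 U (S4 4 25 U (S3 5 26 U (S1 11 30 (N 30) (S3 6 31 U (S4 5 31 U (P 31))))))))) (S2 5 19 (S4 3 19 U (S3 4 21 U (S2 6 23 (S4 4 25 U (S3 5 26 U (S1 10 27 (N 180) (S2 7 27 (S2 8 31 (N 120) (S3 6 31 U (S4 5 31 U (P 31)))) (P 27))))) (S4 4 25 (N 125) (S3 5 26 U (S1 10 27 (S3 6 31 U (S4 5 31 U (P 31))) (P 27))))))) (S4 3 19 (N 120) (P 19)))))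 (S3 3 16 (S1 7 19 U (S4 3 19 U (P 19))) (S1 7 19 (S4 3 19 (N 95) (S3 4 21 (N 84) (S4 4 25 (S2 7 26 U (S3 5 26 U (P 26))) (S2 7 26 (S3 5 26 U (S1 11 30 (S3 6 31 U (S4 5 31 U (P 31))) (S3 6 31 (N 222) (S4 5 31 (N 130) (P 31))))) (S3 5 26 (S1 11 30 (N 150) (S4 5 31 U (S2 10 37 U (P 63)))) (P 26)))))) (S4 3 19 (S3 4 21 U (S2 7 26 (S3 5 26 U (S1 10 27 U (P 27))) (S3 5 26 (N 88) (P 26)))) (P 19)))))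
def t93 : T := S4 1 10 (S1 4 11 U (S3 2 11 U (S4 1 11 (N 120) (P 11)))) (S1 4 11 (S3 2 11 U (S2 4 13 U (S1 5 14 (S2 5 16 U (S3 3 16 U (S1 6 17 U (S2 6 19 U (S4 2 19 U (S3 4 21 U (S2 7 22 U (S2 8 25 U (S3 5 26 U (S2 9 28 U (S4 3 28 U (S1 11 31 (N 45) (S2 10 31 U (S3 6 31 U (P 31))))))))))))))) (S2 5 16 U (S3 3 16 U (S2 6 19 U (S4 2 19 (S3 4 21 U (S2 7 22 U (S1 9 25 (N 75) (S2 8 25 U (S3 5 26 U (S2 9 28 U (S4 3 29 (S2 10 31 U (S3 6 31 U (P 31))) (S2 10 31 U (S3 6 31 U (P 31)))))))))) (S3 4 21 (N 63) (S2 7 22 U (S1 9 25 (S2 8 25 U (S3 5 26 U (S2 9 28 U (S4 3 28 (S2 10 31 U (S3 6 31 U (P 31))) (P 28))))) (S2 8 25 U (S3 5 26 (S2 9 28 U (S4 3 28 U (P 28))) (S2 9 28 U (S4 3 28 (S2 10 31 U (S3 6 31 U (P 31))) (P 28))))))))))))))) (S3 2 11 (S2 4 13 U (S2 5 16 U (S3 3 17 U (S1 7 19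 U (S2 6 19 U (S4 2 19 U (P 19))))))) (P 11)))
def t94 : T := S1 10 29 (S2 10 31 U (S3 6 31 U (S1 11 32 (S4 4 33 (N 90) (S2 11 34 U (S1 12 35 (S3 7 36 U (S2 12 37 U (S1 13 38 (S2 13 40 U (S1 14 41 (N 120) (S3 8 41 U (S4 5 41 U (P 41))))) (S2 13 40 U (S3 8 41 U (S4 5 41 (N 90) (P 41))))))) (S3 7 36 U (S2 12 37 U (S2 13 40 U (S3 8 41 U (S4 5 41 (N 90) (P 41))))))))) (S4 4 33 (N 165) (S2 11 34 U (S3 7 36 U (S2 12 37 U (S2 13 40 U (S3 8 41 (N 87) (S4 5 41 (S2 14 43 U (S2 15 46 U (S3 9 46 U (S2 16 49 U (S3 10 51 U (S2 17 52 U (S2 18 55 U (S3 11 56 U (S2 19 58 U (S1 21 61 (N 90) (S2 20 61 U (S3 12 61 U (P 61))))))))))))) (P 41))))))))))) (S2 10 31 U (S3 6 31 (N 72) (S4 4 33 (S2 11 34 U (S3 7 36 U (S2 12 37 U (S2 13 40 U (S3 8 41 U (S2 14 43 U (S2 15 46 U (S3 9 46 U (S2 16 49 U (S3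 10 51 U (S2 17 52 U (S1 19 55 (N 165) (S2 18 55 U (S3 11 56 U (S2 19 58 U (S4 7 58 (S2 20 61 U (S3 12 61 U (P 61))) (P 58))))))))))))))))) (S2 11 34 U (S3 7 36 (N 72) (S2 12 37 U (S2 13 40 U (S3 8 41 (N 312) (S4 5 41 (S2 14 43 U (S2 15 46 U (S3 9 46 U (S2 16 49 U (S3 10 51 U (S2 17 52 U (S1 19 55 (S2 18 55 U (S3 11 56 U (S2 19 58 U (P 58)))) (S2 18 55 U (S3 11 56 (N 147) (S2 19 58 U (P 58))))))))))) (P 41))))))))))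
def t95 : T := S1 7 20 (S3 4 21 (N 120) (S2 7 22 U (S1 8 23 (S2 8 25 U (S4 3 25 (S1 9 26 (N 75) (S3 5 26 U (P 26))) (S1 9 26 (S3 5 26 U (S2 9 28 U t94)) (S3 5 26 (N 135) (P 26))))) (S2 8 25 U (S4 3 25 (S3 5 26 U (P 26)) (S3 5 26 (S2 9 28 U (S2 10 31 U (S4 4 33 U (S2 11 34 U (S2 12 37 U (S2 13 40 U (S4 5 41 U (S1 15 43 (N 192) (S2 14 43 U (P 43)))))))))) (P 26))))))) (S3 4 21 (S2 7 22 U (S2 8 25 U (S4 3 25 U (S2 9 28 U (S2 10 31 U (S4 4 33 (N 99) (S2 11 34 U (S1 13 37 (S2 12 37 U (S3 7 37 (N 111) (S2 13 40 U (S4 5 41 U (S2 14 43 U (P 43)))))) (S2 12 37 U (S3 7 37 (S2 13 40 U (S4 5 41 U (S2 14 43 U (P 43)))) (P 37))))))))))) (S2 7 22 U (S2 8 25 (N 150) (S4 3 25 (S3 5 26 (N 150) (P 26)) (S3 5 26 (S2 9 28 U (S2 10 31 U (S4 4 33 (S2 11 34 U (S1 13 37 (N 156) (S2 12 37 U (P 37))))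 (S2 11 34 U (S1 13 37 (S2 12 37 U (S2 13 40 U (S4 5 41 (N 213) (S2 14 43 U (P 43))))) (S2 12 37 U (P 37))))))) (P 26))))))
def t96 : T := S3 3 16 (S1 6 17 (N 48) (S4 2 17 U (P 17))) (S1 6 17 (S4 2 17 (S2 6 19 U (S1 7 20 (S3 4 21 U (S2 7 22 U (S1 8 23 (N 135) (S2 8 25 U (S3 5 26 U (S4 3 26 (N 60) (P 26))))))) (S3 4 21 U (S2 7 22 U (S2 8 25 U (S3 5 26 U (S4 3 26 (S2 9 28 U (S2 10 31 U (S3 6 31 U (S2 11 34 U (S4 4 35 (S3 7 36 U (S1 13 37 (N 105) (S2 12 37 U (P 37)))) (S3 7 36 U (S1 13 37 (S2 12 37 U (S2 13 40 U (S3 8 41 U (S2 14 43 U (S2 15 46 U (S3 9 46 U (P 46))))))) (S2 12 37 U (P 37))))))))) (P 26)))))))) (S2 6 19 U t95)) (S4 2 17 (S2 6 19 U (S3 4 21 (N 42) (S2 7 22 U (S2 8 25 U (S3 5 26 (S4 3 26 (N 78) (S2 9 28 U (S1 11 31 (N 93) (S2 10 31 U (S2 11 34 U (S2 12 37 U (P 37)))))))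 (S4 3 26 (S2 9 28 U (S1 11 31 (S2 10 31 U (S3 6 31 U (S2 11 34 U (S4 4 35 (S3 7 36 U (S2 12 37 U (P 37))) (S3 7 36 (N 138) (S2 12 37 U (P 37))))))) (S2 10 31 U (S3 6 31 (N 294) (P 31))))) (P 26))))))) (P 17)))
def t97 : T := S1 4 11 (S3 2 11 (S2 4 13 U (S1 5 14 U (S2 5 16 U (S3 3 17 (N 96) (S4 2 17 U (P 17)))))) (S2 4 13 U (S1 5 14 (S2 5 16 U t96) (S2 5 16 (S3 3 16 U (S4 2 17 U (P 17))) (S3 3 16 (S4 2 17 (S2 6 19 U (S2 7 22 U (S1 9 25 (N 144) (S2 8 25 U (S4 3 26 (S3 5 27 U (S2 9 28 U (P 28))) (S3 5 27 (N 297) (S2 9 28 U (P 28)))))))) (P 17)) (S4 2 17 (S2 6 19 U (S3 4 21 (S2 7 22 U (S1 9 25 (S2 8 25 U (S4 3 26 (N 147) (S2 9 28 U (P 28)))) (S2 8 25 U (S4 3 26 (S2 9 28 U (P 28)) (S2 9 28 U (P 28)))))) (S2 7 22 (N 110) (S1 9 25 (S2 8 25 U (S3 5 26 (S4 3 26 (S2 9 28 U (P 28)) (S2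 9 28 U (P 28))) (S4 3 26 (S2 9 28 U (P 28)) (P 26)))) (S2 8 25 (S3 5 26 U (S4 3 26 (N 225) (P 26))) (S3 5 26 (S4 3 26 (S2 9 28 U (P 28)) (S2 9 28 U (P 28))) (S4 3 26 (S2 9 28 (S3 6 31 U (S4 4 35 (N 140) (S1 13 36 (N 130) (S3 7 36 U (P 36))))) (P 28)) (P 26)))))))) (P 17))))))) (S3 2 11 (S2 4 13 U (S2 5 16 U (S3 3 17 (S4 2 17 (S1 7 19 U (S2 6 19 U (P 19))) (S1 7 19 (S2 6 19 U (S2 7 22 U (S3 4 23 (S2 8 25 U (S4 3 25 U (P 25))) (S2 8 25 U (S4 3 25 (N 141) (P 25)))))) (S2 6 19 U (P 19)))) (S4 2 17 (S1 7 19 (S2 6 19 U (S2 7 22 U (S2 8 25 U (S4 3 26 (N 198) (S2 9 28 U (S3 5 28 (N 84) (P 28))))))) (S2 6 19 U (P 19))) (P 17))))) (P 11))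
def t98 : T := S1 11 32 (S2 11 34 U (S1 12 35 (S4 5 36 U (S2 12 37 U (S1 13 38 (S3 7 39 U (S2 13 40 U (S1 14 41 (N 231) (S2 14 43 U (S4 6 43 U (S2 15 46 U (S2 16 49 U (S3 9 50 (N 105) (S4 7 50 U (P 50)))))))))) (S3 7 39 (N 105) (S2 13 40 U (S2 14 43 U (S4 6 43 U (S2 15 46 U (S2 16 49 U (S3 9 50 (N 105) (S4 7 50 (N 99) (P 50)))))))))))) (S4 5 36 U (S2 12 37 U (S3 7 39 (N 189) (S2 13 40 U (S2 14 43 U (S4 6 43 (N 93) (S2 15 46 U (S2 16 49 U (S3 9 50 (S4 7 50 U (S2 17 52 U (S2 18 55 U (S4 8 57 U (S2 19 58 U (S2 20 61 U (S2 21 64 U (S4 9 64 U (S1 23 67 (N 294) (S2 22 67 U (P 67))))))))))) (S4 7 50 (N 192) (P 50))))))))))))) (S2 11 34 U (S4 5 36 (N 165) (S2 12 37 U (S3 7 39 (S2 13 40 U (S2 14 43 U (S4 6 43 U (S2 15 46 U (S2 16 49 U (S4 7 50 U (S2 17 52 U (S2 18 55 U (S4 8 57 (N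 78) (S2 19 58 U (S1 21 61 (N 273) (S2 20 61 U (S2 21 64 U (S4 9 64 (N 78) (P 64))))))))))))))) (S2 13 40 U (S2 14 43 U (S4 6 43 (N 258) (S2 15 46 U (S2 16 49 U (S3 9 50 (S4 7 50 (N 150) (S2 17 52 U (S2 18 55 U (S4 8 57 (N 171) (S2 19 58 U (S1 21 61 (S2 20 61 U (S2 21 64 U (S4 9 64 (N 177) (P 64)))) (S2 20 61 U (S2 21 64 U (S4 9 64 (N 255) (P 64)))))))))) (S4 7 50 (S2 17 52 U (S2 18 55 U (S2 19 58 U (S1 21 61 (N 264) (S2 20 61 U (S3 11 61 (N 171) (P 61))))))) (P 50))))))))))))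
def t99 : T := S3 3 17 (S2 6 19 U (S1 7 20 (S2 7 22 U (S4 3 22 U (S1 8 23 (S3 4 23 (N 63) (S2 8 25 U (S1 9 26 (N 147) (S2 9 28 U (S4 4 29 U (P 29)))))) (S3 4 23 (S2 8 25 U (S2 9 28 U (S3 5 29 (N 168) (S4 4 29 U (P 29))))) (P 23))))) (S2 7 22 U (S4 3 22 (N 51) (S3 4 23 (S2 8 25 U (S2 9 28 U (S3 5 29 (S4 4 29 U (S2 10 31 U (S2 11 34 U (S3 6 35 (S4 5 36 U (S1 13 37 (N 105) (S2 12 37 U (P 37)))) (S4 5 36 U (S1 13 37 (S2 12 37 U (S2 13 40 U (S2 14 43 U (S4 6 43 U (P 43))))) (S2 12 37 U (P 37)))))))) (S4 4 29 (N 195) (P 29))))) (P 23)))))) (S2 6 19 U (S1 7 20 (S2 7 22 U (S4 3 22 (S1 8 23 (N 66) (P 23)) (S1 8 23 (S2 8 25 U (S1 9 26 (S2 9 28 U (S3 5 28 (S1 10 29 (N 84) (S4 4 29 U (P 29))) (S1 10 29 (S4 4 29 (N 87) (S2 10 31 U t98)) (S4 4 29 (N 231) (P 29))))) (S2 9 28 U (S3 5 28 (S4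 4 29 U (P 29)) (S4 4 29 (S2 10 31 U (S2 11 34 U (S2 12 37 U (S3 7 39 (N 195) (S2 13 40 U (S2 14 43 U (S2 15 46 U (S1 17 49 (S2 16 49 U (S3 9 50 (N 72) (S4 7 51 (N 291) (S2 17 52 U (P 52))))) (S2 16 49 U (S3 9 50 (N 261) (S4 7 51 (S2 17 52 U (P 52)) (S2 17 52 U (P 52))))))))))))) (P 29)))))) (P 23)))) (P 23)))
def t100 : T := S1 5 14 (S4 2 15 (S2 5 16 U (S1 6 17 (S3 3 17 U (S2 6 19 U (S1 7 20 (N 60) (S2 7 22 U (S4 3 23 (N 99) (P 23)))))) (S3 3 17 (S2 6 19 U (S2 7 22 U (S3 4 23 U (S4 3 23 U (P 23))))) (P 17)))) (S2 5 16 U (S1 6 17 t99 (S3 3 17 (S2 6 19 U (S2 7 22 U (S4 3 22 (S3 4 23 (S2 8 25 U (S2 9 28 U (S3 5 29 (N 168) (S1 11 31 (N 132) (S2 10 31 U (P 31)))))) (P 23)) (S3 4 23 (S2 8 25 U (S2 9 28 U (S3 5 29 (S4 4 29 (S1 11 31 (N 87) (S2 10 31 U (P 31))) (S1 11 31 (S2 10 31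 U (S2 11 34 U (S3 6 35 (S4 5 36 (N 93) (S2 12 37 U (P 37))) (S4 5 36 (N 324) (S2 12 37 U (P 37)))))) (S2 10 31 U (P 31)))) (S4 4 29 (S1 11 31 (S2 10 31 U (S2 11 34 U (S2 12 37 U (P 37)))) (S2 10 31 U (P 31))) (P 29))))) (P 23))))) (P 17))))) (S4 2 15 (S2 5 16 U (S3 3 17 (S2 6 19 U (S2 7 22 U (S3 4 23 (S4 3 23 (S1 9 25 U (S2 8 25 U (P 25))) (S1 9 25 (S2 8 25 U (S2 9 28 U (S3 5 29 (N 75) (S2 10 31 U (P 31))))) (S2 8 25 U (P 25)))) (S4 3 23 (S1 9 25 (S2 8 25 U (S2 9 28 U (S2 10 31 U (S4 4 31 (N 147) (P 31))))) (S2 8 25 U (P 25))) (P 23))))) (P 17))) (S2 5 16 (S3 3 17 U (P 17)) (S3 3 17 (S2 6 19 (N 209) (S2 7 22 (S4 3 22 U (S3 4 23 (N 132) (P 23))) (S4 3 22 (S3 4 23 (S1 9 25 (S2 8 25 U (S2 9 28 U (S3 5 29 (S2 10 31 U (P 31)) (S2 10 31 U (P 31))))) (S2 8 25 U (P 25))) (P 23)) (S3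 4 23 (S1 9 25 (S2 8 25 U (S2 9 28 (N 161) (S3 5 29 (S4 4 29 (S2 10 31 U (P 31)) (S2 10 31 (N 133) (P 31))) (S4 4 29 (S2 10 31 U (P 31)) (P 29))))) (S2 8 25 (S3 5 29 (N 203) (S4 4 29 U (P 29))) (P 25))) (P 23))))) (P 17))))
def t101 : T := S1 7 20 (S2 7 22 U (S1 8 23 (S4 3 23 (N 69) (S2 8 25 U (S1 9 26 (S3 5 27 (N 75) (S2 9 28 U (S1 10 29 (N 165) (S2 10 31 U (S2 11 34 U (S2 12 37 U (S4 5 38 (N 144) (P 38)))))))) (S3 5 27 (N 135) (S2 9 28 U (S2 10 31 U (S2 11 34 U (S2 12 37 U (S4 5 38 (S2 13 40 U (S2 14 43 U (S3 8 43 (N 129) (S2 15 46 U (S1 17 49 (N 144) (S2 16 49 U (P 49))))))) (P 38)))))))))) (S4 3 23 (S2 8 25 U (S3 5 27 (N 237) (S2 9 28 U (S2 10 31 U (S4 4 31 (N 240) (S2 11 34 U (S2 12 37 U (S2 13 40 U (S1 15 43 (S2 14 43 U (S3 8 43 (N 129) (S2 15 46 U (S2 16 49 U (P 49)))))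 (S2 14 43 U (S3 8 43 (N 360) (P 43)))))))))))) (P 23)))) (S2 7 22 U (S4 3 23 (S2 8 25 U (S3 5 27 (S2 9 28 U (S2 10 31 U (S4 4 31 (S2 11 34 U (S1 13 37 (N 54) (S2 12 37 U (S3 7 38 (N 255) (S4 5 39 (N 351) (S2 13 40 U (P 40))))))) (S2 11 34 U (S1 13 37 (S2 12 37 U (S3 7 38 (N 222) (S2 13 40 U (P 40)))) (S2 12 37 U (S3 7 38 (S2 13 40 U (P 40)) (S2 13 40 U (P 40))))))))) (S2 9 28 U (S2 10 31 U (S4 4 31 (S2 11 34 U (S1 13 37 (S2 12 37 U (S4 5 39 (S2 13 40 U (P 40)) (S2 13 40 U (P 40)))) (S2 12 37 U (S4 5 39 (S2 13 40 U (P 40)) (S2 13 40 U (P 40)))))) (S2 11 34 U (S1 13 37 (S2 12 37 U (S2 13 40 U (P 40))) (S2 12 37 U (S2 13 40 U (P 40)))))))))) (P 23)))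
def t102 : T := S1 8 23 (S2 8 25 U (S1 9 26 (S3 5 27 (S2 9 28 U (S1 10 29 (N 432) (S2 10 31 U (S2 11 34 U (S2 12 37 U (S4 5 37 (S3 7 38 (N 222) (P 38)) (S3 7 38 (S2 13 40 U (S2 14 43 U (S2 15 46 U (S2 16 49 U (S3 9 49 (N 234) (S2 17 52 U (S1 19 55 (N 330) (S2 18 55 U (P 55))))))))) (P 38)))))))) (S2 9 28 U (S1 10 29 (S2 10 31 U (S1 11 32 (S2 11 34 U (S1 12 35 (S2 12 37 U (S4 5 37 (N 96) (S1 13 38 (N 330) (P 38)))) (P 38))) (P 38))) (P 38)))) (S3 5 27 (S2 9 28 U (S2 10 31 U (S2 11 34 U (S2 12 37 U (S4 5 37 (S3 7 38 (S2 13 40 U (S2 14 43 U (S2 15 46 U (S1 17 49 (S2 16 49 U (S3 9 49 (N 147) (S2 17 52 U (S4 7 52 (N 141) (P 52))))) (S2 16 49 U (S3 9 49 (S2 17 52 U (S4 7 52 (N 408) (P 52))) (P 49))))))) (P 38)) (S3 7 38 (S2 13 40 U (S2 14 43 U (S2 15 46 U (S1 17 49 (S2 16 49 U (S3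 9 49 (S2 17 52 U (P 52)) (S2 17 52 U (P 52)))) (S2 16 49 U (S3 9 49 (S2 17 52 U (P 52)) (P 49))))))) (P 38))))))) (P 38)))) (P 23)
def t103 : T := S1 4 11 (S3 2 11 (S2 4 13 U t100) (S2 4 13 (S1 5 14 (S4 2 15 (N 120) (S3 3 16 U (S1 6 17 (S1 7 20 (S3 4 21 U (S4 3 22 U (S1 8 23 (N 175) (S2 7 23 U (P 23))))) (S3 4 21 U (S4 3 22 U (S2 7 23 (S3 5 26 U (S4 4 29 U (S3 6 31 U (S2 10 33 (N 280) (S3 7 36 U (S4 5 36 U (S1 13 37 (N 105) (P 37)))))))) (P 23))))) (P 17)))) (P 17)) (S1 5 14 (S4 2 15 (S2 5 16 (S3 3 16 U (S1 6 17 (N 150) (P 17))) (S3 3 16 (S1 6 17 (S2 6 19 U t101) (P 17)) (P 16))) (S2 5 16 (S3 3 16 (N 112) (S1 6 17 (S1 7 20 (S3 4 21 U (S4 3 22 (N 80) (S1 8 23 (S1 9 26 (S3 5 26 U (S1 10 29 (S2 9 29 (N 145) (S4 4 29 U (S3 6 31 U (S1 11 32 (N 160) (S3 7 36 U (S4 5 36 U (P 36)))))))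 (S2 9 29 (N 280) (S4 4 29 U (P 29))))) (S3 5 26 U (P 26))) (P 23)))) (P 23)) (P 17))) (S3 3 16 (S1 6 17 (S2 6 19 (N 133) (S1 7 20 (S2 7 22 (N 154) (S4 3 22 t102 (P 22))) (P 23))) (P 17)) (P 16)))) (P 17)))) (S3 2 11 (S2 4 13 (S4 2 15 (N 104) (S3 3 17 (S1 7 19 U (P 30)) (P 17))) (S4 2 15 (S2 5 16 (S3 3 17 U (P 17)) (S3 3 17 (S1 7 19 (S2 6 19 U (S2 7 22 U (S3 4 23 (S4 3 23 (S2 8 25 U (P 25)) (S2 8 25 U (P 25))) (S4 3 23 (S2 8 25 U (P 25)) (P 23))))) (S2 6 19 (S3 4 23 (N 120) (S4 3 23 U (P 23))) (P 19))) (P 17))) (S2 5 16 (S3 3 17 (S1 7 19 (S4 3 22 U (S3 4 23 U (P 23))) (P 30)) (P 17)) (S3 3 17 (S1 7 19 (S2 6 19 (S4 3 22 U (S3 4 23 (S3 5 29 (N 133) (S4 4 29 U (P 29))) (P 23))) (S2 7 22 (S4 3 22 (N 198) (S3 4 23 (S3 5 29 (S4 4 29 U (S1 11 30 (S3 6 35 (N 210) (S4 5 36 U (P 36)))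 (P 30))) (S4 4 29 (N 304) (P 29))) (P 23))) (S4 3 22 (S3 4 23 (S2 8 25 (N 293) (P 25)) (P 23)) (P 22)))) (P 30)) (P 17))))) (P 11))
def t104 : T := S4 1 10 (S3 2 11 (S4 1 11 (S4 1 12 (N 60) (S1 5 13 U (S2 4 13 U (P 13)))) (S1 5 13 (N 330) (S2 4 13 U (P 13)))) (S4 1 11 (S4 1 12 (S1 5 13 (S2 4 13 U (S4 1 13 U (S2 5 16 U (S3 3 16 U (P 16))))) (S2 4 13 U (S4 1 13 (S4 1 14 (S4 1 15 (N 15) (S2 5 16 U (S3 3 16 U (P 16)))) (S2 5 16 U (S3 3 16 U (P 16)))) (P 13)))) (S1 5 13 (S2 4 13 U (S2 5 16 U (S3 3 16 U (P 16)))) (S2 4 13 (N 55) (P 13)))) (P 11))) (S3 2 11 (S1 5 13 (S2 4 13 U (S2 5 16 U (S3 3 17 (S2 6 19 U (S4 2 19 (N 351) (P 19))) (S2 6 19 U (S4 2 19 (S1 8 21 (S2 7 22 U (S2 8 25 U (S2 9 28 U (S3 5 28 (N 84) (S1 11 29 (N 456) (S4 3 29 (N 231) (P 29))))))) (S2 7 22 U (S2 8 25 U (S2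 9 28 U (S3 5 28 (S4 3 29 (S2 10 31 U (S1 13 34 U (S2 11 34 U (P 34)))) (P 29)) (S4 3 29 (S2 10 31 U (S1 13 34 (S2 11 34 U (S2 12 37 U (S3 7 39 (N 183) (S4 4 39 (S2 13 40 U (P 40)) (S2 13 40 U (P 40)))))) (S2 11 34 U (P 34)))) (P 29))))))) (P 19)))))) (S2 4 13 (S3 3 17 U (S1 7 18 U (S4 2 19 U (S1 9 23 U (S2 7 23 U (P 23)))))) (P 13))) (P 11))
def t105 : T := S2 2 7 (S4 1 7 (S1 3 8 (S4 1 8 U (S1 4 11 U (S2 3 11 U (S3 2 11 U (P 11))))) (S4 1 8 (S4 1 9 U (S2 3 11 U (S3 2 11 U (P 11)))) (P 8))) (S1 3 8 (S1 4 11 (S2 3 11 (S3 2 11 U (S4 2 13 U (S1 5 14 U (S2 4 15 U (S3 3 16 U (S4 3 19 U (S3 4 21 U (S1 9 25 (N 150) (S4 4 25 U (S2 7 26 (N 330) (S3 5 26 U (P 26)))))))))))) (S3 2 11 U t91)) (S2 3 11 (S3 2 11 U t92) (S3 2 11 (S4 2 13 U (S3 3 17 (S2 5 18 U (S1 7 19 U (S4 3 19 U (P 19))))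 (S2 5 18 (S1 7 19 U (S4 3 19 U (P 19))) (S1 7 19 (S4 3 19 U (S2 7 25 U (S4 4 25 U (P 25)))) (S4 3 19 (S2 7 25 U (S1 10 27 U (S3 5 28 U (S2 9 32 U (S4 5 32 (N 192) (S1 13 35 U (S2 11 39 U (S3 7 39 (N 133) (P 39))))))))) (P 19)))))) (P 11)))) (P 8))) (S4 1 7 (S1 3 8 (S4 1 8 (S4 1 9 (S2 3 10 U t93) (S2 3 10 (N 40) t97)) (S2 3 10 (S1 4 11 (S3 2 11 U (S1 5 14 (N 70) (S4 2 15 U (S3 3 16 U (S2 5 17 (S3 4 21 U (S4 3 22 U (S2 7 24 (N 140) (S1 9 25 U (S3 5 26 U (S4 4 29 U (S3 6 31 U (P 31)))))))) (P 17)))))) (S3 2 11 (N 280) (P 11))) t103)) (S4 1 8 (S4 1 9 (S2 3 10 (S4 1 10 (N 10) (S3 2 11 U (P 11))) t104) (S2 3 10 (S3 2 11 (S1 5 13 U (S2 5 17 (S3 3 17 U (S4 2 17 U (S1 7 18 U (P 18)))) (S3 3 17 (S4 2 17 U (S1 7 18 U (P 18))) (S4 2 17 (N 110) (P 17))))) (P 11)) (S3 2 11 (S1 5 13 (S2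 4 13 (N 104) (S2 5 16 (S3 3 17 (N 96) (S4 2 17 U (P 17))) (S3 3 17 (S4 2 17 (S2 6 19 U (P 19)) (S2 6 19 (S1 8 21 (N 136) (S3 4 23 (N 247) (P 29))) (P 19))) (S4 2 17 (S2 6 19 (S1 8 21 U (P 29)) (P 19)) (P 17))))) (S2 4 13 (S3 3 17 (S4 2 17 (S1 7 18 U (P 18)) (S1 7 18 (N 136) (P 18))) (S4 2 17 (S1 7 18 U (P 18)) (P 17))) (P 13))) (P 11)))) (P 8))) (P 7))
def t106 : T := S1 4 11 (S2 3 11 U (S3 3 13 U (S1 5 14 (S1 6 17 (N 252) (S3 4 17 U (S2 5 18 U (S4 2 19 (N 28) (S3 5 21 U (S2 7 25 (N 196) (S3 6 25 U (S4 3 28 (N 28) (S3 7 29 U (P 29)))))))))) (S3 4 17 U (S2 5 18 (S4 2 19 U (S3 5 21 U (S1 9 25 (N 36) (S3 6 25 U (S4 3 28 (N 140) (S2 8 29 (S3 7 29 U (S3 8 33 U (S1 13 36 (N 36) (S3 9 37 U (S4 4 37 U (P 37)))))) (S3 7 29 U (P 29)))))))) (S4 2 19 (S3 5 21 U (S1 9 25 (S2 7 25 U (S3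 6 25 U (S3 7 29 U (S4 3 29 (N 280) (P 29))))) (S2 7 25 (N 132) (S3 6 25 U (P 25))))) (S3 5 21 (N 63) (S1 9 25 (S2 7 25 (S3 6 25 U (S4 3 28 U (S3 7 29 U (P 29)))) (S3 6 25 U (S4 3 28 (S3 7 29 U (P 29)) (S3 7 29 (N 161) (P 29))))) (S2 7 25 (S3 6 25 U (S4 3 28 (S3 7 29 U (P 29)) (S3 7 29 U (P 29)))) (S3 6 25 (S4 3 28 U (S2 9 32 U (S1 13 36 (N 108) (S4 4 37 U (S2 11 39 U (P 39)))))) (P 25))))))))))) (S2 3 11 (S3 3 13 U (S2 4 15 (S3 4 17 U (S1 7 19 U (S2 5 19 (N 72) (S4 2 19 U (P 19))))) (S3 4 17 U (S1 7 19 (S4 2 19 U (S3 5 21 U (S3 6 25 U (S2 7 26 (N 152) (S4 3 28 (N 84) (S3 7 29 U (S1 11 30 (S3 8 33 U (S2 10 37 (N 144) (S3 9 37 U (S4 4 37 U (P 37))))) (P 30)))))))) (P 30))))) (P 11))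
def t107 : T := S4 1 8 (S3 2 9 (S4 1 9 U (S1 4 11 U (S2 3 11 U (P 11)))) (S4 1 9 (S4 1 10 (S1 4 11 (N 140) (S2 3 11 U (S4 1 11 (S4 1 12 U (S3 3 13 U (S3 4 17 U (S2 5 18 U (S1 7 19 U (S3 5 21 U (S4 2 23 U (S2 7 25 U (S3 6 25 U (P 25)))))))))) (P 11)))) t106) (P 9))) (S3 2 9 (S1 4 11 (S2 3 11 (S1 5 14 U (S3 3 14 U (S2 4 15 U (S4 2 15 U (P 15))))) (S1 5 14 (S3 3 14 (N 14) (S4 2 15 (N 112) (P 15))) (S3 3 14 (S4 2 15 U (P 15)) (S4 2 15 (S2 5 18 U (S3 5 23 (S4 3 23 U (S1 9 25 U (S2 7 25 U (P 25)))) (S4 3 23 (S1 9 25 (N 161) (S2 7 25 U (P 25))) (P 23)))) (P 15))))) (S2 3 11 (S3 3 14 (S2 4 15 (N 56) (S4 2 15 U (P 15))) (S2 4 15 (S4 2 15 U (S1 7 19 (S2 5 19 U (S4 3 22 U (S3 5 23 U (P 23)))) (S2 5 19 (S4 3 22 U (S2 6 23 (S3 5 23 U (S1 10 27 U (S2 7 27 (N 189) (S4 4 29 U (S3 7 32 U (S1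 13 35 U (S4 5 36 U (S3 9 41 (N 168) (S1 16 43 (N 126) (S4 6 43 U (P 43))))))))))) (S3 5 23 (N 133) (P 23)))) (P 19)))) (S4 2 15 (S1 7 19 U (P 19)) (P 15)))) (P 11))) (P 9))
def t108 : T := S3 3 14 (S2 4 15 (S4 2 17 (N 135) (S1 7 18 U (S2 5 19 (S3 4 19 (N 95) (S1 9 23 U (S2 6 23 (S4 3 25 U (S2 7 27 (N 135) (S1 11 28 U (S1 13 33 U (S3 7 33 (N 80) (S4 4 33 U (P 33))))))) (S4 3 25 U (S1 11 28 U (S1 13 33 U (S3 7 33 (S4 4 33 U (S1 15 38 U (S4 5 41 U (S2 11 42 (N 80) (S1 17 43 U (P 43)))))) (S4 4 33 (N 140) (P 33))))))))) (S3 4 19 (S1 9 23 U (S3 5 24 (N 120) (S4 3 25 U (S1 11 28 U (S1 13 33 U (S4 4 33 (N 90) (S2 9 34 (S1 15 38 U (S4 5 41 U (S1 17 43 U (S3 9 43 (N 200) (P 43))))) (P 34)))))))) (P 19))))) (S4 2 17 (S1 7 18 U (S3 4 19 (S1 9 23 U (S3 5 24 (N 110) (S2 7 26 U (S4 3 26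 (N 95) (P 26))))) (P 19))) (S1 7 18 (S3 4 19 U (P 19)) (S3 4 19 (S1 9 23 (N 304) (S3 5 24 (S4 3 25 (S2 7 26 U (P 26)) (S2 7 26 (S1 11 28 U (S3 6 29 (S1 13 33 U (S4 4 33 U (S3 7 34 (S1 15 38 U (S3 8 39 (N 312) (S2 11 41 (N 160) (S4 5 41 U (P 41))))) (P 34)))) (P 34))) (P 26))) (P 34))) (P 19))))) (S2 4 15 (S4 2 17 (S1 7 18 U (S2 5 19 (S1 9 23 U (S2 6 23 (S3 5 23 U (S4 3 26 (N 130) (S2 7 27 (N 135) (S1 11 28 U (P 28))))) (S3 5 23 (N 110) (P 23)))) (P 19))) (S1 7 18 (S2 5 19 (N 72) (P 19)) (S2 5 19 (S1 9 23 (S2 6 23 (N 184) (S3 5 23 U (S4 3 25 U (S3 7 32 (N 224) (S4 4 33 (N 148) (S1 16 41 (S3 9 41 (N 205) (S4 5 41 U (S2 11 42 (N 328) (P 42)))) (S3 9 41 (N 296) (S4 5 41 (N 171) (P 41))))))))) (S2 6 23 (S3 5 23 (S4 3 25 (N 115) (S2 7 27 (S1 11 28 U (P 28)) (S1 11 28 U (P 28))))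 (S4 3 25 (S2 7 27 (S1 11 28 U (P 28)) (S1 11 28 U (P 28))) (S2 7 27 (S1 11 28 (N 216) (P 28)) (S1 11 28 (S3 7 32 U (S4 4 33 U (S3 9 41 (N 168) (S4 5 41 (N 180) (P 41))))) (P 28))))) (S3 5 23 (S4 3 25 (S1 11 28 U (P 28)) (S1 11 28 (N 216) (P 28))) (P 23)))) (P 19)))) (P 19))
def t109 : T := S1 5 13 (S3 3 13 U (S2 4 15 (S3 4 17 U (S2 5 19 U (S1 8 21 U (S3 5 21 U (S4 2 21 U (P 21)))))) (S3 4 17 U (S1 8 21 (S3 5 21 U (S4 2 21 (N 84) (S3 6 25 U (S2 7 26 (S1 11 29 (N 100) (S3 7 29 U (S4 3 31 U (S3 8 33 U (S3 9 37 U (S2 11 41 (N 160) (S3 10 41 U (S4 4 41 U (P 41))))))))) (S1 11 29 (S3 7 29 U (S4 3 31 (N 216) (S3 8 33 U (S1 14 37 (S2 10 37 (N 140) (S3 9 37 U (S3 10 41 U (S4 4 41 (N 132) (P 41))))) (S2 10 37 (N 340) (S3 9 37 U (P 37))))))) (S3 7 29 U (S4 3 31 (S3 8 33 U (S2 10 37 (N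 144) (S3 9 37 U (P 37)))) (S3 8 33 U (S2 10 37 (S3 9 37 U (S3 10 41 U (S4 4 41 (N 244) (P 41)))) (S3 9 37 U (P 37))))))))))) (S3 5 21 U (S4 2 21 (S3 6 25 U (S2 7 26 (N 52) (S3 7 29 U (S4 3 32 (S3 8 33 U (S1 13 34 (N 128) (P 34))) (S3 8 33 U (S1 13 34 (S2 10 37 (N 136) (S3 9 37 U (P 37))) (P 34))))))) (P 21))))))) (S3 3 13 (S2 4 15 U (S1 7 18 U (S4 2 21 (N 220) (S3 5 22 (N 110) (S1 9 23 U (P 23)))))) (P 13))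
def t110 : T := S4 1 12 (S1 5 13 (S3 3 13 U (S4 1 13 U (S3 4 17 U (S2 5 18 U (S1 8 21 (N 84) (S3 5 21 U (S2 7 25 (N 96) (S3 6 25 U (S4 2 25 (S3 7 29 U (P 29)) (P 25)))))))))) (S3 3 13 (N 420) (S4 1 13 (S4 1 14 (S4 1 15 (S4 1 16 (N 80) (S3 4 17 U (S1 7 18 U (S2 5 18 U (P 18))))) (S3 4 17 U (S1 7 18 U (S2 5 18 (N 140) (P 18))))) (S3 4 17 (N 140) (S1 7 18 (S2 5 18 U (S3 5 21 U (S2 7 25 U (S3 6 25 U (S4 2 27 (N 108) (S3 7 29 U (P 29))))))) (S2 5 18 (S3 5 21 U (S1 9 23 U (S3 6 25 U (S4 2 27 (S1 11 28 U (S2 8 29 (S3 7 29 U (S1 13 33 U (S3 8 33 U (P 33)))) (S3 7 29 U (P 29)))) (S1 11 28 U (S2 8 29 (S3 7 29 U (S1 13 33 U (S3 8 33 U (P 33)))) (S3 7 29 U (P 29)))))))) (P 18))))) (P 13)))) (S1 5 13 (S3 3 13 U (S3 4 17 U (S2 5 18 (S1 8 21 (N 252) (S3 5 21 U (S4 2 23 (N 252) (S3 6 25 U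 (S2 8 29 (S3 7 29 U (S3 8 33 U (S1 13 34 (N 264) (S4 3 34 (N 192) (P 34))))) (S3 7 29 U (P 29))))))) (S1 8 21 (S3 5 21 U (S4 2 23 (S2 7 25 (N 160) (S3 6 25 U (P 25))) (S2 7 25 (S3 6 25 U (S1 11 29 (S3 7 29 U (S3 8 33 U (S4 3 34 U (S1 14 37 (N 132) (S3 9 37 U (P 37)))))) (S3 7 29 U (P 29)))) (S3 6 25 U (P 25))))) (S3 5 21 (N 231) (S4 2 23 (S2 7 25 (S3 6 25 U (S3 7 29 U (P 29))) (S3 6 25 U (P 25))) (S2 7 25 (S3 6 25 U (S3 7 29 U (P 29))) (S3 6 25 (S2 9 32 U (S1 13 34 (N 154) (S4 3 34 (N 283) (P 34)))) (P 25))))))))) (S3 3 13 (S1 7 18 U (S2 5 18 (N 385) (P 18))) (P 13)))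
def t111 : T := S2 6 23 (S3 6 25 U (S2 7 27 (S4 3 28 U (S1 11 29 (N 108) (S3 7 29 U (P 29)))) (S4 3 28 (N 84) (S1 11 29 (S3 7 29 U (S3 8 33 U (S1 14 37 (S3 9 37 U (S4 4 37 U (S3 10 41 U (S1 17 45 (N 180) (S3 11 45 U (S4 5 46 (N 92) (S3 12 49 U (S2 13 50 (N 288) (S3 13 53 U (S4 6 55 (N 256) (S3 14 57 U (S3 15 61 U (S4 7 64 (N 256) (S3 16 65 U (S3 17 69 U (S2 19 73 (N 288) (S3 18 73 U (S4 8 73 (N 264) (P 73))))))))))))))))))) (S3 9 37 U (S4 4 37 (N 92) (P 37)))))) (S3 7 29 U (P 29)))))) (S3 6 25 U (S4 3 28 (S1 11 29 (N 224) (S3 7 29 U (P 29))) (S1 11 29 (S3 7 29 U (S3 8 33 U (S1 14 37 (S3 9 37 U (S4 4 37 (N 148) (S3 10 41 U (S2 11 42 (S1 17 45 (S3 11 45 U (S4 5 46 (N 156) (P 46))) (S3 11 45 U (S4 5 46 (N 248) (P 46)))) (S1 17 45 (S3 11 45 U (S4 5 46 (S3 12 49 U (S1 20 53 (N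 368) (S3 13 53 U (S3 14 57 U (S2 16 61 (N 156) (S3 15 61 U (P 61))))))) (P 46))) (S3 11 45 U (S4 5 46 (S3 12 49 U (S3 13 53 U (S3 14 57 U (S2 16 61 (N 404) (S3 15 61 U (P 61)))))) (P 46)))))))) (S3 9 37 U (S4 4 37 (S3 10 41 U (S2 11 42 (N 332) (S3 11 45 U (S3 12 49 U (S3 13 53 U (S3 14 57 U (S2 16 61 (S3 15 61 U (S3 16 65 U (S4 7 65 (N 232) (P 65)))) (S3 15 61 U (P 61))))))))) (P 37)))))) (S3 7 29 U (P 29)))))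
def t112 : T := S1 5 13 (S3 3 13 (N 117) (S2 4 15 (S3 4 17 U (S2 5 19 (S4 2 19 (S1 8 21 (N 76) (S3 5 21 U (P 21))) (S1 8 21 (S3 5 21 U t111) (S3 5 21 U (P 21)))) (S4 2 19 (S1 8 21 (S3 5 21 U (S3 6 25 U (S1 11 29 (S3 7 29 U (S4 3 29 (N 116) (S3 8 33 U (S2 9 34 (N 332) (S1 14 37 (S3 9 37 U (S3 10 41 U (S1 17 45 (N 180) (S3 11 45 U (S4 5 48 (N 240) (S2 13 49 (N 256) (S3 12 49 U (P 49)))))))) (S3 9 37 U (S3 10 41 U (S3 11 45 U (S4 5 48 (S2 13 49 (N 192) (S3 12 49 U (P 49))) (S2 13 49 (N 456) (S3 12 49 U (P 49)))))))))))) (S3 7 29 U (S4 3 29 (S3 8 33 U (S2 9 34 (N 328) (S3 9 37 U (S4 4 39 (S3 10 41 U (S3 11 45 U (S2 13 49 (N 252) (S3 12 49 U (S4 5 49 (N 420) (P 49)))))) (S3 10 41 U (S3 11 45 U (S2 13 49 (S3 12 49 U (S1 19 50 (N 192) (P 50))) (S3 12 49 U (P 49))))))))) (P 29))))))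 (S3 5 21 U (P 21))) (P 19)))) (S3 4 17 (S4 2 19 (N 161) (P 19)) (P 30)))) (S3 3 13 (S2 4 15 (S1 7 18 U (S2 5 19 (S4 2 19 (N 95) (S3 5 22 (S1 9 23 U (S2 6 23 (N 180) (P 23))) (S1 9 23 U (S2 6 23 (S2 7 27 (S1 11 28 U (S4 3 28 U (P 28))) (P 31)) (P 23))))) (S4 2 19 (S3 5 22 (N 180) (P 31)) (P 19)))) (S1 7 18 (S4 2 19 U (P 19)) (S4 2 19 (S3 5 22 (S1 9 23 U (P 23)) (P 31)) (P 19)))) (P 13))
def t113 : T := S4 1 7 (S1 3 8 t107 (S4 1 8 (S3 2 9 (S4 1 9 (S4 1 10 (S2 3 11 U (S4 1 11 (N 175) (P 11))) (S2 3 11 (S1 5 13 U (S3 3 14 (N 135) (S2 4 15 (N 45) (S1 7 18 U (S4 2 19 (S1 9 23 U (S3 5 23 U (P 23))) (P 19)))))) (P 11))) (S2 3 11 (S1 5 13 (S3 3 14 U (S2 4 15 (N 135) (P 19))) t108) (P 11))) (S4 1 9 (S4 1 10 (S2 3 11 (S4 1 11 (S4 1 12 (S1 5 13 U (S3 3 13 U (S4 1 13 (N 220) (P 13))))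 (S1 5 13 (N 44) (S3 3 13 U (P 13)))) t109) (S4 1 11 t110 (P 11))) (S2 3 11 t112 (P 11))) (P 9))) (P 8))) (S1 3 8 (S3 2 9 (S1 4 11 (S2 3 11 (S4 2 13 (S1 5 14 (S3 3 14 (N 84) (S2 4 15 (S1 6 17 U (S2 5 19 U (S4 3 20 U (P 20)))) (P 15))) (S3 3 14 (S2 4 15 (N 195) (P 15)) (P 14))) (S1 5 14 (S3 3 14 (S2 4 15 (S1 6 17 (S2 5 19 U (S3 4 19 U (S4 3 19 U (P 19)))) (P 20)) (P 15)) (S2 4 15 (S1 6 17 (S2 5 19 (S4 3 19 U (S1 7 20 (S1 8 23 (N 342) (S2 6 23 (N 180) (S3 5 23 U (P 23)))) (P 20))) (S4 3 19 (N 405) (P 19))) (P 20)) (P 15))) (P 20))) (P 15)) (S2 3 11 (S4 2 13 (S3 3 14 (S2 4 15 (S1 7 19 (S2 5 19 (N 247) (S3 4 19 (N 247) (S4 3 20 (N 266) (P 20)))) (S2 5 19 (S3 4 19 (S4 3 20 (N 133) (P 20)) (S4 3 20 (S2 6 23 (S1 10 27 U (S2 7 27 (N 200) (S4 4 27 (N 168) (P 27)))) (S1 10 27 U (S4 4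 27 (S3 7 33 (N 216) (S4 5 34 (N 224) (S1 13 35 U (P 35)))) (P 27)))) (P 20))) (S3 4 19 (S4 3 20 (S3 5 24 (N 120) (S1 10 27 U (S4 4 27 (S2 9 34 (N 128) (S4 5 34 (N 285) (P 34))) (P 27)))) (P 20)) (P 19)))) (P 15)) (P 14)) (P 20)) (P 11))) (P 9)) (P 8))
def t114 : T := S1 7 20 (S4 2 21 (S2 7 22 U (S1 8 23 (N 63) (S3 5 23 U (P 23)))) (S2 7 22 U (S1 8 23 (S3 5 23 (N 69) (S2 8 25 U (S1 9 26 (S2 9 28 U (S1 10 29 (S2 10 31 U (S4 3 31 U (S1 11 32 (N 90) (S3 7 32 U (P 32))))) (S2 10 31 U (S4 3 31 (N 72) (S3 7 32 (N 150) (P 32)))))) (S2 9 28 U (S2 10 31 U (S4 3 31 (S3 7 32 U (P 32)) (S3 7 32 (S2 11 34 U (S2 12 37 U (S2 13 40 U (S4 4 41 U (S2 14 43 U (S2 15 46 U (S1 17 49 (N 210) (S2 16 49 U (S4 5 51 (N 132) (S2 17 52 U (P 52))))))))))) (P 32)))))))) (S3 5 23 (S2 8 25 U (S2 9 28 U (S2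 10 31 U (S4 3 31 U (S2 11 34 U (S2 12 37 U (S3 8 37 (N 60) (S2 13 40 U (S4 4 41 (N 174) (S1 15 43 (N 450) (S2 14 43 U (P 43)))))))))))) (P 23))))) (S4 2 21 (S2 7 22 U (S3 5 23 (N 147) (P 23))) (S2 7 22 U (S3 5 23 (S2 8 25 U (S2 9 28 U (S2 10 31 U (S4 3 31 (S2 11 34 U (S1 13 37 (N 165) (S2 12 37 U (S3 8 37 (N 351) (P 37))))) (S2 11 34 U (S1 13 37 (S2 12 37 U (S3 8 37 (S2 13 40 U (S4 4 41 (N 111) (S2 14 43 U (P 43)))) (S2 13 40 U (S4 4 41 (N 276) (S2 14 43 U (P 43)))))) (S2 12 37 U (S3 8 37 (S2 13 40 U (S4 4 41 (S2 14 43 U (P 43)) (S2 14 43 U (P 43)))) (P 37))))))))) (P 23))))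
def t115 : T := S3 3 14 (S2 5 16 U (S1 6 17 (S2 6 19 U (S3 4 19 U (S1 7 20 U (S4 2 21 U (S2 7 22 U (S2 8 25 U (S2 9 28 U (S2 10 31 U (S4 3 31 U (S3 7 33 (N 99) (S2 11 34 U (S1 13 37 (N 210) (S2 12 37 U (S2 13 40 U (S4 4 41 (N 51) (S2 14 43 U (P 43))))))))))))))))) (S2 6 19 U (S3 4 19 (S4 2 21 U (S2 7 22 U (S3 5 24 (N 120) (S2 8 25 U (S2 9 28 U (S1 11 31 (N 90) (S2 10 31 U (S4 3 31 U (P 31))))))))) (S4 2 21 (N 42) (S2 7 22 U (S2 8 25 U (S2 9 28 U (S1 11 31 (S2 10 31 U (S4 3 31 (N 93) (S3 7 33 (S2 11 34 U (P 34)) (S2 11 34 U (P 34))))) (S2 10 31 U (S4 3 31 (S3 7 33 (N 165) (S2 11 34 U (P 34))) (P 31)))))))))))) (S2 5 16 U (S1 6 17 (S2 6 19 U t114) (S2 6 19 U (S4 2 21 (S2 7 22 U (S3 5 23 (S2 8 25 U (S2 9 28 U (S1 11 31 (S2 10 31 U (S4 3 32 (N 138) (S2 11 34 U (P 34)))) (S2 10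 31 U (S4 3 32 (S2 11 34 U (P 34)) (S2 11 34 U (P 34))))))) (P 23))) (S2 7 22 U (S3 5 23 (S2 8 25 U (S2 9 28 U (S1 11 31 (S2 10 31 U (S4 3 31 (S2 11 34 U (P 34)) (S2 11 34 U (P 34)))) (S2 10 31 U (S4 3 31 (S2 11 34 U (P 34)) (P 31)))))) (P 23)))))))
def t116 : T := S4 1 11 (S4 1 12 (S2 4 13 U (S4 1 13 U (S1 5 14 U (S3 3 14 U (P 14))))) (S2 4 13 U (S1 5 14 (S3 3 14 U (S2 5 16 U (S1 6 17 (N 99) (S2 6 19 U (S2 7 22 U (S3 5 23 (N 165) (S4 2 23 (N 126) (P 23)))))))) (S3 3 14 (S2 5 16 U (S2 6 19 U (S3 4 19 (N 33) (S2 7 22 U (S4 2 23 (N 126) (S1 9 25 (N 186) (S2 8 25 U (P 25)))))))) (P 14))))) (S2 4 13 U (S1 5 14 t115 (S3 3 14 (S2 5 16 U (S2 6 19 U (S3 4 19 (S4 2 21 (S2 7 22 U (S3 5 24 (S1 9 25 U (S2 8 25 U (P 25))) (S1 9 25 (N 147) (S2 8 25 U (P 25))))) (S2 7 22 U (S3 5 24 (S1 9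 25 (S2 8 25 U (S2 9 28 U (S3 6 29 (S2 10 31 U (S4 3 31 U (P 31))) (S2 10 31 U (S4 3 31 (N 72) (P 31)))))) (S2 8 25 U (P 25))) (S1 9 25 (S2 8 25 U (S2 9 28 U (S2 10 31 U (S4 3 31 (S2 11 34 U (P 34)) (P 31))))) (S2 8 25 U (P 25)))))) (S4 2 21 (S2 7 22 U (S1 9 25 (S2 8 25 U (S2 9 28 U (S2 10 31 U (S4 3 32 (S3 7 33 (N 297) (S2 11 34 U (P 34))) (S3 7 33 (S2 11 34 U (P 34)) (S2 11 34 U (P 34))))))) (S2 8 25 U (P 25)))) (S2 7 22 U (S1 9 25 (S2 8 25 U (S2 9 28 U (S2 10 31 U (S4 3 31 (S3 7 33 (S2 11 34 U (P 34)) (S2 11 34 U (P 34))) (P 31))))) (S2 8 25 (N 140) (P 25)))))))) (P 14))))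
def t117 : T := S4 1 9 (S2 3 10 (S4 1 10 U (S1 4 11 U (P 11))) (S4 1 10 (S1 4 11 t116 (S4 1 11 (S4 1 12 (S2 4 13 U (S4 1 13 (S3 3 14 (N 168) (S4 1 14 (S4 1 15 U (S2 5 16 U (S1 7 19 U (S2 6 19 U (P 19))))) (P 14))) (S3 3 14 (S2 5 16 U (S1 7 19 (N 84) (S2 6 19 U (S3 4 19 (S2 7 22 U (S3 5 24 (N 24) (S2 8 25 U (S4 2 25 (N 237) (P 25))))) (P 19))))) (P 14)))) (S2 4 13 U (S3 3 14 (S2 5 16 U (S1 7 19 (S2 6 19 U (S3 4 19 (S2 7 22 U (S4 2 23 (N 57) (S3 5 24 (S2 8 25 U (P 25)) (S2 8 25 U (P 25))))) (S2 7 22 U (S4 2 23 (S2 8 25 U (P 25)) (S2 8 25 U (P 25)))))) (S2 6 19 U (S3 4 19 (S2 7 22 U (S4 2 23 (S3 5 24 (S2 8 25 U (P 25)) (S2 8 25 U (P 25))) (S3 5 24 (S2 8 25 U (P 25)) (S2 8 25 U (P 25))))) (P 19))))) (P 14)))) (P 11))) (P 10))) (S2 3 10 (S1 4 11 (S1 5 14 (S3 3 14 U (S1 6 17 (S2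 5 17 U (S4 2 17 U (S1 7 20 U (S3 5 23 U (S4 3 25 U (S2 8 27 U (S3 7 32 U (S4 4 33 U (S1 13 37 (N 216) (S2 11 37 U (P 37))))))))))) (S2 5 17 (N 112) (S4 2 17 U (P 17))))) (S3 3 14 (S2 5 17 U (S4 2 17 U (P 17))) (P 14))) (P 11)) (P 10))
def t118 : T := S4 1 10 (S1 4 11 (S4 1 11 (S4 1 12 U (S3 3 13 U (S1 5 14 (N 120) (P 14)))) (S3 3 13 U (S1 5 14 (S1 6 17 (S2 5 17 U (S3 4 17 U (S1 7 20 (N 20) (S3 5 21 U (S4 2 21 (N 136) (P 21)))))) (S2 5 17 (S3 4 17 U (S3 5 21 U (S4 2 21 U (P 21)))) (S3 4 17 U (P 17)))) (P 14)))) (S4 1 11 (S4 1 12 (S3 3 13 U (S4 1 13 (S4 1 14 U (P 14)) (P 14))) (P 14)) (P 11))) (S1 4 11 (S3 3 13 (S1 5 14 (N 260) (P 14)) (S1 5 14 (S1 6 17 (S2 5 17 (S3 4 17 U (S4 2 19 (S1 7 20 (N 180) (S3 5 21 U (P 21))) (S1 7 20 (S3 5 21 U (P 21)) (S3 5 21 U (P 21))))) (S3 4 17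 (N 153) (S4 2 19 (S1 7 20 (S3 5 21 U (P 21)) (S3 5 21 U (P 21))) (S1 7 20 (S3 5 21 (N 180) (P 21)) (S3 5 21 (S2 8 27 (N 189) (S4 3 28 (N 130) (S1 13 37 (S2 11 37 (N 222) (S4 4 37 U (S3 9 38 (N 270) (P 38)))) (S2 11 37 (N 252) (S4 4 37 (N 323) (P 37)))))) (P 21)))))) (S2 5 17 (S3 4 17 U (S4 2 19 (S3 5 21 U (P 21)) (S3 5 21 (S2 7 24 (N 126) (S4 3 28 U (S1 11 31 (N 180) (P 31)))) (P 21)))) (S3 4 17 (S4 2 19 U (S2 8 27 (N 378) (S4 3 28 (N 140) (S3 7 30 (S1 11 31 (N 90) (P 31)) (S1 11 31 (S2 11 37 (N 225) (S4 4 37 (N 259) (P 37))) (P 31)))))) (P 17)))) (P 14))) (P 11))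
def t119 : T := S1 7 20 (S3 5 21 U (S2 7 22 U (S1 8 23 (S2 8 25 U (S3 6 25 U (S1 9 26 (S2 9 28 U (S1 10 29 (N 84) (S3 7 29 U (S4 2 29 (N 72) (P 29))))) (S2 9 28 U (S3 7 29 U (S4 2 29 (S2 10 31 U (S3 8 33 U (S2 11 34 U (S2 12 37 U (S3 9 37 U (S2 13 40 U (S3 10 41 U (S2 14 43 U (S4 3 44 (N 132) (S3 11 45 U (S2 15 46 U (S1 17 49 (N 72) (S2 16 49 U (S3 12 49 U (P 49))))))))))))))) (P 29))))))) (S2 8 25 U (S3 6 25 U (S2 9 28 U (S3 7 29 U (S4 2 29 (S2 10 31 U (S3 8 33 U (S2 11 34 U (S2 12 37 U (S3 9 37 U (S2 13 40 U (S3 10 41 U (S1 15 43 (S2 14 43 U (S4 3 44 (S3 11 45 U (S2 15 46 U (P 46))) (S3 11 45 U (S2 15 46 U (P 46))))) (S2 14 43 U (S4 3 44 (S3 11 45 U (S2 15 46 U (P 46))) (S3 11 45 U (S2 15 46 U (P 46))))))))))))) (P 29))))))))) (S3 5 21 U (S2 7 22 U (S2 8 25 U (S3 6 25 U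 (S2 9 28 U (S3 7 29 (N 153) (S4 2 29 (S2 10 31 U (S3 8 33 U (S2 11 34 U (S1 13 37 (S2 12 37 U (S3 9 37 U (S2 13 40 U (S3 10 41 U (S2 14 43 U (S4 3 44 (S3 11 45 U (S2 15 46 U (P 46))) (S3 11 45 (N 159) (S2 15 46 U (P 46))))))))) (S2 12 37 U (S3 9 37 (N 201) (P 37))))))) (P 29))))))))
def t120 : T := S1 11 32 (S3 8 33 U (S2 11 34 U (S1 12 35 (S2 12 37 U (S3 9 37 U (S1 13 38 (N 108) (S2 13 40 U (S3 10 41 U (S4 3 41 (N 204) (P 41))))))) (S2 12 37 U (S3 9 37 U (S2 13 40 U (S3 10 41 U (S4 3 41 (S2 14 43 U (S3 11 45 U (S2 15 46 U (S2 16 49 U (S3 12 49 U (S2 17 52 U (S3 13 53 U (S2 18 55 U (S4 4 55 (N 96) (S3 14 57 U (S2 19 58 U (S2 20 61 U (S3 15 61 U (S2 21 64 U (S3 16 65 U (S1 23 67 (N 300) (S2 22 67 U (S3 17 69 U (S2 23 70 U (P 70)))))))))))))))))))) (P 41))))))))) (S3 8 33 U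 (S2 11 34 U (S2 12 37 U (S3 9 37 U (S2 13 40 U (S3 10 41 U (S4 3 41 (S2 14 43 U (S3 11 45 U (S2 15 46 U (S2 16 49 U (S3 12 49 U (S2 17 52 U (S3 13 53 U (S2 18 55 U (S4 4 55 (S3 14 57 U (S2 19 58 U (S1 21 61 (S2 20 61 U (S3 15 61 U (S2 21 64 U (S3 16 65 U (S2 22 67 U (S3 17 69 U (S4 5 69 (S2 23 70 U (P 70)) (S2 23 70 U (P 70))))))))) (S2 20 61 U (S3 15 61 U (P 61)))))) (S3 14 57 U (S2 19 58 U (S1 21 61 (S2 20 61 U (S3 15 61 U (S2 21 64 U (S3 16 65 U (S2 22 67 U (S3 17 69 U (S2 23 70 U (P 70)))))))) (S2 20 61 U (S3 15 61 U (P 61))))))))))))))) (P 41))))))))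
def t121 : T := S4 3 40 (S1 14 41 (N 120) (S3 10 41 U (P 41))) (S1 14 41 (S3 10 41 U (S2 14 43 U (S1 15 44 (S3 11 45 U (S2 15 46 U (S1 16 47 (S2 16 49 U (S3 12 49 U (S1 17 50 (S2 17 52 U (S1 18 53 (N 156) (S3 13 53 U (S4 4 53 (N 132) (P 53))))) (S2 17 52 U (S3 13 53 U (S4 4 53 (N 132) (P 53))))))) (S2 16 49 U (S3 12 49 U (S2 17 52 U (S3 13 53 U (S4 4 53 (N 132) (P 53))))))))) (S3 11 45 U (S2 15 46 U (S2 16 49 U (S3 12 49 U (S2 17 52 U (S3 13 53 U (S4 4 53 (S2 18 55 U (S3 14 57 U (S2 19 58 U (S2 20 61 U (S3 15 61 U (S2 21 64 U (S3 16 65 U (S2 22 67 U (S3 17 69 U (S2 23 70 U (S2 24 73 U (S3 18 73 U (S2 25 76 U (S3 19 77 U (S2 26 79 U (S3 20 81 U (S2 27 82 U (S1 29 85 (S2 28 85 U (S3 21 85 U (S2 29 88 U (S3 22 89 U (S2 30 91 U (S3 23 93 U (S4 7 93 (N 252) (S2 31 94 U (P 94)))))))))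 (S2 28 85 U (S3 21 85 U (P 85))))))))))))))))))))) (P 53))))))))))) (S3 10 41 U (P 41)))
def t122 : T := S1 8 23 (S2 8 25 U (S3 6 25 (N 129) (S1 9 26 (S4 2 27 (S2 9 28 U (S1 10 29 (S3 7 29 U (S2 10 31 U t120)) (S3 7 29 U (P 29)))) (S2 9 28 U (S1 10 29 (S3 7 29 U (S2 10 31 U (S1 11 32 (S3 8 33 U (S2 11 34 U (S1 12 35 (S2 12 37 U (S3 9 37 U (S1 13 38 (S2 13 40 U t121) (S2 13 40 U (S4 3 40 (S3 10 41 U (P 41)) (S3 10 41 U (P 41))))))) (S2 12 37 U (S3 9 37 U (S2 13 40 U (S4 3 40 (S3 10 41 U (P 41)) (S3 10 41 (N 90) (P 41))))))))) (S3 8 33 U (S2 11 34 U (S2 12 37 U (S3 9 37 (N 78) (S2 13 40 U (S4 3 40 (S3 10 41 U (P 41)) (S3 10 41 (N 168) (P 41))))))))))) (S3 7 29 U (P 29))))) (S4 2 27 (S2 9 28 U (S3 7 29 U (P 29))) (S2 9 28 U (S3 7 29 (N 207) (P 29))))))) (S2 8 25 U (S3 6 25 (S4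 2 27 U (S2 9 28 U (S2 10 31 U (S2 11 34 U (S2 12 37 U (S2 13 40 U (S4 3 40 (N 120) (S1 15 43 (N 129) (S2 14 43 U (P 43)))))))))) (S4 2 27 (S2 9 28 U (S3 7 29 (N 120) (P 29))) (S2 9 28 (N 140) (S3 7 29 (S2 10 31 U (S2 11 34 U (S2 12 37 U (S2 13 40 U (S4 3 40 (N 120) (S1 15 43 (S2 14 43 U (S2 15 46 U (P 46))) (S2 14 43 U (P 43)))))))) (P 29))))))
def t123 : T := S3 5 21 (S2 7 22 U (S2 8 25 U (S4 2 27 (N 147) (S2 9 28 U (S2 10 31 U (S2 11 34 U (S1 13 37 (N 273) (S2 12 37 U (S3 9 38 (S2 13 40 U (S4 3 40 (N 198) (P 40))) (S2 13 40 U (S4 3 40 (N 252) (P 40)))))))))))) (S2 7 22 (N 116) (S2 8 25 (S3 6 25 U (S4 2 27 U (S3 7 29 U (P 29)))) (S3 6 25 (S4 2 27 (S2 9 28 U (S2 10 31 U (S2 11 34 U (S1 13 37 (N 54) (S2 12 37 U (S2 13 40 U (S4 3 41 (N 150) (S2 14 43 U (P 43))))))))) (S2 9 28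 U (S2 10 31 U (S2 11 34 U (S1 13 37 (S2 12 37 U (S2 13 40 U (S4 3 40 (N 333) (P 40)))) (S2 12 37 U (S2 13 40 U (S4 3 40 (S2 14 43 U (P 43)) (P 40))))))))) (S4 2 27 (S2 9 28 (N 252) (S3 7 29 (S2 10 31 U (S2 11 34 U (S1 13 37 (S2 12 37 U (S2 13 40 U (S4 3 41 (N 273) (S2 14 43 U (P 43))))) (S2 12 37 U (S2 13 40 U (S4 3 41 (S2 14 43 U (P 43)) (S2 14 43 U (P 43)))))))) (P 29))) (S2 9 28 (S3 7 29 U (P 29)) (S3 7 29 (S2 10 31 U (S2 11 34 U (S1 13 37 (S2 12 37 U (S2 13 40 U (S4 3 40 (S2 14 43 U (P 43)) (P 40)))) (S2 12 37 U (S2 13 40 U (S4 3 40 (S2 14 43 U (P 43)) (P 40))))))) (P 29)))))))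
def t124 : T := S4 1 14 (S4 1 15 (S2 5 16 U (S4 1 16 (S1 6 17 (N 48) (S3 4 17 U (S4 1 17 (N 84) (P 17)))) (S1 6 17 (S3 4 17 U (S2 6 19 U (S1 7 20 (N 60) (S3 5 21 U (S2 7 22 U (S2 8 25 U (S3 6 25 U (S2 9 28 U (S3 7 29 U (S2 10 31 U (S4 2 31 (S3 8 33 U (S2 11 34 U (S1 13 37 (N 108) (S2 12 37 U (S3 9 37 U (P 37)))))) (S3 8 33 U (S2 11 34 U (S1 13 37 (S2 12 37 U (S3 9 37 U (S2 13 40 U (S3 10 41 U (S2 14 43 U (S3 11 45 U (S2 15 46 U (S4 3 46 (N 276) (P 46))))))))) (S2 12 37 U (S3 9 37 U (P 37))))))))))))))))) (S3 4 17 U (P 17))))) (S2 5 16 U (S1 6 17 (S3 4 17 U (S2 6 19 U t119)) (S3 4 17 U (P 17))))) (S2 5 16 U (S1 6 17 (S3 4 17 (N 51) (S2 6 19 U (S1 7 20 (S3 5 21 (N 117) (S2 7 22 U t122)) t123))) (S3 4 17 (S2 6 19 U (S2 7 22 U (S2 8 25 U (S4 2 27 (N 378) (S2 9 28 U (S3 7 30 (S1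 11 31 (N 90) (S2 10 31 U (P 31))) (S1 11 31 (S2 10 31 U (S2 11 34 U (S2 12 37 U (S2 13 40 U (S4 3 40 (N 93) (P 40)))))) (S2 10 31 U (P 31))))))))) (P 17))))
def t125 : T := S3 3 13 (S4 1 13 (S1 5 14 (N 39) (S4 1 14 (N 195) (P 14))) (S1 5 14 (S2 5 16 U (S1 6 17 (S2 6 19 U (S1 7 20 U (S2 7 22 U (S3 5 22 U (S2 8 25 U (S4 2 25 U (S2 9 28 U (S2 10 31 U (S2 11 34 U (S3 8 35 (N 48) (S1 13 37 (N 108) (S2 12 37 U (S4 3 37 (N 147) (P 37)))))))))))))) (S2 6 19 U (S2 7 22 U (S3 5 22 (S2 8 25 U (S4 2 25 U (S2 9 28 U (S1 11 31 (N 132) (S2 10 31 U (S3 7 31 (N 84) (P 31))))))) (S2 8 25 U (S4 2 25 (S2 9 28 U (S1 11 31 (N 186) (S2 10 31 U (P 31)))) (S2 9 28 U (S1 11 31 (S2 10 31 U (S2 11 34 U (S3 8 35 (S2 12 37 U (S4 3 37 U (P 37))) (S2 12 37 U (S4 3 37 (S2 13 40 U (P 40)) (P 37)))))) (S2 10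 31 U (P 31))))))))))) (P 14))) (S4 1 13 (S1 5 14 t124 (S4 1 14 (S4 1 15 (S2 5 16 U (S4 1 16 (S3 4 17 U (S4 1 17 (S4 1 18 (S2 6 19 U (S4 1 19 (N 132) (S3 5 21 U (S2 7 22 U (S1 9 25 (N 36) (S2 8 25 U (S3 6 25 U (P 25)))))))) (S2 6 19 U (S3 5 21 U (S2 7 22 U (S1 9 25 (S2 8 25 U (S3 6 25 U (S2 9 28 U (S3 7 29 U (S2 10 31 U (S3 8 33 U (S2 11 34 U (S4 2 35 (S2 12 37 U (S3 9 37 U (P 37))) (S2 12 37 U (S3 9 37 U (P 37))))))))))) (S2 8 25 U (S3 6 25 U (P 25)))))))) (P 17))) (S3 4 17 (N 165) (P 17)))) (S2 5 16 U (S3 4 17 (S2 6 19 U (S2 7 22 U (S1 9 25 (S2 8 25 U (S2 9 28 U (S4 2 29 U (S3 7 30 (N 111) (S2 10 31 U (P 31)))))) (S2 8 25 U (S2 9 28 U (S4 2 29 (S3 7 30 (N 231) (S2 10 31 U (P 31))) (S3 7 30 (S2 10 31 U (P 31)) (S2 10 31 U (P 31))))))))) (P 17)))) (P 14))) (P 13))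
def t126 : T := S1 7 20 (S2 7 22 U (S3 5 22 (S1 8 23 (N 66) (S4 2 23 U (P 23))) (S1 8 23 (S4 2 23 (N 69) (S2 8 25 U (S1 9 26 (S2 9 28 U (S1 10 29 (N 429) (S2 10 31 U (S2 11 34 U (S4 3 34 (N 78) (S3 8 35 (N 153) (P 35))))))) (S2 9 28 U (S2 10 31 U (S2 11 34 U (S4 3 34 (S3 8 35 (N 135) (P 35)) (S3 8 35 (S2 12 37 U (S2 13 40 U (S2 14 43 U (S4 4 45 (N 135) (S2 15 46 U (S1 17 49 (N 363) (S2 16 49 U (P 49)))))))) (P 35))))))))) (S4 2 23 (S2 8 25 U (S2 9 28 U (S2 10 31 U (S2 11 34 U (S3 8 35 (N 240) (S4 3 35 (N 420) (P 35))))))) (P 23))))) (S2 7 22 U (S3 5 22 (S4 2 23 (S2 8 25 U (S2 9 28 U (S2 10 31 U (S3 7 31 (N 252) (S2 11 34 U (S4 3 35 (N 198) (S1 13 37 (N 264) (S2 12 37 U (P 37))))))))) (P 23)) (S4 2 23 (S2 8 25 U (S2 9 28 U (S2 10 31 U (S2 11 34 U (S3 8 35 (S4 3 35 (S1 13 37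 (N 105) (S2 12 37 U (P 37))) (S1 13 37 (S2 12 37 U (S2 13 40 U (P 40))) (S2 12 37 U (P 37)))) (S4 3 35 (S1 13 37 (S2 12 37 U (S2 13 40 U (P 40))) (S2 12 37 U (P 37))) (P 35))))))) (P 23))))
def t127 : T := S1 9 26 (S2 9 28 U (S1 10 29 (S2 10 31 U (S3 7 31 (N 84) (S1 11 32 (N 189) (S4 3 32 (N 255) (P 32))))) (S2 10 31 U (S3 7 31 (S4 3 32 (N 234) (P 32)) (S4 3 32 (S2 11 34 U (S2 12 37 U (S2 13 40 U (S2 14 43 U (S4 4 43 (N 387) (S2 15 46 U (S2 16 49 U (S2 17 52 U (S3 12 53 (N 234) (S1 19 55 (N 330) (S2 18 55 U (P 55)))))))))))) (P 32)))))) (S2 9 28 U (S2 10 31 U (S3 7 31 (S4 3 32 (S2 11 34 U (S2 12 37 U (S2 13 40 U (S3 9 40 (S2 14 43 U (S4 4 43 (N 204) (S2 15 46 U (S1 17 49 (N 213) (S2 16 49 U (S3 11 49 (N 138) (P 49))))))) (S2 14 43 U (S4 4 43 (S2 15 46 U (S1 17 49 (N 279) (S2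 16 49 U (P 49)))) (S2 15 46 U (S1 17 49 (S2 16 49 U (S2 17 52 U (S2 18 55 U (P 55)))) (S2 16 49 U (P 49)))))))))) (P 32)) (S4 3 32 (S2 11 34 U (S2 12 37 U (S2 13 40 U (S2 14 43 U (S4 4 43 (S2 15 46 U (S1 17 49 (S2 16 49 U (S2 17 52 U (S3 12 53 (S4 5 54 (N 216) (S2 18 55 U (P 55))) (S4 5 54 (S2 18 55 U (P 55)) (S2 18 55 U (P 55)))))) (S2 16 49 U (P 49)))) (S2 15 46 U (S1 17 49 (S2 16 49 U (S2 17 52 U (S3 12 53 (S2 18 55 U (P 55)) (S2 18 55 U (P 55))))) (S2 16 49 U (P 49))))))))) (P 32)))))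
def t128 : T := S1 12 35 (S2 12 37 U (S1 13 38 (S2 13 40 U (S3 9 40 (S1 14 41 (N 120) (S4 4 41 (N 102) (P 41))) (S1 14 41 (S4 4 41 (N 123) (S2 14 43 U (S1 15 44 (S2 15 46 U (S1 16 47 (N 270) (S2 16 49 U (S4 5 51 (N 132) (S2 17 52 U (S2 18 55 U (S2 19 58 U (S2 20 61 U (S4 6 61 (N 132) (S2 21 64 U (S2 22 67 U (S2 23 70 U (S3 16 71 (N 390) (S4 7 71 (N 243) (P 71))))))))))))))) (S2 15 46 U (S2 16 49 U (S4 5 51 (N 234) (S2 17 52 U (S2 18 55 U (S2 19 58 U (S2 20 61 U (S4 6 61 (N 243) (S2 21 64 U (S2 22 67 U (S2 23 70 U (S3 16 71 (S4 7 71 (N 213) (S2 24 73 U (S2 25 76 U (S2 26 79 U (S4 8 81 (N 243) (S2 27 82 U (S1 29 85 (S2 28 85 U (S2 29 88 U (S2 30 91 U (S4 9 91 (N 252) (P 91))))) (S2 28 85 U (P 85))))))))) (S4 7 71 (N 243) (P 71))))))))))))))))) (S4 4 41 (N 225) (P 41))))) (S2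 13 40 U (S3 9 40 (S4 4 41 (N 102) (P 41)) (S4 4 41 (N 420) (P 41)))))) (S2 12 37 U (S2 13 40 U (S3 9 40 (S4 4 41 (S2 14 43 U (S2 15 46 U (S2 16 49 U (S3 11 49 (N 276) (S2 17 52 U (S2 18 55 U (S2 19 58 U (S2 20 61 U (S2 21 64 U (S1 23 67 (N 297) (S2 22 67 U (P 67)))))))))))) (P 41)) (S4 4 41 (S2 14 43 U (S2 15 46 U (S2 16 49 U (S2 17 52 U (S2 18 55 U (S2 19 58 U (S2 20 61 U (S2 21 64 U (S1 23 67 (S2 22 67 U (S2 23 70 U (S3 16 71 (N 297) (S4 7 72 (S2 24 73 U (P 73)) (S2 24 73 U (P 73)))))) (S2 22 67 U (P 67))))))))))) (P 41)))))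
def t129 : T := S2 4 13 (S3 3 13 (S1 5 14 U (P 14)) (S1 5 14 (S1 6 17 (S3 4 17 U (S1 7 20 (S3 5 21 U (S4 2 21 (S1 8 23 (S2 7 23 U (S3 6 25 U (S1 9 26 (N 52) (S3 7 29 U (S4 3 32 (N 224) (S3 8 33 U (P 33))))))) (S2 7 23 (N 220) (P 23))) (P 21))) (S3 5 21 (N 130) (S4 2 21 (S2 7 23 (S3 6 25 U (S3 7 29 U (S4 3 32 (S2 10 33 (N 320) (S3 8 33 U (P 33))) (S2 10 33 (S3 8 33 U (S1 13 37 (S3 9 37 U (S3 10 41 U (S2 13 43 (N 304) (P 43)))) (S3 9 37 U (P 37)))) (P 43))))) (P 23)) (P 21))))) (S3 4 17 (S4 2 21 U (S2 7 23 U (P 23))) (P 17))) (P 14))) (S3 3 13 (S1 5 14 (S2 5 16 (S1 6 17 U (P 23)) (S1 6 17 (S2 6 19 (N 459) (S1 7 20 (S4 2 21 (S2 7 22 U (S3 5 22 (S1 8 23 (S2 8 25 U t127) (P 23)) (P 22))) (S2 7 22 (N 160) (S3 5 22 (S1 8 23 (S2 8 25 U (S1 9 26 (S2 9 28 U (S1 10 29 (S2 10 31 U (S3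 7 31 (S4 3 31 (S1 11 32 (N 93) (P 32)) (S1 11 32 (S2 11 34 U t128) (P 32))) (S4 3 31 (S1 11 32 (S2 11 34 U (S1 12 35 (S2 12 37 U (S1 13 38 (N 330) (S2 13 40 U (S2 14 43 U (S2 15 46 U (S2 16 49 U (S2 17 52 U (S4 5 52 (N 312) (S3 12 53 (N 309) (P 53)))))))))) (S2 12 37 U (S2 13 40 U (S2 14 43 U (S2 15 46 U (S2 16 49 U (S2 17 52 U (S4 5 52 (S3 12 53 (N 384) (P 53)) (S3 12 53 (S2 18 55 U (S2 19 58 U (S2 20 61 U (S2 21 64 U (S1 23 67 (S2 22 67 U (S2 23 70 U (S2 24 73 U (P 73)))) (S2 22 67 U (P 67))))))) (P 53))))))))))) (P 32)) (P 31)))) (P 32))) (P 32))) (P 23)) (P 22)))) (P 23))) (P 23))) (P 14)) (P 13))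
def t130 : T := S4 1 13 (S4 1 14 (S4 1 15 (S2 5 16 (S4 1 16 (N 16) (S3 4 17 U (P 17))) (S4 1 16 (S3 4 17 (S4 1 17 (S4 1 18 (N 72) (S1 7 19 U (S2 6 19 U (P 19)))) (S1 7 19 (N 255) (S2 6 19 U (P 19)))) (S4 1 17 (S4 1 18 (S1 7 19 (S2 6 19 U (S4 1 19 (S4 1 20 (S3 5 21 U (S4 1 21 (N 84) (S2 7 22 U (P 22)))) (S3 5 21 U (S2 7 22 U (P 22)))) (S3 5 21 U (S2 7 22 U (P 22))))) (S2 6 19 U (S4 1 19 (S4 1 20 (S3 5 21 U (S4 1 21 (S2 7 22 U (S4 1 22 (S4 1 23 (S4 1 24 (N 24) (S2 8 25 U (S3 6 25 U (P 25)))) (S2 8 25 U (S3 6 25 U (P 25)))) (P 22))) (S2 7 22 U (P 22)))) (S3 5 21 (N 168) (S2 7 22 U (P 22)))) (P 19)))) (S1 7 19 (S2 6 19 U (S3 5 21 (N 84) (S2 7 22 U (P 22)))) (S2 6 19 (N 136) (P 19)))) (P 17))) (S3 4 17 (S1 7 19 (S2 6 19 U (S2 7 22 U (P 22))) (S2 6 19 U (P 19))) (P 17)))) (S2 5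 16 (S3 4 17 U (P 17)) (S3 4 17 (S1 7 19 (S2 6 19 U (S2 7 22 U (P 22))) (S2 6 19 U (P 19))) (P 17)))) (P 14)) (P 13)
def t131 : T := S1 4 11 (S4 1 11 (S4 1 12 (S2 4 13 (S3 3 13 U (S4 1 13 (N 52) (S1 5 14 (N 84) (P 14)))) t125) (S2 4 13 (S3 3 13 U (S1 5 14 (S1 6 17 (S3 4 17 U (S1 7 20 (N 120) (S3 5 21 U (S2 7 23 (N 164) (S4 2 23 U (P 23)))))) (S3 4 17 U (P 17))) (P 14))) (S3 3 13 (S1 5 14 (S2 5 16 U (S1 6 17 (S2 6 19 U t126) (S2 6 19 U (S2 7 22 U (S3 5 22 (S4 2 23 (S2 8 25 U (S2 9 28 U (S1 11 31 (S2 10 31 U (S3 7 31 (S2 11 34 U (S4 3 35 (N 93) (S2 12 37 U (P 37)))) (S2 11 34 U (S4 3 35 (S2 12 37 U (P 37)) (S2 12 37 U (P 37)))))) (S2 10 31 U (S3 7 31 (S2 11 34 U (S4 3 35 (S2 12 37 U (P 37)) (S2 12 37 U (P 37)))) (P 31)))))) (P 23)) (S4 2 23 (S2 8 25 U (S2 9 28 U (S1 11 31 (S2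 10 31 U (S2 11 34 U (S3 8 35 (S4 3 35 (S2 12 37 U (P 37)) (S2 12 37 U (P 37))) (S4 3 35 (S2 12 37 U (P 37)) (P 35))))) (S2 10 31 U (P 31))))) (P 23))))))) (P 14)) (P 13)))) t129) (S4 1 11 (S4 1 12 (S2 4 13 (S3 3 13 U (S4 1 13 (S4 1 14 (S4 1 15 (N 104) (S3 4 17 U (P 17))) (P 14)) (P 14))) (S3 3 13 (S4 1 13 (S4 1 14 (S4 1 15 (S2 5 16 U (S4 1 16 (S4 1 17 (N 117) (S1 7 19 U (S2 6 19 U (P 19)))) (S1 7 19 (N 195) (S2 6 19 U (P 19))))) (S2 5 16 U (S1 7 19 (S2 6 19 U (S2 7 22 U (S3 5 22 (S2 8 25 U (S2 9 28 U (S4 2 29 (N 57) (S1 11 30 (N 180) (S2 10 31 U (S3 7 31 (N 84) (P 31))))))) (P 22)))) (S2 6 19 U (P 19))))) (P 14)) (P 14)) t130)) (P 14)) (P 11))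
def t132 : T := S4 1 18 (S2 6 19 U (S3 4 19 (N 90) (S4 1 19 (S4 1 20 U (S2 7 22 U (S1 9 23 U (S2 8 25 U (S1 11 28 U (S2 9 28 U (S2 10 31 U (S1 13 33 U (S3 7 33 (N 75) (S2 11 34 U (S2 12 37 U (S1 15 38 U (S4 2 39 (N 135) (S2 13 40 U (S1 17 43 U (S2 14 43 U (P 43))))))))))))))))) (P 19)))) (S2 6 19 U (S3 4 19 (S2 7 22 U (S1 9 23 U (S3 5 24 (S2 8 25 U (S1 11 28 U (S2 9 28 U (S3 6 29 (N 135) (S2 10 31 U (S1 13 33 U (S2 11 34 U (S4 2 35 (N 105) (S2 12 37 U (S1 15 38 U (S2 13 40 U (S1 17 43 U (S2 14 43 U (S2 15 46 U (S1 19 48 U (S2 16 49 U (S2 17 52 U (S4 3 52 (N 120) (S1 21 53 U (S3 11 53 (N 255) (P 53))))))))))))))))))))) (S2 8 25 U (S1 11 28 U (S2 9 28 U (S2 10 31 U (S1 13 33 U (S2 11 34 U (S4 2 35 (S2 12 37 U (S1 15 38 U (S2 13 40 U (S1 17 43 U (S2 14 43 U (S3 9 43 (N 105) (P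 43))))))) (S2 12 37 U (S1 15 38 U (S2 13 40 U (S1 17 43 (N 204) (S2 14 43 U (S3 9 43 (S2 15 46 U (S1 19 48 U (S2 16 49 U (S2 17 52 U (S4 3 52 (S1 21 53 U (P 53)) (S1 21 53 U (P 53))))))) (P 43))))))))))))))))) (P 19)))
def t133 : T := S3 5 24 (S2 8 25 U (S1 11 28 U (S2 9 28 U (S3 6 29 (S2 10 31 U (S1 13 33 U (S4 2 33 (S2 11 34 U (S3 7 34 (N 165) (P 34))) (S2 11 34 U (S3 7 34 (S2 12 37 U (S1 15 38 U (S3 8 39 (S2 13 40 U (S1 17 43 U (S2 14 43 U (S3 9 44 (S2 15 46 U (S1 19 48 U (S2 16 49 U (S3 10 49 (N 240) (S4 3 49 (N 195) (P 49)))))) (S2 15 46 U (S1 19 48 U (S2 16 49 U (S4 3 49 (N 195) (P 49))))))))) (S2 13 40 U (S1 17 43 U (S2 14 43 U (S2 15 46 U (S1 19 48 U (S2 16 49 U (S4 3 49 (S2 17 52 U (S1 21 53 U (S2 18 55 U (S1 23 58 U (S2 19 58 U (S2 20 61 U (S1 25 63 U (S2 21 64 U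 (S2 22 67 U (S1 27 68 U (S2 23 70 U (S1 29 73 U (S2 24 73 U (S3 15 73 (S2 25 76 U (S1 31 78 U (S2 26 79 U (S2 27 82 U (S4 5 82 (N 180) (S1 33 83 U (P 83))))))) (P 73))))))))))))))) (P 49))))))))))) (P 34)))))) (S2 10 31 U (S1 13 33 (N 48) (S4 2 33 (S2 11 34 U (P 34)) (S2 11 34 U (P 34))))))))) (S2 8 25 U (S1 11 28 (N 285) (S2 9 28 U (S2 10 31 U (S1 13 33 (S4 2 33 (N 33) (S2 11 34 U (P 34))) (S4 2 33 (S2 11 34 U (P 34)) (S2 11 34 U (P 34))))))))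
def t134 : T := S3 3 14 (S4 1 14 (S4 1 15 (S2 5 16 U (S4 1 16 (S4 1 17 (S1 7 18 U t132) (S1 7 18 (N 126) (S2 6 19 U (S3 4 19 (S2 7 22 U (S1 9 23 U t133)) (P 19))))) (P 16))) (S2 5 16 (N 70) (P 16))) (S2 5 16 (S1 7 18 U (S3 4 19 (S1 9 23 U (S3 5 24 U (S4 2 27 U (S1 11 28 U (S2 9 29 U (P 29)))))) (S1 9 23 U (S4 2 27 (S1 11 28 U (S2 9 29 (N 135) (P 29))) (S1 11 28 U (S2 9 29 (S1 13 33 U (S3 7 33 (N 325) (P 33))) (P 29))))))) (P 16))) (S4 1 14 (S4 1 15 (S2 5 16 (S4 1 16 U (S1 7 18 U (S1 9 23 U (S3 5 23 U (P 23))))) (S4 1 16 (S4 1 17 (S1 7 18 (S4 1 18 (N 18) (S2 6 19 U (P 19))) (S4 1 18 (S2 6 19 U (S4 1 19 (S4 1 20 (S4 1 21 (S2 7 22 U (S4 1 22 (S1 9 23 U (S3 5 23 U (S4 1 23 (N 45) (P 23)))) (S1 9 23 U (S3 5 23 (N 105) (P 23))))) (S2 7 22 U (S1 9 23 U (S3 5 23 (S2 8 25 U (S1 11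 28 U (S2 9 28 U (P 28)))) (P 23))))) (S2 7 22 U (S1 9 23 (N 171) (S3 5 23 (S2 8 25 U (S1 11 28 U (S2 9 28 U (P 28)))) (P 23))))) (P 19))) (S2 6 19 U (P 19)))) (S1 7 18 (S2 6 19 U (P 19)) (S2 6 19 (S1 9 23 U (S3 5 23 U (P 23))) (P 19)))) (P 16))) (S2 5 16 (S1 7 18 U (S1 9 23 U (S3 5 23 (S1 11 28 U (S2 9 29 (N 280) (S4 2 29 (N 115) (P 29)))) (P 23)))) (P 16))) (P 14))
def t135 : T := S1 5 13 (S2 4 13 (N 117) (S4 1 13 (S3 3 14 (S4 1 14 (S4 1 15 (N 135) (S2 5 16 U (P 16))) (S2 5 16 U (P 16))) (S4 1 14 (S4 1 15 (S2 5 16 U (S4 1 16 (S4 1 17 (N 117) (S2 6 19 U (P 19))) (P 16))) (S2 5 16 U (P 16))) (P 14))) (S3 3 14 (S2 5 16 U (P 16)) (P 14)))) (S2 4 13 (S4 1 13 (S3 3 14 (N 65) (S4 1 14 (S4 1 15 U (S1 7 18 U (S1 9 23 U (S2 7 23 (N 180) (S3 5 23 U (P 23)))))) (P 14))) (S3 3 14 (S1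 7 18 U (S3 4 19 (S1 9 23 U (S2 7 23 (N 95) (S3 5 24 (N 120) (S4 2 25 (N 175) (S1 11 28 U (S1 13 33 U (S2 11 36 (N 180) (S4 3 37 (N 185) (S1 15 38 U (S1 17 43 U (S3 9 43 (S1 19 48 U (S2 15 49 (N 215) (S4 4 49 (N 195) (P 49)))) (P 43)))))))))))) (S1 9 23 U (S2 7 23 (S4 2 25 (N 200) (S1 11 28 U (S1 13 33 U (S2 10 33 (S3 7 33 (N 132) (S4 3 37 (N 135) (S1 15 38 U (P 38)))) (S3 7 33 (S4 3 37 U (S1 15 38 U (P 38))) (P 33)))))) (S4 2 25 (S1 11 28 U (S1 13 33 U (S3 7 33 (N 325) (P 33)))) (S1 11 28 (N 84) (S1 13 33 (N 312) (S3 7 33 (S2 11 36 (S4 3 37 (N 160) (S1 15 38 U (P 38))) (S4 3 37 (S1 15 38 U (P 38)) (S1 15 38 (N 240) (P 38)))) (P 33))))))))) (P 14))) (S4 1 13 t134 (P 13)))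
def t136 : T := S2 7 23 (S4 2 23 (S3 5 24 (N 115) (P 24)) (S3 5 24 (S1 11 28 U (S3 6 29 (S1 13 33 U (S2 10 33 (S3 7 34 (N 165) (S4 3 34 (N 135) (P 34))) (S3 7 34 (S4 3 34 (N 170) (S1 15 38 U (S3 8 39 (S1 17 43 U (S3 9 44 (N 220) (S4 4 45 (N 180) (S1 19 48 U (S1 21 53 U (S2 17 56 (N 385) (S4 5 56 (N 190) (P 56)))))))) (S1 17 43 U (S4 4 45 (N 315) (S1 19 48 U (S1 21 53 U (S2 17 56 (S4 5 56 (N 280) (S1 23 58 U (S1 25 63 U (S4 6 67 (N 335) (S1 27 68 U (S1 29 73 U (S3 15 73 (S1 31 78 U (S4 7 78 (N 345) (P 78))) (P 73)))))))) (S4 5 56 (N 335) (P 56)))))))))) (S4 3 34 (N 430) (P 34))))) (S1 13 33 U (S2 10 33 (S4 3 34 (S1 15 38 U (S1 17 43 U (S2 13 43 (N 215) (S1 19 48 U (S1 21 53 U (S3 11 53 (N 260) (P 53))))))) (P 34)) (S4 3 34 (S1 15 38 U (S1 17 43 U (S1 19 48 U (S1 21 53 U (S3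 11 53 (S2 17 56 (N 260) (S4 5 57 (S1 23 58 U (P 58)) (S1 23 58 U (P 58)))) (P 53)))))) (P 34)))))) (P 24))) (S4 2 23 (S3 5 24 (S1 11 28 U (S3 6 29 (S1 13 33 U (S3 7 34 (S4 3 35 (N 315) (S2 11 36 (N 160) (P 36))) (S4 3 35 (S2 11 36 (N 140) (P 36)) (S2 11 36 (N 425) (P 36))))) (S1 13 33 U (S4 3 35 (S2 11 36 (N 350) (P 36)) (S2 11 36 (S1 15 38 U (S1 17 43 U (S1 19 48 U (S1 21 53 U (S3 11 53 (S1 23 58 U (S4 5 58 (N 255) (P 58))) (P 53)))))) (P 36)))))) (P 24)) (P 23))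
def t137 : T := S2 10 31 U (S3 8 33 U (S2 11 34 U (S1 14 37 (S2 12 37 U (S3 9 37 U (S2 13 40 U (S3 10 41 U (S2 14 43 U (S1 17 45 (S3 11 45 U (S2 15 46 U (S2 16 49 U (S3 12 49 U (S4 2 51 (S2 17 52 U (S1 20 53 (N 204) (S3 13 53 U (P 53)))) (S2 17 52 U (S1 20 53 (S3 13 53 U (S2 18 55 U (S3 14 57 U (S2 19 58 U (S1 23 61 (S2 20 61 U (S3 15 61 U (S2 21 64 U (S3 16 65 U (S2 22 67 U (S1 26 69 (S3 17 69 U (S2 23 70 U (S2 24 73 U (S3 18 73 U (S2 25 76 U (S4 3 76 (N 228) (S1 29 77 (N 300) (S3 19 77 U (P 77))))))))) (S3 17 69 U (S2 23 70 U (S2 24 73 U (S3 18 73 U (S2 25 76 U (S4 3 76 (N 228) (S3 19 77 U (P 77)))))))))))))) (S2 20 61 U (S3 15 61 U (P 61)))))))) (S3 13 53 U (P 53))))))))) (S3 11 45 U (S2 15 46 U (S2 16 49 U (S3 12 49 U (S4 2 51 (S2 17 52 U (S3 13 53 U (P 53))) (S2 17 52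 U (S3 13 53 U (P 53)))))))))))))) (S2 12 37 U (S3 9 37 U (P 37))))))
def t138 : T := S4 1 23 (S4 1 24 (S2 8 25 U (S3 6 25 (N 312) (S4 1 25 (S4 1 26 (S4 1 27 (S2 9 28 U (S4 1 28 (S3 7 29 U (S4 1 29 (S4 1 30 (S2 10 31 U (S4 1 31 (S4 1 32 (N 96) (S3 8 33 U (S1 13 34 (N 60) (S2 11 34 U (P 34))))) (S3 8 33 U (S1 13 34 (N 60) (S2 11 34 U (P 34)))))) (S2 10 31 U (S3 8 33 U (S1 13 34 (S2 11 34 U (S2 12 37 U (S3 9 37 U (P 37)))) (S2 11 34 U (P 34)))))) (P 29))) (S3 7 29 U (P 29)))) (S2 9 28 U (S3 7 29 U (P 29)))) (S2 9 28 U (S3 7 29 (N 174) (P 29)))) (P 25)))) (S2 8 25 (N 156) (S3 6 25 (S2 9 28 U (S2 10 31 U (S1 13 34 (N 183) (S2 11 34 U (P 34))))) (P 25)))) (S2 8 25 (S3 6 25 U (S3 7 29 U (P 29))) (S3 6 25 (S2 9 28 U (S2 10 31 U (S1 13 34 (S2 11 34 U (S2 12 37 U (S2 13 40 U (S2 14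 43 U (S4 2 45 (S2 15 46 U (S3 11 46 (N 405) (P 46))) (S2 15 46 U (S3 11 46 (S2 16 49 U (S2 17 52 U (S1 21 55 (N 330) (S2 18 55 U (P 55))))) (P 46)))))))) (S2 11 34 U (P 34))))) (P 25)))
def t139 : T := S1 8 21 (S3 5 21 (S4 1 21 (N 21) (S2 7 22 U (P 22))) (S4 1 21 (S2 7 22 U (S4 1 22 (S4 1 23 (S4 1 24 (S2 8 25 U (S3 6 25 U (S4 1 25 (S4 1 26 (S4 1 27 (S2 9 28 U (S4 1 28 (N 84) (S1 11 29 (N 108) (S3 7 29 U (P 29))))) (S2 9 28 U (S1 11 29 (S3 7 29 U (S2 10 31 U (S3 8 33 U (S2 11 34 U (S1 14 37 (S2 12 37 U (S3 9 37 U (S2 13 40 U (S3 10 41 U (S2 14 43 U (S1 17 45 (N 156) (S3 11 45 U (S2 15 46 U (S2 16 49 U (S3 12 49 U (S2 17 52 U (S3 13 53 U (S4 2 53 (N 132) (P 53)))))))))))))) (S2 12 37 U (S3 9 37 U (P 37)))))))) (S3 7 29 U (P 29))))) (S2 9 28 U (S1 11 29 (S3 7 29 U t137) (S3 7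 29 U (P 29))))) (P 25)))) (S2 8 25 U (S3 6 25 U (P 25)))) (S2 8 25 U (S3 6 25 (N 462) (P 25)))) (P 22))) (S2 7 22 (N 160) (P 22)))) (S3 5 21 (S4 1 21 (S2 7 22 U (S4 1 22 (S4 1 23 (N 252) (S2 8 25 U (S2 9 28 U (S2 10 31 U (S1 13 34 (N 264) (S2 11 34 U (P 34))))))) (P 22))) (S2 7 22 U (P 22))) (S4 1 21 (S2 7 22 (S4 1 22 (N 44) (S3 6 25 U (S3 7 29 U (P 29)))) (S4 1 22 t138 (P 22))) (P 21)))
def t140 : T := S2 11 35 (S4 2 35 (S1 14 37 (N 140) (S3 9 37 U (P 37))) (S1 14 37 (S3 9 37 U (S3 10 41 U (S1 17 45 (S3 11 45 U (S3 12 49 U (S2 16 51 (S4 3 52 (N 156) (S1 20 53 (N 204) (S3 13 53 U (P 53)))) (S4 3 52 (S1 20 53 (N 416) (S3 13 53 U (P 53))) (S1 20 53 (S3 13 53 U (S3 14 57 U (S1 23 61 (S3 15 61 U (S3 16 65 U (S1 26 69 (S3 17 69 U (S4 4 69 (N 276) (S3 18 73 U (S1 29 77 (S3 19 77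 U (S3 20 81 U (S1 32 85 (N 340) (S3 21 85 U (S2 27 86 (S4 5 86 (N 172) (S3 22 89 U (S3 23 93 U (P 93)))) (S4 5 86 (N 292) (P 86))))))) (S3 19 77 U (P 77)))))) (S3 17 69 U (S4 4 69 (N 448) (P 69)))))) (S3 15 61 U (P 61))))) (S3 13 53 U (P 53))))))) (S3 11 45 U (P 45))))) (S3 9 37 U (P 37)))) (S4 2 35 (S1 14 37 (S3 9 37 U (S3 10 41 U (S1 17 45 (S3 11 45 U (S3 12 49 U (S1 20 53 (S3 13 53 U (S4 3 53 (N 212) (S2 17 54 (N 384) (P 54)))) (S3 13 53 U (S4 3 53 (S2 17 54 (N 352) (P 54)) (P 53)))))) (S3 11 45 U (P 45))))) (S3 9 37 U (P 37))) (P 35))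
def t141 : T := S3 4 17 (S4 1 17 (S4 1 18 (S2 6 19 U (S4 1 19 (S4 1 20 (S1 8 21 (N 357) (S4 1 21 (S2 7 22 U (S4 1 22 (N 153) (P 22))) (S2 7 22 U (P 22)))) (S1 8 21 (S2 7 22 U (P 22)) (S2 7 22 U (P 22)))) (P 19))) (S2 6 19 U (P 19))) (S2 6 19 (N 174) (P 19))) (S4 1 17 (S4 1 18 (S2 6 19 (S4 1 19 (S4 1 20 (S1 8 21 U (S3 5 21 U (S4 1 21 (N 104) (P 21)))) (S1 8 21 (N 76) (S3 5 21 U (P 21)))) (S1 8 21 (S3 5 21 U (S3 6 25 U (S1 11 29 (S3 7 29 U (S3 8 33 U (S2 11 35 (N 108) (S1 14 37 (N 288) (S3 9 37 U (S4 2 37 (N 332) (P 37))))))) (S3 7 29 U (P 29))))) (S3 5 21 U (P 21)))) (S4 1 19 (S4 1 20 t139 (S1 8 21 (S3 5 21 (S2 7 22 U (P 22)) (S2 7 22 (S3 6 25 U (S1 11 29 (S3 7 29 U (S3 8 33 U (S1 14 37 (N 132) (S3 9 37 U (S4 2 39 (N 116) (S2 13 41 (N 208) (S3 10 41 U (P 41)))))))) (S3 7 29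 U (P 29)))) (P 22))) (S3 5 21 (S2 7 22 U (P 22)) (P 21)))) (P 19))) (S2 6 19 (S1 8 21 (S3 5 21 U (S3 6 25 U (S1 11 29 (S3 7 29 U (S3 8 33 U t140)) (S3 7 29 U (P 29))))) (S3 5 21 U (P 21))) (P 19))) (P 17))
def t142 : T := S2 4 13 (S3 3 13 (S4 1 13 (N 13) (P 14)) (S4 1 13 (S4 1 14 (S4 1 15 (S4 1 16 (S3 4 17 U (S4 1 17 (S4 1 18 (N 52) (S1 8 21 U (S3 5 21 U (P 21)))) (P 17))) (S3 4 17 U (P 17))) (S3 4 17 (N 182) (P 17))) (P 14)) (P 14))) (S3 3 13 (S4 1 13 (S4 1 14 (S4 1 15 (S2 5 16 U (S4 1 16 (S4 1 17 (S4 1 18 (S2 6 19 U (S4 1 19 (S4 1 20 (N 39) (S1 8 21 U (S2 7 22 U (S3 5 22 (N 57) (P 22))))) (P 19))) (S2 6 19 U (P 19))) (S2 6 19 U (P 19))) (P 16))) (S2 5 16 (N 182) (P 16))) (P 14)) (P 14)) (S4 1 13 (S4 1 14 (S4 1 15 (S2 5 16 (S4 1 16 (S3 4 17 U (S4 1 17 (S4 1 18 (S4 1 19 (N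 208) (S1 8 21 (N 144) (S3 5 21 U (P 21)))) (S1 8 21 (S3 5 21 U (S3 6 25 U (S1 11 29 (S2 9 29 (N 116) (S3 7 29 U (S3 8 33 U (S4 2 35 (N 192) (S1 14 37 (N 272) (S3 9 37 U (P 37))))))) (S2 9 29 (S3 7 29 U (S3 8 33 U (S4 2 35 (N 244) (S3 9 37 U (P 37))))) (S3 7 29 U (P 29)))))) (S3 5 21 U (P 21)))) (P 17))) (S3 4 17 (N 195) (P 17))) (S4 1 16 t141 (P 16))) (S2 5 16 (S3 4 17 (S1 8 21 (S1 11 29 (N 195) (S2 9 29 (N 238) (S4 2 29 U (P 29)))) (S2 9 29 (S4 2 29 (N 174) (S3 7 30 (N 364) (P 30))) (S4 2 29 (S3 7 30 (N 304) (P 30)) (P 29)))) (P 17)) (P 16))) (P 14)) (P 13)))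
def t143 : T := S4 1 13 (S4 1 14 (S4 1 15 (S4 1 16 (S3 4 17 (S4 1 17 (S1 7 18 U (S4 1 18 (N 195) (P 18))) (S1 7 18 U (P 18))) (S4 1 17 (S1 7 18 (S4 1 18 (S4 1 19 (N 208) (S3 5 21 U (P 21))) (S3 5 21 U (P 21))) (S4 1 18 (S4 1 19 (S4 1 20 (S3 5 21 U (S4 1 21 (S4 1 22 (S1 9 23 U (S2 7 23 (N 220) (S4 1 23 (S4 1 24 (N 120) (S3 6 25 U (S1 11 28 U (S3 7 29 U (S1 13 33 U (S3 8 33 U (P 33))))))) (P 23)))) (S1 9 23 U (S2 7 23 (S3 6 25 U (S1 11 28 U (S3 7 29 U (S1 13 33 U (S2 10 33 (S3 8 33 U (S3 9 37 U (S1 15 38 U (S3 10 41 U (S1 17 43 U (S2 13 43 (N 420) (S4 2 43 (N 300) (P 43)))))))) (S3 8 33 U (P 33))))))) (P 23)))) (P 21))) (S3 5 21 (N 130) (P 21))) (S3 5 21 (S1 9 23 U (S2 7 23 (N 105) (P 23))) (P 21))) (P 18))) (P 17))) (S3 4 17 (S1 7 18 (N 195) (P 18)) (P 17))) (S3 4 17 (S1 7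 18 (S2 7 23 (S4 2 29 U (S3 7 30 (N 154) (P 30))) (S4 2 29 (S3 7 30 (N 347) (P 30)) (S3 7 30 (S1 12 31 (N 364) (P 31)) (P 30)))) (P 18)) (P 17))) (P 14)) (P 13)
def t144 : T := S4 1 20 (S4 1 21 (S2 7 22 U (S3 5 22 (S4 1 22 (S1 9 23 U (S4 1 23 (S4 1 24 (S2 8 25 U (S4 1 25 (S4 1 26 (N 180) (S1 11 28 U (S2 9 28 U (P 28)))) (S1 11 28 U (S2 9 28 U (P 28))))) (S2 8 25 U (S1 11 28 U (S2 9 28 U (P 28))))) (P 23))) (S1 9 23 (N 189) (P 23))) (S4 1 22 (S1 9 23 (S4 1 23 (N 69) (S2 8 25 U (S2 9 28 U (S2 10 31 U (P 31))))) (S4 1 23 (S4 1 24 (S2 8 25 U (S4 1 25 (S4 1 26 (S4 1 27 (S1 11 28 U (S2 9 28 U (S4 1 28 (N 195) (P 28)))) (S1 11 28 U (S2 9 28 U (P 28)))) (S1 11 28 U (S2 9 28 U (P 28)))) (S1 11 28 (N 117) (S2 9 28 U (P 28))))) (S2 8 25 U (S1 11 28 (S2 9 28 U (S2 10 31 U (P 31))) (S2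 9 28 U (P 28))))) (P 23))) (P 22)))) (S2 7 22 (N 160) (S3 5 22 (S1 9 23 (S2 8 25 U (S2 9 28 U (S2 10 31 U (S3 7 31 (S2 11 34 U (S2 12 37 U (S2 13 40 U (S3 9 40 (N 120) (S1 16 41 (N 279) (S4 2 41 (N 327) (P 41))))))) (P 31))))) (P 23)) (P 22)))) (S2 7 22 (S3 5 22 (N 110) (S1 9 23 U (P 23))) (S3 5 22 (S1 9 23 (S2 8 25 U (S2 9 28 U (S2 10 31 U (S3 7 31 (S2 11 34 U (S2 12 37 U (S4 2 39 (S2 13 40 U (S3 9 40 (S1 16 41 (N 351) (P 41)) (P 40))) (S2 13 40 U (S3 9 40 (S1 16 41 (S2 14 43 U (S2 15 46 U (S2 16 49 U (S3 11 49 (S2 17 52 U (S2 18 55 U (S2 19 58 U (S3 13 58 (S4 3 58 (N 174) (S1 23 59 (S2 20 61 U (S2 21 64 U (S2 22 67 U (S3 15 67 (S2 23 70 U (S2 24 73 U (S2 25 76 U (S3 17 76 (N 228) (S1 30 77 (S4 4 77 (N 192) (S2 26 79 U (S2 27 82 U (S2 28 85 U (P 85))))) (S4 4 77 (N 192) (P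 77))))))) (P 67))))) (P 59))) (S4 3 58 (S1 23 59 (N 405) (P 59)) (P 58)))))) (P 49))))) (P 41)) (P 40)))))) (P 31))))) (P 23)) (P 22)))
def t145 : T := S4 1 13 (S4 1 14 (S4 1 15 (S2 5 16 (S4 1 16 (S4 1 17 (S1 7 18 U (S4 1 18 (N 160) (P 18))) (S1 7 18 U (P 18))) (S1 7 18 (N 195) (P 18))) (S4 1 16 (S4 1 17 (S1 7 18 (S4 1 18 (S2 6 19 U (S4 1 19 (S4 1 20 (S4 1 21 (S2 7 22 U (S3 5 22 U (S4 1 22 (N 108) (P 22)))) (S2 7 22 U (S3 5 22 (N 180) (P 22)))) (S2 7 22 U (S3 5 22 (S2 8 25 U (S2 9 28 U (S1 12 31 (S2 10 31 U (S3 7 31 (N 93) (S2 11 34 U (S2 12 37 U (S4 2 39 (N 312) (S2 13 40 U (P 40))))))) (S2 10 31 U (S3 7 31 (S2 11 34 U (S2 12 37 U (S4 2 39 (N 234) (S2 13 40 U (S3 9 40 (N 342) (P 40)))))) (P 31)))))) (P 22)))) (P 19))) (S2 6 19 U (P 19))) (S4 1 18 (S2 6 19 (S4 1 19 (N 95)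 (S3 5 22 (N 180) (S1 9 23 U (P 23)))) (S4 1 19 t144 (P 19))) (P 18))) (S1 7 18 (S2 6 19 (N 95) (P 19)) (P 18))) (P 16))) (S2 5 16 (S1 7 18 (S3 5 22 (S2 9 29 (N 154) (S4 2 29 U (P 29))) (S2 9 29 (S4 2 29 (N 203) (S1 12 31 (N 364) (P 31))) (S4 2 29 (S1 12 31 (N 377) (P 31)) (P 29)))) (P 18)) (P 16))) (P 14)) (P 13)
def t146 : T := S2 3 10 (S4 1 10 (S4 1 11 (S4 1 12 (S1 5 13 (S3 3 13 (N 130) (S4 1 13 (S4 1 14 (S4 1 15 (S4 1 16 U (S2 5 17 U (S3 4 17 U (P 17)))) (S2 5 17 (S3 4 17 U (S1 8 21 U (S3 5 21 U (P 21)))) (S3 4 17 U (P 17)))) (P 14)) (P 14))) (S3 3 13 (S4 1 13 (S4 1 14 (S4 1 15 U (S2 5 17 U (S1 7 18 U (P 18)))) (P 14)) (P 14)) (S4 1 13 (S4 1 14 (S4 1 15 (S4 1 16 (S2 5 17 (S3 4 17 U (S4 1 17 (S1 7 18 U (S4 1 18 (N 180) (P 18))) (S1 7 18 U (P 18)))) (S3 4 17 U (S4 1 17 (S1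 7 18 U (S4 1 18 (S4 1 19 (S4 1 20 (N 20) (S3 5 21 U (P 21))) (S3 5 21 U (P 21))) (P 18))) (P 17)))) (S2 5 17 (S3 4 17 U (S1 7 18 (N 180) (P 18))) (S3 4 17 (S1 7 18 U (P 18)) (P 17)))) (S2 5 17 (S3 4 17 (S1 7 18 U (P 18)) (S1 7 18 (S3 5 21 U (P 21)) (P 18))) (S3 4 17 (S1 7 18 U (P 18)) (P 17)))) (P 14)) (P 13)))) (P 14)) (P 11)) (P 11)) (S4 1 10 (S4 1 11 (S4 1 12 (S1 5 13 t142 (S2 4 13 (S3 3 13 (S4 1 13 (S4 1 14 (S4 1 15 (S4 1 16 (S4 1 17 U (S1 7 18 U (P 18))) (S1 7 18 U (P 18))) (S1 7 18 (N 182) (P 18))) (P 14)) (P 14)) t143) (S3 3 13 t145 (P 13)))) (P 14)) (P 11)) (P 10))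
def t147 : T := S1 3 8 (S4 1 8 (S3 2 9 t117 (S4 1 9 (S2 3 10 t118 (S4 1 10 t131 (P 10))) (P 9))) (S3 2 9 (S2 3 10 (S1 4 11 (S1 5 14 (S3 3 14 (S4 2 15 (S1 6 17 (S2 5 17 U (S3 4 19 U (P 24))) (S2 5 17 (N 112) (P 17))) (P 15)) (S4 2 15 (S1 6 17 (S2 5 17 (S1 7 20 (N 180) (S3 5 23 U (S4 3 23 (N 153) (P 23)))) (P 24)) (S2 5 17 (S3 5 23 (S4 3 23 (N 207) (S2 7 24 (N 322) (P 24))) (S4 3 23 (S2 7 24 (S1 11 31 (N 360) (S2 9 31 (S4 4 31 (N 279) (S3 7 32 U (P 32))) (S4 4 31 (S3 7 32 U (P 32)) (P 31)))) (P 24)) (P 23))) (P 17))) (P 15))) (S3 3 14 (S4 2 15 (S2 5 17 (S3 4 19 (S4 3 23 (N 275) (S2 7 24 (N 209) (P 31))) (S4 3 23 (S2 7 24 (S1 9 25 U (P 25)) (P 24)) (S2 7 24 (S1 9 25 (N 322) (P 25)) (P 24)))) (P 17)) (P 15)) (P 14))) (P 11)) (P 10)) (P 9))) (S4 1 8 (S3 2 9 (S4 1 9 (S2 3 10 (S4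 1 10 (S4 1 11 (S4 1 12 (S1 5 13 U (S4 1 13 (N 90) (S3 3 14 U (P 14)))) (S1 5 13 U (S3 3 14 (S2 5 17 (N 275) (S1 7 18 U (S3 4 19 (S1 9 23 U (S4 2 23 U (S3 5 24 (N 110) (P 24)))) (P 24)))) (P 14)))) (P 11)) (P 11)) (S4 1 10 (S4 1 11 (S4 1 12 t135 (S1 5 13 (S2 4 13 (S3 3 14 U (P 14)) (S3 3 14 (S2 5 16 (S3 4 19 (N 208) (P 24)) (P 16)) (P 14))) (S2 4 13 (S3 3 14 (S1 7 18 (S3 4 19 (N 185) (P 24)) (S3 4 19 (S1 9 23 (S2 7 23 U (S4 2 23 U (S3 5 24 (N 120) (P 24)))) t136) (P 24))) (P 14)) (P 13)))) (P 11)) (P 10))) (P 11)) (S4 1 9 t146 (P 9))) (P 8))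
def t148 : T := S3 3 20 (S2 7 22 U (S4 2 23 (N 126) (S2 8 25 U (S1 11 26 U (S3 4 27 (S2 9 28 U (S2 10 31 U (S1 14 33 U (S2 11 34 U (S3 5 34 (N 231) (S4 3 34 (N 135) (P 34))))))) (S2 9 28 U (S2 10 31 U (S1 14 33 (N 33) (S2 11 34 U (S4 3 34 (S2 12 37 U (S1 17 40 U (S2 13 40 U (S2 14 43 U (S2 15 46 U (S1 20 47 U (S3 7 47 (N 147) (P 47)))))))) (P 34))))))))))) (S2 7 22 U (S4 2 23 (S2 8 25 U (S1 11 26 U (S2 9 28 U (S2 10 31 U (S1 14 33 (N 195) (S3 5 33 (S2 11 34 U (S4 3 35 (N 105) (S2 12 37 U (S1 17 40 U (S2 13 40 U (P 40)))))) (S2 11 34 U (S4 3 35 (S2 12 37 U (S1 17 40 (N 162) (S2 13 40 U (P 40)))) (S2 12 37 U (S1 17 40 (N 195) (S2 13 40 U (P 40)))))))))))) (S2 8 25 U (S1 11 26 (S2 9 28 U (S2 10 31 U (S3 5 33 (N 33) (S2 11 34 U (S4 3 34 (N 78) (P 34)))))) (S2 9 28 U (S2 10 31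 U (S1 14 33 (S3 5 33 (N 33) (S2 11 34 U (S4 3 34 (N 351) (P 34)))) (S3 5 33 (S2 11 34 U (S4 3 34 (S2 12 37 U (S1 17 40 (N 204) (S2 13 40 U (P 40)))) (P 34))) (S2 11 34 U (S4 3 34 (S2 12 37 U (S1 17 40 (S2 13 40 U (S2 14 43 U (S2 15 46 U (S3 7 46 (N 249) (P 46))))) (S2 13 40 U (P 40)))) (P 34)))))))))))
def t149 : T := S4 1 11 (S1 5 12 (S4 1 12 (N 12) (S2 4 13 U (S3 2 13 U (P 13)))) (S4 1 12 (S2 4 13 U (S3 2 13 (N 84) (S4 1 13 (S4 1 14 (N 42) (S2 5 16 U (S1 8 19 (N 78) (S2 6 19 U (S3 3 19 U (P 19)))))) (P 13)))) (S2 4 13 U (S3 2 13 (S2 5 16 U (S1 8 19 (N 273) (S2 6 19 U t148))) (P 13))))) (S1 5 12 (S2 4 13 U (S3 2 13 (S2 5 16 U (S1 7 17 (N 240) (S2 6 19 U (S3 3 20 (N 60) (S4 2 21 (N 84) (S2 7 22 U (P 22))))))) (P 13))) (S2 4 13 (S3 2 13 U (S1 8 19 U (S3 3 19 U (S4 2 21 (N 42)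 (S2 7 23 (N 210) (S3 4 25 U (S1 11 26 U (S3 5 31 U (S4 3 31 (S1 14 33 U (P 33)) (P 31)))))))))) (S3 2 13 (S2 5 16 U (S1 8 19 (S2 6 19 U (S3 3 20 (S4 2 21 (N 273) (S2 7 22 U (P 22))) (S4 2 21 (S2 7 22 U (P 22)) (S2 7 22 U (P 22))))) (S2 6 19 (N 240) (S3 3 20 (S4 2 21 (S2 7 22 U (P 22)) (S2 7 22 U (P 22))) (S4 2 21 (S2 7 22 U (P 22)) (S2 7 22 (S1 11 26 U (S4 3 31 U (S1 14 33 U (S3 5 33 (N 198) (P 33))))) (P 22))))))) (P 13))))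
def t150 : T := S3 2 13 (S2 5 17 (S4 2 17 U (S1 8 19 U (S3 3 20 U (S2 7 24 (N 168) (S4 3 25 U (S1 11 26 U (S1 14 33 U (S3 5 33 (N 112) (S4 4 33 U (P 33)))))))))) (S4 2 17 (S1 8 19 U (S3 3 20 U (S1 11 26 U (S4 3 26 U (S2 8 27 U (P 27)))))) (P 17))) (S2 5 17 (S4 2 17 (S1 8 19 (N 102) (S3 3 19 (N 119) (P 19))) (S1 8 19 (S3 3 19 (N 95) (S2 7 24 (S3 4 25 U (S4 3 25 (N 216) (P 25))) (S3 4 25 (S4 3 25 U (S1 13 31 (N 112) (S4 4 33 U (S2 12 41 (N 256) (S4 5 41 U (P 41)))))) (S4 3 25 (S1 13 31 (S3 5 31 U (S3 6 37 U (S2 12 41 (N 150) (S4 5 42 (N 336) (S1 18 43 (N 258) (S3 7 43 U (P 43))))))) (S3 5 31 U (P 31))) (P 25))))) (S3 3 19 (S2 7 24 (S4 3 25 (N 133) (S1 11 26 U (P 26))) (S4 3 25 (S1 11 26 U (P 26)) (S1 11 26 (S3 5 32 (N 224) (S4 4 33 U (S2 12 41 (N 208) (S4 5 41 U (P 41))))) (P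 26)))) (P 19)))) (S4 2 17 (S1 8 19 (S3 3 19 U (S3 4 25 (N 280) (S4 3 26 (S2 8 27 (N 216) (P 27)) (S2 8 27 (S1 13 31 (S3 5 31 U (S3 6 37 U (S1 18 43 (N 246) (S3 7 43 U (S4 5 43 (N 162) (P 43)))))) (S3 5 31 U (P 31))) (P 27))))) (S3 3 19 (S1 11 26 (N 170) (S4 3 26 (S2 8 27 (N 182) (P 27)) (P 26))) (P 19))) (P 17)))
def t151 : T := S3 1 7 (S4 1 7 (S3 1 8 (S4 1 8 (S3 1 9 (N 63) (S4 1 9 (N 63) (S2 3 10 U (P 10)))) (S3 1 9 O3 (S2 3 10 U (P 10)))) (S4 1 8 (S4 1 9 (S2 3 10 U (S4 1 10 (S4 1 11 U (S1 5 12 U (S2 4 13 U (S3 2 15 U (S2 5 16 U (S1 8 19 U (S2 6 19 U (S4 2 21 (N 21) (S2 7 22 U (S3 3 22 (N 168) (P 22))))))))))) (P 10))) (S2 3 10 U (P 10))) (P 8))) (S3 1 8 O3 (P 8))) (S4 1 7 (S4 1 8 (S4 1 9 (S2 3 10 (S4 1 10 U (S1 5 12 U (S3 2 13 U (S2 5 17 (S1 8 19 U (S3 3 19 U (S4 2 19 U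 (P 19)))) (S1 8 19 (N 90) (S3 3 19 U (S4 2 19 (S3 4 25 U (S1 11 26 U (S2 8 27 U (S4 3 29 (N 203) (S3 5 31 U (P 31)))))) (P 19)))))))) (S4 1 10 t149 (P 10))) (S2 3 10 (S1 5 12 (S3 2 13 U (S1 7 17 (S2 5 17 U (S4 2 17 U (S3 3 19 U (S1 9 22 (S3 4 25 U (S4 3 25 U (P 25))) (S3 4 25 U (S4 3 25 (N 150) (P 25))))))) (S2 5 17 (S4 2 17 U (S3 3 19 U (S2 7 24 (N 24) (S3 4 25 U (S4 3 25 U (P 25)))))) (S4 2 17 (S3 3 19 U (S3 4 25 U (S4 3 26 (N 60) (S2 8 27 U (P 27))))) (P 17))))) t150) (P 10))) (P 8)) (P 7))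
def t152 : T := S4 1 10 (S1 5 11 U (S2 3 11 U (S4 1 11 (S4 1 12 U (S1 6 13 U (S1 7 15 U (S1 8 17 U (S3 2 17 U (S2 5 18 U (S1 9 19 U (S1 10 21 U (S1 11 23 U (S4 2 23 U (S1 12 25 U (S2 7 25 U (S3 3 25 U (P 25)))))))))))))) (P 11)))) (S1 5 11 U (S2 3 11 (S1 6 13 U (S1 7 15 U (S2 4 15 (S1 8 17 U (S3 2 17 U (S1 9 19 U (S2 5 19 (N 72) (S4 2 19 U (P 19)))))) (S1 8 17 U (S3 2 17 (S1 9 19 U (S4 2 19 U (P 19))) (S1 9 19 U (S4 2 19 (S1 10 21 U (S1 11 23 U (S1 12 25 U (S3 3 25 (N 66) (S2 7 26 (N 104) (S1 13 27 U (S1 14 29 U (S4 3 29 (S1 15 31 U (S1 16 33 U (S3 4 33 U (S1 17 35 U (S1 18 37 U (S2 10 37 (N 48) (S1 19 39 U (S4 4 39 (S1 20 41 U (S3 5 41 U (P 41))) (S1 20 41 U (S3 5 41 (N 106) (P 41))))))))))) (S1 15 31 U (S1 16 33 U (S3 4 33 (N 66) (S1 17 35 U (S1 18 37 U (S2 10 37 (S1 19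 39 U (S1 20 41 U (S3 5 41 U (P 41)))) (S1 19 39 U (S1 20 41 U (S3 5 41 (N 418) (P 41)))))))))))))))))) (P 19)))))))) (P 11)))
def t153 : T := S2 4 15 (S3 2 15 (N 30) (S1 8 17 U (S1 9 19 U (S2 5 19 (S1 10 21 U (S4 2 21 (S3 3 22 U (S1 11 23 U (S2 6 23 (N 42) (P 23)))) (S3 3 22 (N 110) (S1 11 23 U (S2 6 23 (S1 12 25 U (S1 13 27 U (S2 7 27 (S1 14 29 U (S3 4 29 U (S1 15 31 U (S2 8 31 (S4 3 31 U (S1 16 33 U (S1 17 35 U (S2 9 35 (N 70) (S3 5 36 U (S1 18 37 U (S1 19 39 U (S1 20 41 U (S4 4 41 (N 112) (S1 21 43 U (S3 6 43 U (P 43)))))))))))) (S4 3 31 (N 154) (P 31)))))) (S1 14 29 U (S3 4 29 (N 130) (S1 15 31 U (S4 3 31 (S1 16 33 U (S1 17 35 U (S3 5 36 U (S1 18 37 U (S1 19 39 U (S1 20 41 U (S1 21 43 U (S3 6 43 U (P 43))))))))) (P 31)))))))) (P 23)))))) (S1 10 21 U (S4 2 21 (S3 3 22 (N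 146) (S1 11 23 U (P 23))) (S3 3 22 (S1 11 23 U (P 23)) (S1 11 23 U (P 23))))))))) (S3 2 15 (S1 8 17 U (S1 9 19 U (S1 10 21 U (S4 2 21 (S1 11 23 U (S3 3 23 (N 84) (P 23))) (S1 11 23 U (S3 3 23 (S1 12 25 U (S2 7 26 (N 130) (S1 13 27 U (S1 14 29 U (S1 15 31 U (S3 4 31 (S4 3 31 (N 62) (S1 16 33 U (S1 17 35 U (S1 18 37 U (S2 10 37 (N 170) (S1 19 39 U (S3 5 39 (S1 20 41 U (S4 4 41 (N 132) (P 41))) (S1 20 41 U (S4 4 41 (N 286) (P 41)))))))))) (S4 3 31 (S1 16 33 U (S1 17 35 U (S1 18 37 U (S2 10 37 U (S1 19 39 U (S1 20 41 U (S1 21 43 U (S1 22 45 U (S1 23 47 U (S2 13 48 (N 92) (S1 24 49 U (S1 25 51 U (S4 5 52 (N 176) (S1 26 53 U (S3 7 54 (N 154) (S1 27 55 U (S1 28 57 U (S1 29 59 U (S2 16 59 (N 92) (S1 30 61 U (S1 31 63 U (P 63)))))))))))))))))))))) (P 31)))))))) (P 23))))))) (P 15))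
def t154 : T := S2 5 18 (S1 9 19 U (S1 10 21 U (S1 11 23 U (S3 3 23 (N 176) (S4 2 23 (N 90) (P 23)))))) (S1 9 19 U (S1 10 21 U (S1 11 23 U (S3 3 23 (S4 2 23 (S1 12 25 U (S2 7 25 U (P 25))) (S1 12 25 U (S2 7 25 (S1 13 27 U (S1 14 29 U (S1 15 31 U (S3 4 31 (S1 16 33 U (S4 3 34 U (S1 17 35 U (S1 18 37 U (S1 19 39 U (S3 5 39 (N 132) (S1 20 41 U (S1 21 43 U (S2 12 43 (N 154) (S1 22 45 U (S4 4 45 (N 100) (S1 23 47 U (P 47))))))))))))) (S1 16 33 U (S4 3 34 (N 214) (S1 17 35 U (S1 18 37 U (S1 19 39 U (S1 20 41 U (S1 21 43 U (S2 12 43 (S1 22 45 U (S4 4 45 (N 168) (S1 23 47 U (P 47)))) (S1 22 45 U (S4 4 45 (N 314) (S1 23 47 U (P 47)))))))))))))))) (P 25)))) (S4 2 23 (S1 12 25 U (S2 7 25 (S1 13 27 U (S1 14 29 U (S1 15 31 U (S1 16 33 U (S1 17 35 U (S4 3 35 (N 150) (S1 18 37 U (S3 5 38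 (N 114) (S1 19 39 U (S1 20 41 U (S1 21 43 U (S2 12 43 (N 172) (S1 22 45 U (S1 23 47 U (P 47))))))))))))))) (P 25))) (P 23))))))
def t155 : T := S3 3 23 (S1 12 25 U (S1 13 27 U (S2 7 27 (S4 3 28 U (S1 14 29 U (S1 15 31 U (S2 8 31 (N 306) (S3 4 31 (N 54) (P 31)))))) (S4 3 28 (N 46) (S1 14 29 U (S1 15 31 U (S3 4 31 (S1 16 33 U (S1 17 35 U (S1 18 37 U (S4 4 37 (N 46) (S1 19 39 U (S3 5 39 (S1 20 41 U (S1 21 43 U (S1 22 45 U (S4 5 46 U (S1 23 47 U (S3 6 47 (N 180) (P 47))))))) (P 39))))))) (P 31)))))))) (S1 12 25 U (S1 13 27 U (S2 7 27 (S4 3 28 (N 270) (S1 14 29 U (S1 15 31 U (S2 8 31 (S1 16 33 U (S1 17 35 U (S2 9 35 (S1 18 37 U (S4 4 37 (N 120) (S3 5 38 (N 342) (S1 19 39 U (S2 10 39 (S1 20 41 U (S1 21 43 U (S2 11 43 (S1 22 45 U (S4 5 46 (N 82) (S1 23 47 U (S2 12 47 (N 90) (P 47)))))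 (S1 22 45 U (S4 5 46 (N 156) (S1 23 47 U (P 47))))))) (P 39)))))) (S1 18 37 U (S4 4 37 (N 120) (S3 5 38 (S1 19 39 U (P 39)) (S1 19 39 U (P 39)))))))) (P 31))))) (S4 3 28 (S1 14 29 U (S1 15 31 U (P 31))) (S1 14 29 U (S1 15 31 U (P 31)))))))
def t156 : T := S3 5 39 (S1 20 41 U (S2 11 42 (S1 21 43 U (S1 22 45 U (S4 5 46 (N 156) (S1 23 47 U (S3 6 47 (S1 24 49 U (S1 25 51 U (S1 26 53 U (S1 27 55 U (S3 7 55 (S4 6 55 (N 110) (S1 28 57 U (S1 29 59 U (S1 30 61 U (S1 31 63 U (S3 8 63 (N 126) (S4 7 64 (N 164) (S1 32 65 U (S2 17 65 (N 432) (P 65)))))))))) (S4 6 55 (N 164) (P 55))))))) (P 47)))))) (S1 21 43 U (S1 22 45 U (S4 5 46 (S1 23 47 U (S3 6 47 (N 266) (P 47))) (S1 23 47 U (S3 6 47 (S1 24 49 U (S1 25 51 U (S1 26 53 U (S1 27 55 U (S3 7 55 (S4 6 55 (N 110) (S1 28 57 U (S1 29 59 U (S1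 30 61 U (S2 16 61 (S1 31 63 U (S3 8 63 (S4 7 64 (N 118) (S1 32 65 U (P 65))) (S4 7 64 (N 274) (S1 32 65 U (P 65))))) (S1 31 63 U (S3 8 63 (S4 7 64 (N 228) (S1 32 65 U (P 65))) (S4 7 64 (S1 32 65 U (P 65)) (S1 32 65 U (P 65)))))))))) (S4 6 55 (S1 28 57 U (S1 29 59 U (S1 30 61 U (S2 16 61 (N 274) (S1 31 63 U (S1 32 65 U (P 65))))))) (P 55))))))) (P 47)))))))) (P 39)
def t157 : T := S4 4 39 (S1 20 41 U (S1 21 43 U (S2 11 43 (S3 6 43 (N 78) (S1 22 45 U (S1 23 47 U (S2 12 47 (S1 24 49 U (S4 5 49 (S3 7 50 U (S1 25 51 U (S2 13 51 (N 98) (P 51)))) (S3 7 50 (N 78) (S1 25 51 U (S2 13 51 (S1 26 53 U (S1 27 55 U (S2 14 55 (S1 28 57 U (S3 8 57 U (S1 29 59 U (S2 15 59 (N 224) (P 59))))) (S1 28 57 U (S3 8 57 U (S1 29 59 U (P 59))))))) (P 51)))))) (S1 24 49 U (S4 5 49 (S3 7 50 (N 78) (S1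 25 51 U (P 51))) (S3 7 50 (N 78) (S1 25 51 U (P 51))))))))) (S3 6 43 (N 78) (P 43))))) (S1 20 41 U (S1 21 43 U (S2 11 43 (S3 6 43 (N 86) (S1 22 45 U (S1 23 47 U (S2 12 47 (S1 24 49 U (S3 7 50 (N 164) (S1 25 51 U (S2 13 51 (S1 26 53 U (S1 27 55 U (S2 14 55 (S1 28 57 U (S3 8 57 (N 106) (S1 29 59 U (S2 15 59 (S1 30 61 U (S1 31 63 U (S2 16 63 (S3 9 64 (N 106) (S1 32 65 U (S1 33 67 U (S2 17 67 (S4 7 68 (N 126) (S1 34 69 U (S1 35 71 U (S2 18 71 (N 280) (S3 10 71 (N 106) (P 71)))))) (S4 7 68 (N 126) (S1 34 69 U (S1 35 71 U (S3 10 71 (N 106) (P 71))))))))) (S3 9 64 (N 106) (S1 32 65 U (S1 33 67 U (S4 7 68 (S1 34 69 U (S1 35 71 U (S3 10 71 (N 106) (P 71)))) (S1 34 69 U (S1 35 71 U (S3 10 71 (N 106) (P 71))))))))))) (P 59))))) (S1 28 57 U (S3 8 57 (N 192) (S1 29 59 U (P 59))))))) (P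 51))))) (S1 24 49 U (S3 7 50 (N 164) (S1 25 51 U (P 51)))))))) (S3 6 43 (N 222) (P 43)))))
def t158 : T := S3 3 22 (S1 11 23 U (S2 6 23 (S1 12 25 U (S1 13 27 U (S2 7 27 (S1 14 29 U (S4 3 29 (N 154) (S1 15 31 U (S2 8 31 (N 418) (P 31))))) (S1 14 29 U (S4 3 29 (S1 15 31 U (P 31)) (S1 15 31 U (P 31))))))) (P 23))) (S1 11 23 U (S2 6 23 (S1 12 25 U (S1 13 27 U (S2 7 27 (S1 14 29 U (S3 4 29 (S4 3 29 (S1 15 31 U (S2 8 31 (N 58) (P 31))) (S1 15 31 U (S2 8 31 (S1 16 33 U (S1 17 35 U (S2 9 35 (S1 18 37 U (S1 19 39 U (S2 10 39 (N 152) (P 39)))) (S1 18 37 U (S1 19 39 U (P 39)))))) (P 31)))) (S4 3 29 (S1 15 31 U (S2 8 31 (S1 16 33 U (S1 17 35 U (S2 9 35 (S3 5 36 (N 280) (S1 18 37 U (S1 19 39 U (S2 10 39 t157 (S4 4 39 (S1 20 41 U (S1 21 43 U (S3 6 43 (N 136) (P 43)))) (P 39)))))) (S3 5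 36 (S1 18 37 U (S1 19 39 U (S4 4 39 (N 302) (P 39)))) (S1 18 37 U (S1 19 39 U (S4 4 39 (S1 20 41 U (S1 21 43 U (S3 6 43 (S1 22 45 U (S1 23 47 U (S1 24 49 U (S4 5 49 (N 186) (S1 25 51 U (P 51)))))) (P 43)))) (P 39)))))))) (P 31))) (P 29)))) (S1 14 29 U (S3 4 29 (S4 3 29 (S1 15 31 U (P 31)) (S1 15 31 U (P 31))) (S4 3 29 (S1 15 31 U (P 31)) (P 29))))))) (P 23)))
def t159 : T := S2 13 51 (S3 7 52 (S1 26 53 U (S1 27 55 U (S2 14 55 (S4 6 55 (N 110) (S1 28 57 U (S1 29 59 U (S2 15 59 (S1 30 61 U (S1 31 63 U (S2 16 63 (N 126) (S4 7 64 (N 118) (S1 32 65 U (S1 33 67 U (S3 9 67 (N 342) (P 67)))))))) (S1 30 61 U (S1 31 63 U (S4 7 64 (N 192) (S1 32 65 U (S1 33 67 U (S3 9 67 (S1 34 69 U (S1 35 71 U (S1 36 73 U (S4 8 73 (N 200) (S1 37 75 U (P 75)))))) (P 67))))))))))) (S4 6 55 (N 192) (P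 55))))) (S1 26 53 U (S1 27 55 U (S2 14 55 (S4 6 55 (N 110) (S1 28 57 U (S1 29 59 U (S2 15 59 (S1 30 61 U (S1 31 63 U (S2 16 63 (S4 7 64 (N 118) (S1 32 65 U (S1 33 67 U (S2 17 67 (S1 34 69 U (S1 35 71 U (S2 18 71 (N 414) (S1 36 73 U (S4 8 73 (N 118) (S1 37 75 U (P 75))))))) (P 67))))) (S4 7 64 (N 118) (S1 32 65 U (S1 33 67 U (P 67))))))) (S1 30 61 U (S1 31 63 U (S4 7 64 (N 192) (S1 32 65 U (S1 33 67 U (P 67)))))))))) (S4 6 55 (N 192) (P 55)))))) (S3 7 52 (S1 26 53 U (S1 27 55 U (S4 6 55 (N 274) (P 55)))) (S1 26 53 U (S1 27 55 U (S4 6 55 (N 458) (P 55)))))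
def t160 : T := S2 7 27 (S4 3 28 (S1 14 29 U (S1 15 31 U (S2 8 31 (S1 16 33 U (S1 17 35 U (S2 9 35 (S1 18 37 U (S3 5 37 (N 140) (S1 19 39 U (S2 10 39 (N 308) (P 39))))) (S1 18 37 U (S3 5 37 (S1 19 39 U (P 39)) (S1 19 39 U (P 39))))))) (P 31)))) (S1 14 29 U (S1 15 31 U (S2 8 31 (S1 16 33 U (S1 17 35 U (S2 9 35 (S1 18 37 U (S3 5 37 (S4 4 37 (S1 19 39 U (S2 10 39 (N 74) (P 39))) (S1 19 39 U (S2 10 39 (S1 20 41 U (S1 21 43 U (S2 11 43 (S1 22 45 U (S4 5 46 (N 340) (S1 23 47 U (S2 12 47 (S1 24 49 U (S1 25 51 U t159)) (P 47))))) (S1 22 45 U (S4 5 46 (S1 23 47 U (P 47)) (S1 23 47 U (P 47))))))) (P 39)))) (S4 4 37 (S1 19 39 U (S2 10 39 (S1 20 41 U (S1 21 43 U (S2 11 43 (S1 22 45 U (S1 23 47 U (S2 12 47 (N 462) (P 47)))) (S1 22 45 U (S1 23 47 U (P 47)))))) (P 39))) (P 37)))) (S1 18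 37 U (S3 5 37 (S4 4 37 (S1 19 39 U (P 39)) (S1 19 39 U (P 39))) (S4 4 37 (S1 19 39 U (P 39)) (P 37))))))) (P 31))))) (S4 3 28 (S1 14 29 U (S1 15 31 U (P 31))) (S1 14 29 U (S1 15 31 U (P 31))))
def t161 : T := S4 3 28 (S1 14 29 U (S3 4 29 (S1 15 31 U (S2 8 31 (S1 16 33 U (S1 17 35 U (S2 9 35 (S1 18 37 U (S1 19 39 U (S2 10 39 (S1 20 41 U (S1 21 43 U (S2 11 43 (S1 22 45 U (S1 23 47 U (S2 12 47 (S4 5 47 (N 94) (S1 24 49 U (S1 25 51 U (S2 13 51 (S3 7 51 (N 102) (S1 26 53 U (S1 27 55 U (S2 14 55 (N 326) (S1 28 57 U (S1 29 59 U (P 59))))))) (S3 7 51 (N 364) (P 51)))))) (S4 5 47 (S1 24 49 U (S1 25 51 U (S3 7 51 (N 422) (P 51)))) (P 47))))) (S1 22 45 U (S1 23 47 U (S4 5 47 (S1 24 49 U (S1 25 51 U (S3 7 51 (S1 26 53 U (S1 27 55 U (S1 28 57 U (S1 29 59 U (P 59))))) (P 51)))) (P 47)))))))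 (P 39)))) (S1 18 37 U (S1 19 39 U (P 39)))))) (P 31))) (P 29))) (S1 14 29 U (S3 4 29 (S1 15 31 U (S2 8 31 (S1 16 33 U (S1 17 35 U (S2 9 35 (S1 18 37 U (S4 4 37 (S1 19 39 U (S2 10 39 (S1 20 41 U (S1 21 43 U (S2 11 43 (S1 22 45 U (S1 23 47 U (S2 12 47 (S1 24 49 U (S1 25 51 U (S2 13 51 (S3 7 51 (S1 26 53 U (S1 27 55 U (S2 14 55 (S1 28 57 U (S1 29 59 U (S2 15 59 (N 342) (P 59)))) (S1 28 57 U (S1 29 59 U (P 59)))))) (S1 26 53 U (S1 27 55 U (S2 14 55 (S1 28 57 U (S1 29 59 U (S2 15 59 (S1 30 61 U (S1 31 63 U (S2 16 63 (S1 32 65 U (S4 7 65 (N 232) (S1 33 67 U (S2 17 67 (N 268) (P 67))))) (S1 32 65 U (S4 7 65 (N 232) (S1 33 67 U (P 67))))))) (P 59)))) (S1 28 57 U (S1 29 59 U (P 59))))))) (S3 7 51 (S1 26 53 U (S1 27 55 U (S1 28 57 U (S1 29 59 U (P 59))))) (P 51))))) (P 47)))) (S1 22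 45 U (S1 23 47 U (P 47)))))) (P 39))) (P 37))) (S1 18 37 U (S4 4 37 (S1 19 39 U (P 39)) (P 37)))))) (P 31))) (P 29)))
def t162 : T := S3 2 15 (S1 8 17 U (S1 9 19 U (S2 5 19 (S4 2 19 (S1 10 21 U (S1 11 23 U (S2 6 23 (N 180) (S3 3 23 (N 38) (P 23))))) (S1 10 21 U (S1 11 23 U (S2 6 23 t155 (S3 3 23 (S1 12 25 U (S1 13 27 U (S4 3 28 (S1 14 29 U (S1 15 31 U (S3 4 31 (N 186) (P 31)))) (S1 14 29 U (S1 15 31 U (S3 4 31 (S1 16 33 U (S1 17 35 U (S1 18 37 U (S4 4 37 (S1 19 39 U (S3 5 39 (N 148) (P 39))) (S1 19 39 U t156))))) (P 31))))))) (P 23)))))) (S4 2 19 (S1 10 21 U (S1 11 23 U (S3 3 23 (S1 12 25 U (S1 13 27 U (S1 14 29 U (S4 3 29 (S1 15 31 U (S3 4 31 (N 116) (P 31))) (S1 15 31 U (S3 4 31 (S1 16 33 U (S2 9 34 (N 170) (S1 17 35 U (S1 18 37 U (S1 19 39 U (S3 5 39 (S1 20 41 U (S1 21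 43 U (S1 22 45 U (S1 23 47 U (S3 6 47 (N 180) (S4 5 48 (N 210) (S1 24 49 U (S2 13 49 (N 218) (P 49))))))))) (P 39))))))) (P 31))))))) (P 23)))) (P 19))))) (S1 8 17 U (S1 9 19 U (S2 5 19 (S4 2 19 (S1 10 21 U t158) (S1 10 21 U (S3 3 22 (S1 11 23 U (S2 6 23 (S1 12 25 U (S1 13 27 U t160)) (P 23))) (S1 11 23 U (S2 6 23 (S1 12 25 U (S1 13 27 U (S2 7 27 t161 (S4 3 28 (S1 14 29 U (S3 4 29 (S1 15 31 U (P 31)) (P 29))) (S1 14 29 U (S3 4 29 (S1 15 31 U (P 31)) (P 29))))))) (P 23)))))) (S4 2 19 (S1 10 21 U (S3 3 22 (S1 11 23 U (P 23)) (S1 11 23 U (P 23)))) (P 19)))))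
def t163 : T := S2 7 26 (S1 13 27 U (S1 14 29 U (S4 3 29 (S1 15 31 U (S3 4 31 (S1 16 33 U (S1 17 35 U (S1 18 37 U (S1 19 39 U (S3 5 39 (S4 4 39 (N 78) (S1 20 41 U (S2 11 41 (S1 21 43 U (S1 22 45 U (S1 23 47 U (S3 6 47 (N 164) (S1 24 49 U (P 49)))))) (P 41)))) (S4 4 39 (S1 20 41 U (S2 11 41 (S1 21 43 U (S1 22 45 U (S1 23 47 U (S1 24 49 U (S4 5 49 (N 186) (P 49)))))) (P 41))) (P 39))))))) (P 31))) (S1 15 31 U (S3 4 31 (S1 16 33 U (S1 17 35 U (S1 18 37 U (S1 19 39 U (S3 5 39 (S1 20 41 U (S2 11 41 (S1 21 43 U (S1 22 45 U (S1 23 47 U (S3 6 47 (S4 5 48 (S1 24 49 U (P 49)) (S1 24 49 U (P 49))) (S4 5 48 (S1 24 49 U (P 49)) (S1 24 49 U (P 49))))))) (P 41))) (P 39)))))) (P 31)))))) (S1 13 27 U (S1 14 29 U (S4 3 29 (S1 15 31 U (S3 4 31 (S1 16 33 U (S1 17 35 U (S1 18 37 U (S2 10 37 (S1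 19 39 U (S3 5 39 (S4 4 39 (S1 20 41 U (P 41)) (S1 20 41 U (P 41))) (S4 4 39 (S1 20 41 U (P 41)) (P 39)))) (S1 19 39 U (S3 5 39 (S4 4 39 (S1 20 41 U (P 41)) (S1 20 41 U (P 41))) (S4 4 39 (S1 20 41 U (P 41)) (P 39)))))))) (P 31))) (S1 15 31 U (S3 4 31 (S1 16 33 U (S1 17 35 U (S1 18 37 U (S2 10 37 (S1 19 39 U (S3 5 39 (S1 20 41 U (P 41)) (P 39))) (S1 19 39 U (S3 5 39 (S1 20 41 U (P 41)) (P 39))))))) (P 31))))))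
def t164 : T := S3 1 8 (S4 1 8 (S1 4 9 U (S3 1 9 (S4 1 9 (S3 1 10 U (S4 1 10 U (S1 5 11 U (S2 3 11 U (P 11))))) (S3 1 10 O3 (S1 5 11 U (S2 3 11 (S1 6 13 U (S1 7 15 U (S2 4 15 (S1 8 17 U (S4 2 17 U O3)) (S1 8 17 U (S4 2 17 (S1 9 19 U (S3 2 19 O3 (P 19))) O3))))) (P 11))))) (S4 1 9 t152 (P 9)))) (S1 4 9 (N 56) (S3 1 9 O3 (P 9)))) (S4 1 8 (S1 4 9 (N 56) (S4 1 9 (S4 1 10 (S1 5 11 U (S2 3 11 (S4 1 11 (S4 1 12 (N 84) (S1 6 13 U (S1 7 15 U (S2 4 15 (S3 2 15 U (S1 8 17 U (S1 9 19 U (S2 5 19 U (S1 10 21 U (S3 3 22 U (S1 11 23 U (S4 2 23 U (P 23))))))))) (S3 2 15 U (P 15)))))) (S1 6 13 U (S1 7 15 U t153))) (S4 1 11 (S4 1 12 (S1 6 13 U (S4 1 13 (S4 1 14 (N 14) (S1 7 15 U (S3 2 15 U (P 15)))) (S1 7 15 U (S3 2 15 (S1 8 17 U (S2 5 18 U (S1 9 19 U (S1 10 21 U (S1 11 23 U (S3 3 23 (N 84)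 (S1 12 25 U (S2 7 25 U (S4 2 25 (N 112) (P 25)))))))))) (P 15))))) (S1 6 13 U (S1 7 15 U (S3 2 15 (S1 8 17 U t154) (P 15))))) (P 11)))) (S1 5 11 U (S2 3 11 (S1 6 13 U (S1 7 15 U (S2 4 15 t162 (S3 2 15 (S1 8 17 U (S1 9 19 U (S4 2 19 (S1 10 21 U (S1 11 23 U (S3 3 23 (S1 12 25 U t163) (P 23)))) (P 19)))) (P 15))))) (P 11)))) (P 9))) (P 8))
def t165 : T := S2 5 18 (S3 3 20 U (S1 11 25 U (S4 3 25 U (S2 8 29 (N 279) (S3 5 33 (N 72) (S4 4 33 U (P 33))))))) (S3 3 20 (S1 11 25 (S2 7 25 U (S4 3 25 U (S3 4 27 (N 168) (S2 9 32 U (S4 4 33 U (S2 11 39 U (S1 18 41 (N 280) (S4 5 41 U (P 41))))))))) (S2 7 25 (N 200) (S4 3 25 (S3 4 27 (N 108) (S2 9 32 U (S1 15 34 U (P 34)))) (P 25)))) (S1 11 25 (S2 7 25 (N 175) (S4 3 25 (N 175) (S2 9 32 (S3 5 33 U (S4 4 33 U (P 33))) (S3 5 33 (S4 4 33 (N 231)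 (S2 11 39 (N 184) (S1 18 41 (S4 5 41 (N 164) (S2 13 46 (N 184) (S4 6 49 (N 343) (S2 15 53 (N 264) (S3 8 53 (S1 25 57 (S4 7 57 (N 171) (S2 17 60 (N 264) (P 60))) (S4 7 57 (N 350) (P 57))) (P 53)))))) (S4 5 41 (N 336) (P 41))))) (S4 4 33 (S2 11 39 U (S1 18 41 (S2 13 46 U (S3 7 46 (N 164) (P 46))) (S2 13 46 U (S3 7 46 (N 420) (P 46))))) (P 33)))))) (S2 7 25 (S4 3 25 (N 175) (S3 5 33 (S4 4 33 U (S1 15 34 U (P 34))) (S4 4 33 (N 396) (P 33)))) (S4 3 25 (S2 9 32 (N 416) (S3 5 33 (S1 15 34 (N 224) (P 34)) (S1 15 34 (S2 11 39 U (S4 5 42 (S2 13 46 U (S3 7 46 (N 210) (P 46))) (S2 13 46 U (S3 7 46 (N 308) (P 46))))) (P 34)))) (P 25)))))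
def t166 : T := S2 3 11 (S3 2 13 U (S2 4 15 (S1 7 16 U (S4 2 17 U (S2 5 19 (N 72) (S3 3 19 U (P 19))))) (S1 7 16 (S4 2 17 U (S3 3 19 U (P 19))) (S4 2 17 (S3 3 19 U (P 19)) (S3 3 19 (S1 11 25 U (S4 3 25 U (S2 7 26 U (P 26)))) (P 19)))))) (S3 2 13 (S1 7 16 (S4 2 17 U (S2 5 18 U (S3 3 20 (N 80) (S1 10 23 (N 416) (S2 7 25 U (S4 3 25 U (S2 9 32 U (S3 5 33 (N 112) (S4 4 33 (N 272) (P 33)))))))))) (S4 2 17 (S2 5 18 U (S3 3 20 U (S1 11 25 U (S2 7 25 U (S4 3 26 (N 182) (S2 9 32 U (S3 5 33 (N 297) (S1 15 34 (N 136) (S2 11 39 (N 117) (S1 19 43 (N 357) (S4 5 43 (S2 13 46 U (S3 7 46 (N 189) (P 46))) (P 43)))))))))))) t165)) (S1 7 16 (S4 2 17 (S2 5 18 (N 144) (S3 3 19 (N 272) (P 19))) (P 26)) (S4 2 17 (S2 5 18 (S3 3 19 U (P 19)) (S3 3 19 (S1 11 25 (S2 7 25 U (S4 3 26 (N 234) (P 26))) (S2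 7 25 (S4 3 26 U (P 26)) (S4 3 26 (S2 9 32 (N 234) (S3 5 32 (S1 15 34 (N 147) (S4 4 35 (S2 11 39 U (P 39)) (S2 11 39 (N 198) (P 39)))) (P 32))) (P 26)))) (P 19))) (P 26))))
def t167 : T := S4 1 14 (S1 7 15 U (S2 4 15 (S4 1 15 (N 30) (S1 8 17 U (S1 9 19 U (S2 5 19 (S3 3 19 U (S1 10 21 U (S1 11 23 U (S2 6 23 (N 42) (S1 12 25 U (S3 4 25 U (S1 13 27 U (S1 14 29 U (S4 2 29 (N 72) (S1 15 31 U (S3 5 31 U (P 31)))))))))))) (S3 3 19 U (P 19)))))) (S4 1 15 (S4 1 16 (S1 8 17 U (S4 1 17 (N 66) (S1 9 19 U (S3 3 19 U (P 19))))) (S1 8 17 U (S1 9 19 U (S3 3 19 U (P 19))))) (P 15)))) (S1 7 15 U (S2 4 15 (S1 8 17 U (S1 9 19 U (S2 5 19 (S3 3 19 (N 38) (S1 10 21 U (S1 11 23 U (S2 6 23 (S1 12 25 U (S3 4 25 U (S1 13 27 U (S2 7 27 (S4 2 27 (N 54) (S1 14 29 U (S1 15 31 U (S2 8 31 (S3 5 31 U (S1 16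 33 U (S1 17 35 U (S2 9 35 (S1 18 37 U (S3 6 37 U (S1 19 39 U (S2 10 39 (N 78) (S4 3 40 (N 66) (S1 20 41 U (S1 21 43 U (S3 7 43 U (P 43))))))))) (S1 18 37 U (S3 6 37 U (S1 19 39 U (S4 3 40 (N 120) (S1 20 41 U (S1 21 43 U (S3 7 43 U (P 43)))))))))))) (S3 5 31 U (P 31)))))) (S4 2 27 (S1 14 29 U (S1 15 31 U (S3 5 31 U (P 31)))) (P 27)))))) (S1 12 25 U (S3 4 25 (S1 13 27 U (S4 2 27 U (P 27))) (S1 13 27 U (S4 2 27 (S1 14 29 U (S1 15 31 U (S3 5 31 (N 148) (P 31)))) (P 27))))))))) (S3 3 19 (S1 10 21 U (S1 11 23 U (S1 12 25 U (S1 13 27 U (S4 2 27 (N 120) (P 27)))))) (P 19))))) (P 15)))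
def t168 : T := S4 2 23 (S1 12 25 U (S1 13 27 U (S2 7 27 (S1 14 29 U (S1 15 31 U (S2 8 31 (N 182) (S1 16 33 U (S3 5 33 U (S1 17 35 U (S4 3 35 (N 104) (P 35)))))))) (P 27)))) (S1 12 25 U (S1 13 27 U (S2 7 27 (S1 14 29 U (S1 15 31 U (S2 8 31 (S1 16 33 U (S3 5 33 (S4 3 34 U (S1 17 35 U (S2 9 35 (N 66) (P 35)))) (S4 3 34 (S1 17 35 U (S2 9 35 (N 136) (P 35))) (S1 17 35 U (S2 9 35 (S1 18 37 U (S1 19 39 U (S2 10 39 (S1 20 41 U (S1 21 43 U (S2 11 43 (S1 22 45 U (S4 4 45 (N 78) (S3 7 46 (N 164) (S1 23 47 U (S2 12 47 (S1 24 49 U (S1 25 51 U (S2 13 51 (N 286) (S1 26 53 U (S1 27 55 U (S4 5 56 (N 78) (S1 28 57 U (S1 29 59 U (S3 9 59 (N 176) (P 59)))))))))) (P 47)))))) (S1 22 45 U (S4 4 45 (N 78) (S3 7 46 (N 230) (S1 23 47 U (P 47)))))))) (S1 20 41 U (S1 21 43 U (S1 22 45 U (S4 4 45 (N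 416) (S3 7 46 (S1 23 47 U (P 47)) (S1 23 47 U (P 47)))))))))) (P 35)))))) (S1 16 33 U (S3 5 33 (S4 3 34 (N 158) (S1 17 35 U (P 35))) (S4 3 34 (S1 17 35 U (P 35)) (S1 17 35 U (P 35)))))))) (P 27))))
def t169 : T := S2 5 19 (S3 3 20 (S1 10 21 U (S1 11 23 U (S2 6 23 (S4 2 23 U (S1 12 25 U (S1 13 27 U (S2 7 27 (S3 4 27 (N 54) (S1 14 29 U (S1 15 31 U (S2 8 31 (N 120) (S1 16 33 U (S4 3 34 U (S1 17 35 U (P 35)))))))) (S3 4 27 (S1 14 29 U (S1 15 31 U (S1 16 33 U (S3 5 34 (N 88) (S4 3 34 U (S1 17 35 U (P 35))))))) (P 27)))))) (S4 2 23 (S1 12 25 U (S1 13 27 U (S3 4 27 (N 114) (P 27)))) (P 23))))) (S1 10 21 U (S1 11 23 U (S2 6 23 t168 (S4 2 23 (S1 12 25 U (S1 13 27 U (P 27))) (P 23)))))) (S3 3 20 (S1 10 21 U (S1 11 23 U (S4 2 23 (S1 12 25 U (S1 13 27 U (S3 4 27 (S1 14 29 U (S1 15 31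 U (S1 16 33 U (S2 9 34 (S3 5 34 (N 34) (S1 17 35 U (S4 3 35 (N 128) (P 35)))) (S3 5 34 (S1 17 35 U (S4 3 35 (N 210) (P 35))) (S1 17 35 U (S4 3 35 (S1 18 37 U (S1 19 39 U (S1 20 41 U (S1 21 43 U (S1 22 45 U (S1 23 47 U (S4 4 47 (N 270) (S1 24 49 U (S2 13 49 (N 128) (P 49)))))))))) (P 35)))))))) (P 27)))) (P 23)))) (S1 10 21 U (S1 11 23 U (S4 2 23 (S1 12 25 U (S1 13 27 U (P 27))) (P 23)))))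
def t170 : T := S3 4 27 (S1 14 29 U (S1 15 31 U (S2 8 31 (S4 3 32 (S1 16 33 U (S3 5 34 (N 170) (S1 17 35 U (S2 9 35 (N 128) (P 35))))) (S1 16 33 U (S3 5 34 (S1 17 35 U (S2 9 35 (N 136) (P 35))) (S1 17 35 U (S2 9 35 (S1 18 37 U (S1 19 39 U (S2 10 39 (N 378) (S1 20 41 U (S1 21 43 U (P 43)))))) (P 35)))))) (S4 3 32 (S1 16 33 U (S3 5 34 (S1 17 35 U (P 35)) (S1 17 35 U (P 35)))) (S1 16 33 U (S3 5 34 (S1 17 35 U (P 35)) (S1 17 35 U (P 35)))))))) (S1 14 29 U (S1 15 31 U (S2 8 31 (S4 3 32 (S1 16 33 U (S1 17 35 U (S2 9 35 (S1 18 37 U (S1 19 39 U (S2 10 39 (S1 20 41 U (S1 21 43 U (S2 11 43 (N 160) (S4 4 43 (N 300) (P 43))))) (S1 20 41 U (S1 21 43 U (S4 4 43 (S1 22 45 U (S1 23 47 U (S3 7 47 (N 268) (P 47)))) (P 43))))))) (P 35)))) (S1 16 33 U (S1 17 35 U (S2 9 35 (S1 18 37 U (S1 19 39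 U (S2 10 39 (S1 20 41 U (S1 21 43 U (S2 11 43 (S1 22 45 U (S1 23 47 U (S2 12 47 (S3 7 47 (N 94) (S1 24 49 U (S1 25 51 U (S2 13 51 (S1 26 53 U (S4 5 53 (N 180) (S1 27 55 U (S2 14 55 (N 220) (P 55))))) (S1 26 53 U (S4 5 53 (N 180) (S1 27 55 U (P 55)))))))) (S3 7 47 (S1 24 49 U (S1 25 51 U (S1 26 53 U (S4 5 53 (N 254) (S1 27 55 U (P 55)))))) (P 47))))) (P 43)))) (S1 20 41 U (S1 21 43 U (P 43)))))) (P 35))))) (S4 3 32 (S1 16 33 U (S1 17 35 U (P 35))) (S1 16 33 U (S1 17 35 U (P 35)))))))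
def t171 : T := S2 13 51 (S1 26 53 U (S3 8 53 (S4 5 53 (S1 27 55 U (S2 14 55 (N 106) (P 55))) (S1 27 55 U (S2 14 55 (S1 28 57 U (S1 29 59 U (S2 15 59 (S1 30 61 U (S1 31 63 U (S2 16 63 (S1 32 65 U (S1 33 67 U (S2 17 67 (S1 34 69 U (S1 35 71 U (S2 18 71 (S1 36 73 U (S3 11 73 (N 126) (S4 7 74 (N 264) (S1 37 75 U (S2 19 75 (N 430) (P 75)))))) (S1 36 73 U (S3 11 73 (N 126) (S4 7 74 (N 264) (S1 37 75 U (P 75)))))))) (P 67)))) (S1 32 65 U (S1 33 67 U (P 67)))))) (S1 30 61 U (S1 31 63 U (S1 32 65 U (S1 33 67 U (P 67)))))))) (P 55)))) (S4 5 53 (S1 27 55 U (S2 14 55 (S1 28 57 U (S1 29 59 U (S2 15 59 (S1 30 61 U (S1 31 63 U (S2 16 63 (S1 32 65 U (S1 33 67 U (S2 17 67 (N 264) (P 67)))) (S1 32 65 U (S1 33 67 U (P 67)))))) (S1 30 61 U (S1 31 63 U (S1 32 65 U (S1 33 67 U (P 67)))))))) (P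 55))) (P 53)))) (S1 26 53 U (S3 8 53 (S4 5 53 (S1 27 55 U (P 55)) (S1 27 55 U (P 55))) (S4 5 53 (S1 27 55 U (P 55)) (P 53))))
def t172 : T := S2 8 31 (S4 3 32 (S1 16 33 U (S3 5 33 (S1 17 35 U (S2 9 35 (S1 18 37 U (S1 19 39 U (S2 10 39 (S1 20 41 U (S1 21 43 U (S2 11 43 (S4 4 43 (S1 22 45 U (S1 23 47 U (S2 12 47 (N 376) (P 47)))) (S1 22 45 U (S1 23 47 U (S2 12 47 (S1 24 49 U (S1 25 51 U (S2 13 51 (S1 26 53 U (S3 8 53 (N 192) (S1 27 55 U (S2 14 55 (N 330) (P 55))))) (S1 26 53 U (S3 8 53 (S1 27 55 U (P 55)) (S1 27 55 U (P 55))))))) (P 47))))) (S4 4 43 (S1 22 45 U (S1 23 47 U (P 47))) (P 43))))) (S1 20 41 U (S1 21 43 U (S4 4 43 (S1 22 45 U (S1 23 47 U (P 47))) (P 43))))))) (P 35))) (P 33))) (S1 16 33 U (S3 5 33 (S1 17 35 U (S2 9 35 (S1 18 37 U (S1 19 39 U (S2 10 39 (S1 20 41 U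 (S1 21 43 U (S2 11 43 (S1 22 45 U (S1 23 47 U (S2 12 47 (S1 24 49 U (S1 25 51 U t171)) (P 47)))) (P 43)))) (S1 20 41 U (S1 21 43 U (P 43)))))) (P 35))) (P 33)))) (S4 3 32 (S1 16 33 U (S3 5 33 (S1 17 35 U (P 35)) (P 33))) (S1 16 33 U (S3 5 33 (S1 17 35 U (P 35)) (P 33))))
def t173 : T := S4 1 11 (S4 1 12 (S1 6 13 U (S3 2 13 (S4 1 13 (S4 1 14 (N 84) (S1 7 15 U (S2 4 15 U (P 15)))) (S1 7 15 U (S2 4 15 (S1 8 17 U (S1 9 19 U (S2 5 19 (S3 3 20 U (S1 10 21 U (S1 11 23 U (S2 6 23 (N 84) (S1 12 25 U (S4 2 25 U (S1 13 27 U (P 27)))))))) (S3 3 20 (N 60) (S1 10 21 U (S1 11 23 U (S1 12 25 U (S4 2 25 (S1 13 27 U (P 27)) (S1 13 27 U (P 27)))))))))) (P 15)))) (S4 1 13 t167 (P 13)))) (S1 6 13 U (S3 2 13 (S1 7 15 U (S2 4 15 (S1 8 17 U (S1 9 19 U t169)) (P 15))) (P 13)))) (S1 6 13 (S3 2 13 U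 (S2 4 15 U (S3 3 19 U (S4 2 21 U (S1 11 24 U (S3 4 25 U (S2 7 26 U (S3 5 31 U (S4 3 31 U (P 31)))))))))) (S3 2 13 (S1 7 15 U (S2 4 15 (S1 8 17 U (S1 9 19 U (S2 5 19 (S3 3 20 (S1 10 21 U (S4 2 21 (S1 11 23 U (S2 6 23 (S1 12 25 U (S1 13 27 U (S2 7 27 t170 (S3 4 27 (S1 14 29 U (S1 15 31 U (S4 3 32 (S1 16 33 U (S3 5 34 (S1 17 35 U (P 35)) (S1 17 35 U (P 35)))) (S1 16 33 U (S3 5 34 (S1 17 35 U (P 35)) (S1 17 35 U (P 35))))))) (P 27))))) (P 23))) (P 21))) (S1 10 21 U (S4 2 21 (S1 11 23 U (S2 6 23 (S1 12 25 U (S1 13 27 U (S2 7 27 (S1 14 29 U (S1 15 31 U t172)) (P 27)))) (P 23))) (P 21)))) (S3 3 20 (S1 10 21 U (S4 2 21 (S1 11 23 U (P 23)) (P 21))) (S1 10 21 U (S4 2 21 (S1 11 23 U (P 23)) (P 21))))))) (P 15))) (P 13)))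
def t174 : T := S1 14 29 U (S1 15 31 U (S4 2 31 (S2 9 32 U (S1 16 33 U (S1 17 35 U (S1 18 37 U (S1 19 39 U (S2 11 39 U (S1 20 41 U (S1 21 43 U (S1 22 45 U (S2 13 46 U (S1 23 47 U (S3 7 47 (N 154) (S4 3 47 (N 140) (P 47)))))))))))))) (S2 9 32 (N 60) (S1 16 33 U (S1 17 35 U (S1 18 37 U (S1 19 39 U (S2 11 39 (N 60) (S1 20 41 U (S1 21 43 U (S1 22 45 U (S2 13 46 (N 60) (S4 3 46 (S1 23 47 U (S3 7 47 (N 322) (P 47))) (S1 23 47 U (S3 7 47 (S1 24 49 U (S1 25 51 U (S1 26 53 U (S2 15 53 (N 60) (S1 27 55 U (S1 28 57 U (S1 29 59 U (S2 17 60 (N 60) (S1 30 61 U (S4 4 61 (S1 31 63 U (S1 32 65 U (S1 33 67 U (S2 19 67 (N 134) (S1 34 69 U (S1 35 71 U (S1 36 73 U (S2 21 74 (N 228) (S3 11 74 (S1 37 75 U (S1 38 77 U (S1 39 79 U (S1 40 81 U (S2 23 81 (N 228) (P 81)))))) (S1 37 75 U (S1 38 77 U (S1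 39 79 U (S1 40 81 U (S2 23 81 (N 228) (P 81))))))))))))))) (P 61))))))))))) (P 47))))))))))))))))
def t175 : T := S2 7 25 (S1 13 27 U (S1 14 29 U (S1 15 31 U (S4 2 31 (N 182) (S1 16 33 U (S3 5 33 (N 132) (P 33))))))) (S1 13 27 U (S1 14 29 U (S1 15 31 U (S4 2 31 (S2 9 32 (N 416) (S1 16 33 U (S3 5 33 (S1 17 35 U (S1 18 37 U (S1 19 39 U (S2 11 39 (N 46) (S1 20 41 U (S1 21 43 U (S1 22 45 U (S2 13 46 (N 46) (S1 23 47 U (S4 3 47 (S1 24 49 U (S1 25 51 U (S1 26 53 U (S2 15 53 (N 250) (S3 8 53 (S1 27 55 U (S1 28 57 U (S1 29 59 U (S2 17 60 (N 172) (S1 30 61 U (S1 31 63 U (S4 4 63 (S1 32 65 U (S1 33 67 U (S2 19 67 (N 172) (P 67)))) (S1 32 65 U (S1 33 67 U (S2 19 67 (N 172) (P 67))))))))))) (P 53)))))) (P 47))))))))))) (P 33)))) (S2 9 32 (S1 16 33 U (S3 5 33 (N 224) (P 33))) (S1 16 33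 U (S3 5 33 (S1 17 35 U (S1 18 37 U (S1 19 39 U (S2 11 39 (S1 20 41 U (S1 21 43 U (S1 22 45 U (S4 3 46 (N 46) (S1 23 47 U (P 47)))))) (S1 20 41 U (S1 21 43 U (S1 22 45 U (S2 13 46 (S4 3 46 (N 46) (S1 23 47 U (P 47))) (S4 3 46 (S1 23 47 U (P 47)) (S1 23 47 U (P 47))))))))))) (P 33))))))))
def t176 : T := S4 1 16 (S1 8 17 U (S4 1 17 (N 84) (S2 5 18 U (S1 9 19 U (S3 3 20 (N 80) (S1 10 21 U (S1 11 23 U (S1 12 25 U (S2 7 25 U (S1 13 27 U (S1 14 29 U (S1 15 31 U (S2 9 32 U (S1 16 33 U (S3 5 33 (N 112) (S4 2 33 (S1 17 35 U (S1 18 37 U (S1 19 39 U (S2 11 39 U (S1 20 41 U (S1 21 43 U (S1 22 45 U (S2 13 46 U (S3 7 46 (N 98) (S1 23 47 U (S1 24 49 U (S4 3 50 (N 182) (S1 25 51 U (S1 26 53 U (S2 15 53 U (P 53)))))))))))))))) (P 33))))))))))))))))) (S1 8 17 U (S2 5 18 (N 90) (S1 9 19 U (S3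 3 20 (S1 10 21 U (S1 11 23 U (S1 12 25 U (S2 7 25 U (S1 13 27 U (S3 4 27 (S1 14 29 U (S1 15 31 U (S4 2 31 (N 108) (S2 9 32 U (S1 16 33 U (S3 5 34 (N 210) (S1 17 35 U (S1 18 37 U (S1 19 39 U (S2 11 39 U (S1 20 41 U (S1 21 43 U (S1 22 45 U (S2 13 46 U (S4 3 46 (N 168) (S1 23 47 U (S1 24 49 U (S1 25 51 U (S1 26 53 U (S2 15 53 U (S1 27 55 U (S1 28 57 U (S1 29 59 U (S2 17 60 (N 60) (S1 30 61 U (S3 9 61 (N 210) (S4 4 61 (N 182) (P 61)))))))))))))))))))))))))))) t174)))))) (S1 10 21 U (S1 11 23 U (S1 12 25 U t175)))))))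
def t177 : T := S4 1 17 (S2 5 18 (S4 1 18 (N 18) (S1 9 19 U (S3 3 19 U (P 19)))) (S4 1 18 (S1 9 19 U (S3 3 19 (N 126) (S4 1 19 (S4 1 20 (S1 10 21 U (S4 1 21 (N 42) (S1 11 23 U (S1 12 25 U (S2 7 25 U (S3 4 25 U (P 25))))))) (S1 10 21 U (S1 11 23 U (S1 12 25 U (S2 7 25 (N 114) (S3 4 25 (N 56) (P 25))))))) (P 19)))) (S1 9 19 U (S3 3 19 (S1 10 21 U (S1 11 23 U (S1 12 25 U (S2 7 25 U (S1 13 27 U (S1 14 29 U (S1 15 31 U (S2 9 32 (N 152) (S3 5 32 (S1 16 33 U (S1 17 35 U (S4 2 35 (N 70) (S1 18 37 U (S1 19 39 U (S2 11 39 U (P 39))))))) (S1 16 33 U (S1 17 35 U (S4 2 35 (S1 18 37 U (S1 19 39 U (S2 11 39 U (P 39)))) (S1 18 37 U (S1 19 39 U (S2 11 39 (N 152) (P 39)))))))))))))))) (P 19))))) (S2 5 18 (S1 9 19 U (S3 3 19 (N 126) (P 19))) (S1 9 19 U (S3 3 19 (S1 10 21 U (S1 11 23 U (S1 12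 25 U (S2 7 25 (S1 13 27 U (S1 14 29 U (S1 15 31 U (S3 5 32 (N 32) (S1 16 33 U (S4 2 33 (N 82) (P 33))))))) (S1 13 27 U (S1 14 29 U (S1 15 31 U (S2 9 32 (S3 5 32 (N 32) (S1 16 33 U (S4 2 33 (N 462) (P 33)))) (S3 5 32 (S1 16 33 U (S4 2 33 (S1 17 35 U (S1 18 37 U (S1 19 39 U (S2 11 39 (N 198) (P 39))))) (P 33))) (S1 16 33 U (S4 2 33 (S1 17 35 U (S1 18 37 U (S1 19 39 U (S2 11 39 (S1 20 41 U (S1 21 43 U (S1 22 45 U (S1 23 47 U (S1 24 49 U (S4 3 50 (S1 25 51 U (S3 8 51 (N 216) (P 51))) (S1 25 51 U (S3 8 51 (N 280) (P 51))))))))) (P 39))))) (P 33)))))))))))) (P 19))))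
def t178 : T := S4 1 13 (S4 1 14 (S1 7 15 U (S4 1 15 (S4 1 16 (S1 8 17 U t177) (S1 8 17 U (S2 5 18 (S1 9 19 U (S3 3 19 (S1 10 21 U (S1 11 23 U (S1 12 25 U (S1 13 27 U (S1 14 29 U (S2 8 29 (S1 15 31 U (S4 2 31 (N 76) (S3 5 32 (N 134) (S1 16 33 U (P 33))))) (S1 15 31 U (S4 2 31 (S3 5 32 (N 108) (S1 16 33 U (P 33))) (S3 5 32 (S1 16 33 U (P 33)) (S1 16 33 U (P 33))))))))))) (P 19))) (S1 9 19 U (S3 3 19 (S1 10 21 U (S1 11 23 U (S1 12 25 U (S2 7 25 (S1 13 27 U (S1 14 29 U (S1 15 31 U (S4 2 31 (S3 5 32 (S1 16 33 U (P 33)) (S1 16 33 U (P 33))) (S3 5 32 (S1 16 33 U (P 33)) (S1 16 33 U (P 33))))))) (S1 13 27 U (S1 14 29 U (S1 15 31 U (S4 2 31 (S2 9 32 (S3 5 32 (S1 16 33 U (P 33)) (S1 16 33 U (P 33))) (S3 5 32 (S1 16 33 U (P 33)) (P 32))) (S2 9 32 (S3 5 32 (S1 16 33 U (P 33)) (S1 16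 33 U (P 33))) (S3 5 32 (S1 16 33 U (P 33)) (P 32))))))))))) (P 19)))))) (P 15))) (S1 7 15 U (P 15))) (P 13)
def t179 : T := S1 5 11 (S2 3 11 (S3 2 13 U (S2 4 15 (N 90) (S3 3 19 U (S4 2 19 (N 66) (P 19))))) (S3 2 13 (S2 5 18 U (S4 2 19 (N 266) (S1 9 20 (S3 3 20 U (S2 7 25 U (S4 3 28 U (S1 13 29 (N 234) (P 29))))) (P 29)))) (S2 5 18 (S3 3 19 (S4 2 19 U (S1 9 20 U (P 20))) (S4 2 19 (S1 9 20 (N 180) (P 20)) (P 19))) (S3 3 19 (S4 2 19 (S1 9 20 (N 133) (P 20)) (S1 9 20 (S2 7 25 (N 171) (S4 3 28 (S1 13 29 (N 196) (P 29)) (S1 13 29 (S2 9 32 (N 234) (S3 5 32 (S4 4 37 (N 147) (S1 17 38 (S2 11 39 U (P 39)) (P 47))) (P 32))) (P 29)))) (P 20))) (S4 2 19 (S1 9 20 (S2 7 25 (S3 4 25 U (S1 13 29 (S4 3 29 (N 174) (S3 5 31 U (S3 6 37 U (S1 17 38 (N 114) (S2 12 43 (N 408) (S3 7 43 U (P 43)))))))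 (S4 3 29 (S3 5 31 U (S3 6 37 U (S4 4 39 (N 282) (S2 12 43 (N 222) (S3 7 43 U (P 43)))))) (P 29)))) (S3 4 25 (S1 13 29 (N 350) (S4 3 29 (N 231) (P 29))) (P 25))) (P 20)) (P 19)))))) (S2 3 11 (S1 6 13 (S3 2 13 (N 117) (P 20)) (S3 2 13 (S1 7 15 (S2 4 15 (N 45) (S4 2 19 (N 227) (S3 3 20 (S2 7 26 U (S3 4 27 (N 135) (S1 13 28 (N 99) (P 41)))) (P 20)))) (S2 4 15 (S1 8 17 (S2 5 19 (N 323) (S4 2 19 U (S3 3 20 (N 153) (P 20)))) (S1 9 19 (S2 5 19 (S4 2 19 U (S3 3 20 (N 133) (P 20))) (S4 2 19 (N 247) (S3 3 20 (S3 4 27 (N 135) (S4 3 28 U (P 28))) (P 20)))) (S2 5 19 (S4 2 19 (S3 3 20 (S1 10 21 U (P 21)) (P 20)) (S3 3 20 (S1 10 21 (S2 6 23 (N 126) (S3 4 27 (N 189) (S4 3 28 U (P 28)))) (P 21)) (P 20))) (S4 2 19 (S3 3 20 (S1 10 21 (N 180) (P 21)) (P 20)) (P 19))))) (P 15))) (P 13))) (P 11))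
def t180 : T := S1 4 9 (S4 1 9 (S4 1 10 U (S2 3 11 U (S3 2 13 U (S1 7 16 (S2 5 18 U (S3 3 19 U (S4 2 19 U (P 19)))) (S2 5 18 (N 18) (S3 3 19 (N 63) (S4 2 19 (S1 11 25 U (S2 7 25 U (S3 4 25 U (P 25)))) (P 19)))))))) t166) (S4 1 9 (S4 1 10 (S1 5 11 (S2 3 11 U (S4 1 11 U (S3 2 13 U (S2 5 18 (N 90) (S3 3 19 (N 189) (S1 9 20 (S4 2 21 U (S2 7 25 U (S3 4 25 U (P 25)))) (S4 2 21 (S2 7 25 U (S3 4 25 U (P 25))) (S2 7 25 (S3 4 25 U (S1 14 31 (N 150) (S3 5 31 U (S4 3 31 (N 132) (P 31))))) (S3 4 25 (S1 14 31 U (S4 3 31 U (S2 9 32 U (P 32)))) (P 25)))))))))) (S2 3 11 t173 (S4 1 11 (S4 1 12 (S1 6 13 U (S3 2 13 (S4 1 13 (S4 1 14 (S1 7 15 U (S4 1 15 t176 (P 15))) (S1 7 15 U (P 15))) (S1 7 15 U (P 15))) t178)) (S1 6 13 (S3 2 13 U (S2 5 18 U (S3 3 19 U (S4 2 23 (S1 11 24 U (S2 7 25 U (S3 4 25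 U (P 25)))) (S1 11 24 (S2 7 25 U (S3 4 25 U (P 25))) (S2 7 25 (N 132) (S3 4 25 (N 143) (P 25)))))))) (S3 2 13 (S1 7 15 U (P 15)) (P 13)))) (P 11)))) t179) (P 9))
def t181 : T := S4 1 12 (S1 6 13 U (S2 4 13 U (S4 1 13 (S4 1 14 U (S1 7 15 U (S2 5 16 U (S1 8 17 U (S1 9 19 U (S2 6 19 U (S1 10 21 U (S2 7 22 U (S1 11 23 U (S3 2 23 U (S1 12 25 U (S2 8 25 U (S1 13 27 U (S4 2 27 (N 54) (S2 9 28 U (S1 14 29 U (S1 15 31 U (S2 10 31 U (S1 16 33 U (S2 11 34 U (S3 3 34 (N 78) (S1 17 35 U (S1 18 37 U (S2 12 37 U (S1 19 39 U (S2 13 40 U (S4 3 40 (N 66) (S1 20 41 U (S1 21 43 U (S2 14 43 U (S1 22 45 U (S3 4 45 (N 78) (S2 15 46 U (S1 23 47 U (S1 24 49 U (S2 16 49 U (S1 25 51 U (S2 17 52 U (S1 26 53 U (S4 4 53 (N 66) (S1 27 55 U (S2 18 55 U (S3 5 56 (N 78) (S1 28 57 U (S2 19 58 U (S1 29 59 U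 (S1 30 61 U (S2 20 61 U (S1 31 63 U (S2 21 64 U (S1 32 65 U (S4 5 66 (N 66) (S1 33 67 U (S2 22 67 U (S3 6 67 (N 78) (P 67)))))))))))))))))))))))))))))))))))))))))))))))))))))))) (P 13)))) (S1 6 13 U (S2 4 13 U (P 13)))
def t182 : T := S3 3 32 (S1 16 33 U (S2 11 34 U (S1 17 35 U (S1 18 37 U (S2 12 37 U (S1 19 39 U (S2 13 40 U (S4 3 40 (S1 20 41 U (S1 21 43 U (S2 14 43 U (S3 4 43 (S1 22 45 U (S2 15 46 U (S1 23 47 U (S1 24 49 U (S2 16 49 U (S1 25 51 U (S2 17 52 U (S1 26 53 U (S3 5 54 (S1 27 55 U (S2 18 55 U (P 55))) (S1 27 55 U (S2 18 55 U (P 55)))))))))))) (P 43))))) (S1 20 41 U (S1 21 43 U (S2 14 43 U (S3 4 43 (S1 22 45 U (S2 15 46 U (S1 23 47 U (S1 24 49 U (S2 16 49 U (S1 25 51 U (S2 17 52 U (S1 26 53 U (S4 4 53 (S3 5 54 (S1 27 55 U (S2 18 55 U (P 55))) (S1 27 55 U (S2 18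 55 U (P 55)))) (S3 5 54 (S1 27 55 U (S2 18 55 U (P 55))) (S1 27 55 U (S2 18 55 U (P 55))))))))))))) (P 43))))))))))))) (S1 16 33 U (S2 11 34 U (S1 17 35 U (S1 18 37 U (S2 12 37 U (S1 19 39 U (S2 13 40 U (S4 3 40 (S1 20 41 U (S1 21 43 U (S2 14 43 U (P 43)))) (S1 20 41 U (S1 21 43 U (S2 14 43 U (P 43))))))))))))
def t183 : T := S3 2 21 (S2 7 22 U (S1 11 23 U (S1 12 25 U (S2 8 25 U (S1 13 27 U (S4 2 27 (S2 9 28 U (S1 14 29 U (S1 15 31 U (S2 10 31 U (S3 3 32 (S1 16 33 U (S2 11 34 U (S1 17 35 U (S1 18 37 U (S2 12 37 U (S1 19 39 U (S2 13 40 U (S1 20 41 U (S4 3 41 (S1 21 43 U (S2 14 43 U (S3 4 43 (N 150) (P 43)))) (S1 21 43 U (S2 14 43 U (S3 4 43 (S1 22 45 U (S2 15 46 U (S1 23 47 U (S1 24 49 U (S2 16 49 U (S1 25 51 U (S2 17 52 U (S1 26 53 U (S3 5 54 (N 54) (S1 27 55 U (S2 18 55 U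 (P 55)))))))))))) (P 43))))))))))))) (S1 16 33 U (S2 11 34 U (S1 17 35 U (S1 18 37 U (S2 12 37 U (S1 19 39 U (S2 13 40 U (S1 20 41 U (S4 3 41 (S1 21 43 U (S2 14 43 U (P 43))) (S1 21 43 U (S2 14 43 U (P 43))))))))))))))))) (S2 9 28 U (S1 14 29 U (S1 15 31 U (S2 10 31 U t182)))))))))) (S2 7 22 U (S1 11 23 U (S1 12 25 U (S2 8 25 U (S1 13 27 U (S4 2 27 (S2 9 28 U (S1 14 29 U (S1 15 31 U (S2 10 31 U (S3 3 31 (S1 16 33 U (S2 11 34 U (S1 17 35 U (S1 18 37 U (S2 12 37 U (S1 19 39 U (S2 13 40 U (S1 20 41 U (S4 3 41 (S1 21 43 U (S2 14 43 U (P 43))) (S1 21 43 U (S2 14 43 U (P 43)))))))))))) (P 31)))))) (S2 9 28 (N 90) (S1 14 29 U (S1 15 31 U (S2 10 31 (N 130) (S3 3 31 (S1 16 33 U (S2 11 34 U (S1 17 35 U (S1 18 37 U (S2 12 37 (N 154) (S1 19 39 U (S2 13 40 (N 206) (S4 3 40 (S1 20 41 U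 (S1 21 43 U (S2 14 43 U (P 43)))) (S1 20 41 U (S1 21 43 U (S2 14 43 (N 258) (P 43)))))))))))) (P 31))))))))))))
def t184 : T := S4 1 10 (S1 5 11 U (S3 1 11 (S4 1 11 (S3 1 12 (S4 1 12 (N 12) (S1 6 13 U (S2 4 13 U (S3 1 13 O3 (P 13))))) t181) (S3 1 12 O3 (S1 6 13 U (S2 4 13 (N 110) (P 13))))) (S4 1 11 (S4 1 12 (S1 6 13 U (S2 4 13 U (S4 1 13 (S4 1 14 (S1 7 15 U (S4 1 15 (N 30) (S2 5 16 U (S1 8 17 U (S1 9 19 U (S2 6 19 U (S1 10 21 U (S3 2 21 (N 42) (S2 7 22 U (S1 11 23 U (S1 12 25 U (S2 8 25 U (S1 13 27 U (S2 9 28 U (S1 14 29 U (S4 2 29 (S1 15 31 U (S2 10 31 U (S3 3 31 (N 72) (P 31)))) (S1 15 31 U (S2 10 31 U (S3 3 31 (S1 16 33 U (S2 11 34 U (S1 17 35 U (S1 18 37 U (S2 12 37 U (S1 19 39 U (S2 13 40 U (S1 20 41 U (S1 21 43 U (S2 14 43 U (S4 3 43 (N 186) (P 43)))))))))))) (P 31))))))))))))))))))))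 (S1 7 15 U (S2 5 16 U (S1 8 17 U (S1 9 19 U (S2 6 19 U (S1 10 21 U t183))))))) (P 13)))) (S1 6 13 U (S2 4 13 (N 110) (P 13)))) (P 11)))) (S1 5 11 (N 90) (S3 1 11 O3 (P 11)))
def t185 : T := S3 3 29 (S1 15 31 U (S2 10 31 U (S4 2 31 (S1 16 33 U (S2 11 34 U (S1 17 35 U (S1 18 37 U (S2 12 37 U (S1 19 39 U (S3 4 39 (S2 13 40 U (S1 20 41 U (S1 21 43 U (S2 14 43 U (S1 22 45 U (S2 15 46 U (S1 23 47 U (S4 3 47 (N 78) (S1 24 49 U (S2 16 49 U (S3 5 49 (N 186) (P 49)))))))))))) (S2 13 40 U (S1 20 41 U (S1 21 43 U (S2 14 43 U (S1 22 45 U (S2 15 46 U (S1 23 47 U (S4 3 47 (S1 24 49 U (S2 16 49 U (P 49))) (S1 24 49 U (S2 16 49 U (P 49)))))))))))))))))) (P 31)))) (S1 15 31 U (S2 10 31 U (S4 2 31 (S1 16 33 U (S2 11 34 U (S1 17 35 U (S1 18 37 U (S2 12 37 U (S1 19 39 U (S2 13 40 U (S1 20 41 U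 (S1 21 43 U (S2 14 43 U (S1 22 45 U (S2 15 46 U (S1 23 47 U (S4 3 47 (S3 5 48 (S1 24 49 U (S2 16 49 U (P 49))) (S1 24 49 U (S2 16 49 U (P 49)))) (S3 5 48 (S1 24 49 U (S2 16 49 U (P 49))) (S1 24 49 U (S2 16 49 U (P 49)))))))))))))))))) (P 31))))
def t186 : T := S4 1 15 (S2 5 16 U (S4 1 16 (S1 8 17 U (S4 1 17 (S4 1 18 (N 18) (S1 9 19 U (S2 6 19 U (S3 2 19 U (P 19))))) (S1 9 19 U (S2 6 19 U (S3 2 19 (S1 10 21 U (S2 7 22 U (S1 11 23 U (S1 12 25 U (S2 8 25 U (S1 13 27 U (S2 9 28 U (S1 14 29 U (S3 3 29 (N 48) (S1 15 31 U (S2 10 31 U (S1 16 33 U (S4 2 33 (N 66) (S2 11 34 U (S1 17 35 U (S1 18 37 U (S2 12 37 U (S1 19 39 U (S2 13 40 U (S1 20 41 U (S1 21 43 U (S2 14 43 U (S1 22 45 U (S2 15 46 U (S1 23 47 U (S3 5 48 (N 48) (S1 24 49 U (S2 16 49 U (S4 3 49 (N 114) (P 49))))))))))))))))))))))))))))))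 (P 19)))))) (S1 8 17 U (S1 9 19 U (S2 6 19 U (S3 2 19 (S1 10 21 U (S2 7 22 U (S1 11 23 U (S1 12 25 U (S2 8 25 U (S1 13 27 U (S2 9 28 U (S1 14 29 U t185)))))))) (P 19))))))) (S2 5 16 U (S1 8 17 U (S1 9 19 U (S2 6 19 (N 98) (S3 2 19 (S1 10 21 U (S2 7 22 U (S1 11 23 U (S1 12 25 U (S2 8 25 U (S1 13 27 U (S2 9 28 (N 28) (S1 14 29 U (S3 3 29 (S4 2 29 (S1 15 31 U (S2 10 31 U (P 31))) (S1 15 31 U (S2 10 31 U (P 31)))) (S4 2 29 (S1 15 31 U (S2 10 31 U (P 31))) (P 29))))))))))) (P 19))))))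
def t187 : T := S2 7 22 (S1 11 23 U (S1 12 25 U (S1 13 27 U (S4 2 27 U (S1 14 29 U (S3 3 29 (N 116) (P 29))))))) (S1 11 23 U (S1 12 25 U (S2 8 25 (S1 13 27 U (S4 2 27 (N 228) (S1 14 29 U (S3 3 29 (S1 15 31 U (S1 16 33 U (S1 17 35 U (S1 18 37 U (S1 19 39 U (S3 4 39 (N 78) (S4 3 40 (N 106) (S1 20 41 U (P 41))))))))) (P 29))))) (S1 13 27 U (S4 2 27 (S2 9 28 (S1 14 29 U (S3 3 29 (N 174) (P 29))) (S1 14 29 U (S3 3 29 (S1 15 31 U (S2 10 31 (S1 16 33 U (S1 17 35 U (S1 18 37 U (S1 19 39 U (S3 4 39 (N 282) (S1 20 41 U (S4 3 41 (N 164) (P 41)))))))) (P 31))) (P 29)))) (S2 9 28 (S1 14 29 U (S3 3 29 (S1 15 31 U (S1 16 33 U (S1 17 35 U (S1 18 37 U (S1 19 39 U (S3 4 39 (S4 3 40 (N 146) (S1 20 41 U (P 41))) (S4 3 40 (N 280) (S1 20 41 U (P 41))))))))) (P 29))) (S1 14 29 (N 180) (S3 3 29 (S1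 15 31 U (S2 10 31 (S1 16 33 U (S1 17 35 U (S1 18 37 U (S1 19 39 U (S3 4 39 (S4 3 40 (S1 20 41 U (P 41)) (S1 20 41 U (P 41))) (S4 3 40 (S1 20 41 U (P 41)) (S1 20 41 U (P 41)))))))) (P 31))) (P 29)))))))))
def t188 : T := S1 16 33 U (S2 10 33 (S4 3 34 (N 56) (S1 17 35 U (S1 18 37 U (S1 19 39 U (S1 20 41 U (S1 21 43 U (S2 13 43 (S1 22 45 U (S4 4 45 (N 56) (S1 23 47 U (S3 5 47 (S1 24 49 U (S1 25 51 U (S1 26 53 U (S2 16 53 (N 308) (S1 27 55 U (S4 5 56 (N 56) (S1 28 57 U (P 57)))))))) (P 47))))) (S1 22 45 U (S4 4 45 (N 56) (S1 23 47 U (S3 5 47 (S1 24 49 U (S1 25 51 U (S1 26 53 U (S1 27 55 U (S4 5 56 (N 56) (S1 28 57 U (P 57))))))) (P 47)))))))))))) (S4 3 34 (S1 17 35 U (S1 18 37 U (S1 19 39 U (S1 20 41 U (S1 21 43 U (S1 22 45 U (S1 23 47 U (S3 5 47 (N 272) (P 47))))))))) (S1 17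 35 U (S1 18 37 U (S1 19 39 U (S1 20 41 U (S1 21 43 U (S1 22 45 U (S4 4 45 (S1 23 47 U (S3 5 47 (N 404) (P 47))) (S1 23 47 U (S3 5 47 (S1 24 49 U (S1 25 51 U (S1 26 53 U (S1 27 55 U (S2 17 56 (S4 5 56 (N 56) (S1 28 57 U (P 57))) (S4 5 56 (S1 28 57 U (P 57)) (S1 28 57 U (P 57)))))))) (P 47))))))))))))
def t189 : T := S4 2 23 (S1 12 25 U (S1 13 27 U (S3 3 28 (N 46) (S1 14 29 U (S1 15 31 U (S1 16 33 U (S2 10 33 (S1 17 35 U (S4 3 35 (N 198) (S1 18 37 U (S3 4 37 (N 46) (P 37))))) (S1 17 35 U (S4 3 35 (S1 18 37 U (S3 4 37 (N 46) (P 37))) (S1 18 37 U (S3 4 37 (N 46) (P 37)))))))))))) (S1 12 25 U (S1 13 27 U (S3 3 28 (S1 14 29 U (S1 15 31 U t188)) (S1 14 29 U (S1 15 31 U (S1 16 33 U (S2 10 33 (S4 3 34 (S1 17 35 U (S1 18 37 U (S3 4 37 (N 396) (P 37)))) (S1 17 35 U (S1 18 37 U (S3 4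 37 (S1 19 39 U (S1 20 41 U (S1 21 43 U (S2 13 43 (S1 22 45 U (S4 4 45 (N 258) (S1 23 47 U (P 47)))) (S1 22 45 U (S4 4 45 (S1 23 47 U (P 47)) (S1 23 47 U (P 47)))))))) (P 37))))) (S4 3 34 (S1 17 35 U (S1 18 37 U (S3 4 37 (S1 19 39 U (S1 20 41 U (S1 21 43 U (S1 22 45 U (S1 23 47 U (P 47)))))) (P 37)))) (S1 17 35 U (S1 18 37 U (S3 4 37 (S1 19 39 U (S1 20 41 U (S1 21 43 U (S1 22 45 U (S4 4 45 (S1 23 47 U (P 47)) (S1 23 47 U (P 47))))))) (P 37))))))))))))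
def t190 : T := S1 12 25 U (S1 13 27 U (S3 3 28 (S1 14 29 U (S1 15 31 U (S1 16 33 U (S1 17 35 U (S4 3 35 (S2 11 36 (N 140) (S1 18 37 U (S1 19 39 U (S1 20 41 U (S1 21 43 U (S1 22 45 U (S1 23 47 U (S3 5 47 (N 338) (S4 4 47 (N 364) (P 47)))))))))) (S2 11 36 (N 252) (S1 18 37 U (S1 19 39 U (S1 20 41 U (S1 21 43 U (S1 22 45 U (S1 23 47 U (S3 5 47 (S1 24 49 U (S2 15 49 (N 310) (P 49))) (P 47)))))))))))))) (S1 14 29 U (S1 15 31 U (S1 16 33 U (S1 17 35 U (S4 3 35 (S2 11 36 (S1 18 37 U (S3 4 37 (N 268) (P 37))) (S1 18 37 U (S3 4 37 (S1 19 39 U (S1 20 41 U (S1 21 43 U (S1 22 45 U (S1 23 47 U (S4 4 47 (S1 24 49 U (S2 15 49 (N 222) (P 49))) (P 47))))))) (P 37)))) (S2 11 36 (S1 18 37 U (S3 4 37 (S1 19 39 U (S1 20 41 U (S1 21 43 U (S1 22 45 U (S1 23 47 U (P 47)))))) (P 37))) (S1 18 37 U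 (S3 4 37 (S1 19 39 U (S1 20 41 U (S1 21 43 U (S1 22 45 U (S1 23 47 U (P 47)))))) (P 37)))))))))))
def t191 : T := S1 9 19 U (S3 2 19 (S1 10 21 U (S1 11 23 U (S2 7 23 (S4 2 23 U (S1 12 25 U (S1 13 27 U (S1 14 29 U (S3 3 29 (N 154) (S1 15 31 U (S1 16 33 U (S2 10 33 (N 66) (S4 3 34 (N 170) (S1 17 35 U (S1 18 37 U (S1 19 39 U (S1 20 41 U (S1 21 43 U (S1 22 45 U (S4 4 45 (N 180) (S1 23 47 U (S3 5 48 (N 220) (S1 24 49 U (S1 25 51 U (S1 26 53 U (S1 27 55 U (S2 17 56 (N 418) (S4 5 56 (N 190) (S1 28 57 U (S1 29 59 U (S1 30 61 U (S1 31 63 U (S1 32 65 U (S1 33 67 U (S3 7 67 (N 220) (S4 6 67 (N 256) (P 67))))))))))))))))))))))))))))))))) (S4 2 23 (S1 12 25 U (S1 13 27 U (S1 14 29 U (S3 3 29 (N 172) (S1 15 31 U (S1 16 33 U (S1 17 35 U (S4 3 35 (N 104) (S2 11 36 U (S1 18 37 U (S1 19 39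 U (S1 20 41 U (S1 21 43 U (S1 22 45 U (S1 23 47 U (S3 5 48 (N 172) (S1 24 49 U (S2 15 49 (N 114) (P 49))))))))))))))))))) (P 23))))) (S1 10 21 U (S1 11 23 U (S2 7 23 t189 (S4 2 23 t190 (P 23))))))
def t192 : T := S1 5 11 (N 90) (S4 1 11 (S4 1 12 (S1 6 13 U (S2 4 13 (S4 1 13 U (S1 7 15 U (S1 8 17 U (S1 9 19 U (S3 2 19 U (S1 10 21 U (S1 11 23 U (S2 7 23 (N 36) (S1 12 25 U (S4 2 25 (N 162) (S1 13 27 U (S3 3 28 (N 84) (S1 14 29 U (S1 15 31 U (S1 16 33 U (S1 17 35 U (S2 11 36 (N 36) (S1 18 37 U (S3 4 37 (N 120) (S4 3 37 (N 234) (P 37))))))))))))))))))))) (S4 1 13 (S4 1 14 (S1 7 15 U t186) (S1 7 15 U (S2 5 16 (S1 8 17 U (S1 9 19 U (S3 2 19 U (S1 10 21 U (S1 11 23 U (S1 12 25 U (S1 13 27 U (S4 2 27 U (S3 3 28 U (S1 14 29 U (S2 9 29 (N 90) (P 29)))))))))))) (S1 8 17 U (S1 9 19 U (S2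 6 19 (S3 2 19 (N 38) (S1 10 21 U (S1 11 23 U (S1 12 25 U (S1 13 27 U (S4 2 27 (S3 3 28 U (S1 14 29 U (P 29))) (S3 3 28 (N 364) (S1 14 29 U (P 29))))))))) (S3 2 19 (S1 10 21 U t187) (P 19)))))))) (P 13)))) (S1 6 13 U (S2 4 13 (S1 7 15 U (S1 8 17 U t191)) (P 13)))) (P 11))
def t193 : T := S3 2 17 (S1 9 19 U (S1 10 21 U (S1 11 23 U (S4 2 23 (N 34) (S2 7 24 (S1 12 25 U (S3 3 26 (N 120) (S1 13 27 U (S1 14 29 U (S1 15 31 U (S2 9 31 (N 110) (S1 16 33 U (S4 3 34 U (S1 17 35 U (P 35)))))))))) (S1 12 25 U (S3 3 26 (S1 13 27 U (S1 14 29 U (S1 15 31 U (S1 16 33 U (S4 3 34 U (S1 17 35 U (S3 4 35 (N 306) (P 35)))))))) (S1 13 27 U (S1 14 29 U (S1 15 31 U (S1 16 33 U (S4 3 34 (N 34) (S1 17 35 U (P 35)))))))))))))) (S1 9 19 U (S1 10 21 U (S1 11 23 U (S4 2 23 (S2 7 24 (S1 12 25 U (S3 3 25 (N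 216) (P 25))) (S1 12 25 U (S3 3 25 (S1 13 27 U (S1 14 29 U (S1 15 31 U (S1 16 33 U (S1 17 35 U (S4 3 35 (N 350) (P 35))))))) (P 25)))) (S2 7 24 (S1 12 25 U (S3 3 25 (S1 13 27 U (S1 14 29 U (S1 15 31 U (S2 9 31 (S1 16 33 U (S4 3 34 (N 124) (S1 17 35 U (P 35)))) (S1 16 33 U (S4 3 34 (N 408) (S1 17 35 U (P 35)))))))) (P 25))) (S1 12 25 U (S3 3 25 (S1 13 27 U (S1 14 29 U (S1 15 31 U (S1 16 33 U (S4 3 34 (S1 17 35 U (P 35)) (S1 17 35 U (P 35))))))) (P 25))))))))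
def t194 : T := S4 1 12 (S1 6 13 U (S4 1 13 (S4 1 14 U (S1 7 15 U (S1 8 17 U (S2 5 17 U (S3 2 17 U (P 17)))))) (S1 7 15 U (S1 8 17 U (S2 5 17 (S3 2 17 U (S1 9 19 U (S1 10 21 U (S1 11 23 U (S2 7 24 (N 24) (S1 12 25 U (S3 3 25 U (S4 2 25 (N 112) (P 25))))))))) (S3 2 17 (S1 9 19 U (S1 10 21 U (S1 11 23 U (S1 12 25 U (S4 2 25 U (S3 3 26 (N 60) (S1 13 27 U (S2 8 27 U (P 27))))))))) (P 17))))))) (S1 6 13 U (S1 7 15 U (S1 8 17 U (S2 5 17 t193 (S3 2 17 (S1 9 19 U (S1 10 21 U (S1 11 23 U (S4 2 23 (S1 12 25 U (S3 3 26 (S1 13 27 U (S2 8 27 (N 138) (P 27))) (S1 13 27 U (S2 8 27 (S1 14 29 U (S1 15 31 U (S1 16 33 U (S1 17 35 U (S4 3 35 (N 280) (P 35)))))) (P 27))))) (S1 12 25 U (S3 3 26 (S1 13 27 U (S2 8 27 (S1 14 29 U (S1 15 31 U (S1 16 33 U (S4 3 34 (N 442) (S1 17 35 U (S3 4 35 (S1 18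 37 U (S1 19 39 U (S1 20 41 U (S1 21 43 U (S2 13 44 (S3 5 44 (N 44) (S1 22 45 U (S4 4 45 (N 236) (P 45)))) (S3 5 44 (S1 22 45 U (S4 4 45 (N 202) (P 45))) (S1 22 45 U (S4 4 45 (N 236) (P 45))))))))) (P 35))))))) (P 27))) (S1 13 27 U (S2 8 27 (S1 14 29 U (S1 15 31 U (S1 16 33 U (S4 3 34 (S1 17 35 U (P 35)) (S1 17 35 U (P 35)))))) (P 27))))))))) (P 17))))))
def t195 : T := S3 3 26 (S2 9 28 U (S1 14 31 (S2 10 31 U (S4 3 31 U (S2 11 34 U (S3 4 35 (N 210) (S2 12 37 U (S2 13 40 U (S4 4 41 (N 225) (S2 14 43 U (S2 15 46 U (S2 16 49 U (S1 23 51 (N 390) (S4 5 51 (N 234) (S2 17 52 U (S2 18 55 U (S2 19 58 U (S2 20 61 U (S3 7 61 (N 270) (S4 6 61 (N 294) (P 61))))))))))))))))))) (S2 10 31 U (S4 3 31 (S2 11 34 U (S3 4 35 (N 165) (S2 12 37 U (S2 13 40 U (S1 19 42 (N 216) (S2 14 43 U (S2 15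 46 U (S2 16 49 U (S2 17 52 U (S4 5 52 (N 156) (S1 24 53 (N 216) (P 53)))))))))))) (P 31))))) (S2 9 28 U (S1 14 31 (S2 10 31 U (S4 3 31 (N 93) (S2 11 34 U (S2 12 37 U (S2 13 40 U (S4 4 41 (S2 14 43 U (S3 5 43 (N 369) (P 43))) (S2 14 43 U (S3 5 43 (S2 15 46 U (S2 16 49 U (S1 23 51 (S4 5 51 (N 51) (S2 17 52 U (P 52))) (S4 5 51 (N 387) (S2 17 52 U (P 52)))))) (P 43))))))))) (S2 10 31 U (S4 3 31 (S2 11 34 U (S2 12 37 U (S2 13 40 U (S1 19 42 (S2 14 43 U (S3 5 43 (N 258) (P 43))) (S2 14 43 U (S3 5 43 (S2 15 46 U (S2 16 49 U (S2 17 52 U (S4 5 52 (S1 24 53 (N 249) (P 53)) (P 52))))) (P 43))))))) (P 31)))))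
def t196 : T := S3 2 17 (S2 6 19 U (S1 9 20 (S4 2 21 U (S2 7 22 U (S2 8 25 U (S3 3 26 (N 60) (S2 9 28 U (S1 13 29 (N 330) (S2 10 31 U (S4 3 31 U (S2 11 34 U (S2 12 37 U (S2 13 40 U (S4 4 41 (N 51) (S2 14 43 U (S3 5 43 (N 60) (P 43))))))))))))))) (S4 2 21 (S2 7 22 U (S2 8 25 U (S3 3 26 (N 147) (S2 9 28 U (S1 14 31 U (S2 10 31 U (S4 3 32 (N 255) (S2 11 34 U (S2 12 37 U (S2 13 40 U (S1 19 42 (N 42) (S2 14 43 U (S3 5 43 (N 189) (P 43)))))))))))))) (S2 7 22 U (S2 8 25 U t195))))) (S2 6 19 U (S1 9 20 (S4 2 21 (S2 7 22 U (S2 8 25 U (S3 3 25 (N 231) (P 25)))) (S2 7 22 U (S2 8 25 U (S3 3 25 (S2 9 28 U (S1 13 29 (S2 10 31 U (S4 3 31 (N 165) (S2 11 34 U (P 34)))) (S2 10 31 U (S4 3 31 (S2 11 34 U (P 34)) (S2 11 34 U (P 34)))))) (P 25))))) (S4 2 21 (S2 7 22 U (S2 8 25 U (S3 3 25 (S2 9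 28 U (S1 14 31 (S2 10 31 U (S4 3 32 (N 341) (S2 11 34 U (P 34)))) (S2 10 31 U (S4 3 32 (S2 11 34 U (P 34)) (S2 11 34 U (P 34)))))) (P 25)))) (S2 7 22 U (S2 8 25 (N 200) (S3 3 25 (S2 9 28 U (S1 14 31 (S2 10 31 U (S4 3 31 (S2 11 34 U (P 34)) (S2 11 34 U (P 34)))) (S2 10 31 U (S4 3 31 (S2 11 34 U (P 34)) (P 31))))) (P 25)))))))
def t197 : T := S3 4 35 (S1 18 37 U (S2 12 37 U (S1 19 39 U (S4 2 39 (N 78) (S2 13 40 U (S1 20 41 U (S1 21 43 U (S2 14 43 U (S3 5 44 (N 114) (S1 22 45 U (S2 15 46 U (S1 23 47 U (S1 24 49 U (S2 16 49 U (S1 25 51 U (S2 17 52 U (S1 26 53 U (S1 27 55 U (S2 18 55 U (S1 28 57 U (S2 19 58 U (S4 3 58 (N 96) (S1 29 59 U (S1 30 61 U (S2 20 61 U (S1 31 63 U (S2 21 64 U (S1 32 65 U (S1 33 67 U (S2 22 67 U (S1 34 69 U (S2 23 70 U (S1 35 71 U (S1 36 73 U (S2 24 73 U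 (S1 37 75 U (S2 25 76 U (S1 38 77 U (S4 4 77 (N 96) (S1 39 79 U (S2 26 79 U (S3 9 79 (N 114) (P 79))))))))))))))))))))))))))))))))))))))))))) (S1 18 37 U (S2 12 37 U (S1 19 39 U (S4 2 39 (N 78) (S2 13 40 U (S1 20 41 U (S1 21 43 U (S2 14 43 U (S1 22 45 U (S2 15 46 U (S1 23 47 U (S1 24 49 U (S2 16 49 U (S1 25 51 U (S2 17 52 U (S1 26 53 U (S1 27 55 U (S2 18 55 U (S1 28 57 U (S2 19 58 U (S4 3 58 (S1 29 59 U (S1 30 61 U (S2 20 61 U (S3 7 61 (N 174) (P 61))))) (S1 29 59 U (S1 30 61 U (S2 20 61 U (S3 7 61 (S1 31 63 U (S2 21 64 U (S1 32 65 U (S1 33 67 U (S2 22 67 U (S1 34 69 U (S2 23 70 U (S1 35 71 U (S1 36 73 U (S2 24 73 U (S1 37 75 U (S2 25 76 U (S1 38 77 U (S4 4 77 (S1 39 79 U (S2 26 79 U (P 79))) (S1 39 79 U (S2 26 79 U (P 79))))))))))))))))) (P 61))))))))))))))))))))))))))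
def t198 : T := S3 3 26 (S1 13 27 U (S2 9 28 U (S1 14 29 U (S1 15 31 U (S2 10 31 U (S1 16 33 U (S2 11 34 U (S1 17 35 U t197)))))))) (S1 13 27 U (S2 9 28 U (S1 14 29 U (S1 15 31 U (S2 10 31 U (S1 16 33 U (S2 11 34 U (S1 17 35 U (S1 18 37 U (S2 12 37 U (S1 19 39 U (S4 2 39 (S2 13 40 U (S1 20 41 U (S1 21 43 U (S2 14 43 U (S3 5 43 (S1 22 45 U (S2 15 46 U (S1 23 47 U (S1 24 49 U (S2 16 49 U (S1 25 51 U (S2 17 52 U (S1 26 53 U (S1 27 55 U (S2 18 55 U (S1 28 57 U (S2 19 58 U (S1 29 59 U (S4 3 59 (S1 30 61 U (S2 20 61 U (P 61))) (S1 30 61 U (S2 20 61 U (P 61))))))))))))))))) (P 43)))))) (S2 13 40 U (S1 20 41 U (S1 21 43 U (S2 14 43 U (S3 5 43 (S1 22 45 U (S2 15 46 U (S1 23 47 U (S1 24 49 U (S2 16 49 U (S1 25 51 U (S2 17 52 U (S1 26 53 U (S1 27 55 U (S2 18 55 U (S1 28 57 U (S2 19 58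 U (S4 3 58 (S1 29 59 U (S1 30 61 U (S2 20 61 U (P 61)))) (S1 29 59 U (S1 30 61 U (S2 20 61 U (P 61))))))))))))))))) (P 43))))))))))))))))))
def t199 : T := S4 1 21 (S2 7 22 U (S4 1 22 (S1 11 23 U (S4 1 23 (S4 1 24 (N 24) (S1 12 25 U (S2 8 25 U (S3 3 25 U (P 25))))) (S1 12 25 U (S2 8 25 U (S3 3 25 (N 66) (P 25)))))) (S1 11 23 U (S1 12 25 U (S2 8 25 U (S3 3 25 (S1 13 27 U (S2 9 28 U (S1 14 29 U (S1 15 31 U (S2 10 31 U (S1 16 33 U (S2 11 34 U (S1 17 35 U (S1 18 37 U (S2 12 37 U (S1 19 39 U (S2 13 40 U (S1 20 41 U (S3 5 42 (N 42) (S1 21 43 U (S2 14 43 U (S4 2 43 (N 150) (P 43)))))))))))))))))) (P 25))))))) (S2 7 22 U (S1 11 23 U (S1 12 25 U (S2 8 25 U (S3 3 25 (S1 13 27 U (S2 9 28 U (S1 14 29 U (S1 15 31 U (S2 10 31 U (S1 16 33 U (S2 11 34 U (S1 17 35 U (S1 18 37 U (S2 12 37 U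 (S1 19 39 U (S2 13 40 U (S1 20 41 U (S4 2 41 (S3 5 42 (S1 21 43 U (S2 14 43 U (P 43))) (S1 21 43 U (S2 14 43 U (P 43)))) (S3 5 42 (S1 21 43 U (S2 14 43 U (P 43))) (S1 21 43 U (S2 14 43 U (P 43)))))))))))))))))) (P 25))))))
def t200 : T := S3 2 17 (S4 1 17 (S4 1 18 (S1 9 19 U (S2 6 19 U (S4 1 19 (S4 1 20 (S1 10 21 U (S4 1 21 (N 42) (S2 7 22 U (S1 11 23 U (S1 12 25 U (S2 8 25 U (S3 3 26 (N 60) (S1 13 27 U (S2 9 28 U (S1 14 29 U (S1 15 31 U (S2 10 31 U (S1 16 33 U (S2 11 34 U (S1 17 35 U (S1 18 37 U (S2 12 37 U (S1 19 39 U (S2 13 40 U (S1 20 41 U (S4 2 41 (N 102) (S1 21 43 U (S2 14 43 U (S3 5 43 (N 60) (P 43))))))))))))))))))))))))) (S1 10 21 U (S2 7 22 U (S1 11 23 U (S1 12 25 U (S2 8 25 U t198)))))) (P 19)))) (S1 9 19 U (S2 6 19 U (P 19)))) (S1 9 19 U (S2 6 19 U (P 19)))) (S4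 1 17 (S4 1 18 (S1 9 19 U (S2 6 19 U (S4 1 19 (S4 1 20 (S1 10 21 U t199) (S1 10 21 U (S2 7 22 U (S1 11 23 U (S1 12 25 U (S2 8 25 U (S3 3 25 (S1 13 27 U (S2 9 28 U (S1 14 29 U (S1 15 31 U (S2 10 31 U (S1 16 33 U (S2 11 34 U (S1 17 35 U (S1 18 37 U (S2 12 37 U (S1 19 39 U (S4 2 39 (S2 13 40 U (S1 20 41 U (S3 5 42 (S1 21 43 U (S2 14 43 U (P 43))) (S1 21 43 U (S2 14 43 U (P 43)))))) (S2 13 40 U (S1 20 41 U (S3 5 42 (S1 21 43 U (S2 14 43 U (P 43))) (S1 21 43 U (S2 14 43 (N 132) (P 43)))))))))))))))))) (P 25)))))))) (P 19)))) (S1 9 19 U (S2 6 19 (N 136) (P 19)))) (P 17))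
def t201 : T := S4 1 15 (S2 5 16 (S4 1 16 (N 16) (S1 8 17 U (S3 2 17 U (P 17)))) (S4 1 16 (S1 8 17 U t200) (S1 8 17 U (S3 2 17 (S1 9 19 U (S2 6 19 (S1 10 21 U (S1 11 23 U (S1 12 25 U (S3 3 26 (N 60) (S1 13 27 U (S1 14 29 U (S1 15 31 U (S4 2 31 (N 76) (S1 16 33 U (S1 17 35 U (S2 11 35 (N 178) (P 35)))))))))))) (P 19))) (P 17))))) (S2 5 16 (S1 8 17 U (S3 2 17 (S1 9 19 U (S1 10 21 U (S1 11 23 U (S1 12 25 U (S3 3 26 (N 112) (S1 13 27 U (S1 14 29 U (S2 9 29 (N 238) (S4 2 29 (N 144) (P 29)))))))))) (P 17))) (S1 8 17 (S3 2 17 U (S2 6 19 U (S2 7 22 U (S2 8 25 U (S3 3 25 U (S2 9 28 U (S4 2 29 (N 72) (S2 10 31 U (S1 15 32 (N 96) (S3 4 33 U (S2 11 34 U (S2 12 37 U (S2 13 40 U (S3 5 41 U (S2 14 43 U (S4 3 43 (N 240) (P 43))))))))))))))))) (S3 2 17 (S1 9 19 U (S2 6 19 (S1 10 21 U (S1 11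 23 U (S1 12 25 U (S3 3 26 (S1 13 27 U (S1 14 29 U (S4 2 29 (S1 15 31 U (S1 16 33 U (S1 17 35 U (S2 11 35 (N 130) (S3 4 35 (N 174) (P 35)))))) (P 29)))) (S1 13 27 U (S1 14 29 U (S4 2 29 (S1 15 31 U (S1 16 33 U (S1 17 35 U (S2 11 35 (S1 18 37 U (S1 19 39 U (S1 20 41 U (S1 21 43 U (S3 5 43 (N 232) (S4 3 44 (S1 22 45 U (P 45)) (S1 22 45 U (P 45)))))))) (P 35))))) (P 29)))))))) (P 19))) (P 17))))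
def t202 : T := S2 5 16 (S1 8 17 U (S3 2 17 (S1 9 19 U (S1 10 21 U (S1 11 23 U (S1 12 25 U (S3 3 26 (S1 13 27 U (S4 2 27 (S1 14 29 U (S2 9 29 (N 364) (P 29))) (P 27))) (S1 13 27 U (S4 2 27 (S1 14 29 U (S2 9 29 (S1 15 31 U (S1 16 33 U (S1 17 35 U (S1 18 37 U (S1 19 39 U (S1 20 41 U (S4 3 41 (S2 13 42 (S1 21 43 U (S3 5 43 (N 232) (P 43))) (S1 21 43 U (S3 5 43 (N 232) (P 43)))) (S2 13 42 (S1 21 43 U (S3 5 43 (N 378) (P 43))) (S1 21 43 U (S3 5 43 (S1 22 45 U (S1 23 47 U (S1 24 49 U (S1 25 51 U (S1 26 53 U (S1 27 55 U (P 55))))))) (P 43))))))))))) (P 29))) (P 27)))))))) (P 17))) (S1 8 17 (S3 2 17 (N 51) (S2 6 19 U (S2 7 22 U (S2 8 25 U (S3 3 25 (S4 2 27 (N 108) (S2 9 28 U (P 28))) (S4 2 27 (S2 9 28 U (P 28)) (S2 9 28 U (P 28)))))))) (S3 2 17 (S1 9 19 (S2 6 19 U (S2 7 22 U (S2 8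 25 U (S3 3 26 (N 78) (S4 2 27 (N 135) (S2 9 28 U (P 28))))))) (S2 6 19 (S1 10 21 U (S1 11 23 U (S1 12 25 U (S3 3 26 (S1 13 27 U (S4 2 27 (S1 14 29 U (P 29)) (P 27))) (S1 13 27 U (S4 2 27 (S1 14 29 U (P 29)) (P 27))))))) (P 19))) (P 17)))
def t203 : T := S1 6 13 (S2 4 13 U (S4 1 13 U (S2 5 16 U (S3 2 17 U (S2 6 19 U (S2 7 22 U (S1 11 24 (N 24) (S2 8 25 U (S3 3 25 (N 108) (S4 2 25 (N 312) (P 25))))))))))) (S2 4 13 (S4 1 13 (S4 1 14 (S1 7 15 U (S4 1 15 (N 104) (S1 8 17 U (S3 2 17 U (P 17))))) (S1 7 15 U (S1 8 17 U (S3 2 17 (S1 9 19 U (S1 10 21 U (S1 11 23 U (S2 7 23 (N 220) (S1 12 25 U (S3 3 26 (N 26) (S1 13 27 U (S4 2 27 (N 364) (P 27))))))))) (P 17))))) (S1 7 15 U (S1 8 17 U (S3 2 17 (S1 9 19 U (S1 10 21 U (S1 11 23 U (S2 7 23 (S1 12 25 U (S4 2 25 (S3 3 26 (N 312) (S1 13 27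 U (P 27))) (S3 3 26 (S1 13 27 U (P 27)) (S1 13 27 U (P 27))))) (S1 12 25 U (S4 2 25 (S3 3 26 (S1 13 27 U (P 27)) (S1 13 27 U (P 27))) (S3 3 26 (S1 13 27 U (P 27)) (S1 13 27 U (P 27))))))))) (P 17))))) (S4 1 13 (S4 1 14 (S1 7 15 U t201) (S1 7 15 (S2 5 16 U (S3 2 17 U (S2 6 19 U (S2 7 22 U (S2 8 25 U (S3 3 25 U (S4 2 27 (N 120) (S1 13 28 (N 168) (S2 9 28 U (P 28)))))))))) t202)) (P 13)))
def t204 : T := S1 6 13 (S2 4 13 U (S2 5 16 U (S3 2 17 (S2 6 19 U (S2 7 22 U (S4 2 23 (N 195) (S1 11 24 (S2 8 25 U (S3 3 26 (N 120) (S2 9 28 U (S2 10 31 U (S2 11 34 U (S4 3 34 U (S1 16 35 (N 153) (P 35)))))))) (S2 8 25 U (S3 3 26 (S2 9 28 U (S2 10 31 U (S2 11 34 U (S4 3 34 (N 78) (S3 4 35 (S1 17 37 (N 87) (S2 12 37 U (P 37))) (P 35)))))) (P 35))))))) (S2 6 19 U (S2 7 22 U (S4 2 23 (S1 11 24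 (S2 8 25 U (S3 3 25 (N 183) (P 25))) (S2 8 25 U (S3 3 25 (S2 9 28 U (S2 10 31 U (S2 11 34 U (S4 3 35 (S1 17 37 (N 150) (S2 12 37 U (P 37))) (P 35))))) (P 25)))) (S1 11 24 (S2 8 25 U (S3 3 25 (S2 9 28 U (S2 10 31 U (S2 11 34 U (S4 3 34 (N 408) (P 34))))) (P 25))) (P 35)))))))) (S2 4 13 (S1 7 15 U (S1 8 17 U (S3 2 17 (S1 9 19 U (S1 10 21 U (S1 11 23 U (S2 7 23 (S4 2 23 (S1 12 25 U (S3 3 26 (S1 13 27 U (P 27)) (S1 13 27 U (P 27)))) (S1 12 25 U (S3 3 26 (S1 13 27 U (P 27)) (S1 13 27 U (P 27))))) (S4 2 23 (S1 12 25 U (S3 3 26 (S1 13 27 U (P 27)) (S1 13 27 U (P 27)))) (P 23)))))) (P 17)))) (P 13))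
def t205 : T := S3 1 9 (S4 1 9 (S2 3 10 (S3 1 10 (S4 1 10 (N 10) (S1 5 11 U (S3 1 11 O3 (P 11)))) (S4 1 10 (S1 5 11 U (S4 1 11 (S4 1 12 U (S1 6 13 U (S1 7 15 U (S1 8 17 U (S2 5 17 U (S1 9 19 U (S3 2 19 U (S1 10 21 U (S1 11 23 U (S4 2 23 (N 80) (S1 12 25 U (S1 13 27 U (S2 8 27 (N 54) (S3 3 28 (N 110) (S1 14 29 U (S1 15 31 U (S1 16 33 U (S4 3 34 (N 90) (S1 17 35 U (S1 18 37 U (S2 11 37 (N 198) (S3 4 37 (N 110) (P 37))))))))))))))))))))))) (P 11))) (S1 5 11 U (P 11)))) (S3 1 10 t184 (S4 1 10 t192 (P 10)))) (S2 3 10 (S3 1 10 O3 (S1 5 11 U (P 11))) (S3 1 10 O3 (P 10)))) (S4 1 9 (S2 3 10 (S4 1 10 (S1 5 11 U (S4 1 11 t194 (P 11))) (S1 5 11 U (P 11))) (S4 1 10 (S1 5 11 (S4 1 11 (S4 1 12 U (S2 4 13 U (S2 5 16 U (S3 2 17 U (S2 6 19 U (S1 9 20 (N 120) (S2 7 22 U (S4 2 23 (N 264) (S2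 8 25 U (S3 3 25 (N 33) (P 25))))))))))) (S2 4 13 U (S2 5 16 U t196))) (S4 1 11 (S4 1 12 t203 t204) (P 11))) (P 10))) (P 9))
def t206 : T := S4 1 11 (S4 1 12 (S2 4 13 U (S4 1 13 U (S3 2 15 U (S1 7 16 U (S2 5 16 U (P 16)))))) (S2 4 13 U (S3 2 15 (S1 7 16 U (S2 5 16 U (P 16))) (S1 7 16 (S2 5 16 U (S2 6 19 U (S2 7 22 U (S3 3 22 (N 66) (S1 10 23 (S4 2 23 (N 69) (S2 8 25 U (S2 9 28 U (S3 4 29 U (S1 13 30 (S2 10 31 U (S2 11 34 U (S4 3 34 U (S3 5 36 U (S1 16 37 (N 231) (S2 12 37 U (P 37))))))) (S2 10 31 U (S2 11 34 U (S4 3 34 (N 147) (S3 5 36 (N 108) (S2 12 37 U (P 37))))))))))) (S4 2 23 (S2 8 25 U (S2 9 28 U (S3 4 29 U (S2 10 31 U (S2 11 34 U (S4 3 35 (N 105) (S3 5 36 U (S2 12 37 U (P 37))))))))) (P 23))))))) (S2 5 16 U (P 16)))))) (S2 4 13 U (S3 2 15 (S1 7 16 (S2 5 16 U (S2 6 19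 U (S4 2 21 (N 105) (S2 7 22 U (S1 10 23 (S3 3 23 (N 69) (S2 8 25 U (S2 9 28 U (S1 13 30 (N 30) (S2 10 31 U (S4 3 31 (N 165) (P 31))))))) (S3 3 23 (S2 8 25 U (S2 9 28 U (S2 10 31 U (S3 4 31 (N 240) (S4 3 31 (N 144) (P 31)))))) (P 23))))))) (S2 5 16 U (P 16))) (S1 7 16 (S2 5 16 U (S2 6 19 U (S4 2 21 (S2 7 22 U (S3 3 22 (S1 10 23 (N 315) (P 23)) (P 22))) (S2 7 22 (N 160) (S3 3 22 (S1 10 23 (S2 8 25 U (S2 9 28 U (S1 13 30 (S2 10 31 U (S4 3 31 (N 330) (P 31))) (S2 10 31 U (S4 3 31 (S2 11 34 U (S2 12 37 U (S3 5 37 (S2 13 40 U (S2 14 43 U (S2 15 46 U (S2 16 49 U (S2 17 52 U (S3 7 52 (N 423) (S4 5 52 (N 207) (P 52)))))))) (P 37)))) (P 31)))))) (P 23)) (P 22)))))) (P 23))))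
def t207 : T := S2 5 17 (S4 2 17 (N 119) (S3 3 22 (S2 7 24 U (S1 11 25 U (S4 3 25 U (P 25)))) (S2 7 24 (S1 11 25 (N 168) (S4 3 25 (N 216) (P 25))) (S1 11 25 (S4 3 25 U (S3 4 29 U (S4 4 33 (N 231) (S3 5 36 (N 136) (S1 18 41 (S2 12 41 (N 280) (S4 5 41 (N 287) (S3 6 43 U (S4 6 49 (N 343) (S3 7 50 (N 200) (S1 25 57 (S3 8 57 (N 248) (S4 7 57 (N 285) (S2 17 58 (N 392) (P 58)))) (S3 8 57 (N 248) (S4 7 57 (N 350) (P 57))))))))) (S2 12 41 (S4 5 41 U (S3 6 43 U (S4 6 49 (N 245) (S3 7 50 U (S3 8 57 (N 184) (S4 7 57 (N 252) (P 57))))))) (S4 5 41 (N 336) (P 41)))))))) (S4 3 25 (S3 4 29 U (S1 15 34 (N 224) (S3 5 36 U (S2 12 41 (S4 5 42 (N 126) (P 59)) (S4 5 42 (S1 19 43 (N 210) (S3 6 43 U (P 43))) (P 59)))))) (P 25)))))) (S4 2 17 (S3 3 22 (N 110) (S1 11 25 (S4 3 26 (N 250) (S2 8 27 U (P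 44))) (S4 3 26 (S2 8 27 (N 182) (S3 4 29 U (S1 15 34 (S4 4 35 (N 70) (P 44)) (S4 4 35 (S3 5 36 U (S2 11 37 (N 245) (P 37))) (P 44))))) (S2 8 27 (S3 4 29 U (S1 15 34 (N 238) (S3 5 36 U (S1 19 43 (N 280) (S3 6 43 (N 135) (S4 5 43 (N 189) (P 43))))))) (P 44))))) (P 17))
def t208 : T := S1 19 39 U (S1 20 41 U (S2 12 41 (S1 21 43 U (S3 6 43 U (S1 22 45 U (S1 23 47 U (S4 3 47 (N 140) (S1 24 49 U (S3 7 50 U (S1 25 51 U (S1 26 53 U (S1 27 55 U (S1 28 57 U (S3 8 57 U (S1 29 59 U (S1 30 61 U (S1 31 63 U (S3 9 64 U (S1 32 65 U (S2 19 65 (N 294) (P 65))))))))))))))))))) (S1 21 43 U (S3 6 43 (N 136) (S1 22 45 U (S1 23 47 U (S4 3 47 (S1 24 49 U (S3 7 50 (N 78) (S1 25 51 U (S1 26 53 U (S1 27 55 U (S1 28 57 U (S3 8 57 (N 78) (S2 17 58 (N 266) (S1 29 59 U (S1 30 61 U (S1 31 63 U (S4 4 63 (S3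 9 64 (N 78) (S1 32 65 U (P 65))) (S3 9 64 (N 78) (S1 32 65 U (P 65))))))))))))))) (S1 24 49 U (S3 7 50 (N 170) (S1 25 51 U (S1 26 53 U (S1 27 55 U (S1 28 57 U (S3 8 57 (N 170) (S2 17 58 (S1 29 59 U (S1 30 61 U (S1 31 63 U (S3 9 64 (N 92) (S1 32 65 U (P 65)))))) (S1 29 59 U (S1 30 61 U (S1 31 63 U (S3 9 64 (N 170) (S1 32 65 U (P 65)))))))))))))))))))))
def t209 : T := S4 1 14 (S1 7 15 U (S3 2 15 (S4 1 15 (N 30) (S1 8 17 U (S2 5 17 (N 112) (P 17)))) (S4 1 15 (S4 1 16 (S1 8 17 U (S2 5 17 (N 112) (S4 1 17 (S4 1 18 (N 70) (S1 9 19 U (S1 10 21 U (S3 3 22 U (S1 11 23 U (S1 12 25 U (S1 13 27 U (S2 8 27 (N 84) (S1 14 29 U (S3 4 29 U (S1 15 31 U (S1 16 33 U (S1 17 35 U (S4 2 35 (N 70) (S3 5 36 U (S1 18 37 U (S2 11 37 (N 84) (P 37)))))))))))))))))) (P 17)))) (S1 8 17 U (S2 5 17 (S1 9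 19 U (S1 10 21 U (S3 3 22 U (S1 11 23 U (S2 7 24 (S1 12 25 U (S1 13 27 U (S1 14 29 U (S3 4 29 U (S1 15 31 U (S2 9 31 (N 210) (S4 2 31 (N 154) (P 31)))))))) (S1 12 25 U (S1 13 27 U (S1 14 29 U (S3 4 29 (N 180) (S1 15 31 U (S4 2 31 (S1 16 33 U (S1 17 35 U (S3 5 36 U (S1 18 37 U t208)))) (P 31)))))))))))) (P 17)))) (P 15)))) (S1 7 15 U (S3 2 15 (S1 8 17 U (S2 5 17 (S1 9 19 U (S1 10 21 U (S1 11 23 U (S3 3 23 (S2 7 24 (N 130) (S1 12 25 U (S1 13 27 U (S4 2 27 (N 214) (S1 14 29 U (S1 15 31 U (S3 4 31 (S1 16 33 U (S1 17 35 U (S1 18 37 U (S1 19 39 U (S3 5 39 (N 78) (S4 3 40 (N 146) (S1 20 41 U (S2 12 41 (N 116) (P 41))))))))) (P 31)))))))) (S2 7 24 (S1 12 25 U (S1 13 27 U (S4 2 27 (N 120) (S1 14 29 U (S1 15 31 U (S2 9 31 (S1 16 33 U (S1 17 35 U (S1 18 37 U (S2 11 38 (N 390) (S3 5 38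 (N 182) (S1 19 39 U (S4 3 40 (N 120) (S1 20 41 U (S1 21 43 U (S1 22 45 U (S1 23 47 U (S1 24 49 U (S1 25 51 U (S1 26 53 U (S3 7 53 (N 234) (S4 4 53 (N 172) (P 53))))))))))))))))) (P 31))))))) (S1 12 25 U (S1 13 27 U (S4 2 27 (S1 14 29 U (S1 15 31 U (P 31))) (S1 14 29 U (S1 15 31 U (P 31))))))))))) (P 17))) (P 15)))
def t210 : T := S2 7 24 (S1 12 25 U (S4 2 25 (S1 13 27 U (S1 14 29 U (S1 15 31 U (S2 9 31 (S3 4 31 (N 62) (S1 16 33 U (S1 17 35 U (S1 18 37 U (S2 11 38 (S4 3 38 (N 38) (S1 19 39 U (P 39))) (S4 3 38 (S1 19 39 U (P 39)) (S1 19 39 U (P 39)))))))) (S3 4 31 (S1 16 33 U (S1 17 35 U (S1 18 37 U (S4 3 38 (N 240) (S1 19 39 U (S3 5 39 (N 312) (P 39))))))) (P 31)))))) (P 25))) (S1 12 25 U (S4 2 25 (S1 13 27 U (S1 14 29 U (S1 15 31 U (S3 4 31 (S1 16 33 U (S1 17 35 U (S1 18 37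 U (S4 3 38 (S1 19 39 U (S3 5 39 (S1 20 41 U (S2 12 41 (N 304) (P 41))) (P 39))) (S1 19 39 U (S3 5 39 (S1 20 41 U (S2 12 41 (S1 21 43 U (S1 22 45 U (S1 23 47 U (S3 6 47 (S1 24 49 U (S1 25 51 U (S1 26 53 U (S1 27 55 U (S3 7 55 (S1 28 57 U (S1 29 59 U (S1 30 61 U (S1 31 63 U (S3 8 63 (N 362) (S4 5 63 (N 314) (P 63))))))) (P 55)))))) (S1 24 49 U (S1 25 51 U (S1 26 53 U (S1 27 55 U (P 55))))))))) (P 41))) (P 39))))))) (P 31))))) (P 25)))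
def t211 : T := S1 5 11 U (S4 1 11 (S4 1 12 (S1 6 13 U (S4 1 13 t209 (S1 7 15 U (S3 2 15 (S1 8 17 U (S2 5 17 (S1 9 19 U (S1 10 21 U (S1 11 23 U (S3 3 23 t210 (S2 7 24 (S1 12 25 U (S4 2 25 (S1 13 27 U (S1 14 29 U (S1 15 31 U (S2 9 31 (S1 16 33 U (S1 17 35 U (S1 18 37 U (S2 11 38 (S3 5 38 (S4 3 38 (N 38) (S1 19 39 U (P 39))) (S4 3 38 (S1 19 39 U (P 39)) (S1 19 39 U (P 39)))) (S3 5 38 (S4 3 38 (S1 19 39 U (P 39)) (S1 19 39 U (P 39))) (S4 3 38 (S1 19 39 U (P 39)) (P 38))))))) (P 31))))) (P 25))) (S1 12 25 U (S4 2 25 (S1 13 27 U (S1 14 29 U (S1 15 31 U (P 31)))) (P 25)))))))) (P 17))) (P 15))))) (S1 6 13 U (S1 7 15 (S3 2 15 U (S2 5 17 U (P 24))) (S3 2 15 (S1 8 17 U (S2 5 17 (S1 9 19 U (S1 10 21 U (S1 11 23 U (S3 3 23 (S4 2 23 (S2 7 24 (S1 12 25 U (P 25)) (P 24)) (S2 7 24 (S1 12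 25 U (P 25)) (P 24))) (S4 2 23 (S2 7 24 (S1 12 25 U (P 25)) (P 24)) (P 23)))))) (P 17))) (P 15))))) (P 11))
def t212 : T := S4 1 18 (S1 9 19 U (S4 1 19 (S4 1 20 (S1 10 21 U (S4 1 21 (N 42) (S3 3 22 U (S1 11 23 U (S2 7 23 U (P 23)))))) (S1 10 21 U (S3 3 22 U (S1 11 23 U (S2 7 23 (N 266) (P 23)))))) (S1 10 21 U (S3 3 22 (N 198) (S1 11 23 U (S2 7 23 (S1 12 25 U (S1 13 27 U (S1 14 29 U (S3 4 29 U (S1 15 31 U (S1 16 33 U (S2 10 33 (S1 17 35 U (S3 5 36 U (S1 18 37 U (S4 2 37 (N 462) (P 37))))) (S1 17 35 U (S3 5 36 (N 36) (S1 18 37 U (S4 2 37 (S1 19 39 U (S1 20 41 U (S1 21 43 U (S3 6 43 (N 92) (P 43))))) (P 37)))))))))))) (P 23))))))) (S1 9 19 U (S1 10 21 U (S3 3 22 (S1 11 23 U (S2 7 23 (N 220) (P 23))) (S1 11 23 U (S2 7 23 (S1 12 25 U (S1 13 27 U (S1 14 29 U (S3 4 29 (S1 15 31 U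 (S1 16 33 U (S2 10 33 (N 442) (S1 17 35 U (S4 2 35 (N 174) (S1 18 37 U (P 37))))))) (S1 15 31 U (S1 16 33 U (S2 10 33 (S1 17 35 U (S4 2 35 (S3 5 36 (N 122) (S1 18 37 U (P 37))) (S3 5 36 (S1 18 37 U (P 37)) (S1 18 37 U (P 37))))) (S1 17 35 U (S4 2 35 (S3 5 36 (S1 18 37 U (P 37)) (S1 18 37 U (P 37))) (S3 5 36 (S1 18 37 U (P 37)) (S1 18 37 U (P 37)))))))))))) (P 23))))))
def t213 : T := S4 2 51 (S2 17 52 U (S1 26 53 U (S1 27 55 U (S2 18 55 U (S3 7 55 (N 102) (P 55)))))) (S2 17 52 U (S1 26 53 U (S1 27 55 U (S2 18 55 U (S3 7 55 (S1 28 57 U (S2 19 58 U (S1 29 59 U (S1 30 61 U (S2 20 61 U (S1 31 63 U (S3 8 63 (S2 21 64 U (S1 32 65 U (S1 33 67 U (S2 22 67 U (S1 34 69 U (S2 23 70 U (S1 35 71 U (S3 9 71 (S1 36 73 U (S2 24 73 U (S1 37 75 U (S2 25 76 U (S4 3 76 (N 126) (S1 38 77 U (S1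 39 79 U (S2 26 79 U (S3 10 79 (N 150) (P 79)))))))))) (S1 36 73 U (S2 24 73 U (S1 37 75 U (S2 25 76 U (S4 3 76 (N 126) (S1 38 77 U (S1 39 79 U (S2 26 79 U (P 79))))))))))))))))) (S2 21 64 U (S1 32 65 U (S1 33 67 U (S2 22 67 U (S1 34 69 U (S2 23 70 U (S1 35 71 U (S1 36 73 U (S2 24 73 U (S1 37 75 U (S2 25 76 U (S4 3 76 (S1 38 77 U (S1 39 79 U (S2 26 79 U (P 79)))) (S1 38 77 U (S1 39 79 U (S2 26 79 U (P 79))))))))))))))))))))))) (P 55))))))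
def t214 : T := S4 1 26 (S1 13 27 U (S4 1 27 (S2 9 28 U (S4 1 28 (N 84) (S1 14 29 U (S1 15 31 U (S2 10 31 U (S3 4 31 (N 54) (P 31))))))) (S2 9 28 U (S1 14 29 U (S1 15 31 U (S2 10 31 U (S3 4 31 (S1 16 33 U (S2 11 34 U (S1 17 35 U (S1 18 37 U (S2 12 37 U (S1 19 39 U (S3 5 39 (N 78) (S2 13 40 U (S1 20 41 U (S1 21 43 U (S2 14 43 U (S1 22 45 U (S2 15 46 U (S1 23 47 U (S1 24 49 U (S2 16 49 U (S1 25 51 U (S2 17 52 U (S1 26 53 U (S4 2 53 (S1 27 55 U (S2 18 55 U (P 55))) (S1 27 55 U (S2 18 55 U (P 55))))))))))))))))))))))) (P 31)))))))) (S1 13 27 U (S2 9 28 U (S1 14 29 U (S1 15 31 U (S2 10 31 U (S3 4 31 (S1 16 33 U (S2 11 34 U (S1 17 35 U (S1 18 37 U (S2 12 37 U (S1 19 39 U (S3 5 39 (S2 13 40 U (S1 20 41 U (S1 21 43 U (S2 14 43 U (S1 22 45 U (S2 15 46 U (S1 23 47 U (S3 6 47 (S1 24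 49 U (S2 16 49 U (S1 25 51 U t213))) (S1 24 49 U (S2 16 49 U (S1 25 51 U (S4 2 51 (S2 17 52 U (S1 26 53 U (S1 27 55 U (S2 18 55 U (P 55))))) (S2 17 52 U (S1 26 53 U (S1 27 55 U (S2 18 55 U (P 55))))))))))))))))) (S2 13 40 U (S1 20 41 U (S1 21 43 U (S2 14 43 U (S1 22 45 U (S2 15 46 U (S1 23 47 U (S1 24 49 U (S2 16 49 U (S1 25 51 U (S4 2 51 (S2 17 52 U (S1 26 53 U (S1 27 55 U (S2 18 55 U (P 55))))) (S2 17 52 U (S1 26 53 U (S1 27 55 U (S2 18 55 U (P 55))))))))))))))))))))))) (P 31)))))))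
def t215 : T := S4 1 21 (S2 7 22 (N 210) (S4 1 22 (S1 11 23 U (S3 3 23 (S4 1 23 (S4 1 24 (S1 12 25 U (S2 8 25 U (S4 1 25 t214 (P 25)))) (S1 12 25 U (S2 8 25 U (P 25)))) (S1 12 25 U (S2 8 25 U (P 25)))) (S4 1 23 (S4 1 24 (S1 12 25 U (S2 8 25 U (S4 1 25 (S4 1 26 (S1 13 27 U (S4 1 27 (S2 9 28 U (S4 1 28 (S1 14 29 U (S4 1 29 (S4 1 30 (N 30) (S1 15 31 U (S2 10 31 U (P 31)))) (S1 15 31 U (S2 10 31 U (P 31))))) (S1 14 29 U (S1 15 31 U (S2 10 31 U (P 31)))))) (S2 9 28 U (S1 14 29 U (S1 15 31 U (S2 10 31 U (P 31))))))) (S1 13 27 U (S2 9 28 U (S1 14 29 U (S1 15 31 U (S2 10 31 U (P 31))))))) (P 25)))) (S1 12 25 U (S2 8 25 U (P 25)))) (P 23)))) (S1 11 23 U (S3 3 23 (S1 12 25 U (S2 8 25 (N 84) (P 25))) (P 23))))) (S2 7 22 (S1 11 23 U (S3 3 23 (N 138) (P 23))) (S1 11 23 U (S3 3 23 (S1 12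 25 U (S2 8 25 (S1 13 27 U (S1 14 29 U (S1 15 31 U (S3 4 31 (N 100) (S1 16 33 U (S1 17 35 U (S1 18 37 U (S1 19 39 U (S1 20 41 U (S4 2 41 (N 184) (P 41))))))))))) (P 25))) (P 23))))
def t216 : T := S2 6 19 (S4 1 19 (S4 1 20 (N 60) (S1 10 21 U (S1 11 23 U (S3 3 23 (N 38) (P 23))))) (S1 10 21 U (S1 11 23 U (S3 3 23 (S1 12 25 U (S1 13 27 U (S1 14 29 U (S1 15 31 U (S3 4 31 (S1 16 33 U (S1 17 35 U (S2 11 35 (N 54) (S1 18 37 U (S4 2 37 (N 240) (S1 19 39 U (S3 5 39 (N 234) (P 39)))))))) (S1 16 33 U (S1 17 35 U (S2 11 35 (S1 18 37 U (S4 2 37 (N 92) (S1 19 39 U (P 39)))) (S1 18 37 U (S4 2 37 (S1 19 39 U (P 39)) (S1 19 39 U (P 39)))))))))))) (P 23))))) (S4 1 19 (S4 1 20 (S1 10 21 U t215) (S1 10 21 U (S2 7 22 (S1 11 23 U (S3 3 23 (S1 12 25 U (S1 13 27 U (S1 14 29 U (S1 15 31 U (S3 4 31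 (N 418) (S1 16 33 U (S1 17 35 U (S1 18 37 U (S1 19 39 U (S4 2 39 (S1 20 41 U (S2 13 41 (N 214) (P 41))) (P 39))))))))))) (P 23))) (S1 11 23 U (S3 3 23 (S1 12 25 U (S2 8 25 (S1 13 27 U (S1 14 29 U (S1 15 31 U (S3 4 31 (S1 16 33 U (S1 17 35 U (S1 18 37 U (S1 19 39 U (S3 5 39 (S4 2 39 (N 78) (S1 20 41 U (P 41))) (S4 2 39 (S1 20 41 U (P 41)) (P 39))))))) (S1 16 33 U (S1 17 35 U (S1 18 37 U (S1 19 39 U (S4 2 39 (S1 20 41 U (P 41)) (P 39)))))))))) (P 25))) (P 23)))))) (P 19))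
def t217 : T := S1 20 41 U (S1 21 43 U (S1 22 45 U (S1 23 47 U (S3 6 47 (S1 24 49 U (S1 25 51 U (S2 16 51 (S4 3 52 (N 86) (S1 26 53 U (S1 27 55 U (S3 7 55 (N 102) (P 55))))) (S4 3 52 (S1 26 53 U (S1 27 55 U (S3 7 55 (N 416) (P 55)))) (S1 26 53 U (S1 27 55 U (S3 7 55 (S1 28 57 U (S1 29 59 U (S1 30 61 U (S1 31 63 U (S3 8 63 (S1 32 65 U (S1 33 67 U (S1 34 69 U (S4 4 69 (N 362) (S1 35 71 U (S3 9 71 (S1 36 73 U (S1 37 75 U (S1 38 77 U (S1 39 79 U (S3 10 79 (N 442) (S1 40 81 U (S1 41 83 U (S1 42 85 U (S2 27 86 (S4 5 86 (N 86) (S1 43 87 U (P 87))) (S4 5 86 (N 378) (S1 43 87 U (P 87)))))))))))) (P 71))))))) (S1 32 65 U (S1 33 67 U (S1 34 69 U (S4 4 69 (S1 35 71 U (P 71)) (S1 35 71 U (P 71))))))))))) (P 55)))))))) (S1 24 49 U (S1 25 51 U (S2 16 51 (S4 3 52 (N 156) (S1 26 53 U (S1 27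 55 U (P 55)))) (S4 3 52 (S1 26 53 U (S1 27 55 U (P 55))) (S1 26 53 U (S1 27 55 U (P 55)))))))))))
def t218 : T := S3 4 31 (S1 16 33 U (S1 17 35 U (S2 11 35 (S4 2 35 (S1 18 37 U (S1 19 39 U (S3 5 39 (N 70) (P 39)))) (S1 18 37 U (S1 19 39 U (S3 5 39 t217 (P 39))))) (S4 2 35 (S1 18 37 U (S1 19 39 U (S3 5 39 (S1 20 41 U (S1 21 43 U (S1 22 45 U (S1 23 47 U (S3 6 47 (S1 24 49 U (S1 25 51 U (S1 26 53 U (S4 3 53 (S2 17 54 (N 282) (S1 27 55 U (S3 7 55 (N 212) (P 55)))) (S2 17 54 (N 454) (S1 27 55 U (S3 7 55 (S1 28 57 U (S1 29 59 U (S1 30 61 U (S1 31 63 U (S3 8 63 (S1 32 65 U (S1 33 67 U (S1 34 69 U (S1 35 71 U (S3 9 71 (N 402) (P 71)))))) (S1 32 65 U (S1 33 67 U (S1 34 69 U (S1 35 71 U (P 71)))))))))) (P 55)))))))) (S1 24 49 U (S1 25 51 U (S1 26 53 U (S4 3 53 (S2 17 54 (S1 27 55 U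 (P 55)) (S1 27 55 U (P 55))) (S2 17 54 (S1 27 55 U (P 55)) (S1 27 55 U (P 55)))))))))))) (P 39)))) (P 35))))) (S1 16 33 U (S1 17 35 U (S2 11 35 (S4 2 35 (S1 18 37 U (S1 19 39 U (P 39))) (S1 18 37 U (S1 19 39 U (P 39)))) (S4 2 35 (S1 18 37 U (S1 19 39 U (P 39))) (P 35)))))
def t219 : T := S4 1 32 (S1 16 33 U (S4 1 33 (N 66) (S2 11 34 U (S1 17 35 U (S1 18 37 U (S2 12 37 U (S3 5 37 (N 96) (P 37)))))))) (S1 16 33 U (S2 11 34 U (S1 17 35 U (S1 18 37 U (S2 12 37 U (S3 5 37 (S1 19 39 U (S2 13 40 U (S1 20 41 U (S1 21 43 U (S2 14 43 U (S1 22 45 U (S2 15 46 U (S1 23 47 U (S1 24 49 U (S2 16 49 U (S1 25 51 U (S2 17 52 U (S3 7 52 (S1 26 53 U (S1 27 55 U (S2 18 55 U (S1 28 57 U (S2 19 58 U (S1 29 59 U (S1 30 61 U (S2 20 61 U (S1 31 63 U (S4 2 63 (N 126) (S2 21 64 U (S1 32 65 U (S1 33 67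 U (S2 22 67 U (S3 9 67 (N 186) (P 67)))))))))))))))) (S1 26 53 U (S1 27 55 U (S2 18 55 U (S1 28 57 U (S2 19 58 U (S1 29 59 U (S1 30 61 U (S2 20 61 U (S1 31 63 U (S4 2 63 (S2 21 64 U (S1 32 65 U (S1 33 67 U (S2 22 67 U (P 67))))) (S2 21 64 U (S1 32 65 U (S1 33 67 U (S2 22 67 U (P 67)))))))))))))))))))))))))))) (P 37)))))))
def t220 : T := S4 1 33 (S2 11 34 U (S4 1 34 (S1 17 35 U (S4 1 35 (S3 5 36 (S4 1 36 (N 36) (S1 18 37 U (S2 12 37 U (P 37)))) (S4 1 36 (S1 18 37 U (S2 12 37 U (S4 1 37 (S4 1 38 (S1 19 39 U (S4 1 39 (S2 13 40 U (S4 1 40 (S1 20 41 U (S4 1 41 (S4 1 42 (N 42) (S1 21 43 U (S2 14 43 U (S3 6 43 U (P 43))))) (S1 21 43 U (S2 14 43 U (S3 6 43 (N 78) (P 43)))))) (S1 20 41 U (S1 21 43 U (S2 14 43 U (S3 6 43 (N 78) (P 43))))))) (S2 13 40 U (S1 20 41 U (S1 21 43 U (S2 14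 43 U (S3 6 43 (N 114) (P 43)))))))) (S1 19 39 U (S2 13 40 U (S1 20 41 U (S1 21 43 U (S2 14 43 U (S3 6 43 (N 222) (P 43)))))))) (P 37)))) (S1 18 37 U (S2 12 37 U (P 37))))) (S3 5 36 (S1 18 37 U (S2 12 37 U (P 37))) (S1 18 37 U (S2 12 37 U (P 37)))))) (S1 17 35 U (S3 5 36 (S1 18 37 U (S2 12 37 U (P 37))) (S1 18 37 U (S2 12 37 U (P 37))))))) (S2 11 34 U (S1 17 35 U (S3 5 36 (S1 18 37 U (S2 12 37 U (P 37))) (S1 18 37 U (S2 12 37 (N 126) (P 37))))))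
def t221 : T := S4 1 27 (S2 9 28 (S4 1 28 (N 28) (S1 14 29 U (S3 4 29 U (P 29)))) (S4 1 28 (S1 14 29 U (S3 4 29 (S4 1 29 (S4 1 30 (S1 15 31 U (S2 10 31 U (S4 1 31 (S4 1 32 (S1 16 33 U (S4 1 33 (S2 11 34 U (S4 1 34 (S1 17 35 U (S4 1 35 (N 174) (S1 18 37 U (S2 12 37 U (P 37))))) (S1 17 35 U (S1 18 37 U (S2 12 37 U (P 37)))))) (S2 11 34 U (S1 17 35 U (S1 18 37 U (S2 12 37 U (P 37))))))) (S1 16 33 U (S2 11 34 U (S1 17 35 U (S1 18 37 U (S2 12 37 U (P 37))))))) (P 31)))) (S1 15 31 U (S2 10 31 U (P 31)))) (S1 15 31 U (S2 10 31 U (P 31)))) (S4 1 29 (S4 1 30 (S1 15 31 U (S2 10 31 (N 210) (S4 1 31 (S4 1 32 (S1 16 33 U t220) (S1 16 33 U (S2 11 34 (N 154) (S1 17 35 U (S3 5 36 (S1 18 37 U (S2 12 37 U (P 37))) (S1 18 37 U (S2 12 37 (N 154) (P 37)))))))) (P 31)))) (S1 15 31 U (S2 10 31 (N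 406) (P 31)))) (P 29)))) (S1 14 29 U (S3 4 29 (S1 15 31 U (S2 10 31 U (P 31))) (P 29))))) (S2 9 28 (S1 14 29 U (S3 4 29 U (P 29))) (S1 14 29 U (S3 4 29 (S1 15 31 U (S2 10 31 (N 130) (P 31))) (P 29))))
def t222 : T := S1 17 35 U (S1 18 37 U (S1 19 39 U (S1 20 41 U (S1 21 43 U (S1 22 45 U (S1 23 47 U (S2 15 47 (S4 2 47 (N 94) (S1 24 49 U (S1 25 51 U (S3 7 51 (S1 26 53 U (S1 27 55 U (S1 28 57 U (S1 29 59 U (S1 30 61 U (S1 31 63 U (S1 32 65 U (S1 33 67 U (S1 34 69 U (S2 22 69 (N 138) (S4 3 70 (S1 35 71 U (S1 36 73 U (S3 10 73 (N 350) (P 73)))) (S1 35 71 U (S1 36 73 U (S3 10 73 (S1 37 75 U (S1 38 77 U (S1 39 79 U (S1 40 81 U (S1 41 83 U (S1 42 85 U (S1 43 87 U (S1 44 89 U (S1 45 91 U (S1 46 93 U (S4 4 93 (N 372) (S1 47 95 U (S3 13 95 (N 460) (P 95)))))))))))))) (P 73)))))))))))))))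 (P 51))))) (S4 2 47 (S1 24 49 U (S1 25 51 U (S3 7 51 (S1 26 53 U (S1 27 55 U (S1 28 57 U (S1 29 59 U (S1 30 61 U (S1 31 63 U (S1 32 65 U (S1 33 67 U (S1 34 69 U (S1 35 71 U (S4 3 71 (N 284) (S2 23 72 (N 422) (S1 36 73 U (S3 10 73 (N 328) (P 73))))))))))))))) (P 51)))) (P 47)))))))))
def t223 : T := S3 3 22 (S4 1 22 (S1 11 23 U (S4 1 23 (S4 1 24 (S1 12 25 U (S2 8 25 (N 168) (S4 1 25 (S4 1 26 (S1 13 27 U (S4 1 27 (S2 9 28 U (S4 1 28 (S1 14 29 U (S4 1 29 (S4 1 30 (S1 15 31 U (S2 10 31 U (S4 1 31 t219 (P 31)))) (S1 15 31 U (S2 10 31 U (P 31)))) (S1 15 31 U (S2 10 31 U (P 31))))) (S1 14 29 U (S1 15 31 U (S2 10 31 U (P 31)))))) (S2 9 28 U (S1 14 29 U (S1 15 31 U (S2 10 31 U (P 31))))))) (S1 13 27 U (S2 9 28 U (S1 14 29 U (S1 15 31 U (S2 10 31 (N 124) (P 31))))))) (P 25)))) (S1 12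 25 U (S2 8 25 (S1 13 27 U (S1 14 29 U (S1 15 31 U (S1 16 33 U (S1 17 35 U (S1 18 37 U (S3 5 37 (N 184) (S1 19 39 U (S1 20 41 U (S1 21 43 U (S1 22 45 U (S1 23 47 U (S2 15 47 (N 322) (S4 2 47 (N 234) (P 47))))))))))))))) (P 25)))) (P 23))) (S1 11 23 U (P 23))) (S4 1 22 (S1 11 23 (N 462) (S4 1 23 (S4 1 24 (S1 12 25 (N 168) (S2 8 25 (S4 1 25 (S4 1 26 (S1 13 27 U (S4 1 27 (N 350) (S1 14 29 U (S3 4 29 U (P 29))))) (S1 13 27 U (S1 14 29 U (S3 4 29 (N 50) (P 29))))) (S1 13 27 U (S1 14 29 U (S3 4 29 (N 384) (P 29))))) (S4 1 25 (S4 1 26 (S1 13 27 U t221) (S1 13 27 U (S2 9 28 (S1 14 29 U (S3 4 29 (N 174) (P 29))) (S1 14 29 (N 147) (S3 4 29 (S1 15 31 U (S2 10 31 (S1 16 33 U (S1 17 35 U (S1 18 37 U (S1 19 39 U (S1 20 41 U (S1 21 43 U (S1 22 45 U (S1 23 47 U (S1 24 49 U (S1 25 51 U (S3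 7 51 (S4 2 51 (N 102) (S1 26 53 U (P 53))) (S4 2 51 (N 406) (P 51))))))))))))) (P 31))) (P 29)))))) (P 25)))) (S1 12 25 (N 252) (S2 8 25 (S1 13 27 U (S1 14 29 U (S3 4 29 (S1 15 31 U (S1 16 33 U t222)) (P 29)))) (P 25)))) (P 23))) (P 22))
def t224 : T := S4 1 20 (S1 10 21 (S4 1 21 (N 21) (S2 7 22 U (S3 3 22 U (P 22)))) (S4 1 21 (S2 7 22 (S3 3 22 (S4 1 22 (N 22) (S1 11 23 U (P 23))) (S4 1 22 (S1 11 23 U (S4 1 23 (S4 1 24 (S1 12 25 U (S4 1 25 (S4 1 26 (N 154) (S1 13 27 U (S1 14 29 U (S3 4 29 U (P 29))))) (S1 13 27 U (S1 14 29 U (S3 4 29 U (P 29)))))) (S1 12 25 U (S1 13 27 U (S1 14 29 U (S3 4 29 (S1 15 31 U (S1 16 33 U (S1 17 35 U (S1 18 37 U (S1 19 39 U (S1 20 41 U (S2 13 41 (N 230) (S1 21 43 U (S1 22 45 U (S1 23 47 U (S4 2 47 (N 94) (S1 24 49 U (S1 25 51 U (S3 7 51 (N 138) (P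 51))))))))))))))) (P 29)))))) (P 23))) (S1 11 23 U (P 23)))) t223) (S2 7 22 (S3 3 22 (S1 11 23 U (P 23)) (S1 11 23 U (P 23))) (S3 3 22 (S1 11 23 (N 117) (P 23)) (P 22))))) (S1 10 21 (S2 7 22 U (S3 3 22 (N 132) (P 22))) (S2 7 22 (S3 3 22 (S1 11 23 U (P 23)) (S1 11 23 U (P 23))) (S3 3 22 (S1 11 23 (S2 8 25 U (S2 9 28 U (S2 10 31 U (S2 11 34 U (S2 12 37 U (S3 5 37 (N 207) (S4 2 39 (N 117) (S2 13 40 U (P 40))))))))) (P 23)) (P 22))))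
def t225 : T := S4 1 18 (S1 9 19 (S2 6 19 U (S4 1 19 (S4 1 20 (N 399) (S2 7 22 U (S3 3 22 U (P 22)))) (S2 7 22 U (S3 3 22 (N 198) (P 22))))) (S2 6 19 (S4 1 19 (S4 1 20 (S1 10 21 U (S4 1 21 (S3 3 22 (N 418) (S4 1 22 (S1 11 23 U (S4 1 23 (S4 1 24 (S1 12 25 U (S4 1 25 (N 98) (S1 13 27 U (S1 14 29 U (S3 4 29 U (P 29)))))) (S1 12 25 U (S1 13 27 U (S1 14 29 U (S3 4 29 U (P 29)))))) (P 23))) (S1 11 23 U (P 23)))) (S3 3 22 (S1 11 23 U (P 23)) (S1 11 23 U (P 23))))) (S1 10 21 U (S3 3 22 (S1 11 23 U (P 23)) (S1 11 23 U (P 23))))) (S1 10 21 U (S3 3 22 (S1 11 23 U (P 23)) (S1 11 23 U (P 23))))) (S4 1 19 t224 (P 19)))) (S1 9 19 (S2 6 19 U (S2 7 22 U (S3 3 22 (S2 8 25 U (S2 9 28 U (S2 10 31 U (S2 11 34 U (S4 2 35 (S1 17 36 (N 315) (S2 12 37 U (S3 5 37 (N 192) (P 37)))) (S1 17 36 (S2 12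 37 U (S3 5 37 (N 288) (P 37))) (P 53))))))) (P 22)))) (S2 6 19 (S1 10 21 U (S3 3 22 (S1 11 23 U (P 23)) (S1 11 23 U (P 23)))) (P 19)))
def t226 : T := S4 1 16 (S1 8 17 (S4 1 17 (S4 1 18 (S2 6 19 U (S4 1 19 (N 189) (S2 7 22 U (S3 3 22 U (P 22))))) (S2 6 19 U (S2 7 22 U (S3 3 22 (N 51) (P 22))))) (S2 6 19 U (S2 7 22 U (S3 3 22 (S2 8 25 U (S2 9 28 U (S2 10 31 U (S1 15 32 (S4 2 33 (N 66) (S2 11 34 U (S2 12 37 U (S3 5 37 (N 96) (P 37))))) (S4 2 33 (S2 11 34 U (S2 12 37 U (S3 5 37 (N 429) (P 37)))) (S2 11 34 U (S2 12 37 U (S3 5 37 (S2 13 40 U (S2 14 43 U (S2 15 46 U (S1 23 49 (S2 16 49 U (S4 3 49 (N 147) (S2 17 52 U (S3 7 52 (S2 18 55 U (S2 19 58 U (S2 20 61 U (S2 21 64 U (S4 4 65 (N 438) (S2 22 67 U (S3 9 67 (S2 23 70 U (S2 24 73 U (S2 25 76 U (S2 26 79 U (S1 38 81 (S4 5 81 (N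 81) (S2 27 82 U (S3 11 82 (N 432) (P 82)))) (S4 5 81 (N 372) (S2 27 82 U (S3 11 82 (N 432) (P 82))))))))) (P 67)))))))) (P 52))))) (S2 16 49 U (S4 3 49 (S2 17 52 U (S3 7 52 (N 408) (P 52))) (P 49))))))) (P 37))))))))) (P 22))))) (S4 1 17 t225 (P 17))) (P 16)
def t227 : T := S3 2 15 (S4 1 15 (S2 5 16 (S4 1 16 (S1 8 17 U (S4 1 17 (S4 1 18 (S1 9 19 U (S4 1 19 (N 112) (S1 10 21 U (S1 11 23 U (S3 3 23 (N 144) (P 23)))))) (S1 9 19 U (S1 10 21 U (S1 11 23 U (S3 3 23 (S1 12 25 U (S1 13 27 U (S1 14 29 U (S2 9 29 (N 306) (S1 15 31 U (S3 4 31 (S1 16 33 U (S1 17 35 U (S4 2 35 (N 192) (S1 18 37 U (S1 19 39 U (S3 5 39 (N 272) (P 39))))))) (S1 16 33 U (S1 17 35 U (S4 2 35 (S1 18 37 U (S1 19 39 U (P 39))) (S1 18 37 U (S1 19 39 U (P 39)))))))))))) (P 23)))))) (P 17))) (S1 8 17 U (P 17))) (S4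 1 16 (S1 8 17 (N 240) (S4 1 17 (S4 1 18 (S1 9 19 U t216) (S1 9 19 (N 135) (S2 6 19 (S1 10 21 U (S1 11 23 U (S3 3 23 (S1 12 25 U (S1 13 27 U (S1 14 29 U (S1 15 31 U t218)))) (P 23)))) (P 19)))) (P 17))) (P 16))) (S2 5 16 (S1 8 17 U (P 17)) (P 16))) (S4 1 15 (S2 5 16 (S4 1 16 (S1 8 17 U (S4 1 17 (S4 1 18 (S1 9 19 U (S4 1 19 (S4 1 20 (S1 10 21 U (S4 1 21 (S3 3 22 U (S4 1 22 (S1 11 23 U (S4 1 23 (N 112) (P 23))) (S1 11 23 U (P 23)))) (S3 3 22 (N 80) (S1 11 23 U (P 23))))) (S1 10 21 U (S3 3 22 (S1 11 23 U (P 23)) (S1 11 23 U (P 23))))) (S1 10 21 U (S3 3 22 (S1 11 23 U (P 23)) (S1 11 23 U (P 23)))))) (S1 9 19 U (S1 10 21 U (S3 3 22 (S1 11 23 U (P 23)) (S1 11 23 U (P 23)))))) (P 17))) (S1 8 17 U (P 17))) t226) (P 15))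
def t228 : T := S1 6 13 (S2 4 13 U (S4 1 13 (S4 1 14 (S3 2 15 (N 195) (S4 1 15 (S2 5 16 U (S4 1 16 (S4 1 17 U (S2 6 19 U (S2 7 22 U (S3 3 22 U (P 22))))) (P 16))) (S2 5 16 U (P 16)))) (S3 2 15 (S2 5 16 U (P 16)) (S2 5 16 U (P 16)))) (S3 2 15 (S2 5 16 U (P 16)) (S2 5 16 (S3 3 22 U (S1 11 24 U (S4 2 25 U (S2 9 29 (N 119) (S3 4 29 U (P 29)))))) (P 16))))) (S2 4 13 (S4 1 13 (S4 1 14 (S1 7 15 U (S3 2 15 (S4 1 15 (S4 1 16 (S1 8 17 U (S4 1 17 (N 390) (P 17))) (S1 8 17 U (P 17))) (S1 8 17 U (P 17))) (S4 1 15 (S4 1 16 (S1 8 17 U (S4 1 17 t212 (P 17))) (S1 8 17 U (P 17))) (P 15)))) (S1 7 15 U (S3 2 15 (S1 8 17 U (P 17)) (P 15)))) (S1 7 15 (S3 2 15 U (S3 3 22 U (S2 7 23 U (S4 2 25 U (S1 13 28 (N 84) (S3 4 29 U (S2 11 36 (N 180) (S3 5 36 U (S4 3 37 (N 182) (P 37)))))))))) (S3 2 15 (S1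 8 17 U (P 17)) (P 15)))) (S4 1 13 (S4 1 14 (S1 7 15 (S3 2 15 (S4 1 15 (N 15) (S2 5 16 U (P 16))) (S4 1 15 (S2 5 16 U (S4 1 16 (S4 1 17 (S4 1 18 (N 90) (S2 6 19 U (S2 7 22 U (S3 3 22 U (P 22))))) (S2 6 19 U (S2 7 22 U (S3 3 22 (N 240) (P 22))))) (P 16))) (S2 5 16 U (P 16)))) t227) (S1 7 15 (S3 2 15 (S2 5 16 U (P 16)) (S2 5 16 (N 182) (P 16))) (S3 2 15 (S2 5 16 (S1 8 17 U (P 17)) (P 16)) (P 15)))) (P 13)))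
def t229 : T := S4 1 10 (S1 5 11 (S4 1 11 (S4 1 12 (S2 4 13 U (S4 1 13 (S4 1 14 (S3 2 15 U (S4 1 15 U (S2 5 16 U (P 16)))) (S3 2 15 (N 90) (S2 5 16 U (P 16)))) (S3 2 15 (S2 5 16 U (P 16)) (S2 5 16 U (P 16))))) (S2 4 13 U (S3 2 15 (S2 5 16 U (P 16)) (S2 5 16 (S1 9 20 U (S3 3 22 U (S4 2 23 U (P 23)))) (P 16))))) (S2 4 13 (S3 2 15 U (S1 9 20 (S4 2 21 U (S3 3 22 U (S2 7 23 U (P 23)))) (S4 2 21 (S3 3 22 U (S2 7 23 U (P 23))) (S3 3 22 (N 110) (S2 7 23 (S3 4 29 U (S1 14 31 (N 210) (S4 3 31 (N 154) (P 31)))) (P 23)))))) (S3 2 15 (S2 5 16 (S1 9 20 U (S4 2 21 U (S3 3 23 U (P 23)))) (P 16)) (P 23)))) (S4 1 11 (S4 1 12 t228 (S1 6 13 (S2 4 13 (S3 2 15 U (S3 3 22 U (S2 7 23 (S4 2 23 U (S1 11 24 U (P 24))) (S4 2 23 (N 91) (P 23))))) (S3 2 15 (S2 5 16 (N 195) (P 16)) (S2 5 16 (S3 3 22 (S4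 2 23 U (P 23)) (S4 2 23 (S1 11 24 (S2 9 29 (N 161) (S3 4 29 U (P 29))) (P 24)) (P 23))) (P 16)))) (P 24))) (P 11))) (P 10)
def t230 : T := S3 1 8 (S4 1 8 (S1 4 9 (S3 1 9 (S4 1 9 (N 9) (S2 3 10 U (S3 1 10 O3 (P 10)))) (S4 1 9 (S2 3 10 U (S4 1 10 (S4 1 11 U (S2 4 13 U (S1 7 16 U (S2 5 16 U (S3 2 17 U (S2 6 19 U (S4 2 21 (N 63) (S2 7 22 U (S1 11 25 (N 120) (S2 8 25 U (S3 3 25 U (P 25)))))))))))) (P 10))) (S2 3 10 U (P 10)))) t205) (S1 4 9 (S3 1 9 O3 (S2 3 10 (S4 2 15 (S1 7 16 U (S2 5 17 U (S3 2 17 O3 (P 17)))) O3) (P 10))) (S3 1 9 O3 (P 9)))) (S4 1 8 (S1 4 9 (S4 1 9 (S2 3 10 (N 63) (S4 1 10 t206 (P 10))) (S2 3 10 (S3 2 15 (S1 7 16 U (S2 5 17 U (S4 2 17 U (P 17)))) (S1 7 16 (S2 5 17 (N 112) (S4 2 17 (N 153) (P 17))) t207)) (P 10))) (S4 1 9 (S2 3 10 (S4 1 10 t211 (S1 5 11 (S3 2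 15 (N 90) (S2 5 17 (S4 2 19 U (S1 9 20 (N 153) (S3 3 22 U (S2 7 24 (S4 3 28 U (S3 4 29 U (P 29))) (P 38))))) (S4 2 19 (S1 9 20 (N 133) (S3 3 22 U (S2 8 27 (N 189) (S3 4 29 U (S4 3 29 (S1 14 31 (N 203) (P 31)) (P 29)))))) (S1 9 20 (S3 3 22 U (S2 8 27 (S4 3 28 U (S1 13 29 (N 189) (P 38))) (S4 3 28 (N 140) (S1 13 29 (S3 4 29 U (S3 5 36 (N 180) (S2 11 37 (N 252) (S4 4 37 (N 203) (P 37))))) (P 38))))) (P 38))))) (P 11))) t229) (P 9))) (P 8))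
def t231 : T := S4 1 9 (S4 1 10 (S2 3 11 (S3 2 11 U (S4 1 11 U (S1 5 12 U (P 12)))) (S3 2 11 U (S4 1 11 (S1 5 12 U (S4 1 12 U (P 12))) (P 11)))) (S2 3 11 (S3 2 11 U (S1 5 12 (S2 4 15 U (S3 3 16 U (S1 7 17 U (S4 2 19 U (S3 4 21 U (S2 7 26 U (S3 5 26 U (S4 3 28 U (S1 12 29 U (S3 6 31 U (S3 7 36 U (S2 10 37 (N 144) (S4 4 37 U (P 37)))))))))))))) (P 12))) (S3 2 11 (S1 5 12 U (P 12)) (P 11)))) (S2 3 11 (S3 2 11 (S1 5 12 U (P 12)) (S1 5 12 (S2 4 15 (S3 3 16 U (S1 7 17 (S4 2 17 U (S2 5 19 (S3 4 21 U (S1 9 22 U (S2 6 23 U (P 27)))) (S3 4 21 U (S1 9 22 (S4 3 25 U (S3 5 26 U (S1 11 27 (N 120) (P 27)))) (P 27))))) (S4 2 17 (S2 5 19 U (P 27)) (P 17)))) (S3 3 16 (S1 7 17 U (S4 2 17 U (P 17))) (S1 7 17 (S4 2 17 (S3 4 21 U (S1 9 22 (N 110) (P 27))) (S3 4 21 (S1 9 22 U (P 27)) (S1 9 22 (S4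 3 25 (S2 7 26 (N 100) (S3 5 26 U (P 26))) (S2 7 26 (S3 5 26 U (S1 11 27 (S3 6 31 U (S1 13 32 (S4 4 33 U (S3 7 36 U (S1 15 37 (N 360) (P 42)))) (P 42))) (P 27))) (S3 5 26 (N 88) (P 26)))) (P 27)))) (P 27)))) (P 12))) (S3 2 11 (S1 5 12 (S1 7 17 (S3 3 17 (N 119) (S4 2 17 U (S2 5 18 U (P 18)))) (S3 3 17 (S4 2 17 U (S2 5 18 U (P 18))) (S4 2 17 (S2 5 18 U (P 18)) (P 17)))) (P 12)) (P 11)))
def t232 : T := S4 1 10 (S3 2 11 (S4 1 11 (S1 5 12 U (S4 1 12 U (P 12))) (S1 5 12 (N 60) (P 12))) (S4 1 11 (S1 5 12 (S4 1 12 (N 60) (S3 3 16 U (S1 7 17 (S2 5 17 U (S3 4 21 U (S1 9 22 (N 110) (S4 2 23 (N 80) (S3 5 26 U (S2 8 27 (N 165) (P 27))))))) (S2 5 17 (S3 4 21 U (S4 2 23 U (S2 7 24 (N 120) (S3 5 26 U (S1 12 29 (N 275) (S3 6 31 U (S4 3 34 (N 170) (S3 7 36 U (S1 17 41 (N 340) (S2 12 41 (S3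 8 41 U (S4 4 45 (N 180) (S3 9 46 U (P 46)))) (S3 8 41 U (P 41)))))))))))) (P 17))))) (S4 1 12 (S4 1 13 (S4 1 14 (N 70) (S3 3 16 U (S2 5 17 (N 350) (P 17)))) (S3 3 16 (N 240) (S2 5 17 (S1 8 19 (N 95) (S3 4 21 U (S2 7 24 (S4 2 25 (S1 11 26 U (S3 5 26 U (P 26))) (S1 11 26 (N 120) (S3 5 26 U (P 26)))) (S4 2 25 (S1 11 26 U (S3 5 26 U (P 26))) (P 38))))) (P 17)))) (P 12))) (P 11))) (S3 2 11 (S1 5 12 (S1 7 17 (S2 5 17 (N 153) (S3 3 17 (N 153) (S4 2 19 (N 170) (S1 9 22 (S1 11 27 (S2 8 27 U (S3 5 28 U (S4 3 28 U (P 28)))) (S2 8 27 (N 198) (S3 5 28 (N 330) (S4 3 28 (N 110) (P 28))))) (S2 8 27 (S3 5 28 U (S4 3 28 U (P 28))) (S3 5 28 (S4 3 28 U (S2 11 37 (N 252) (S4 4 37 (N 240) (P 37)))) (S4 3 28 (S2 11 37 (N 121) (S1 16 39 (N 280) (S3 7 39 (N 233) (P 39)))) (P 28)))))))) (S2 5 17 (S3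 3 17 (N 153) (S4 2 19 (N 132) (S2 7 24 (S3 5 28 (N 72) (S4 3 28 U (P 28))) (S3 5 28 (S4 3 28 U (S1 12 29 U (P 29))) (S4 3 28 (S1 12 29 U (P 29)) (P 28)))))) (S3 3 17 (S4 2 19 (N 170) (S3 4 23 (S2 8 27 (N 108) (S4 3 28 U (S1 12 29 (N 270) (S3 5 29 (S3 6 35 (N 180) (S2 11 37 U (S4 4 37 U (P 37)))) (P 29))))) (S2 8 27 (S4 3 28 U (S1 12 29 U (P 29))) (S4 3 28 (S1 12 29 U (P 29)) (S1 12 29 (S2 11 37 (N 198) (S4 4 37 (N 203) (P 37))) (P 29)))))) (P 17)))) (P 12)) (P 11))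
def t233 : T := S2 4 13 (S4 1 13 U (S3 3 17 U (P 17))) (S4 1 13 (S4 1 14 (S4 1 15 (S2 5 16 U (S4 1 16 (S3 3 17 (S4 1 17 U (S1 8 19 U (S2 6 19 U (P 19)))) (S4 1 17 (S4 1 18 (N 126) (S1 8 19 U (S2 6 19 U (P 19)))) (P 17))) (S3 3 17 (S1 8 19 U (S2 6 19 U (P 19))) (P 17)))) (S2 5 16 U (S3 3 17 (S1 8 19 (S2 6 19 U (S2 7 22 U (S3 4 23 (S2 8 25 U (S2 9 28 U (S3 5 29 (N 168) (S4 2 29 U (P 29))))) (S2 8 25 U (S2 9 28 U (S4 2 29 (S1 13 31 (N 174) (S2 10 31 U (P 31))) (P 29))))))) (S2 6 19 U (P 19))) (P 17)))) (S2 5 16 (S3 3 17 U (P 17)) (S3 3 17 (S1 8 19 (S2 6 19 U (S2 7 22 U (S3 4 23 (S2 8 25 U (S4 2 27 (S2 9 28 U (S3 5 29 (S1 13 31 (N 81) (S2 10 31 U (P 31))) (P 29))) (S2 9 28 U (S3 5 29 (S1 13 31 (S2 10 31 U (S2 11 34 U (S3 6 35 (S2 12 37 U (S2 13 40 U (S4 3 40 (N 93) (S3 7 41 (S1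 18 43 (N 117) (S2 14 43 U (P 43))) (P 41))))) (P 41)))) (S2 10 31 U (P 31))) (P 29))))) (P 29)))) (S2 6 19 U (P 19))) (P 17)))) (P 13))
def t234 : T := S4 1 11 (S1 5 12 (S4 1 12 (S2 4 13 U (S4 1 13 (S4 1 14 (S4 1 15 (N 60) (S2 5 16 U (S1 7 17 (N 126) (S3 3 17 (N 84) (P 17))))) (S2 5 16 U (S1 7 17 (S3 3 17 (N 51) (S2 6 19 U (S1 9 22 (S2 7 22 U (S2 8 25 U (S1 11 27 (N 297) (S4 2 27 (N 66) (S2 9 28 U (S3 5 28 (N 39) (P 28))))))) (S2 7 22 U (S2 8 25 U (S4 2 27 (S2 9 28 U (S3 5 28 U (P 28))) (S2 9 28 U (S3 5 28 (S2 10 31 U (S2 11 34 U (S2 12 37 U (S1 16 39 (N 39) (S2 13 40 U (S4 3 40 (N 240) (P 40))))))) (P 28))))))))) (S3 3 17 (S2 6 19 U (S2 7 22 U (S3 4 23 (S2 8 25 U (S4 2 27 (N 108) (S2 9 28 U (S1 12 29 (N 195) (S3 5 29 (N 156) (P 29)))))) (S2 8 25 U (S4 2 27 (S2 9 28 U (S1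 12 29 U (P 29))) (S2 9 28 U (S1 12 29 (S2 10 31 U (S2 11 34 U (S2 12 37 U (S2 13 40 U (S3 7 40 (N 234) (S4 3 40 (N 186) (P 40))))))) (P 29)))))))) (P 17))))) (P 13))) (S2 4 13 U (P 13))) (S4 1 12 t233 (P 12))) (S1 5 12 (S2 4 13 (S1 7 17 (S3 3 17 U (S4 2 21 U (S1 9 22 (N 110) (S2 7 23 (N 170) (P 23))))) (S3 3 17 (S4 2 21 U (S2 7 23 U (S3 4 23 (N 120) (P 23)))) (P 17))) (P 13)) (P 12))
def t235 : T := S2 7 22 U (S2 8 25 U (S3 5 26 U (S1 11 27 (S2 9 28 U (S2 10 31 U (S3 6 31 U (S1 13 32 (S4 2 33 (S2 11 34 U (S3 7 36 U (S1 15 37 (N 165) (S2 12 37 U (P 37))))) (S2 11 34 U (S3 7 36 U (S1 15 37 (S2 12 37 U (S2 13 40 U (S3 8 41 U (S1 17 42 (S2 14 43 U (S2 15 46 U (S3 9 46 U (S1 19 47 (S2 16 49 U (S4 3 49 (N 195) (S3 10 51 U (S1 21 52 (N 240) (S2 17 52 U (P 52)))))) (S2 16 49 U (S4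 3 49 (N 195) (S3 10 51 U (S2 17 52 U (P 52))))))))) (S2 14 43 U (S2 15 46 U (S3 9 46 U (S2 16 49 U (S4 3 49 (S3 10 51 U (S2 17 52 U (P 52))) (S3 10 51 U (S2 17 52 U (P 52)))))))))))) (S2 12 37 U (P 37)))))) (S4 2 33 (S2 11 34 U (S3 7 36 U (S2 12 37 U (P 37)))) (S2 11 34 U (S3 7 36 U (S2 12 37 U (P 37))))))))) (S2 9 28 U (S2 10 31 U (S3 6 31 (N 144) (S4 2 33 (S2 11 34 U (S3 7 36 U (S2 12 37 U (P 37)))) (S2 11 34 U (S3 7 36 (N 144) (S2 12 37 U (P 37)))))))))))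
def t236 : T := S4 1 15 (S2 5 16 U (S3 3 16 (S4 1 16 (N 48) (S1 7 17 (N 165) (P 17))) (S4 1 16 (S1 7 17 (S4 1 17 (S4 1 18 (S2 6 19 U (S4 1 19 U (S3 4 21 U (S1 9 22 (N 90) (S2 7 22 U (P 22)))))) (S2 6 19 U (S3 4 21 U (S1 9 22 (S2 7 22 U (S2 8 25 U (S3 5 26 U (S1 11 27 (N 135) (S2 9 28 U (S2 10 31 U (S3 6 31 U (S2 11 34 U (S4 2 35 (N 105) (S3 7 36 U (S2 12 37 U (P 37)))))))))))) (S2 7 22 U (P 22)))))) (S2 6 19 U (S3 4 21 (N 63) (S1 9 22 t235 (S2 7 22 U (P 22)))))) (S4 1 17 (S4 1 18 (S2 6 19 U (S4 1 19 (S4 1 20 (N 60) (S3 4 21 U (S2 7 22 U (P 22)))) (S3 4 21 U (S2 7 22 U (P 22))))) (S2 6 19 U (S3 4 21 (N 84) (S2 7 22 U (P 22))))) (P 17))) (P 16)))) (S2 5 16 (S3 3 16 U (S1 7 17 U (P 17))) (S3 3 16 (S1 7 17 (S2 6 19 U (S1 9 22 (S2 7 22 U (S2 8 25 U (S1 11 27 (N 336) (S3 5 27 (N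 210) (S2 9 28 U (S4 2 29 (N 144) (S2 10 31 U (S2 11 34 U (S2 12 37 U (S2 13 40 U (S2 14 43 U (S3 8 43 (N 462) (S4 3 43 (S2 15 46 U (S1 20 49 (N 186) (S2 16 49 U (P 49)))) (P 43)))))))))))))) (S2 7 22 U (P 22)))) (P 17)) (P 16)))
def t237 : T := S4 1 12 (S2 4 13 (S4 1 13 (S4 1 14 U (S3 3 16 U (S1 7 17 U (P 17)))) (S3 3 16 U (S1 7 17 (S3 4 21 U (S1 9 22 (S2 7 23 U (S4 2 25 U (S3 5 26 U (S1 11 27 (N 120) (P 27))))) (P 27))) (P 17)))) (S4 1 13 (S4 1 14 t236 (S2 5 16 (S3 3 16 U (S1 7 17 (S3 4 21 U (S1 9 22 (N 195) (S3 5 26 U (S4 2 27 (N 80) (P 27))))) (P 17))) (S3 3 16 (S1 7 17 (S2 6 19 U (S1 9 22 (S2 7 22 U (S2 8 25 U (S1 11 27 (S3 5 27 (S4 2 27 (N 27) (S2 9 28 U (P 28))) (S4 2 27 (S2 9 28 U (P 28)) (S2 9 28 U (P 28)))) (S3 5 27 (S4 2 27 (S2 9 28 U (P 28)) (S2 9 28 U (P 28)))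 (S4 2 27 (S2 9 28 U (P 28)) (P 27)))))) (S2 7 22 U (P 22)))) (P 17)) (P 16)))) (P 13))) (S2 4 13 (S3 3 16 (S1 7 17 (N 143) (P 17)) (S1 7 17 (S3 4 21 (S1 9 22 (N 110) (P 27)) (S1 9 22 (S2 7 23 (S4 2 23 (S3 5 26 U (S1 11 27 (N 115) (P 27))) (S3 5 26 U (S1 11 27 (S3 6 31 U (S1 13 32 (S2 10 33 (S4 3 34 U (S3 7 36 U (S1 15 37 (N 165) (P 37)))) (S4 3 34 (N 305) (S3 7 36 U (S1 15 37 (S3 8 41 U (S1 17 42 (S4 4 45 (N 180) (S3 9 46 U (S1 19 47 (N 220) (P 47)))) (P 47))) (P 37))))) (P 37))) (P 27)))) (S4 2 23 (S3 5 26 U (S1 11 27 (S3 6 31 U (S1 13 32 (S4 3 35 (N 315) (S2 11 36 (N 160) (S3 7 36 U (P 36)))) (P 37))) (P 27))) (P 23))) (P 27))) (P 17))) (P 13))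
def t238 : T := S4 1 18 (S1 8 19 (S2 6 19 U (S4 1 19 (S4 1 20 (S3 4 21 U (S4 1 21 (S2 7 22 U (S4 1 22 (N 285) (P 22))) (S2 7 22 U (P 22)))) (S3 4 21 U (S2 7 22 U (P 22)))) (S3 4 21 (S2 7 22 U (P 22)) (S2 7 22 U (P 22))))) (S2 6 19 (S4 1 19 U (S3 4 21 U (S1 11 26 U (S3 5 26 U (P 26))))) (S4 1 19 (S4 1 20 (S3 4 21 (S4 1 21 (N 21) (S2 7 22 U (P 22))) (S4 1 21 (S2 7 22 U (S4 1 22 (S4 1 23 (S4 1 24 (S2 8 25 U (S4 1 25 (S1 11 26 U (S3 5 26 U (S4 1 26 (S4 1 27 (N 105) (S2 9 28 U (S2 10 31 U (S3 6 31 U (P 31))))) (P 26)))) (S1 11 26 (N 120) (S3 5 26 U (P 26))))) (S2 8 25 U (S1 11 26 (N 345) (S3 5 26 U (P 26))))) (S2 8 25 U (S1 11 26 (S3 5 26 U (S2 9 28 U (S2 10 31 U (S3 6 31 U (P 31))))) (S3 5 26 (N 462) (P 26))))) (P 22))) (S2 7 22 U (P 22)))) (S3 4 21 (S2 7 22 U (P 22)) (S2 7 22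 (N 245) (P 22)))) (P 19)))) (S1 8 19 (S2 6 19 U (S3 4 21 (S2 7 22 U (P 22)) (S2 7 22 (N 135) (P 22)))) (S2 6 19 (S3 4 21 U (S1 11 26 U (S3 5 26 U (P 26)))) (P 19)))
def t239 : T := S4 1 16 (S1 8 17 U (S3 3 17 (S4 1 17 (S4 1 18 (N 90) (S1 9 19 U (S2 5 19 (N 34) (P 19)))) (S1 9 19 U (S2 5 19 (S1 10 21 U (S1 11 23 U (S2 6 23 (N 272) (S3 4 23 (N 224) (P 23))))) (P 19)))) (S4 1 17 (S4 1 18 (S1 9 19 U (S2 5 19 (S4 1 19 U (S1 10 21 U (S1 11 23 U (S2 6 23 (N 88) (P 23))))) (S4 1 19 (S4 1 20 (N 60) (S1 10 21 U (S1 11 23 U (P 23)))) (P 19)))) (S1 9 19 U (S2 5 19 (S1 10 21 U (S1 11 23 U (S2 6 23 (S1 12 25 U (S1 13 27 U (S2 7 27 (N 374) (S3 5 28 (N 84) (S1 14 29 U (S1 15 31 U (S1 16 33 U (S1 17 35 U (S4 2 35 (S1 18 37 U (S1 19 39 U (S3 7 39 U (P 39)))) (P 35)))))))))) (P 23)))) (P 19))))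 (P 17)))) (S1 8 17 U (S3 3 17 (S1 9 19 U (S2 5 19 (S1 10 21 U (S1 11 23 U (S2 6 23 (S3 4 23 (S1 12 25 U (S1 13 27 U (S2 7 27 (N 270) (S1 14 29 U (S3 5 29 (S1 15 31 U (S4 2 31 U (P 31))) (S1 15 31 U (S4 2 31 (N 46) (P 31)))))))) (S1 12 25 U (S1 13 27 U (S2 7 27 (S1 14 29 U (S1 15 31 U (S2 8 31 (S4 2 31 (N 62) (S1 16 33 U (S1 17 35 U (S2 9 35 (S1 18 37 U (S1 19 39 U (S2 10 39 (N 300) (S3 7 40 (N 120) (S1 20 41 U (S1 21 43 U (S1 22 45 U (S4 3 46 (N 136) (S1 23 47 U (P 47)))))))))) (P 35))))) (S4 2 31 (S1 16 33 U (S1 17 35 U (P 35))) (P 31))))) (S1 14 29 U (S1 15 31 U (S4 2 31 (S1 16 33 U (S1 17 35 U (P 35))) (P 31)))))))) (S3 4 23 (S1 12 25 U (S1 13 27 U (S1 14 29 U (S3 5 29 (S1 15 31 U (S4 2 31 (S1 16 33 U (S1 17 35 U (S3 6 35 (N 186) (P 35)))) (P 31))) (S1 15 31 U (S4 2 31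 (S1 16 33 U (S1 17 35 U (P 35))) (P 31))))))) (P 23))))) (P 19))) (P 17)))
def t240 : T := S2 10 39 (S3 7 40 (S1 20 41 U (S1 21 43 U (S2 11 43 (S4 3 44 (N 160) (S1 22 45 U (S1 23 47 U (S2 12 47 (N 188) (P 47))))) (S4 3 44 (N 234) (S1 22 45 U (S1 23 47 U (P 47))))))) (S1 20 41 U (S1 21 43 U (S2 11 43 (S4 3 44 (S1 22 45 U (S1 23 47 U (S2 12 47 (S1 24 49 U (S1 25 51 U (S2 13 51 (N 102) (S1 26 53 U (S1 27 55 U (S1 28 57 U (S3 10 57 (N 176) (S1 29 59 U (S4 4 59 (N 368) (P 59)))))))))) (P 47)))) (S1 22 45 U (S1 23 47 U (S2 12 47 (S1 24 49 U (S1 25 51 U (S2 13 51 (S1 26 53 U (S1 27 55 U (S2 14 55 (S1 28 57 U (S3 10 57 (N 188) (S1 29 59 U (S2 15 59 (N 232) (P 59))))) (S1 28 57 U (S3 10 57 (N 188) (S1 29 59 U (P 59))))))) (S1 26 53 U (S1 27 55 U (S1 28 57 U (S3 10 57 (N 188) (S1 29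 59 U (P 59))))))))) (P 47))))) (S4 3 44 (S1 22 45 U (S1 23 47 U (P 47))) (S1 22 45 U (S1 23 47 U (P 47)))))))) (S3 7 40 (S1 20 41 U (S1 21 43 U (S4 3 44 (S1 22 45 U (S1 23 47 U (P 47))) (S1 22 45 U (S1 23 47 U (P 47)))))) (S1 20 41 U (S1 21 43 U (S4 3 44 (S1 22 45 U (S1 23 47 U (P 47))) (S1 22 45 U (S1 23 47 U (P 47)))))))
def t241 : T := S3 4 23 (S1 12 25 U (S1 13 27 U (S2 7 27 (S1 14 29 U (S3 5 29 (S4 2 29 (S1 15 31 U (S2 8 31 (N 58) (P 31))) (S1 15 31 U (S2 8 31 (S1 16 33 U (S1 17 35 U (S2 9 35 (S3 6 35 (N 70) (S1 18 37 U (S1 19 39 U (S2 10 39 (S1 20 41 U (S1 21 43 U (S2 11 43 (N 168) (S4 3 43 (N 156) (P 43))))) (S1 20 41 U (S1 21 43 U (S4 3 43 (N 272) (P 43)))))))) (S3 6 35 (S1 18 37 U (S1 19 39 U (S1 20 41 U (S3 7 41 (S1 21 43 U (S4 3 43 (N 186) (P 43))) (S1 21 43 U (S4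 3 43 (N 186) (P 43))))))) (P 35))))) (P 31)))) (S4 2 29 (S1 15 31 U (S2 8 31 (S1 16 33 U (S1 17 35 U (S2 9 35 (S1 18 37 U (S1 19 39 U (S2 10 39 (N 230) (S1 20 41 U (S1 21 43 U (S4 3 44 (N 132) (S1 22 45 U (S1 23 47 U (P 47))))))))) (P 35)))) (P 31))) (P 29)))) (S1 14 29 U (S3 5 29 (S4 2 29 (S1 15 31 U (P 31)) (S1 15 31 U (P 31))) (S4 2 29 (S1 15 31 U (P 31)) (P 29))))))) (S1 12 25 U (S1 13 27 U (S2 7 27 (S1 14 29 U (S4 2 29 (S1 15 31 U (S2 8 31 (S1 16 33 U (S1 17 35 U (S2 9 35 (S1 18 37 U (S1 19 39 U t240)) (P 35)))) (P 31))) (P 29))) (S1 14 29 U (S4 2 29 (S1 15 31 U (P 31)) (P 29))))))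
def t242 : T := S3 6 35 (S1 18 37 U (S1 19 39 U (S2 10 39 (S1 20 41 U (S3 7 41 (S4 3 41 (S1 21 43 U (S2 11 43 (N 82) (P 43))) (S1 21 43 U (S2 11 43 (S1 22 45 U (S1 23 47 U (S2 12 47 (S3 8 47 (N 94) (S1 24 49 U (S1 25 51 U (S2 13 51 (N 404) (S1 26 53 U (S1 27 55 U (P 55))))))) (S3 8 47 (S1 24 49 U (S1 25 51 U (S1 26 53 U (S3 9 53 (N 418) (S1 27 55 U (P 55)))))) (P 47))))) (P 43)))) (S4 3 41 (S1 21 43 U (S2 11 43 (S1 22 45 U (S1 23 47 U (S2 12 47 (S1 24 49 U (S1 25 51 U (S2 13 51 (N 204) (S1 26 53 U (S1 27 55 U (S4 4 55 (N 274) (P 55))))))) (P 47)))) (P 43))) (P 41)))) (S1 20 41 U (S3 7 41 (S4 3 41 (S1 21 43 U (P 43)) (S1 21 43 U (P 43))) (S4 3 41 (S1 21 43 U (P 43)) (P 41))))))) (S1 18 37 U (S1 19 39 U (S2 10 39 (S1 20 41 U (S4 3 41 (S1 21 43 U (S2 11 43 (S1 22 45 U (S1 23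 47 U (S2 12 47 (S1 24 49 U (S1 25 51 U (S2 13 51 (S1 26 53 U (S1 27 55 U (S2 14 55 (S4 4 55 (N 110) (S1 28 57 U (S1 29 59 U (S2 15 59 (N 232) (P 59))))) (S4 4 55 (S1 28 57 U (S1 29 59 U (P 59))) (P 55))))) (S1 26 53 U (S1 27 55 U (S4 4 55 (S1 28 57 U (S1 29 59 U (P 59))) (P 55))))))) (P 47)))) (P 43))) (P 41))) (S1 20 41 U (S4 3 41 (S1 21 43 U (P 43)) (P 41))))))
def t243 : T := S2 15 59 (S3 10 59 (S1 30 61 U (S1 31 63 U (S2 16 63 (S1 32 65 U (S3 11 65 (S4 5 66 (N 118) (S1 33 67 U (S2 17 67 (N 130) (P 67)))) (S4 5 66 (N 118) (S1 33 67 U (S2 17 67 (S1 34 69 U (S1 35 71 U (S2 18 71 (S1 36 73 U (S1 37 75 U (S2 19 75 (N 442) (S1 38 77 U (S1 39 79 U (S4 6 79 (N 118) (P 79))))))) (P 71)))) (P 67)))))) (S1 32 65 U (S3 11 65 (S4 5 66 (N 118) (S1 33 67 U (P 67))) (S4 5 66 (N 118) (S1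 33 67 U (P 67)))))))) (S1 30 61 U (S1 31 63 U (S2 16 63 (S1 32 65 U (S4 5 66 (S1 33 67 U (S2 17 67 (N 264) (P 67))) (S1 33 67 U (S2 17 67 (S1 34 69 U (S1 35 71 U (S2 18 71 (S1 36 73 U (S1 37 75 U (S2 19 75 (S1 38 77 U (S1 39 79 U (S2 20 79 (N 312) (S4 6 79 (N 276) (P 79))))) (S1 38 77 U (S1 39 79 U (S4 6 79 (N 276) (P 79))))))) (P 71)))) (P 67))))) (S1 32 65 U (S4 5 66 (S1 33 67 U (P 67)) (S1 33 67 U (P 67)))))))) (S3 10 59 (S1 30 61 U (S1 31 63 U (S1 32 65 U (S3 11 65 (S4 5 66 (N 330) (S1 33 67 U (P 67))) (S4 5 66 (N 330) (S1 33 67 U (P 67))))))) (P 59))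
def t244 : T := S2 12 47 (S3 8 47 (S1 24 49 U (S1 25 51 U (S2 13 51 (S1 26 53 U (S3 9 53 (S4 4 53 (S1 27 55 U (S2 14 55 (N 106) (P 55))) (S1 27 55 U (S2 14 55 (S1 28 57 U (S1 29 59 U t243)) (P 55)))) (S4 4 53 (S1 27 55 U (S2 14 55 (S1 28 57 U (S1 29 59 U (S2 15 59 (S1 30 61 U (S1 31 63 U (S2 16 63 (N 370) (S1 32 65 U (S1 33 67 U (P 67)))))) (P 59)))) (P 55))) (P 53)))) (S1 26 53 U (S3 9 53 (S4 4 53 (S1 27 55 U (P 55)) (S1 27 55 U (P 55))) (S4 4 53 (S1 27 55 U (P 55)) (P 53))))))) (S1 24 49 U (S1 25 51 U (S2 13 51 (S1 26 53 U (S4 4 53 (S1 27 55 U (S2 14 55 (S1 28 57 U (S1 29 59 U (S2 15 59 (S1 30 61 U (S1 31 63 U (S2 16 63 (S1 32 65 U (S1 33 67 U (S2 17 67 (S1 34 69 U (S1 35 71 U (S2 18 71 (N 410) (P 71)))) (P 67)))) (S1 32 65 U (S1 33 67 U (P 67)))))) (P 59)))) (P 55))) (P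 53))) (S1 26 53 U (S4 4 53 (S1 27 55 U (P 55)) (P 53))))))) (S3 8 47 (S1 24 49 U (S1 25 51 U (S1 26 53 U (S3 9 53 (S4 4 53 (S1 27 55 U (P 55)) (S1 27 55 U (P 55))) (S4 4 53 (S1 27 55 U (P 55)) (P 53)))))) (P 47))
def t245 : T := S2 10 39 (S4 3 40 (S1 20 41 U (S3 7 41 (S1 21 43 U (S2 11 43 (S1 22 45 U (S1 23 47 U (S2 12 47 (S3 8 47 (S1 24 49 U (S1 25 51 U (S2 13 51 (S1 26 53 U (S3 9 53 (N 200) (S1 27 55 U (S2 14 55 (N 440) (P 55))))) (S1 26 53 U (S3 9 53 (S1 27 55 U (P 55)) (S1 27 55 U (P 55))))))) (S1 24 49 U (S1 25 51 U (S2 13 51 (S1 26 53 U (S1 27 55 U (S2 14 55 (S1 28 57 U (S1 29 59 U (S2 15 59 (S1 30 61 U (S1 31 63 U (S2 16 63 (N 240) (S1 32 65 U (S1 33 67 U (S4 5 67 (S1 34 69 U (S1 35 71 U (P 71))) (P 67))))))) (P 59)))) (P 55)))) (S1 26 53 U (S1 27 55 U (P 55)))))))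 (S3 8 47 (S1 24 49 U (S1 25 51 U (S1 26 53 U (S3 9 53 (S1 27 55 U (P 55)) (S1 27 55 U (P 55)))))) (P 47))))) (P 43))) (P 41))) (S1 20 41 U (S3 7 41 (S1 21 43 U (S2 11 43 (S1 22 45 U (S1 23 47 U t244)) (P 43))) (P 41)))) (S4 3 40 (S1 20 41 U (S3 7 41 (S1 21 43 U (P 43)) (P 41))) (S1 20 41 U (S3 7 41 (S1 21 43 U (P 43)) (P 41))))
def t246 : T := S3 4 23 (S1 12 25 U (S1 13 27 U (S2 7 27 (S4 2 27 (S1 14 29 U (S3 5 29 (S1 15 31 U (S2 8 31 (S1 16 33 U (S1 17 35 U (S2 9 35 t242 (S3 6 35 (S1 18 37 U (S1 19 39 U (S1 20 41 U (S3 7 41 (S4 3 41 (S1 21 43 U (P 43)) (S1 21 43 U (P 43))) (S4 3 41 (S1 21 43 U (P 43)) (P 41)))))) (P 35))))) (P 31))) (P 29))) (S1 14 29 U (S3 5 29 (S1 15 31 U (S2 8 31 (S1 16 33 U (S1 17 35 U (S2 9 35 (S3 6 35 (S1 18 37 U (S1 19 39 U t245)) (S1 18 37 U (S1 19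 39 U (S2 10 39 (S4 3 40 (S1 20 41 U (P 41)) (S1 20 41 U (P 41))) (S4 3 40 (S1 20 41 U (P 41)) (S1 20 41 U (P 41))))))) (S3 6 35 (S1 18 37 U (S1 19 39 U (S4 3 40 (S1 20 41 U (S3 7 41 (S1 21 43 U (P 43)) (P 41))) (S1 20 41 U (S3 7 41 (S1 21 43 U (P 43)) (P 41)))))) (P 35))))) (P 31))) (P 29)))) (S4 2 27 (S1 14 29 U (S3 5 29 (S1 15 31 U (P 31)) (P 29))) (P 27))))) (S1 12 25 U (S1 13 27 U (S2 7 27 (S4 2 27 (S1 14 29 U (P 29)) (S1 14 29 U (P 29))) (S4 2 27 (S1 14 29 U (P 29)) (P 27)))))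
def t247 : T := S4 1 14 (S1 7 15 U (S2 4 15 (S4 1 15 t239 (S1 8 17 U (S3 3 17 (S1 9 19 U (S2 5 19 (S1 10 21 U (S1 11 23 U (S2 6 23 t241 (S3 4 23 (S1 12 25 U (S1 13 27 U (S1 14 29 U (S3 5 29 (S4 2 29 (S1 15 31 U (P 31)) (S1 15 31 U (P 31))) (S4 2 29 (S1 15 31 U (P 31)) (P 29)))))) (P 23))))) (P 19))) (P 17)))) (S4 1 15 (S4 1 16 (S1 8 17 U (S3 3 17 (S4 1 17 (S4 1 18 (S1 9 19 U (S4 1 19 (S4 1 20 (N 198) (S1 10 21 U (S1 11 23 U (S3 4 23 (N 132) (P 23))))) (P 19))) (S1 9 19 U (P 19))) (S1 9 19 U (P 19))) (S4 1 17 (S4 1 18 (S1 9 19 U (S4 1 19 (S4 1 20 (S1 10 21 U (S4 1 21 (S4 1 22 (N 22) (S1 11 23 U (P 23))) (S1 11 23 U (P 23)))) (S1 10 21 U (S1 11 23 U (P 23)))) (P 19))) (S1 9 19 U (P 19))) (P 17)))) (S1 8 17 U (S3 3 17 (S1 9 19 U (P 19)) (P 17)))) (P 15)))) (S1 7 15 (N 77) (S2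 4 15 (S1 8 17 U (S3 3 17 (S1 9 19 U (S2 5 19 (S1 10 21 U (S1 11 23 U (S2 6 23 t246 (S3 4 23 (S1 12 25 U (S1 13 27 U (S4 2 27 (S1 14 29 U (S3 5 29 (S1 15 31 U (P 31)) (P 29))) (P 27)))) (P 23))))) (P 19))) (P 17))) (P 15)))
def t248 : T := S2 5 19 (S4 1 19 (S4 1 20 (S1 10 21 U (S4 1 21 (N 144) (S1 11 23 U (S2 6 23 (N 80) (P 23))))) (S1 10 21 U (S1 11 23 U (S2 6 23 (S1 12 25 U (S1 13 27 U (S2 7 27 (N 208) (S3 5 27 (N 226) (P 27))))) (P 23))))) (S1 10 21 U (S1 11 23 U (S2 6 23 (S1 12 25 U (S1 13 27 U (S2 7 27 (S3 5 27 (N 54) (S1 14 29 U (S1 15 31 U (S2 8 31 (S1 16 33 U (S1 17 35 U (S2 9 35 (S1 18 37 U (S4 2 37 (N 128) (S1 19 39 U (S2 10 39 (N 144) (P 39))))) (S1 18 37 U (S4 2 37 (N 240) (S1 19 39 U (P 39))))))) (S1 16 33 U (S1 17 35 U (S1 18 37 U (S4 2 37 (S1 19 39 U (P 39))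 (S1 19 39 U (P 39)))))))))) (S3 5 27 (S1 14 29 U (S1 15 31 U (S1 16 33 U (S1 17 35 U (S1 18 37 U (S4 2 37 (S3 7 38 (N 92) (S1 19 39 U (P 39))) (S3 7 38 (S1 19 39 U (P 39)) (S1 19 39 U (P 39))))))))) (P 27))))) (P 23))))) (S4 1 19 (S4 1 20 (S1 10 21 U (S4 1 21 (S4 1 22 (N 176) (S1 11 23 U (P 23))) (S1 11 23 U (P 23)))) (S1 10 21 U (S1 11 23 U (P 23)))) (P 19))
def t249 : T := S3 8 43 (S1 22 45 U (S1 23 47 U (S2 12 47 (S1 24 49 U (S1 25 51 U (S2 13 51 (N 102) (S4 3 52 (N 86) (S1 26 53 U (S1 27 55 U (P 55))))))) (S1 24 49 U (S1 25 51 U (S4 3 52 (N 86) (S1 26 53 U (S1 27 55 U (P 55))))))))) (S1 22 45 U (S1 23 47 U (S2 12 47 (S1 24 49 U (S1 25 51 U (S2 13 51 (S4 3 52 (S1 26 53 U (S1 27 55 U (S2 14 55 (N 208) (P 55)))) (S1 26 53 U (S1 27 55 U (S2 14 55 (S1 28 57 U (S1 29 59 U (S2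 15 59 (S3 11 59 (N 118) (S1 30 61 U (S1 31 63 U (S2 16 63 (S1 32 65 U (S1 33 67 U (S2 17 67 (S1 34 69 U (S4 4 69 (N 224) (S1 35 71 U (S2 18 71 (N 272) (P 71))))) (S1 34 69 U (S4 4 69 (N 224) (S1 35 71 U (P 71))))))) (S1 32 65 U (S1 33 67 U (S1 34 69 U (S4 4 69 (N 224) (S1 35 71 U (P 71)))))))))) (S3 11 59 (S1 30 61 U (S1 31 63 U (S1 32 65 U (S1 33 67 U (S1 34 69 U (S4 4 69 (N 310) (S1 35 71 U (P 71)))))))) (P 59))))) (P 55))))) (S4 3 52 (S1 26 53 U (S1 27 55 U (P 55))) (S1 26 53 U (S1 27 55 U (P 55))))))) (S1 24 49 U (S1 25 51 U (S4 3 52 (S1 26 53 U (S1 27 55 U (P 55))) (S1 26 53 U (S1 27 55 U (P 55)))))))))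
def t250 : T := S1 15 31 U (S2 8 31 (S1 16 33 U (S1 17 35 U (S2 9 35 (S4 2 35 (S1 18 37 U (S1 19 39 U (S2 10 39 (S1 20 41 U (S1 21 43 U (S2 11 43 (S3 8 43 (N 86) (S1 22 45 U (S1 23 47 U (S2 12 47 (S1 24 49 U (S1 25 51 U (S2 13 51 (N 192) (S1 26 53 U (S4 3 53 (N 176) (S1 27 55 U (P 55))))))) (S1 24 49 U (S1 25 51 U (S1 26 53 U (S4 3 53 (S1 27 55 U (P 55)) (S1 27 55 U (P 55)))))))))) (S3 8 43 (S1 22 45 U (S1 23 47 U (S1 24 49 U (S1 25 51 U (S1 26 53 U (S4 3 53 (N 300) (S1 27 55 U (P 55)))))))) (P 43))))) (P 39)))) (S1 18 37 U (S1 19 39 U (S2 10 39 (S1 20 41 U (S1 21 43 U (S2 11 43 t249 (S3 8 43 (S1 22 45 U (S1 23 47 U (S1 24 49 U (S1 25 51 U (S4 3 52 (S1 26 53 U (S1 27 55 U (P 55))) (S1 26 53 U (S1 27 55 U (P 55)))))))) (P 43))))) (P 39))))) (S4 2 35 (S1 18 37 U (S1 19 39 U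 (P 39))) (P 35))))) (S1 16 33 U (S1 17 35 U (S4 2 35 (S1 18 37 U (S1 19 39 U (P 39))) (P 35)))))
def t251 : T := S4 1 16 (S1 8 17 U (S4 1 17 (S4 1 18 (S1 9 19 U t248) (S1 9 19 U (S2 5 19 (S1 10 21 U (S1 11 23 U (S2 6 23 (S1 12 25 U (S1 13 27 U (S2 7 27 (S3 5 27 (S1 14 29 U (S1 15 31 U (S2 8 31 (S1 16 33 U (S1 17 35 U (S2 9 35 (S4 2 35 (N 70) (S1 18 37 U (S3 7 38 (S1 19 39 U (S2 10 39 (N 152) (P 39))) (S1 19 39 U (S2 10 39 (S1 20 41 U (S1 21 43 U (S2 11 43 (N 340) (S1 22 45 U (S1 23 47 U (S1 24 49 U (S1 25 51 U (S4 3 52 (N 156) (S1 26 53 U (S1 27 55 U (P 55))))))))))) (P 39)))))) (S4 2 35 (S1 18 37 U (S3 7 38 (N 244) (S1 19 39 U (P 39)))) (P 35))))) (S1 16 33 U (S1 17 35 U (S4 2 35 (S1 18 37 U (S3 7 38 (S1 19 39 U (P 39)) (S1 19 39 U (P 39)))) (P 35))))))) (S1 14 29 U t250))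 (S3 5 27 (S1 14 29 U (S1 15 31 U (S1 16 33 U (S1 17 35 U (S4 2 35 (S1 18 37 U (S3 7 38 (S1 19 39 U (P 39)) (S1 19 39 U (P 39)))) (P 35)))))) (P 27))))) (P 23)))) (P 19)))) (P 17))) (S1 8 17 U (P 17))
def t252 : T := S2 9 35 (S3 7 36 U (S1 18 37 U (S1 19 39 U (S2 10 39 (S1 20 41 U (S3 8 41 U (S1 21 43 U (S2 11 43 (S1 22 45 U (S4 2 45 (S3 9 46 U (S1 23 47 U (S2 12 47 (N 90) (P 47)))) (S3 9 46 U (S1 23 47 U (S2 12 47 (S1 24 49 U (S1 25 51 U (S2 13 51 (S3 10 51 U (S1 26 53 U (S1 27 55 U (S2 14 55 (N 110) (S3 11 56 U (S1 28 57 U (S1 29 59 U (S1 30 61 U (S3 12 61 U (S1 31 63 U (S1 32 65 U (S3 13 66 U (S1 33 67 U (S4 3 67 (N 200) (P 67))))))))))))))) (S3 10 51 U (P 51))))) (P 47)))))) (S1 22 45 U (S4 2 45 (S3 9 46 U (S1 23 47 U (P 47))) (S3 9 46 U (S1 23 47 U (P 47))))))))) (S1 20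 41 U (S3 8 41 U (S1 21 43 U (S1 22 45 U (S4 2 45 (S3 9 46 U (S1 23 47 U (P 47))) (S3 9 46 (N 66) (S1 23 47 U (P 47)))))))))))) (S3 7 36 (N 108) (S1 18 37 U (S1 19 39 U (S1 20 41 U (S3 8 41 (N 174) (S1 21 43 U (S1 22 45 U (S4 2 45 (S3 9 46 (N 112) (S1 23 47 U (P 47))) (S3 9 46 (N 240) (S1 23 47 U (P 47)))))))))))
def t253 : T := S4 1 23 (S4 1 24 (S1 12 25 U (S4 1 25 (S3 5 26 U (S4 1 26 (N 130) (S1 13 27 U (S2 7 27 (N 50) (P 27))))) (S3 5 26 U (S1 13 27 U (S2 7 27 (S1 14 29 U (S1 15 31 U (S2 8 31 (N 120) (S3 6 31 U (P 31))))) (P 27)))))) (S1 12 25 U (S3 5 26 U (S1 13 27 U (S2 7 27 (S1 14 29 U (S1 15 31 U (S2 8 31 (S3 6 31 U (S1 16 33 U (S1 17 35 U (S2 9 35 (S3 7 36 U (S1 18 37 U (S1 19 39 U (S2 10 39 (N 230) (S1 20 41 U (S3 8 41 U (S1 21 43 U (S1 22 45 U (S3 9 46 U (S1 23 47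 U (S4 2 47 (N 70) (P 47)))))))))))) (S3 7 36 U (S1 18 37 U (S1 19 39 U (S1 20 41 U (S3 8 41 U (S1 21 43 U (S1 22 45 U (S3 9 46 U (S1 23 47 U (S4 2 47 (S1 24 49 U (S1 25 51 U (S3 10 51 U (P 51)))) (P 47))))))))))))))) (S3 6 31 U (P 31))))) (P 27)))))) (S1 12 25 U (S3 5 26 (N 88) (S1 13 27 U (S2 7 27 (S1 14 29 U (S1 15 31 U (S2 8 31 (S3 6 31 U (S1 16 33 U (S1 17 35 U t252))) (S3 6 31 (N 108) (P 31))))) (P 27)))))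
def t254 : T := S2 14 55 (S3 11 56 U (S1 28 57 U (S1 29 59 U (S2 15 59 (S1 30 61 U (S3 12 61 U (S1 31 63 U (S2 16 63 (S1 32 65 U (S4 3 65 (S3 13 66 U (S1 33 67 U (S2 17 67 (N 130) (P 67)))) (S3 13 66 U (S1 33 67 U (S2 17 67 (S1 34 69 U (S1 35 71 U (S2 18 71 (S3 14 71 U (S1 36 73 U (S1 37 75 U (S2 19 75 (N 150) (S3 15 76 U (S1 38 77 U (S1 39 79 U (S1 40 81 U (S3 16 81 U (S1 41 83 U (S1 42 85 U (S3 17 86 U (S1 43 87 U (P 87)))))))))))))) (S3 14 71 U (P 71))))) (P 67)))))) (S1 32 65 U (S4 3 65 (S3 13 66 U (S1 33 67 U (P 67))) (S3 13 66 U (S1 33 67 U (P 67))))))))) (S1 30 61 U (S3 12 61 U (S1 31 63 U (S1 32 65 U (S4 3 65 (S3 13 66 U (S1 33 67 U (P 67))) (S3 13 66 (N 86) (S1 33 67 U (P 67)))))))))))) (S3 11 56 (N 86) (S1 28 57 U (S1 29 59 U (S1 30 61 U (S3 12 61 (N 86) (S1 31 63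 U (S1 32 65 U (S4 3 65 (S3 13 66 (N 86) (S1 33 67 U (P 67))) (S3 13 66 (N 86) (S1 33 67 U (P 67)))))))))))
def t255 : T := S1 40 81 U (S3 16 81 (N 126) (S1 41 83 U (S2 21 83 (S1 42 85 U (S4 4 85 (S3 17 86 U (S1 43 87 U (S2 22 87 (N 170) (P 87)))) (S3 17 86 (N 126) (S1 43 87 U (S2 22 87 (S1 44 89 U (S1 45 91 U (S2 23 91 (S3 18 91 (N 126) (S1 46 93 U (S1 47 95 U (S2 24 95 (S3 19 96 (N 126) (S1 48 97 U (S1 49 99 U (S2 25 99 (S1 50 101 U (S3 20 101 (N 126) (S1 51 103 U (S2 26 103 (S1 52 105 U (S3 21 106 (N 126) (S4 5 106 (N 190) (S1 53 107 U (S2 27 107 (N 210) (P 107)))))) (S1 52 105 U (S3 21 106 (N 126) (S4 5 106 (N 190) (S1 53 107 U (P 107))))))))) (S1 50 101 U (S3 20 101 (N 126) (S1 51 103 U (S1 52 105 U (S3 21 106 (N 126) (S4 5 106 (N 190) (S1 53 107 U (P 107)))))))))))) (S3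 19 96 (N 126) (S1 48 97 U (S1 49 99 U (S1 50 101 U (S3 20 101 (N 126) (S1 51 103 U (S1 52 105 U (S3 21 106 (N 126) (S4 5 106 (N 360) (S1 53 107 U (P 107))))))))))))))) (S3 18 91 (N 126) (P 91))))) (P 87)))))) (S1 42 85 U (S4 4 85 (S3 17 86 (N 106) (S1 43 87 U (P 87))) (S3 17 86 (N 126) (S1 43 87 U (P 87))))))))
def t256 : T := S4 3 64 (S1 32 65 U (S3 13 66 U (S1 33 67 U (S2 17 67 (S1 34 69 U (S1 35 71 U (S2 18 71 (S3 14 71 U (S1 36 73 U (S1 37 75 U (S2 19 75 (S3 15 76 U (S1 38 77 U (S1 39 79 U (S2 20 79 (S1 40 81 U (S3 16 81 U (S1 41 83 U (S2 21 83 (N 320) (S1 42 85 U (S3 17 86 U (S1 43 87 U (P 87)))))))) (S1 40 81 U (S3 16 81 U (S1 41 83 U (S1 42 85 U (S3 17 86 (N 106) (S1 43 87 U (P 87))))))))))) (S3 15 76 U (S1 38 77 U (S1 39 79 U (S1 40 81 U (S3 16 81 (N 106) (S1 41 83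 U (S1 42 85 U (S3 17 86 (N 106) (S1 43 87 U (P 87)))))))))))))) (S3 14 71 U (P 71))))) (P 67))))) (S1 32 65 U (S3 13 66 (N 126) (S1 33 67 U (S2 17 67 (S1 34 69 U (S1 35 71 U (S2 18 71 (S3 14 71 (N 126) (S1 36 73 U (S1 37 75 U (S2 19 75 (S3 15 76 (N 126) (S1 38 77 U (S1 39 79 U (S2 20 79 t255 (S1 40 81 U (S3 16 81 (N 126) (S1 41 83 U (S1 42 85 U (S4 4 85 (S3 17 86 (N 106) (S1 43 87 U (P 87))) (S3 17 86 (N 126) (S1 43 87 U (P 87)))))))))))) (S3 15 76 (N 126) (S1 38 77 U (S1 39 79 U (S1 40 81 U (S3 16 81 (N 126) (S1 41 83 U (S1 42 85 U (S4 4 85 (S3 17 86 (N 106) (S1 43 87 U (P 87))) (S3 17 86 (N 126) (S1 43 87 U (P 87))))))))))))))) (S3 14 71 (N 126) (P 71))))) (P 67)))))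
def t257 : T := S4 2 43 (S1 22 45 U (S3 9 46 (N 86) (S1 23 47 U (S2 12 47 (S1 24 49 U (S1 25 51 U (S2 13 51 (S3 10 51 U (S1 26 53 U (S1 27 55 U t254))) (S3 10 51 (N 86) (P 51))))) (P 47))))) (S1 22 45 U (S3 9 46 (N 168) (S1 23 47 U (S2 12 47 (S1 24 49 U (S1 25 51 U (S2 13 51 (S3 10 51 (N 102) (S1 26 53 U (S1 27 55 U (S2 14 55 (S3 11 56 (N 168) (S1 28 57 U (S1 29 59 U (S2 15 59 (S1 30 61 U (S3 12 61 (N 188) (S1 31 63 U (S2 16 63 t256 (S4 3 64 (S1 32 65 U (S3 13 66 (N 106) (S1 33 67 U (P 67)))) (S1 32 65 U (S3 13 66 (N 208) (S1 33 67 U (P 67))))))))) (S1 30 61 U (S3 12 61 (N 188) (S1 31 63 U (S4 3 64 (S1 32 65 U (S3 13 66 (N 106) (S1 33 67 U (P 67)))) (S1 32 65 U (S3 13 66 (N 208) (S1 33 67 U (P 67)))))))))))) (S3 11 56 (N 168) (S1 28 57 U (S1 29 59 U (S1 30 61 U (S3 12 61 (N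 188) (S1 31 63 U (S4 3 64 (S1 32 65 U (S3 13 66 (N 192) (S1 33 67 U (P 67)))) (S1 32 65 U (S3 13 66 (N 294) (S1 33 67 U (P 67))))))))))))))) (S3 10 51 (N 168) (P 51))))) (P 47)))))
def t258 : T := S1 11 23 U (S2 6 23 (S1 12 25 U (S3 5 26 (S1 13 27 U (S2 7 27 (N 104) (P 27))) (S1 13 27 U (S2 7 27 (S1 14 29 U (S1 15 31 U (S2 8 31 (S3 6 31 (N 62) (S1 16 33 U (S1 17 35 U (S2 9 35 (S3 7 36 (N 210) (S1 18 37 U (S1 19 39 U (S2 10 39 (S1 20 41 U (S3 8 41 (N 210) (S1 21 43 U (S2 11 43 t257 (S4 2 43 (S1 22 45 U (S3 9 46 (N 148) (S1 23 47 U (P 47)))) (P 43)))))) (S1 20 41 U (S3 8 41 (N 210) (S1 21 43 U (S4 2 43 (S1 22 45 U (S3 9 46 (N 276) (S1 23 47 U (P 47)))) (P 43))))))))) (S3 7 36 (S1 18 37 U (S1 19 39 U (S1 20 41 U (S1 21 43 U (S4 2 43 (N 236) (P 43)))))) (S1 18 37 U (S1 19 39 U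 (S1 20 41 U (S3 8 41 (S1 21 43 U (S4 2 43 (N 430) (P 43))) (S1 21 43 U (S4 2 43 (S1 22 45 U (S3 9 46 (S1 23 47 U (P 47)) (S1 23 47 U (P 47)))) (P 43)))))))))))) (S3 6 31 (S1 16 33 U (S1 17 35 U (S1 18 37 U (S1 19 39 U (S1 20 41 U (S1 21 43 U (S4 2 43 (N 258) (P 43)))))))) (P 31))))) (P 27))))) (P 23))
def t259 : T := S4 1 20 (S1 10 21 U (S3 4 21 (S4 1 21 (S4 1 22 (N 110) (S1 11 23 U (S2 6 23 (N 42) (P 23)))) (S1 11 23 U (S2 6 23 (S1 12 25 U (S1 13 27 U (S2 7 27 (N 320) (P 27)))) (P 23)))) (S4 1 21 (S4 1 22 (S1 11 23 U (S2 6 23 t253 (S4 1 23 (S4 1 24 (S1 12 25 U (S4 1 25 (S3 5 26 U (S4 1 26 (S1 13 27 U (S4 1 27 (S4 1 28 (N 110) (S1 14 29 U (S1 15 31 U (S3 6 31 U (P 31))))) (P 27))) (S1 13 27 U (P 27)))) (S3 5 26 U (S1 13 27 U (P 27))))) (S1 12 25 U (S3 5 26 (N 114) (S1 13 27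 U (P 27))))) (P 23)))) t258) (P 21)))) (S1 10 21 U (S3 4 21 (S1 11 23 U (S2 6 23 (S1 12 25 U (S1 13 27 U (S2 7 27 (S1 14 29 U (S1 15 31 U (S2 8 31 (S1 16 33 U (S1 17 35 U (S2 9 35 (S1 18 37 U (S3 7 37 (N 132) (S1 19 39 U (S2 10 39 (N 152) (S4 2 39 (N 136) (P 39)))))) (S1 18 37 U (S3 7 37 (S1 19 39 U (S4 2 39 (N 58) (P 39))) (S1 19 39 U (S4 2 39 (S1 20 41 U (S1 21 43 U (P 43))) (P 39)))))))) (S1 16 33 U (S1 17 35 U (S1 18 37 U (S3 7 37 (S1 19 39 U (S4 2 39 (N 370) (P 39))) (S1 19 39 U (S4 2 39 (S1 20 41 U (S1 21 43 U (P 43))) (P 39)))))))))) (P 27)))) (P 23))) (P 21)))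
def t260 : T := S2 8 31 (S1 16 33 U (S1 17 35 U (S2 9 35 (S1 18 37 U (S3 7 37 (S4 2 37 (S1 19 39 U (S2 10 39 (N 74) (P 39))) (S1 19 39 U (S2 10 39 (S1 20 41 U (S1 21 43 U (S2 11 43 (S1 22 45 U (S1 23 47 U (S2 12 47 (S1 24 49 U (S1 25 51 U (S2 13 51 (N 306) (S1 26 53 U (S3 10 53 (N 90) (S1 27 55 U (S4 3 55 (N 274) (P 55)))))))) (S1 24 49 U (S1 25 51 U (S1 26 53 U (S3 10 53 (S1 27 55 U (S4 3 55 (N 164) (P 55))) (S1 27 55 U (S4 3 55 (S1 28 57 U (S1 29 59 U (P 59))) (P 55)))))))))) (P 43)))) (P 39)))) (S4 2 37 (S1 19 39 U (S2 10 39 (S1 20 41 U (S1 21 43 U (S2 11 43 (S1 22 45 U (S1 23 47 U (S2 12 47 (N 462) (S1 24 49 U (S1 25 51 U (S1 26 53 U (S1 27 55 U (S4 3 56 (N 168) (S1 28 57 U (S3 11 58 (N 258) (S1 29 59 U (P 59)))))))))))) (P 43)))) (P 39))) (P 37)))) (S1 18 37 U (S3 7 37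 (S4 2 37 (S1 19 39 U (P 39)) (S1 19 39 U (P 39))) (S4 2 37 (S1 19 39 U (P 39)) (P 37))))))) (S1 16 33 U (S1 17 35 U (S1 18 37 U (S3 7 37 (S4 2 37 (S1 19 39 U (P 39)) (S1 19 39 U (P 39))) (S4 2 37 (S1 19 39 U (P 39)) (P 37))))))
def t261 : T := S1 22 45 U (S1 23 47 U (S2 12 47 (S1 24 49 U (S1 25 51 U (S2 13 51 (S1 26 53 U (S3 10 53 (S4 3 53 (S1 27 55 U (S2 14 55 (N 106) (P 55))) (S1 27 55 U (S2 14 55 (S1 28 57 U (S1 29 59 U (S2 15 59 (S1 30 61 U (S1 31 63 U (S2 16 63 (S1 32 65 U (S1 33 67 U (S2 17 67 (N 402) (S1 34 69 U (S3 13 69 (N 122) (S1 35 71 U (P 71))))))) (S1 32 65 U (S1 33 67 U (S1 34 69 U (S3 13 69 (N 350) (S1 35 71 U (P 71))))))))) (P 59)))) (P 55)))) (S4 3 53 (S1 27 55 U (S2 14 55 (S1 28 57 U (S1 29 59 U (S2 15 59 (S1 30 61 U (S1 31 63 U (S2 16 63 (N 370) (S1 32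 65 U (S1 33 67 U (S1 34 69 U (S1 35 71 U (S4 4 71 (N 354) (P 71))))))))) (P 59)))) (P 55))) (P 53)))) (S1 26 53 U (S3 10 53 (S4 3 53 (S1 27 55 U (P 55)) (S1 27 55 U (P 55))) (S4 3 53 (S1 27 55 U (P 55)) (P 53))))))) (S1 24 49 U (S1 25 51 U (S1 26 53 U (S3 10 53 (S4 3 53 (S1 27 55 U (P 55)) (S1 27 55 U (P 55))) (S4 3 53 (S1 27 55 U (P 55)) (P 53))))))))
def t262 : T := S4 4 69 (S1 35 71 U (S2 18 71 (N 138) (P 71))) (S1 35 71 U (S2 18 71 (S1 36 73 U (S1 37 75 U (S2 19 75 (S1 38 77 U (S1 39 79 U (S2 20 79 (S1 40 81 U (S1 41 83 U (S2 21 83 (S1 42 85 U (S3 16 85 (S4 5 86 (N 154) (S1 43 87 U (S2 22 87 (N 170) (P 87)))) (S4 5 86 (S1 43 87 U (S2 22 87 (N 344) (P 87))) (S1 43 87 U (S2 22 87 (S1 44 89 U (S1 45 91 U (S2 23 91 (S1 46 93 U (S1 47 95 U (S2 24 95 (S1 48 97 U (S1 49 99 U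 (S2 25 99 (S1 50 101 U (S1 51 103 U (S2 26 103 (N 408) (S4 6 103 (N 360) (P 103))))) (S1 50 101 U (S1 51 103 U (S4 6 103 (N 360) (P 103))))))) (S1 48 97 U (S1 49 99 U (S1 50 101 U (S1 51 103 U (S4 6 103 (N 360) (P 103))))))))) (P 91)))) (P 87)))))) (S1 42 85 U (S3 16 85 (S4 5 86 (N 154) (S1 43 87 U (P 87))) (S4 5 86 (S1 43 87 U (P 87)) (S1 43 87 U (P 87)))))))) (S1 40 81 U (S1 41 83 U (S1 42 85 U (S3 16 85 (S4 5 86 (N 292) (S1 43 87 U (P 87))) (S4 5 86 (S1 43 87 U (P 87)) (S1 43 87 U (P 87)))))))))) (P 75)))) (P 71)))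
def t263 : T := S4 3 52 (S1 26 53 U (S3 10 53 (S1 27 55 U (S2 14 55 (S1 28 57 U (S1 29 59 U (S2 15 59 (S1 30 61 U (S1 31 63 U (S2 16 63 (S1 32 65 U (S1 33 67 U (S2 17 67 (S1 34 69 U (S3 13 69 (N 260) (S1 35 71 U (S2 18 71 (S1 36 73 U (S1 37 75 U (S2 19 75 (N 450) (P 75)))) (P 71))))) (S1 34 69 U (S3 13 69 (S1 35 71 U (P 71)) (S1 35 71 U (P 71))))))) (S1 32 65 U (S1 33 67 U (S1 34 69 U (S3 13 69 (S1 35 71 U (P 71)) (S1 35 71 U (P 71))))))))) (P 59)))) (P 55))) (P 53))) (S1 26 53 U (S3 10 53 (S1 27 55 U (S2 14 55 (S1 28 57 U (S1 29 59 U (S2 15 59 (S1 30 61 U (S1 31 63 U (S2 16 63 (S1 32 65 U (S1 33 67 U (S2 17 67 (S1 34 69 U (S3 13 69 t262 (S4 4 69 (S1 35 71 U (S2 18 71 (S1 36 73 U (S1 37 75 U (S2 19 75 (S1 38 77 U (S1 39 79 U (S2 20 79 (S1 40 81 U (S1 41 83 U (S2 21 83 (S1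 42 85 U (S1 43 87 U (S2 22 87 (N 344) (P 87)))) (S1 42 85 U (S1 43 87 U (P 87)))))) (S1 40 81 U (S1 41 83 U (S1 42 85 U (S1 43 87 U (P 87)))))))) (P 75)))) (P 71))) (P 69)))) (S1 34 69 U (S3 13 69 (S4 4 69 (S1 35 71 U (P 71)) (S1 35 71 U (P 71))) (S4 4 69 (S1 35 71 U (P 71)) (P 69))))))) (S1 32 65 U (S1 33 67 U (S1 34 69 U (S3 13 69 (S4 4 69 (S1 35 71 U (P 71)) (S1 35 71 U (P 71))) (S4 4 69 (S1 35 71 U (P 71)) (P 69))))))))) (P 59)))) (P 55))) (P 53)))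
def t264 : T := S1 10 21 (N 170) (S3 4 21 (S1 11 23 U (S2 6 23 (S1 12 25 U (S1 13 27 U (S2 7 27 (S1 14 29 U (S1 15 31 U (S2 8 31 (S1 16 33 U (S1 17 35 U (S2 9 35 (S4 2 35 (S1 18 37 U (S3 7 37 (S1 19 39 U (S2 10 39 (S1 20 41 U (S1 21 43 U (S2 11 43 t261 (P 43)))) (P 39))) (P 37))) (S1 18 37 U (S3 7 37 (S1 19 39 U (S2 10 39 (S1 20 41 U (S1 21 43 U (S2 11 43 (S1 22 45 U (S1 23 47 U (S2 12 47 (S1 24 49 U (S1 25 51 U (S2 13 51 t263 (S4 3 52 (S1 26 53 U (S3 10 53 (S1 27 55 U (P 55)) (P 53))) (S1 26 53 U (S3 10 53 (S1 27 55 U (P 55)) (P 53))))))) (S1 24 49 U (S1 25 51 U (S4 3 52 (S1 26 53 U (S3 10 53 (S1 27 55 U (P 55)) (P 53))) (S1 26 53 U (S3 10 53 (S1 27 55 U (P 55)) (P 53))))))))) (P 43)))) (P 39))) (P 37)))) (S4 2 35 (S1 18 37 U (S3 7 37 (S1 19 39 U (P 39)) (P 37))) (P 35)))))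 (S1 16 33 U (S1 17 35 U (S4 2 35 (S1 18 37 U (S3 7 37 (S1 19 39 U (P 39)) (P 37))) (P 35))))))) (P 27)))) (P 23))) (P 21))
def t265 : T := S4 1 18 (S1 9 19 U (S2 5 19 (S4 1 19 t259 (S1 10 21 U (S3 4 21 (S1 11 23 U (S2 6 23 (S1 12 25 U (S1 13 27 U (S2 7 27 (S1 14 29 U (S1 15 31 U t260)) (P 27)))) (P 23))) (P 21)))) (S4 1 19 (S4 1 20 (S1 10 21 U (S3 4 21 (S4 1 21 (S4 1 22 (S1 11 23 U (S4 1 23 (S4 1 24 (N 120) (S1 12 25 U (S1 13 27 U (P 27)))) (P 23))) (S1 11 23 U (P 23))) (S1 11 23 U (P 23))) (S4 1 21 (S4 1 22 (S1 11 23 U (S4 1 23 (S4 1 24 (S1 12 25 U (S4 1 25 (S3 5 26 (N 150) (S4 1 26 (S1 13 27 U (S4 1 27 (S4 1 28 (S1 14 29 U (S4 1 29 (S4 1 30 (N 30) (S1 15 31 U (S3 6 31 U (P 31)))) (S1 15 31 U (S3 6 31 U (P 31))))) (S1 14 29 U (S1 15 31 U (S3 6 31 U (P 31))))) (P 27))) (S1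 13 27 U (P 27)))) (S3 5 26 (S1 13 27 U (P 27)) (S1 13 27 U (P 27))))) (S1 12 25 U (S3 5 26 (S1 13 27 U (P 27)) (S1 13 27 U (P 27))))) (P 23))) (S1 11 23 U (P 23))) (P 21)))) (S1 10 21 U (S3 4 21 (S1 11 23 U (P 23)) (P 21)))) (P 19)))) (S1 9 19 (N 135) (S2 5 19 t264 (P 19)))
def t266 : T := S4 1 22 (S1 11 23 U (S4 1 23 (S4 1 24 (S1 12 25 U (S4 1 25 (S2 7 26 U (S4 1 26 (N 128) (S1 13 27 U (S3 5 27 (N 124) (P 27))))) (S2 7 26 (N 48) (S1 13 27 U (S3 5 27 (N 216) (P 27)))))) (S1 12 25 U (S2 7 26 (S1 13 27 U (S3 5 27 (N 156) (P 27))) (S1 13 27 U (S3 5 27 (S1 14 29 U (S1 15 31 U (S1 16 33 U (S1 17 35 U (S1 18 37 U (S2 10 37 (N 270) (S3 7 38 (S1 19 39 U (S1 20 41 U (S1 21 43 U (S1 22 45 U (S1 23 47 U (S4 2 47 (N 282) (S2 13 48 (N 92) (S1 24 49 U (S3 9 49 (S1 25 51 U (S1 26 53 U (S1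 27 55 U (S1 28 57 U (S1 29 59 U (S2 16 59 (N 92) (S3 11 60 (N 414) (S1 30 61 U (S1 31 63 U (S1 32 65 U (S1 33 67 U (S1 34 69 U (S2 19 70 (N 92) (S4 3 70 (N 326) (S1 35 71 U (P 71)))))))))))))))) (P 49)))))))))) (S1 19 39 U (S1 20 41 U (S1 21 43 U (S1 22 45 U (S1 23 47 U (S4 2 47 (S2 13 48 (N 70) (S1 24 49 U (P 49))) (S2 13 48 (N 432) (S1 24 49 U (P 49)))))))))))))))) (P 27)))))) (P 23))) (S1 11 23 U (P 23))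
def t267 : T := S4 1 32 (S1 16 33 U (S4 1 33 (N 130) (S1 17 35 U (S3 7 36 U (S1 18 37 U (S1 19 39 U (S1 20 41 U (S2 11 41 (N 160) (S3 8 41 U (P 41)))))))))) (S1 16 33 U (S1 17 35 U (S3 7 36 U (S1 18 37 U (S1 19 39 U (S1 20 41 U (S2 11 41 (S3 8 41 U (S1 21 43 U (S1 22 45 U (S3 9 46 U (S1 23 47 U (S1 24 49 U (S1 25 51 U (S3 10 51 U (S1 26 53 U (S1 27 55 U (S2 15 56 (S3 11 56 U (S1 28 57 U (S1 29 59 U (S1 30 61 U (S3 12 61 U (S1 31 63 U (S4 2 63 (N 220) (S1 32 65 U (S3 13 66 U (S1 33 67 U (S1 34 69 U (S1 35 71 U (S2 19 71 (N 310) (S3 14 71 U (P 71))))))))))))))) (S3 11 56 U (S1 28 57 U (S1 29 59 U (S1 30 61 U (S3 12 61 U (S1 31 63 U (S4 2 63 (S1 32 65 U (S3 13 66 U (S1 33 67 U (S1 34 69 U (S1 35 71 U (S3 14 71 U (P 71))))))) (S1 32 65 U (S3 13 66 U (S1 33 67 U (S1 34 69 U (S1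 35 71 U (S3 14 71 U (P 71))))))))))))))))))))))))) (S3 8 41 U (P 41)))))))))
def t268 : T := S4 1 28 (S1 14 29 U (S4 1 29 (S4 1 30 (S1 15 31 U (S3 6 31 (N 330) (S4 1 31 (S4 1 32 (S1 16 33 U (S4 1 33 (S4 1 34 (S1 17 35 U (S4 1 35 (S3 7 36 U (S4 1 36 (S1 18 37 U (S2 10 37 (N 70) (S4 1 37 (N 110) (P 37)))) (S1 18 37 U (S2 10 37 (N 70) (P 37))))) (S3 7 36 U (S1 18 37 U (S2 10 37 (N 170) (P 37)))))) (S1 17 35 U (S3 7 36 U (S1 18 37 U (S2 10 37 (S1 19 39 U (S1 20 41 U (S3 8 41 U (P 41)))) (P 37)))))) (S1 17 35 U (S3 7 36 (N 128) (S1 18 37 U (S2 10 37 (S1 19 39 U (S1 20 41 U (S3 8 41 U (P 41)))) (P 37))))))) (S1 16 33 U (S1 17 35 U (S3 7 36 (N 154) (S1 18 37 U (S2 10 37 (S1 19 39 U (S1 20 41 U (S3 8 41 U (P 41)))) (P 37))))))) (P 31)))) (S1 15 31 U (S3 6 31 (S1 16 33 U (S1 17 35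 U (S1 18 37 U (S2 10 37 (N 144) (P 37))))) (P 31)))) (S1 15 31 U (S3 6 31 (S1 16 33 U (S1 17 35 U (S1 18 37 U (S2 10 37 (N 196) (P 37))))) (P 31))))) (S1 14 29 U (S1 15 31 U (S3 6 31 (S1 16 33 U (S1 17 35 U (S1 18 37 U (S2 10 37 (S1 19 39 U (S1 20 41 U (S1 21 43 U (S1 22 45 U (S1 23 47 U (S1 24 49 U (S1 25 51 U (S1 26 53 U (S1 27 55 U (S4 2 55 (S1 28 57 U (S3 11 57 (N 440) (P 57))) (S1 28 57 U (S3 11 57 (S1 29 59 U (S1 30 61 U (S1 31 63 U (S2 17 63 (N 378) (P 63))))) (P 57))))))))))))) (P 37))))) (P 31))))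
def t269 : T := S2 7 26 (S3 5 26 (S4 1 26 (N 26) (S1 13 27 U (P 27))) (S4 1 26 (S1 13 27 U (S4 1 27 (S4 1 28 (S1 14 29 U (S4 1 29 (S4 1 30 (S1 15 31 U (S3 6 31 U (S4 1 31 t267 (P 31)))) (S1 15 31 U (S3 6 31 U (P 31)))) (S1 15 31 U (S3 6 31 (N 196) (P 31))))) (S1 14 29 U (S1 15 31 U (S3 6 31 (S1 16 33 U (S1 17 35 U (S1 18 37 U (S1 19 39 U (S1 20 41 U (S2 11 41 (N 108) (S1 21 43 U (S1 22 45 U (S1 23 47 U (S1 24 49 U (S1 25 51 U (S1 26 53 U (S1 27 55 U (S4 2 55 (N 330) (S1 28 57 U (S3 11 57 (N 378) (P 57))))))))))))))))) (P 31))))) (P 27))) (S1 13 27 U (P 27)))) (S3 5 26 (S4 1 26 (S1 13 27 U (S4 1 27 (S4 1 28 (S1 14 29 U (S4 1 29 (N 260) (S1 15 31 U (S1 16 33 U (S1 17 35 U (S1 18 37 U (S2 10 37 (N 140) (P 37)))))))) (S1 14 29 U (S1 15 31 U (S1 16 33 U (S1 17 35 U (S1 18 37 U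 (S2 10 37 (N 270) (P 37)))))))) (P 27))) (S1 13 27 U (P 27))) (S4 1 26 (S1 13 27 U (S4 1 27 t268 (P 27))) (P 26)))
def t270 : T := S4 1 20 (S1 10 21 (N 220) (S3 4 21 (S4 1 21 (S4 1 22 (S1 11 23 U (S4 1 23 (S4 1 24 (S1 12 25 U (S4 1 25 (S2 7 26 (S4 1 26 (N 26) (S1 13 27 U (P 27))) (S4 1 26 (S1 13 27 U (S4 1 27 (S4 1 28 (N 84) (S1 14 29 U (S1 15 31 U (S1 16 33 U (S1 17 35 U (S1 18 37 U (S2 10 37 U (S3 7 37 (N 132) (P 37))))))))) (P 27))) (S1 13 27 U (P 27)))) (S2 7 26 (S1 13 27 U (P 27)) (S1 13 27 U (P 27))))) (S1 12 25 U (S2 7 26 (S1 13 27 U (P 27)) (S1 13 27 U (P 27))))) (P 23))) (S1 11 23 U (P 23))) (S1 11 23 U (P 23))) (S4 1 21 (S4 1 22 (S1 11 23 U (S4 1 23 (S4 1 24 (S1 12 25 U (S4 1 25 t269 (S2 7 26 (S3 5 26 (S1 13 27 U (P 27)) (S1 13 27 U (P 27))) (S3 5 26 (S1 13 27 U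 (P 27)) (P 26))))) (S1 12 25 U (S2 7 26 (S3 5 26 (S1 13 27 U (P 27)) (S1 13 27 U (P 27))) (S3 5 26 (S1 13 27 U (P 27)) (P 26))))) (P 23))) (S1 11 23 (N 165) (P 23))) (P 21)))) (S1 10 21 (S3 4 21 U (S2 7 26 (N 130) (S3 5 26 U (P 26)))) (S3 4 21 (S1 11 23 U (P 23)) (P 21)))
def t271 : T := S1 8 17 (S4 1 17 (S4 1 18 (N 340) (S3 4 21 U (S2 7 26 (N 85) (S3 5 26 U (P 26))))) (S3 4 21 U (S2 7 26 (S3 5 26 U (S3 6 31 U (S1 15 32 (S4 2 33 (N 115) (S3 7 36 U (S2 11 41 (N 160) (S3 8 41 U (P 41))))) (S4 2 33 (S3 7 36 U (S2 11 41 (N 395) (S3 8 41 U (P 41)))) (S3 7 36 U (S2 11 41 (S3 8 41 U (S3 9 46 U (S1 23 49 (S4 3 49 (N 245) (S3 10 51 U (S2 15 56 (S3 11 56 U (S3 12 61 U (S4 4 65 (N 455) (S3 13 66 U (S2 19 71 (S3 14 71 U (S3 15 76 U (S1 38 81 (S3 16 81 U (S4 5 81 (N 324) (S2 23 86 (N 400)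 (S3 17 86 U (P 86))))) (S3 16 81 U (S4 5 81 (N 340) (P 81)))))) (S3 14 71 U (P 71))))))) (S3 11 56 U (P 56))))) (S4 3 49 (S3 10 51 U (S2 15 56 (S3 11 56 U (S3 12 61 U (S1 31 66 (N 440) (S3 13 66 U (P 66))))) (S3 11 56 U (P 56)))) (P 49))))) (S3 8 41 U (P 41)))))))) (S3 5 26 (N 176) (P 26))))) (S4 1 17 (S4 1 18 (S1 9 19 (S4 1 19 (N 95) (S3 4 21 U (S2 7 26 (N 215) (S3 5 26 U (P 26))))) (S4 1 19 t270 (P 19))) (S1 9 19 (S3 4 21 U (S2 7 26 (S3 5 26 U (S3 6 31 U (S4 2 35 (S1 17 36 (N 245) (S3 7 36 U (P 36))) (S1 17 36 (S3 7 36 U (S2 11 41 (S3 8 41 U (S3 9 46 U (S3 10 51 U (S4 3 52 (N 190) (S1 25 53 (N 305) (P 53)))))) (S3 8 41 U (P 41)))) (P 53))))) (S3 5 26 U (P 26)))) (P 19))) (P 17))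
def t272 : T := S1 6 13 (S4 1 13 (S4 1 14 (S2 4 15 (N 195) (S4 1 15 (S3 3 16 U (S4 1 16 U (P 16))) (S3 3 16 U (P 16)))) (S2 4 15 (S3 3 16 U (P 16)) (S3 3 16 (N 117) (P 16)))) (S2 4 15 (S3 3 16 (N 240) (P 16)) (S3 3 16 (S1 11 24 (S4 2 25 (N 325) (S2 7 26 (N 48) (S3 5 27 (N 216) (P 27)))) (S4 2 25 (S2 7 26 (N 208) (S3 5 27 (N 275) (P 27))) (S2 7 26 (S3 5 27 (N 156) (P 27)) (S3 5 27 (S1 17 37 (S2 10 37 (N 259) (S4 3 37 (N 259) (S3 7 38 (N 396) (P 38)))) (S2 10 37 (S4 3 37 (N 221) (S3 7 38 (N 407) (P 38))) (S4 3 37 (S3 7 38 (N 407) (P 38)) (P 37)))) (P 27))))) (P 16)))) (S4 1 13 (S4 1 14 (S1 7 15 (S2 4 15 (S4 1 15 (N 15) (S3 3 16 U (P 16))) (S4 1 15 (S3 3 16 U (S4 1 16 (S4 1 17 (N 135) (S3 4 21 U (S2 7 26 (N 240) (S3 5 26 U (P 26))))) (P 16))) (S3 3 16 (N 154) (P 16)))) (S2 4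 15 (S4 1 15 (S3 3 16 t251 (S4 1 16 (S1 8 17 (N 240) (S4 1 17 t265 (P 17))) (P 16))) (S3 3 16 (S1 8 17 U (P 17)) (P 16))) (S4 1 15 (S3 3 16 (S4 1 16 (S1 8 17 U (S4 1 17 (S4 1 18 (S1 9 19 U (S4 1 19 (S4 1 20 (S1 10 21 U (S4 1 21 t266 (S1 11 23 U (P 23)))) (S1 10 21 U (S1 11 23 U (P 23)))) (P 19))) (S1 9 19 U (P 19))) (P 17))) (S1 8 17 U (P 17))) (S4 1 16 t271 (P 16))) (P 15)))) (S1 7 15 (S2 4 15 (S3 3 16 U (P 16)) (S3 3 16 (S2 7 26 (S3 5 27 (N 156) (S4 2 27 U (P 27))) (S3 5 27 (S4 2 27 (N 135) (S1 13 28 (N 286) (P 28))) (S4 2 27 (S1 13 28 (N 256) (P 28)) (P 27)))) (P 16))) (P 28))) (P 13))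
def t273 : T := S2 8 29 (S3 5 29 (S1 15 31 U (S1 16 33 U (S1 17 35 U (S3 6 35 (S1 18 37 U (S1 19 39 U (S4 2 39 (N 58) (S2 11 40 (N 280) (S1 20 41 U (S3 7 41 (N 76) (P 41))))))) (S1 18 37 U (S1 19 39 U (S4 2 39 (N 58) (S2 11 40 (S1 20 41 U (P 41)) (S1 20 41 U (P 41)))))))))) (S1 15 31 U (S1 16 33 U (S1 17 35 U (S1 18 37 U (S1 19 39 U (S4 2 39 (S2 11 40 (S1 20 41 U (P 41)) (S1 20 41 U (P 41))) (S2 11 40 (S1 20 41 U (P 41)) (S1 20 41 U (P 41)))))))))) (S3 5 29 (S1 15 31 U (S1 16 33 U (S1 17 35 U (S3 6 35 (S1 18 37 U (S1 19 39 U (S4 2 39 (S1 20 41 U (S3 7 41 (N 234) (P 41))) (S1 20 41 U (S3 7 41 (S1 21 43 U (S1 22 45 U (S1 23 47 U (S2 13 47 (S3 8 47 (N 94) (S1 24 49 U (S1 25 51 U (S1 26 53 U (S1 27 55 U (S1 28 57 U (S4 3 58 (N 328) (S1 29 59 U (P 59))))))))) (S3 8 47 (S1 24 49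 U (S1 25 51 U (S1 26 53 U (S3 9 53 (S1 27 55 U (S1 28 57 U (S4 3 58 (N 212) (S1 29 59 U (S3 10 59 (N 342) (P 59)))))) (S1 27 55 U (S1 28 57 U (S4 3 58 (N 270) (S1 29 59 U (P 59))))))))) (P 47)))))) (P 41)))))) (S1 18 37 U (S1 19 39 U (S4 2 39 (S1 20 41 U (P 41)) (S1 20 41 U (P 41))))))))) (P 29))
def t274 : T := S4 1 21 (S4 1 22 (S1 11 23 U (S3 4 23 (S4 1 23 (S4 1 24 (S1 12 25 U (S2 7 25 U (S4 1 25 (N 224) (P 25)))) (S1 12 25 U (S2 7 25 U (P 25)))) (S1 12 25 U (S2 7 25 (N 132) (P 25)))) (S4 1 23 (S4 1 24 (S1 12 25 U (S2 7 25 (N 96) (S4 1 25 (S4 1 26 (S1 13 27 U (S4 1 27 (N 238) (S1 14 29 U (P 29)))) (S1 13 27 U (S1 14 29 U (P 29)))) (P 25)))) (S1 12 25 U (S2 7 25 (S1 13 27 U (S1 14 29 U (P 29))) (P 25)))) (P 23)))) (S1 11 23 U (S3 4 23 (S1 12 25 U (S2 7 25 (S1 13 27 U (S1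 14 29 U (S3 5 29 (S1 15 31 U (S1 16 33 U (S1 17 35 U (S3 6 35 (N 210) (S1 18 37 U (S1 19 39 U (S1 20 41 U (S1 21 43 U (S2 12 43 (N 168) (S4 2 43 (N 150) (P 43))))))))))) (P 29)))) (P 25))) (P 23)))) (S1 11 23 U (S3 4 23 (S1 12 25 U (S2 7 25 (S1 13 27 U (S1 14 29 U (S3 5 29 (S1 15 31 U (S1 16 33 U (S1 17 35 U (S3 6 35 (S1 18 37 U (S1 19 39 U (S1 20 41 U (S3 7 41 (S4 2 41 (N 82) (S1 21 43 U (S2 12 43 (N 240) (P 43)))) (S4 2 41 (S1 21 43 U (S2 12 43 (N 204) (P 43))) (P 41)))))) (S1 18 37 U (S1 19 39 U (S1 20 41 U (S4 2 41 (S1 21 43 U (S2 12 43 (S1 22 45 U (S1 23 47 U (P 47))) (P 43))) (P 41))))))))) (P 29)))) (P 25))) (P 23)))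
def t275 : T := S4 2 39 (S1 20 41 U (S3 7 41 (S1 21 43 U (S2 12 43 (S1 22 45 U (S1 23 47 U (S3 8 47 (S1 24 49 U (S1 25 51 U (S1 26 53 U (S3 9 53 (S1 27 55 U (S1 28 57 U (S1 29 59 U (S3 10 59 (S4 3 59 (N 118) (S1 30 61 U (S2 17 61 (N 312) (P 61)))) (S4 3 59 (N 412) (P 59)))))) (S1 27 55 U (S1 28 57 U (S1 29 59 U (S4 3 59 (S1 30 61 U (S2 17 61 (N 452) (P 61))) (P 59))))))))) (P 47)))) (P 43))) (P 41))) (S1 20 41 U (S3 7 41 (S1 21 43 U (S2 12 43 (S1 22 45 U (S1 23 47 U (S3 8 47 (S1 24 49 U (S1 25 51 U (S1 26 53 U (S3 9 53 (S1 27 55 U (S1 28 57 U (S4 3 58 (S1 29 59 U (S3 10 59 (S1 30 61 U (S2 17 61 (N 348) (P 61))) (P 59))) (S1 29 59 U (S3 10 59 (S1 30 61 U (S2 17 61 (S1 31 63 U (S1 32 65 U (S3 11 65 (S1 33 67 U (S1 34 69 U (S1 35 71 U (S3 12 71 (S1 36 73 U (S1 37 75 U (S1 38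 77 U (S3 13 77 (S4 4 77 (N 154) (S1 39 79 U (S2 22 79 (N 456) (P 79)))) (S4 4 77 (S1 39 79 U (S2 22 79 (N 384) (P 79))) (P 77)))))) (S1 36 73 U (S1 37 75 U (S1 38 77 U (S4 4 77 (S1 39 79 U (S2 22 79 (N 384) (P 79))) (P 77))))))))) (P 65)))) (P 61))) (P 59)))))) (S1 27 55 U (S1 28 57 U (S4 3 58 (S1 29 59 U (P 59)) (S1 29 59 U (P 59))))))))) (P 47)))) (P 43))) (P 41)))
def t276 : T := S4 1 21 (S4 1 22 (S1 11 23 U (S4 1 23 (S4 1 24 (S1 12 25 U (S4 1 25 (N 198) (S1 13 27 U (S3 5 28 (N 72) (S1 14 29 U (S2 8 29 (N 192) (P 29))))))) (S1 12 25 U (S1 13 27 U (S3 5 28 (N 252) (S1 14 29 U (S2 8 29 (S1 15 31 U (S1 16 33 U (S1 17 35 U (S1 18 37 U (S1 19 39 U (S3 7 39 (N 206) (S2 11 40 (S1 20 41 U (S1 21 43 U (S1 22 45 U (S1 23 47 U (S4 2 47 (N 258) (S1 24 49 U (S3 9 50 (N 138) (S1 25 51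 U (S2 14 51 (S1 26 53 U (S1 27 55 U (S1 28 57 U (S1 29 59 U (S1 30 61 U (S3 11 61 (N 138) (S2 17 62 (N 368) (S1 31 63 U (S1 32 65 U (S1 33 67 U (S1 34 69 U (S4 3 70 (N 280) (S1 35 71 U (S3 13 72 (N 138) (S1 36 73 U (P 73)))))))))))))))) (P 51)))))))))) (S1 20 41 U (S1 21 43 U (S1 22 45 U (S1 23 47 U (S4 2 47 (S1 24 49 U (S3 9 50 (N 94) (S1 25 51 U (P 51)))) (S1 24 49 U (S3 9 50 (N 250) (S1 25 51 U (P 51)))))))))))))))) (P 29))))))) (P 23))) (S1 11 23 U (P 23))) (S1 11 23 U (P 23))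
def t277 : T := S1 11 23 U (S4 1 23 (S4 1 24 (S1 12 25 U (S2 7 25 (S4 1 25 (S4 1 26 (S1 13 27 U (S4 1 27 (N 132) (S3 5 28 U (S1 14 29 U (P 29))))) (S1 13 27 U (S3 5 28 (N 50) (S1 14 29 U (P 29))))) (S1 13 27 U (S3 5 28 (S1 14 29 U (P 29)) (S1 14 29 U (P 29))))) (S4 1 25 (S4 1 26 (S1 13 27 U (S4 1 27 (S3 5 28 (S4 1 28 (N 28) (S1 14 29 U (P 29))) (S4 1 28 (S1 14 29 U (S4 1 29 (S4 1 30 (S1 15 31 U (S4 1 31 (N 154) (S2 9 32 U (S1 16 33 U (S1 17 35 U (S1 18 37 U (S1 19 39 U (S2 11 39 U (S3 7 39 (N 150) (P 39)))))))))) (S1 15 31 U (S2 9 32 U (S1 16 33 U (S1 17 35 U (S1 18 37 U (S1 19 39 U (S2 11 39 (N 170) (S3 7 39 (N 406) (P 39)))))))))) (P 29))) (S1 14 29 U (P 29)))) (S3 5 28 (S1 14 29 U (P 29)) (S1 14 29 U (P 29))))) (S1 13 27 U (S3 5 28 (S1 14 29 U (P 29)) (S1 14 29 U (P 29)))))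 (P 25)))) (S1 12 25 U (S2 7 25 (S1 13 27 U (S3 5 28 (S1 14 29 U (P 29)) (S1 14 29 U (P 29)))) (P 25)))) (P 23))
def t278 : T := S3 3 17 (S4 1 17 (S2 5 18 (S4 1 18 (S1 9 19 U (S4 1 19 (S4 1 20 (S1 10 21 U (S4 1 21 (S4 1 22 (N 198) (S1 11 23 U (S3 4 23 (N 126) (P 23)))) (S1 11 23 U (S3 4 23 (S1 12 25 U (S1 13 27 U (S1 14 29 U (S2 8 29 (N 460) (S3 5 29 (S1 15 31 U (S1 16 33 U (S1 17 35 U (S3 6 35 (N 140) (S1 18 37 U (S1 19 39 U (S1 20 41 U (S4 2 41 (N 162) (P 41))))))))) (P 29)))))) (P 23))))) (S1 10 21 U (S1 11 23 U (S3 4 23 (S1 12 25 U (S1 13 27 U (S1 14 29 U t273))) (P 23))))) (P 19))) (S1 9 19 U (P 19))) (S4 1 18 (S1 9 19 U (S4 1 19 (S4 1 20 (S1 10 21 U t274) (S1 10 21 U (S1 11 23 U (S3 4 23 (S1 12 25 U (S2 7 25 (S1 13 27 U (S1 14 29 U (S3 5 29 (S1 15 31 U (S1 16 33 U (S1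 17 35 U (S3 6 35 (S1 18 37 U (S1 19 39 U t275)) (S1 18 37 U (S1 19 39 U (S4 2 39 (S1 20 41 U (P 41)) (S1 20 41 U (P 41))))))))) (P 29)))) (P 25))) (P 23))))) (P 19))) (P 18))) (S2 5 18 (S1 9 19 U (P 19)) (P 18))) (S4 1 17 (S2 5 18 (S4 1 18 (S1 9 19 U (S4 1 19 (S4 1 20 (S1 10 21 U t276) (S1 10 21 U (S1 11 23 U (P 23)))) (P 19))) (S1 9 19 U (P 19))) (S4 1 18 (S1 9 19 U (S4 1 19 (S4 1 20 (S1 10 21 U (S4 1 21 (S4 1 22 t277 (S1 11 23 U (P 23))) (S1 11 23 U (P 23)))) (S1 10 21 U (P 40))) (P 19))) (P 18))) (P 17))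
def t279 : T := S1 6 13 (S4 1 13 (S4 1 14 (S4 1 15 U (S3 3 17 U (S2 5 18 U (P 18)))) (S3 3 17 (S2 5 18 U (P 18)) (S2 5 18 (N 104) (P 18)))) (S3 3 17 (S2 5 18 (N 288) (P 18)) (S2 5 18 (S1 11 24 (S4 2 25 (N 187) (S3 5 28 (N 72) (S2 8 29 (N 192) (P 29)))) (S4 2 25 (S3 5 28 (N 162) (S2 8 29 (N 275) (P 29))) (S3 5 28 (S2 8 29 (N 420) (P 29)) (S2 8 29 (S1 17 37 (S4 3 37 (N 148) (S3 7 39 (N 228) (S2 11 40 (N 396) (P 40)))) (S4 3 37 (S3 7 39 (N 195) (S2 11 40 (N 407) (P 40))) (P 37))) (P 29))))) (P 18)))) (S4 1 13 (S4 1 14 (S1 7 15 (S4 1 15 (S4 1 16 U (S3 3 17 U (S2 5 18 U (P 18)))) (S3 3 17 (S2 5 18 U (P 18)) (S2 5 18 U (P 18)))) (S4 1 15 (S4 1 16 (S1 8 17 (S3 3 17 U (S4 1 17 U (S2 5 18 U (P 18)))) t278) (S1 8 17 (S3 3 17 (N 119) (S2 5 18 U (P 18))) (S3 3 17 (S2 5 18 (S1 9 19 U (P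 19)) (P 18)) (P 17)))) (P 15))) (S1 7 15 (S3 3 17 (S2 5 18 U (P 18)) (S2 5 18 (S4 2 27 (S1 13 28 (N 187) (S3 5 28 U (P 28))) (S1 13 28 (S3 5 28 U (S2 8 29 (N 286) (P 29))) (P 41))) (P 18))) (P 15))) (P 13))
def t280 : T := S1 4 9 (S4 1 9 (S4 1 10 (S2 3 11 (S3 2 11 (N 99) (S4 1 11 (S4 1 12 (S4 1 13 U (S2 4 15 U (S1 7 16 U (S3 3 16 U (P 16))))) (P 12)) (P 12))) (S3 2 11 (S4 1 11 (S4 1 12 U (P 12)) (P 12)) (S4 1 11 (S4 1 12 (S4 1 13 (S4 1 14 (S4 1 15 U (S1 7 16 U (S3 3 16 U (P 16)))) (S1 7 16 (S3 3 16 U (S2 5 18 U (S3 4 21 U (S1 10 23 U (S2 7 25 U (S3 5 26 U (S4 2 27 U (S3 6 31 U (S2 9 32 U (S3 7 36 U (S1 17 39 (N 195) (S2 11 39 U (S4 3 40 (N 80) (S3 8 41 U (S2 13 46 U (S3 9 46 U (P 46))))))))))))))))) (S3 3 16 U (P 16)))) (S1 7 16 (S3 3 16 U (S2 5 18 (N 144) (S3 4 21 U (S1 10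 23 (S2 7 25 (N 200) (S4 2 25 (S3 5 26 U (P 26)) (S3 5 26 U (P 26)))) (S2 7 25 (S4 2 25 U (S3 5 26 U (P 26))) (S4 2 25 (S3 5 26 U (P 26)) (S3 5 26 (N 192) (P 26)))))))) (S3 3 16 (S2 5 18 U (S1 11 25 U (S2 7 25 U (S4 2 25 U (P 25))))) (P 16)))) (P 12)) (P 11)))) (P 12)) (P 12)) (S4 1 9 (S4 1 10 (S1 5 11 (S2 3 11 (S3 2 11 (S4 1 11 (N 11) (P 12)) (S4 1 11 (S4 1 12 (S4 1 13 (S4 1 14 (N 55) (S2 4 15 (N 90) (S3 3 16 U (P 16)))) (S2 4 15 (S3 3 16 U (P 16)) (S3 3 16 (N 132) (P 16)))) (P 12)) (P 12))) (S3 2 11 (S4 1 11 (S4 1 12 (S4 1 13 (N 77) (S3 3 17 (S2 5 18 U (P 18)) (S2 5 18 U (P 18)))) (P 12)) (P 12)) (S4 1 11 (S4 1 12 (S4 1 13 (S4 1 14 (S4 1 15 (S3 3 16 U (S4 1 16 (S4 1 17 (N 220) (S2 5 18 U (P 18))) (P 16))) (S3 3 16 (N 112) (P 16))) (S3 3 16 (S2 5 18 U (P 18)) (P 16))) (S3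 3 16 (S2 5 18 (S1 9 20 (N 144) (S4 2 25 (S3 5 27 U (P 27)) (S3 5 27 (S2 8 29 (N 264) (P 29)) (P 27)))) (P 18)) (P 16))) (P 12)) (P 11)))) (S2 3 11 (S3 2 11 (S4 1 11 (S4 1 12 (S1 6 13 (N 132) (S4 1 13 t247 (P 13))) (P 12)) (P 12)) (S4 1 11 (S4 1 12 t272 (P 12)) (P 11))) (S3 2 11 (S4 1 11 (S4 1 12 t279 (P 12)) (P 11)) (P 11)))) (P 12)) (P 9))
def t281 : T := S3 1 6 (S4 1 6 (S1 3 7 (S2 2 7 (S3 1 7 (S4 1 7 (N 7) (S3 1 8 O3 (P 8))) (S4 1 7 (S4 1 8 (S4 1 9 U (S2 3 11 U (S1 5 12 U (S3 2 13 U (S4 2 17 (N 42) (S2 5 18 (N 72) (S1 8 19 (N 168) (S3 3 19 U (P 19))))))))) (P 8)) (P 8))) t151) (S2 2 7 (S3 1 7 (S4 1 7 t164 (S3 1 8 O3 (P 8))) (S4 1 7 (S4 1 8 t180 (P 8)) (P 7))) (S3 1 7 (S4 1 7 t230 (P 7)) (P 7)))) (S1 3 7 (S2 2 7 (S3 1 7 O3 (P 8)) (S3 1 7 O3 (P 7))) (S2 2 7 (S3 1 7 O3 (P 7))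 (P 7)))) (S4 1 6 (S1 3 7 (S2 2 7 (S4 1 7 (S4 1 8 t231 (P 8)) (P 8)) (S4 1 7 (S4 1 8 (S4 1 9 (S2 3 10 t232 (S4 1 10 (S3 2 11 t234 (S4 1 11 (S1 5 12 t237 (S4 1 12 (S2 4 13 (S4 1 13 (S4 1 14 (S4 1 15 (S3 3 16 U (S4 1 16 (N 175) (P 17))) (P 17)) (P 17)) (P 17)) (S4 1 13 (S4 1 14 (S4 1 15 (S2 5 16 (S3 3 16 U (S4 1 16 (S4 1 17 (S4 1 18 U (S1 8 19 U (S3 4 21 U (S1 11 26 U (S3 5 26 U (P 26)))))) (P 17)) (P 17))) (S3 3 16 (S4 1 16 (S4 1 17 (S4 1 18 (S1 8 19 U (S2 6 19 U (S4 1 19 (S4 1 20 (N 240) (S2 7 22 U (P 22))) (P 19)))) (S1 8 19 (S2 6 19 U (S2 7 22 U (P 22))) (S2 6 19 U (P 19)))) (P 17)) (P 17)) (S4 1 16 (S4 1 17 t238 (P 17)) (P 16)))) (P 17)) (P 17)) (P 13))) (P 12))) (P 11))) (P 10))) (P 18)) (P 8)) (P 7))) (S2 2 7 (S4 1 7 (S4 1 8 t280 (P 8)) (P 7)) (P 7))) (P 6))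
def t282 : T := S1 1 3 (S2 1 3 (S3 1 3 (S4 1 3 (S1 1 4 t0 t22) (S1 1 4 (S2 1 4 (S3 1 4 O3 (S1 1 5 (S2 1 5 O2 (S4 2 5 (S1 1 6 O1 (P 6)) O3)) (S2 1 5 O2 (P 5)))) (S3 1 4 O3 (P 4))) (S2 1 4 (S3 1 4 O3 (P 4)) (P 4)))) (S4 1 3 (S1 1 4 (S2 1 4 O2 (S4 1 4 (S1 1 5 O1 (S3 2 5 (S4 1 5 (S4 1 6 (S2 2 7 O2 O1) (P 6)) (P 5)) O2)) (P 4))) (S2 1 4 O2 (P 4))) (P 3))) (S3 1 3 (S4 1 3 t27 (P 3)) (P 3))) (S2 1 3 (S3 1 3 (S4 1 3 (S2 1 4 (S3 1 4 (S4 1 4 t84 (S1 2 5 (S2 1 5 (S3 1 5 O3 (S2 1 6 O2 (P 6))) (S3 1 5 O3 (P 5))) (S2 1 5 (S3 1 5 O3 (P 5)) (P 5)))) (S4 1 4 (S1 2 5 t85 (S2 1 5 O2 (P 5))) (P 4))) (S3 1 4 (S4 1 4 (S1 2 5 (S3 1 5 (S4 1 5 (S3 1 6 (S4 1 6 t89 (S2 2 7 (S3 1 7 O3 (S1 3 8 (S1 4 11 (S2 3 11 (S4 2 11 U O3) (S4 2 11 U O3)) (S2 3 11 (S4 2 11 U O3) (S4 2 11 (S3 2 13 O3 (S4 3 17 (S2 5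 18 U (S1 7 19 U (S3 3 19 O3 (P 19)))) O3)) O3))) (P 8))) (S3 1 7 O3 (P 7)))) (S4 1 6 t105 (P 6))) (S3 1 6 O3 (P 6))) (S4 1 5 (S4 1 6 (S2 2 7 t113 (S4 1 7 t147 (P 7))) (P 6)) (P 5))) (S3 1 5 (S4 1 5 t281 (P 5)) (P 5))) (P 4)) (P 4))) (P 3)) (P 3)) (P 3))
def root4 : T := (S1 1 2 (S2 1 2 (S3 1 2 (S4 1 2 t282 (P 2)) (P 2)) (P 2)) (P 2))

theorem ok2 : chk 3 root2 0 1 1 1 0 1 1 1 0 1 0 1 0 1 0 1 = true := by decide +kernel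

theorem ok3 : chk 13 root3 0 1 1 1 0 1 1 1 0 1 1 1 0 1 0 1 = true := by decide +kernel

theorem ok4 : chk 463 root4 0 1 1 1 0 1 1 1 0 1 1 1 0 1 1 1 = true := by decide +kernel

end Pool.Agent.SG4.Cert
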