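import Mathlib

set_option autoImplicit false

/-!
# The gap below one without boundary: the branch and bound checker

`x₁ ≥ x₂ ≥ x₃ ≥ x₄ ≥ 0` real numbers with `1 - 1/K < ∑ x_i < 1`,
`∑ ⌊k x_i⌋ ≤ k - 2` for `2 ≤ k ≤ K` and `∑ ⌈k x_i⌉ ≥ k + 1` for `1 ≤ k < K`. A tree of boxes with
rational walls, checked by the kernel, shows that there are no such numbers.
-/

namespace Pool.Agent.SG4

/-- A certificate. -/
inductive T : Type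
  /-- the sum of the floors of `k` times the lower ends is at least `k - 1` -/
  | P (k : ℕ) : T
  /-- the sum of the ceilings of `k` times the upper ends is at most `k` -/
  | N (k : ℕ) : T
  /-- the sum of the upper ends is at most `1 - 1/K` -/
  | U : T
  /-- the upper end of `x₁` is less than the lower end of `x₂` -/
  | O1 : T
  /-- the upper end of `x₂` is less than the lower end of `x₃` -/
  | O2 : T
  /-- the upper end of `x₃` is less than the lower end of `x₄` -/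
  | O3 : T
  /-- cut at `x₁ = m / q` -/
  | S1 (m q : ℕ) (s t : T) : T
  /-- cut at `x₂ = m / q` -/
  | S2 (m q : ℕ) (s t : T) : T
  /-- cut at `x₃ = m / q` -/
  | S3 (m q : ℕ) (s t : T) : T
  /-- cut at `x₄ = m / q` -/
  | S4 (m q : ℕ) (s t : T) : T

/-- The checker for the box `∏ [a_i / b_i, c_i / d_i]`. -/
def chk (K : ℕ) : T → ℕ → ℕ → ℕ → ℕ → ℕ → ℕ → ℕ → ℕ → ℕ → ℕ → ℕ → ℕ → ℕ → ℕ → ℕ → ℕ → Bool
  | T.P k, a1, b1, _, _, a2, b2, _, _, a3, b3, _, _, a4, b4, _, _ =>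
      Nat.ble 2 k && (Nat.ble k K &&
        Nat.ble k (k * a1 / b1 + k * a2 / b2 + k * a3 / b3 + k * a4 / b4 + 1))
  | T.N k, _, _, c1, d1, _, _, c2, d2, _, _, c3, d3, _, _, c4, d4 =>
      Nat.ble 1 k && (Nat.ble (k + 1) K &&
        Nat.ble ((k * c1 + (d1 - 1)) / d1 + (k * c2 + (d2 - 1)) / d2 +
          (k * c3 + (d3 - 1)) / d3 + (k * c4 + (d4 - 1)) / d4) k)
  | T.U, _, _, c1, d1, _, _, c2, d2, _, _, c3, d3, _, _, c4, d4 =>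
      Nat.ble (K * (c1 * (d2 * (d3 * d4)) + c2 * (d1 * (d3 * d4)) + c3 * (d1 * (d2 * d4)) +
        c4 * (d1 * (d2 * d3)))) ((K - 1) * (d1 * (d2 * (d3 * d4))))
  | T.O1, _, _, c1, d1, a2, b2, _, _, _, _, _, _, _, _, _, _ => Nat.blt (c1 * b2) (a2 * d1)
  | T.O2, _, _, _, _, _, _, c2, d2, a3, b3, _, _, _, _, _, _ => Nat.blt (c2 * b3) (a3 * d2)
  | T.O3, _, _, _, _, _, _, _, _, _, _, c3, d3, a4, b4, _, _ => Nat.blt (c3 * b4) (a4 * d3)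
  | T.S1 m q s t, a1, b1, c1, d1, a2, b2, c2, d2, a3, b3, c3, d3, a4, b4, c4, d4 =>
      Nat.ble 1 q && (chk K s a1 b1 m q a2 b2 c2 d2 a3 b3 c3 d3 a4 b4 c4 d4 &&
        chk K t m q c1 d1 a2 b2 c2 d2 a3 b3 c3 d3 a4 b4 c4 d4)
  | T.S2 m q s t, a1, b1, c1, d1, a2, b2, c2, d2, a3, b3, c3, d3, a4, b4, c4, d4 =>
      Nat.ble 1 q && (chk K s a1 b1 c1 d1 a2 b2 m q a3 b3 c3 d3 a4 b4 c4 d4 &&
        chk K t a1 b1 c1 d1 m q c2 d2 a3 b3 c3 d3 a4 b4 c4 d4)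
  | T.S3 m q s t, a1, b1, c1, d1, a2, b2, c2, d2, a3, b3, c3, d3, a4, b4, c4, d4 =>
      Nat.ble 1 q && (chk K s a1 b1 c1 d1 a2 b2 c2 d2 a3 b3 m q a4 b4 c4 d4 &&
        chk K t a1 b1 c1 d1 a2 b2 c2 d2 m q c3 d3 a4 b4 c4 d4)
  | T.S4 m q s t, a1, b1, c1, d1, a2, b2, c2, d2, a3, b3, c3, d3, a4, b4, c4, d4 =>
      Nat.ble 1 q && (chk K s a1 b1 c1 d1 a2 b2 c2 d2 a3 b3 c3 d3 a4 b4 m q &&
        chk K t a1 b1 c1 d1 a2 b2 c2 d2 a3 b3 c3 d3 m q c4 d4)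

/-- The conditions. -/
structure Cond (K : ℕ) (x1 x2 x3 x4 : ℝ) : Prop where
  le12 : x2 ≤ x1
  le23 : x3 ≤ x2
  le34 : x4 ≤ x3
  nonneg : 0 ≤ x4
  lower : ((K : ℝ) - 1) < K * (x1 + x2 + x3 + x4)
  floors : ∀ k : ℕ, 2 ≤ k → k ≤ K →
    ⌊(k : ℝ) * x1⌋ + ⌊(k : ℝ) * x2⌋ + ⌊(k : ℝ) * x3⌋ + ⌊(k : ℝ) * x4⌋ + 2 ≤ (k : ℤ)
  ceils : ∀ k : ℕ, 1 ≤ k → k < K →
    (k : ℤ) + 1 ≤ ⌈(k : ℝ) * x1⌉ + ⌈(k : ℝ) * x2⌉ + ⌈(k : ℝ) * x3⌉ + ⌈(k : ℝ) * x4⌉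

/-- `a / b ≤ x ≤ c / d`. -/
def In (a b c d : ℕ) (x : ℝ) : Prop :=
  0 < b ∧ 0 < d ∧ (a : ℝ) ≤ x * b ∧ x * d ≤ c

theorem In.floor {a b c d : ℕ} {x : ℝ} (h : In a b c d x) (k : ℕ) :
    ((k * a / b : ℕ) : ℤ) ≤ ⌊(k : ℝ) * x⌋ := by
  obtain ⟨hb, _, h1, _⟩ := h
  rw [Int.le_floor]
  have hb' : (0 : ℝ) < b := by exact_mod_cast hb
  have h3 : (((k * a / b : ℕ) : ℝ)) ≤ ((k * a : ℕ) : ℝ) / b := Nat.cast_div_le
  have h4 : ((k * a : ℕ) : ℝ) / b ≤ k * x := by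
    rw [div_le_iff₀ hb']
    push_cast
    have : (k : ℝ) * a ≤ k * (x * b) := mul_le_mul_of_nonneg_left h1 (Nat.cast_nonneg k)
    linarith
  rw [Int.cast_natCast]
  exact h3.trans h4

theorem In.ceil {a b c d : ℕ} {x : ℝ} (h : In a b c d x) (k : ℕ) :
    ⌈(k : ℝ) * x⌉ ≤ (((k * c + (d - 1)) / d : ℕ) : ℤ) := by
  obtain ⟨_, hd, _, h2⟩ := h
  rw [Int.ceil_le]
  have hd' : (0 : ℝ) < d := by exact_mod_cast hd
  have h3 : k * c ≤ ((k * c + (d - 1)) / d) * d := by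
    have h5 := Nat.div_add_mod (k * c + (d - 1)) d
    have h6 := Nat.mod_lt (k * c + (d - 1)) hd
    rw [mul_comm] at h5
    omega
  have h4 : ((k : ℝ) * c) ≤ (((k * c + (d - 1)) / d : ℕ) : ℝ) * d := by exact_mod_cast h3
  have h5 : (k : ℝ) * x * d ≤ (((k * c + (d - 1)) / d : ℕ) : ℝ) * d := by
    have : (k : ℝ) * (x * d) ≤ k * c := mul_le_mul_of_nonneg_left h2 (Nat.cast_nonneg k)
    linarith
  have h6 := le_of_mul_le_mul_right h5 hd'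
  exact_mod_cast h6

theorem In.order {a b c d a' b' c' d' : ℕ} {x y : ℝ} (h : In a b c d x) (h' : In a' b' c' d' y)
    (hxy : y ≤ x) : ¬ (c * b' < a' * d) := by
  obtain ⟨_, hd, _, h2⟩ := h
  obtain ⟨hb', _, h3, _⟩ := h'
  intro hlt
  have hlt' : ((c : ℝ) * b') < a' * d := by exact_mod_cast hlt
  have hd' : (0 : ℝ) < d := by exact_mod_cast hd
  have hb'' : (0 : ℝ) < b' := by exact_mod_cast hb'
  have h5 : (a' : ℝ) * d ≤ y * b' * d := mul_le_mul_of_nonneg_right h3 hd'.le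
  have h6 : x * d * b' ≤ c * b' := mul_le_mul_of_nonneg_right h2 hb''.le
  have h7 : y * b' * d ≤ x * d * b' := by
    have : y * (b' * d) ≤ x * (b' * d) :=
      mul_le_mul_of_nonneg_right hxy (mul_pos hb'' hd').le
    linarith
  linarith

theorem In.cut {a b c d : ℕ} {x : ℝ} (h : In a b c d x) (m q : ℕ) (hq : 1 ≤ q) :
    In a b m q x ∨ In m q c d x := by
  obtain ⟨hb, hd, h1, h2⟩ := h
  rcases le_total (x * q) m with h3 | h3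
  · exact Or.inl ⟨hb, hq, h1, h3⟩
  · exact Or.inr ⟨hq, hd, h3, h2⟩

/-- The checker is sound. -/
theorem sound {K : ℕ} (hK : 1 ≤ K) {x1 x2 x3 x4 : ℝ} (hx : Cond K x1 x2 x3 x4) (t : T) :
    ∀ a1 b1 c1 d1 a2 b2 c2 d2 a3 b3 c3 d3 a4 b4 c4 d4 : ℕ,
      In a1 b1 c1 d1 x1 → In a2 b2 c2 d2 x2 → In a3 b3 c3 d3 x3 → In a4 b4 c4 d4 x4 →
      chk K t a1 b1 c1 d1 a2 b2 c2 d2 a3 b3 c3 d3 a4 b4 c4 d4 = true → False := by
  induction t with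
  | P k =>
    intro a1 b1 c1 d1 a2 b2 c2 d2 a3 b3 c3 d3 a4 b4 c4 d4 h1 h2 h3 h4 h
    simp only [chk, Bool.and_eq_true, Nat.ble_eq] at h
    obtain ⟨e1, e2, e3⟩ := h
    have f := hx.floors k e1 e2
    have g1 := h1.floor k
    have g2 := h2.floor k
    have g3 := h3.floor k
    have g4 := h4.floor k
    have e4 : (k : ℤ) ≤ ((k * a1 / b1 : ℕ) : ℤ) + ((k * a2 / b2 : ℕ) : ℤ) +
      ((k * a3 / b3 : ℕ) : ℤ) + ((k * a4 / b4 : ℕ) : ℤ) + 1 := by exact_mod_cast e3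
    linarith
  | N k =>
    intro a1 b1 c1 d1 a2 b2 c2 d2 a3 b3 c3 d3 a4 b4 c4 d4 h1 h2 h3 h4 h
    simp only [chk, Bool.and_eq_true, Nat.ble_eq] at h
    obtain ⟨e1, e2, e3⟩ := h
    have f := hx.ceils k e1 e2
    have g1 := h1.ceil k
    have g2 := h2.ceil k
    have g3 := h3.ceil k
    have g4 := h4.ceil k
    have e4 : (((k * c1 + (d1 - 1)) / d1 : ℕ) : ℤ) + (((k * c2 + (d2 - 1)) / d2 : ℕ) : ℤ) +
      (((k * c3 + (d3 - 1)) / d3 : ℕ) : ℤ) + (((k * c4 + (d4 - 1)) / d4 : ℕ) : ℤ) ≤ (k : ℤ) := by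
      exact_mod_cast e3
    linarith
  | U =>
    intro a1 b1 c1 d1 a2 b2 c2 d2 a3 b3 c3 d3 a4 b4 c4 d4 h1 h2 h3 h4 h
    simp only [chk, Nat.ble_eq] at h
    obtain ⟨_, p1, _, u1⟩ := h1
    obtain ⟨_, p2, _, u2⟩ := h2
    obtain ⟨_, p3, _, u3⟩ := h3
    obtain ⟨_, p4, _, u4⟩ := h4
    have q1 : (0 : ℝ) < d1 := by exact_mod_cast p1
    have q2 : (0 : ℝ) < d2 := by exact_mod_cast p2
    have q3 : (0 : ℝ) < d3 := by exact_mod_cast p3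
    have q4 : (0 : ℝ) < d4 := by exact_mod_cast p4
    have l := hx.lower
    have h' : (K : ℝ) * (c1 * (d2 * (d3 * d4)) + c2 * (d1 * (d3 * d4)) + c3 * (d1 * (d2 * d4)) +
        c4 * (d1 * (d2 * d3))) ≤ ((K : ℝ) - 1) * (d1 * (d2 * (d3 * d4))) := by
      have h'' : ((K * (c1 * (d2 * (d3 * d4)) + c2 * (d1 * (d3 * d4)) + c3 * (d1 * (d2 * d4)) +
        c4 * (d1 * (d2 * d3))) : ℕ) : ℝ) ≤ (((K - 1) * (d1 * (d2 * (d3 * d4))) : ℕ) : ℝ) := by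
        exact_mod_cast h
      rw [Nat.cast_mul, Nat.cast_mul, Nat.cast_sub hK] at h''
      push_cast at h''
      exact h''
    have D : (0 : ℝ) < d1 * (d2 * (d3 * d4)) := by positivity
    have hK0 : (0 : ℝ) ≤ K := Nat.cast_nonneg K
    have v1 : x1 * (d1 * (d2 * (d3 * d4))) ≤ c1 * (d2 * (d3 * d4)) := by
      have := mul_le_mul_of_nonneg_right u1 (show (0 : ℝ) ≤ d2 * (d3 * d4) by positivity)
      linarith
    have v2 : x2 * (d1 * (d2 * (d3 * d4))) ≤ c2 * (d1 * (d3 * d4)) := by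
      have := mul_le_mul_of_nonneg_right u2 (show (0 : ℝ) ≤ d1 * (d3 * d4) by positivity)
      linarith
    have v3 : x3 * (d1 * (d2 * (d3 * d4))) ≤ c3 * (d1 * (d2 * d4)) := by
      have := mul_le_mul_of_nonneg_right u3 (show (0 : ℝ) ≤ d1 * (d2 * d4) by positivity)
      linarith
    have v4 : x4 * (d1 * (d2 * (d3 * d4))) ≤ c4 * (d1 * (d2 * d3)) := by
      have := mul_le_mul_of_nonneg_right u4 (show (0 : ℝ) ≤ d1 * (d2 * d3) by positivity)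
      linarith
    have v : K * ((x1 + x2 + x3 + x4) * (d1 * (d2 * (d3 * d4)))) ≤
        K * (c1 * (d2 * (d3 * d4)) + c2 * (d1 * (d3 * d4)) + c3 * (d1 * (d2 * d4)) +
        c4 * (d1 * (d2 * d3))) := by
      refine mul_le_mul_of_nonneg_left ?_ hK0
      linarith
    have w := mul_lt_mul_of_pos_right l D
    linarith
  | O1 =>
    intro a1 b1 c1 d1 a2 b2 c2 d2 a3 b3 c3 d3 a4 b4 c4 d4 h1 h2 h3 h4 h
    simp only [chk, Nat.blt_eq] at h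
    exact h1.order h2 hx.le12 h
  | O2 =>
    intro a1 b1 c1 d1 a2 b2 c2 d2 a3 b3 c3 d3 a4 b4 c4 d4 h1 h2 h3 h4 h
    simp only [chk, Nat.blt_eq] at h
    exact h2.order h3 hx.le23 h
  | O3 =>
    intro a1 b1 c1 d1 a2 b2 c2 d2 a3 b3 c3 d3 a4 b4 c4 d4 h1 h2 h3 h4 h
    simp only [chk, Nat.blt_eq] at h
    exact h3.order h4 hx.le34 h
  | S1 m q s t hs ht =>
    intro a1 b1 c1 d1 a2 b2 c2 d2 a3 b3 c3 d3 a4 b4 c4 d4 h1 h2 h3 h4 h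
    simp only [chk, Bool.and_eq_true, Nat.ble_eq] at h
    obtain ⟨e1, e2, e3⟩ := h
    rcases h1.cut m q e1 with g | g
    · exact hs _ _ _ _ _ _ _ _ _ _ _ _ _ _ _ _ g h2 h3 h4 e2
    · exact ht _ _ _ _ _ _ _ _ _ _ _ _ _ _ _ _ g h2 h3 h4 e3
  | S2 m q s t hs ht =>
    intro a1 b1 c1 d1 a2 b2 c2 d2 a3 b3 c3 d3 a4 b4 c4 d4 h1 h2 h3 h4 h
    simp only [chk, Bool.and_eq_true, Nat.ble_eq] at h
    obtain ⟨e1, e2, e3⟩ := h
    rcases h2.cut m q e1 with g | g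
    · exact hs _ _ _ _ _ _ _ _ _ _ _ _ _ _ _ _ h1 g h3 h4 e2
    · exact ht _ _ _ _ _ _ _ _ _ _ _ _ _ _ _ _ h1 g h3 h4 e3
  | S3 m q s t hs ht =>
    intro a1 b1 c1 d1 a2 b2 c2 d2 a3 b3 c3 d3 a4 b4 c4 d4 h1 h2 h3 h4 h
    simp only [chk, Bool.and_eq_true, Nat.ble_eq] at h
    obtain ⟨e1, e2, e3⟩ := h
    rcases h3.cut m q e1 with g | g
    · exact hs _ _ _ _ _ _ _ _ _ _ _ _ _ _ _ _ h1 h2 g h4 e2
    · exact ht _ _ _ _ _ _ _ _ _ _ _ _ _ _ _ _ h1 h2 g h4 e3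
  | S4 m q s t hs ht =>
    intro a1 b1 c1 d1 a2 b2 c2 d2 a3 b3 c3 d3 a4 b4 c4 d4 h1 h2 h3 h4 h
    simp only [chk, Bool.and_eq_true, Nat.ble_eq] at h
    obtain ⟨e1, e2, e3⟩ := h
    rcases h4.cut m q e1 with g | g
    · exact hs _ _ _ _ _ _ _ _ _ _ _ _ _ _ _ _ h1 h2 h3 g e2
    · exact ht _ _ _ _ _ _ _ _ _ _ _ _ _ _ _ _ h1 h2 h3 g e3

end Pool.Agent.SG4
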